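import Pool.Agent.X175.SH.Mazur

/-!
# Gluing boxes along good levels
-/

set_option autoImplicit false

open Set Filter Topology Metric Function
open scoped Manifold ContDiff

noncomputable section

namespace Pool.Agent.X175.SH

open Pool.Agent.Y522

/-- an open box in `ℝ^n` -/
def obox {n : ℕ} (a b : Fin n → ℝ) : Set (E n) := {y | ∀ i, a i < y i ∧ y i < b i}

theorem isOpen_obox {n : ℕ} (a b : Fin n → ℝ) : IsOpen (obox a b) := by
  have h : obox a b = ⋂ i, {y : E n | a i < y i ∧ y i < b i} := by
    ext y
    simp [obox]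
  rw [h]
  refine isOpen_iInter_of_finite fun i => ?_
  have hc : Continuous fun y : E n => y i := by fun_prop
  exact (isOpen_lt continuous_const hc).inter (isOpen_lt hc continuous_const)

section defs

variable {m : ℕ} {X : Type} [TopologicalSpace X] [ChartedSpace (E (m + 1)) X]

/-- The level `H_i = c` is good: it is the zero set of a smooth function with the right signs, and
the part of it in any open box is parametrized by `ℝ^m`. -/
def Good (H : X → E (m + 1)) (i : Fin (m + 1)) (c : ℝ) : Prop :=
  ∃ φ : X → ℝ, ContMDiff (𝓡 (m + 1)) 𝓘(ℝ, ℝ) ∞ φ ∧ (∀ x, φ x ≤ 0 ↔ H x i ≤ c) ∧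
    (∀ x, 0 ≤ φ x ↔ c ≤ H x i) ∧
    ∀ a b : Fin (m + 1) → ℝ, (∀ j, a j < b j) → a i < c → c < b i →
      ∃ f : E m → X, Injective f ∧ ContMDiff (𝓡 m) (𝓡 (m + 1)) ∞ f ∧
        (∀ x, Injective (mfderiv (𝓡 m) (𝓡 (m + 1)) f x)) ∧
        (∀ x, mfderiv (𝓡 (m + 1)) 𝓘(ℝ, ℝ) φ (f x) ≠ 0) ∧
        ∀ x, x ∈ range f ↔ (H x i = c ∧ H x ∈ obox a b)

end defs

variable {m : ℕ} {X : Type} [TopologicalSpace X] [T2Space X] [ChartedSpace (E (m + 1)) X]
    [IsManifold (𝓡 (m + 1)) ∞ X]

theorem Emb.mono {n : ℕ} {Y : Type} [TopologicalSpace Y] [ChartedSpace (E n) Y] {K K' : Set Y}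
    (h : Emb n K) (hK : K' ⊆ K) : Emb n K' := by
  obtain ⟨U, k, hU, hKU, hk, hkd⟩ := h
  exact ⟨U, k, hU, hK.trans hKU, hk, hkd⟩

/-- gluing two parts of a box -/
theorem glue_box (H : X → E (m + 1)) (hH : Continuous H) (i : Fin (m + 1)) (c : ℝ)
    (hg : Good H i c) (a b : Fin (m + 1) → ℝ) (hab : ∀ j, a j < b j) (ha : a i < c) (hb : c < b i)
    (hl : ∀ K : Set X, IsCompact K → (∀ x ∈ K, H x ∈ obox a b ∧ H x i ≤ c) → Emb (m + 1) K)
    (hr : ∀ K : Set X, IsCompact K → (∀ x ∈ K, H x ∈ obox a b ∧ c ≤ H x i) → Emb (m + 1) K)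
    (K : Set X) (hK : IsCompact K) (hKb : ∀ x ∈ K, H x ∈ obox a b) : Emb (m + 1) K := by
  obtain ⟨φ, hφ, hφ1, hφ2, hf⟩ := hg
  obtain ⟨f, hfi, hfs, hfd, hfφ, hfr⟩ := hf a b hab ha hb
  have hfr' : ∀ x, H (f x) i = c ∧ H (f x) ∈ obox a b := fun x => (hfr _).1 (mem_range_self x)
  have h0 : ∀ x, H x i = c → φ x = 0 := fun x hx =>
    le_antisymm ((hφ1 x).2 hx.le) ((hφ2 x).2 hx.ge)
  refine hSum m X (H ⁻¹' obox a b) K φ f hφ hK hKb hfi hfs hfd (fun x => h0 _ (hfr' x).1) hfφ
    (fun x => (hfr' x).2) ?_ ?_ ?_
  · intro x hx hx0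
    refine (hfr x).2 ⟨?_, hKb x hx⟩
    exact le_antisymm ((hφ1 x).1 hx0.le) ((hφ2 x).1 hx0.ge)
  · intro K' hK' hK'1 hK'2
    exact hl K' hK' fun x hx => ⟨hK'1 hx, (hφ1 x).1 (hK'2 x hx)⟩
  · intro K' hK' hK'1 hK'2
    exact hr K' hK' fun x hx => ⟨hK'1 hx, (hφ2 x).1 (hK'2 x hx)⟩

/-- boxes of small diameter are in charts -/
theorem exists_lebesgue (H : X ≃ₜ E (m + 1)) (M : ℝ) : ∃ l : ℝ, 0 < l ∧
    ∀ a b : Fin (m + 1) → ℝ, (∀ j, -M ≤ a j ∧ a j < b j ∧ b j ≤ M ∧ b j - a j < l) →
      ∀ K : Set X, IsCompact K → (∀ x ∈ K, H x ∈ obox a b) → Emb (m + 1) K := by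
  set Q : Set (E (m + 1)) := closedBall 0 ((m + 1 : ℝ) * |M|) with hQ
  have hQc : IsCompact Q := isCompact_closedBall _ _
  obtain ⟨δ, hδ, hδQ⟩ := lebesgue_number_lemma_of_metric (s := Q)
    (c := fun x : X => H.symm ⁻¹' (chartAt (E (m + 1)) x).source) hQc
    (fun x => (chartAt (E (m + 1)) x).open_source.preimage H.symm.continuous)
    (fun y _ => mem_iUnion.2 ⟨H.symm y, mem_chart_source _ _⟩)
  have hm0 : (0 : ℝ) < m + 1 := by positivity
  refine ⟨δ / (m + 1), by positivity, fun a b hab K hK hKb => ?_⟩
  rcases K.eq_empty_or_nonempty with rfl | ⟨x₀, hx₀⟩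
  · exact ⟨∅, fun _ => 0, isOpen_empty, Subset.rfl, injOn_empty _, fun x hx => hx.elim⟩
  have hnorm : ∀ (z : E (m + 1)) (B : ℝ), 0 ≤ B → (∀ j, |z j| ≤ B) → ‖z‖ ≤ (m + 1 : ℝ) * B := by
    intro z B hB hz
    rw [EuclideanSpace.norm_eq]
    refine Real.sqrt_le_iff.2 ⟨by positivity, ?_⟩
    calc ∑ i, ‖z i‖ ^ 2 ≤ ∑ _i : Fin (m + 1), B ^ 2 := by
          refine Finset.sum_le_sum fun i _ => ?_
          rw [Real.norm_eq_abs]
          exact pow_le_pow_left₀ (abs_nonneg _) (hz i) 2
      _ = (m + 1 : ℝ) * B ^ 2 := by simp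
      _ ≤ ((m + 1 : ℝ) * B) ^ 2 := by
          have h1 : (1 : ℝ) ≤ m + 1 := by linarith [Nat.cast_nonneg (α := ℝ) m]
          have h2 : 0 ≤ B ^ 2 := sq_nonneg B
          nlinarith [mul_nonneg (by linarith : (0 : ℝ) ≤ (m : ℝ) + 1 - 1) h2,
            mul_nonneg hm0.le h2, mul_nonneg hm0.le (mul_nonneg
              (by linarith : (0 : ℝ) ≤ (m : ℝ) + 1 - 1) h2)]
  have hx₀Q : H x₀ ∈ Q := by
    rw [hQ, mem_closedBall_zero_iff]
    refine hnorm _ _ (abs_nonneg _) fun j => ?_
    have h1 := hKb x₀ hx₀ j
    have h2 := hab j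
    have h3 := le_abs_self M
    rw [abs_le]
    exact ⟨by linarith, by linarith⟩
  obtain ⟨x, hx⟩ := hδQ _ hx₀Q
  refine ⟨(chartAt (E (m + 1)) x).source, chartAt (E (m + 1)) x,
    (chartAt (E (m + 1)) x).open_source, ?_, (chartAt (E (m + 1)) x).injOn, ?_⟩
  · intro y hy
    have h1 : H y ∈ ball (H x₀) δ := by
      rw [mem_ball, dist_eq_norm]
      -- a strictly smaller side
      obtain ⟨B, hB0, hB, hBl⟩ : ∃ B : ℝ, 0 ≤ B ∧ (∀ j, b j - a j ≤ B) ∧ B < δ / (m + 1) := by
        refine ⟨Finset.univ.sup' Finset.univ_nonempty fun j => b j - a j, ?_, ?_, ?_⟩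
        · refine le_trans ?_ (Finset.le_sup' (fun j => b j - a j) (Finset.mem_univ 0))
          linarith [(hab 0).2.1]
        · intro j
          exact Finset.le_sup' (fun j => b j - a j) (Finset.mem_univ j)
        · rw [Finset.sup'_lt_iff]
          exact fun j _ => (hab j).2.2.2
      refine (hnorm _ B hB0 fun j => ?_).trans_lt ?_
      · have h1 := hKb x₀ hx₀ j
        have h2 := hKb y hy j
        have h3 := hB j
        simp only [PiLp.sub_apply]
        rw [abs_le]
        exact ⟨by linarith, by linarith⟩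
      · rw [lt_div_iff₀ hm0] at hBl
        linarith
    have h2 := hx h1
    simpa using h2
  · intro y hy
    refine ⟨{ toPartialEquiv := (chartAt (E (m + 1)) x).toPartialEquiv
              open_source := (chartAt (E (m + 1)) x).open_source
              open_target := (chartAt (E (m + 1)) x).open_target
              contMDiffOn_toFun := contMDiffOn_chart
              contMDiffOn_invFun := contMDiffOn_chart_symm }, hy, fun _ _ => rfl⟩

/-- **All compact sets embed** when the good levels are dense in each coordinate. -/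
theorem emb_all (H : X ≃ₜ E (m + 1)) (hg : ∀ i, Dense {c | Good (H : X → E (m + 1)) i c})
    (K : Set X) (hK : IsCompact K) : Emb (m + 1) K := by
  -- a large box
  obtain ⟨M, hM0, hM⟩ : ∃ M : ℝ, 0 < M ∧ ∀ x ∈ K, ∀ i, |H x i| < M := by
    obtain ⟨M, hM⟩ := (hK.image H.continuous).isBounded.subset_closedBall (0 : E (m + 1))
    refine ⟨|M| + 1, by positivity, fun x hx i => ?_⟩
    have h1 := hM ⟨x, hx, rfl⟩
    rw [mem_closedBall_zero_iff] at h1
    have h2 := le_abs_self M
    have h3 := EuclideanSpace.norm_eq (H x)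
    have h4 : |H x i| ≤ ‖H x‖ := by
      have := PiLp.norm_apply_le (H x) i
      simpa using this
    linarith
  obtain ⟨l, hl, hbase⟩ := exists_lebesgue H M
  set ℓ := l / 2 with hℓ
  have hℓ0 : 0 < ℓ := by positivity
  have hT : ∀ k : ℕ, k ≤ m + 1 → ∀ a b : Fin (m + 1) → ℝ,
      (∀ j, -M ≤ a j ∧ a j < b j ∧ b j ≤ M) → (∀ j : Fin (m + 1), k ≤ j.val → b j - a j < l) →
      ∀ K : Set X, IsCompact K → (∀ x ∈ K, H x ∈ obox a b) → Emb (m + 1) K := by
    intro k
    induction k with
    | zero =>
      intro _ a b hab hlen K hK hKb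
      exact hbase a b (fun j => ⟨(hab j).1, (hab j).2.1, (hab j).2.2, hlen j (Nat.zero_le _)⟩)
        K hK hKb
    | succ k ih =>
      intro hk
      set i : Fin (m + 1) := ⟨k, hk⟩ with hi
      have hQ : ∀ N : ℕ, ∀ a b : Fin (m + 1) → ℝ,
          (∀ j, -M ≤ a j ∧ a j < b j ∧ b j ≤ M) →
          (∀ j : Fin (m + 1), k + 1 ≤ j.val → b j - a j < l) → b i - a i < (N + 2) * ℓ →
          ∀ K : Set X, IsCompact K → (∀ x ∈ K, H x ∈ obox a b) → Emb (m + 1) K := by
        intro N
        induction N with
        | zero =>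
          intro a b hab hlen hi' K hK hKb
          refine ih (by omega) a b hab (fun j hj => ?_) K hK hKb
          rcases hj.eq_or_lt with h | h
          · have h1 : j = i := Fin.ext h.symm
            rw [h1]
            simp only [CharP.cast_eq_zero, zero_add] at hi'
            linarith
          · exact hlen j h
        | succ N ihN =>
          intro a b hab hlen hi' K hK hKb
          by_cases hsmall : b i - a i < (N + 2) * ℓ
          · exact ihN a b hab hlen hsmall K hK hKb
          push Not at hsmall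
          have hN : (0 : ℝ) ≤ N := Nat.cast_nonneg N
          have h2ℓ : a i ≤ b i - 2 * ℓ := by nlinarith
          -- choose a good level
          obtain ⟨c, hc, hcg⟩ := (hg i).exists_between (show b i - 2 * ℓ < b i - ℓ by linarith)
          obtain ⟨hc1, hc2⟩ := hcg
          push_cast at hi'
          refine glue_box (H : X → E (m + 1)) H.continuous i c hc a b (fun j => (hab j).2.1)
            (by linarith) (by linarith) ?_ ?_ K hK hKb
          · intro K' hK' hK'b
            refine ihN a (update b i (b i - ℓ)) ?_ ?_ ?_ K' hK' ?_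
            · intro j
              by_cases hj : j = i
              · subst hj
                rw [update_self]
                exact ⟨(hab _).1, by linarith, by linarith [(hab i).2.2]⟩
              · rw [update_of_ne hj]
                exact hab j
            · intro j hj
              have hji : j ≠ i := by
                rintro rfl
                simp [hi] at hj
              rw [update_of_ne hji]
              exact hlen j hj
            · rw [update_self]
              linarith
            · intro x hx j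
              obtain ⟨h1, h2⟩ := hK'b x hx
              by_cases hj : j = i
              · subst hj
                rw [update_self]
                exact ⟨(h1 _).1, by linarith⟩
              · rw [update_of_ne hj]
                exact h1 j
          · intro K' hK' hK'b
            refine ih (by omega) (update a i ((c + (b i - 2 * ℓ)) / 2)) b ?_ ?_ K' hK' ?_
            · intro j
              by_cases hj : j = i
              · subst hj
                rw [update_self]
                exact ⟨by linarith [(hab i).1], by linarith, (hab _).2.2⟩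
              · rw [update_of_ne hj]
                exact hab j
            · intro j hj
              by_cases hji : j = i
              · subst hji
                rw [update_self]
                linarith
              · rw [update_of_ne hji]
                refine hlen j ?_
                rcases hj.eq_or_lt with h | h
                · exact absurd (Fin.ext h.symm) hji
                · exact h
            · intro x hx j
              obtain ⟨h1, h2⟩ := hK'b x hx
              by_cases hj : j = i
              · subst hj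
                rw [update_self]
                exact ⟨by linarith, (h1 _).2⟩
              · rw [update_of_ne hj]
                exact h1 j
      intro a b hab hlen K hK hKb
      obtain ⟨N, hN⟩ := exists_nat_gt ((b i - a i) / ℓ)
      rw [div_lt_iff₀ hℓ0] at hN
      exact hQ N a b hab hlen (by nlinarith) K hK hKb
  refine hT (m + 1) le_rfl (fun _ => -M) (fun _ => M) (fun j => ⟨le_rfl, by linarith, le_rfl⟩)
    (fun j hj => absurd j.2 (by omega)) K hK fun x hx i => ?_
  exact abs_lt.1 (hM x hx i)

end Pool.Agent.X175.SH
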