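import Pool.Agent.Y522.Tools

/-!
# Collars of compact pieces of hypersurfaces
-/

set_option autoImplicit false

open Set Filter Topology Metric Function
open scoped Manifold ContDiff NNReal

noncomputable section

namespace Pool.Agent.X175.SH

open Pool.Agent.Y522

/-- tube lemma for boxes -/
theorem exists_box {m : ℕ} {R : ℝ} {O : Set (E (m + 1))}
    (h : O ∈ 𝓝ˢ ((fun y : E m => cn 0 y) '' closedBall 0 R)) :
    ∃ η : ℝ, 0 < η ∧ box m R η ⊆ O := by
  obtain ⟨U, hU, hsU, hUO⟩ := mem_nhdsSet_iff_exists.1 h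
  have hK : IsCompact (closedBall (0 : E m) R) := isCompact_closedBall _ _
  have hc : IsCompact ({(0 : ℝ)} : Set ℝ) := isCompact_singleton
  have hpre : IsOpen ((fun p : ℝ × E m => cn p.1 p.2) ⁻¹' U) := hU.preimage continuous_cn
  obtain ⟨u, v, hu, hv, h0u, hKv, huv⟩ := generalized_tube_lemma hc hK hpre (by
    rintro ⟨t, y⟩ ⟨ht, hy⟩
    rw [mem_singleton_iff] at ht
    subst ht
    exact hsU ⟨y, hy, rfl⟩)
  obtain ⟨η, hη, hηu⟩ := Metric.isOpen_iff.1 hu 0 (h0u rfl)
  refine ⟨η / 2, by positivity, fun z hz => hUO ?_⟩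
  have h1 : (z 0, tl z) ∈ u ×ˢ v := by
    refine ⟨hηu ?_, hKv (by simpa using hz.1)⟩
    rw [mem_ball, dist_zero_right, Real.norm_eq_abs]
    linarith [hz.2]
  have h2 := huv h1
  simpa using h2

theorem stCollar : StCollar := by
  intro m g ψ N R hR hN hψ hg hgi hgd hgN hψg hψd
  -- the gradient
  set v : E (m + 1) → E (m + 1) := fun z => gradient ψ z with hv
  have hvs : ∀ z ∈ N, ContDiffAt ℝ ∞ v z := by
    intro z hz
    have h1 : ContDiffAt ℝ ∞ (fderiv ℝ ψ) z := (hψ z hz).fderiv_right (m := ∞) (by simp)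
    exact ((InnerProductSpace.toDual ℝ (E (m + 1))).symm.contDiff.contDiffAt).comp z h1
  set F : E (m + 1) → E (m + 1) := fun z => g (tl z) + z 0 • v (g (tl z)) with hF
  have hF0 : ∀ x : E m, F (cn 0 x) = g x := by
    intro x
    simp [hF]
  -- smoothness
  have hFs : ∀ x : E m, ‖x‖ ≤ R → ∀ᶠ z in 𝓝 (cn 0 x : E (m + 1)), ContDiffAt ℝ ∞ F z := by
    intro x hx
    have h1 : Tendsto (fun z : E (m + 1) => tl z) (𝓝 (cn 0 x)) (𝓝 x) := by
      have := (tl (m := m)).continuous.tendsto (cn 0 x)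
      rwa [tl_cn] at this
    have h2 : ∀ᶠ y in 𝓝 x, g y ∈ N := (hg x hx).self_of_nhds.continuousAt.eventually_mem
      (hN.mem_nhds (hgN x hx))
    filter_upwards [h1.eventually (hg x hx), h1.eventually h2] with z hz hz'
    have h3 : ContDiffAt ℝ ∞ (fun z : E (m + 1) => g (tl z)) z :=
      ContDiffAt.comp z hz (tl (m := m)).contDiff.contDiffAt
    have h4 : ContDiffAt ℝ ∞ (fun z : E (m + 1) => v (g (tl z))) z :=
      ContDiffAt.comp (g := v) z (hvs _ hz') h3
    have h5 : ContDiffAt ℝ ∞ (fun z : E (m + 1) => z 0) z := by fun_prop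
    exact h3.add (h5.smul h4)
  -- derivative at the hypersurface
  have hFd : ∀ x : E m, ‖x‖ ≤ R → HasFDerivAt F
      ((fderiv ℝ g x).comp tl + (EuclideanSpace.proj (0 : Fin (m + 1)) :
        E (m + 1) →L[ℝ] ℝ).smulRight (v (g x))) (cn 0 x) := by
    intro x hx
    have hgx : HasFDerivAt g (fderiv ℝ g x) (tl (cn 0 x : E (m + 1))) := by
      rw [tl_cn]
      exact ((hg x hx).self_of_nhds.differentiableAt (by simp)).hasFDerivAt
    have h3 : HasFDerivAt (fun z : E (m + 1) => g (tl z)) ((fderiv ℝ g x).comp tl) (cn 0 x) :=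
      hgx.comp _ tl.hasFDerivAt
    have h4 : DifferentiableAt ℝ (fun z : E (m + 1) => v (g (tl z))) (cn 0 x) := by
      refine DifferentiableAt.comp (g := v) _ ?_ h3.differentiableAt
      rw [tl_cn]
      exact (hvs _ (hgN x hx)).differentiableAt (by simp)
    have h5 : HasFDerivAt (fun z : E (m + 1) => z 0)
        (EuclideanSpace.proj (0 : Fin (m + 1)) : E (m + 1) →L[ℝ] ℝ) (cn 0 x) :=
      (EuclideanSpace.proj (0 : Fin (m + 1)) : E (m + 1) →L[ℝ] ℝ).hasFDerivAt
    have h6 := h3.add (h5.smul h4.hasFDerivAt)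
    refine h6.congr_fderiv ?_
    ext1 w
    simp
  have hψv : ∀ z, fderiv ℝ ψ z (v z) = ‖v z‖ ^ 2 := by
    intro z
    rw [hv]
    have h1 : fderiv ℝ ψ z = InnerProductSpace.toDual ℝ (E (m + 1)) (gradient ψ z) := by
      simp [gradient]
    conv_lhs => rw [h1]
    rw [InnerProductSpace.toDual_apply_apply, real_inner_self_eq_norm_sq]
  have hvne : ∀ x : E m, ‖x‖ ≤ R → v (g x) ≠ 0 := by
    intro x hx h0
    apply hψd x hx
    have h1 : fderiv ℝ ψ (g x) = InnerProductSpace.toDual ℝ (E (m + 1)) (gradient ψ (g x)) := by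
      simp [gradient]
    rw [h1]
    have h2 : gradient ψ (g x) = 0 := h0
    rw [h2, map_zero]
  have hψg' : ∀ x : E m, ‖x‖ ≤ R → ∀ w, fderiv ℝ ψ (g x) (fderiv ℝ g x w) = 0 := by
    intro x hx w
    have h1 : HasFDerivAt (fun y => ψ (g y)) ((fderiv ℝ ψ (g x)).comp (fderiv ℝ g x)) x :=
      ((hψ _ (hgN x hx)).differentiableAt (by simp)).hasFDerivAt.comp x
        ((hg x hx).self_of_nhds.differentiableAt (by simp)).hasFDerivAt
    have h2 : HasFDerivAt (fun y => ψ (g y)) (0 : E m →L[ℝ] ℝ) x :=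
      (hasFDerivAt_const (0 : ℝ) x).congr_of_eventuallyEq (hψg x hx)
    have h3 := h1.unique h2
    have h4 := congrArg (fun L : E m →L[ℝ] ℝ => L w) h3
    simpa using h4
  have hLD : ∀ x : E m, ‖x‖ ≤ R → LD (m + 1) F (cn 0 x) := by
    intro x hx
    set L := (fderiv ℝ g x).comp tl + (EuclideanSpace.proj (0 : Fin (m + 1)) :
        E (m + 1) →L[ℝ] ℝ).smulRight (v (g x)) with hL
    have hinj : Injective L := by
      intro a b hab
      have h1 : L (a - b) = 0 := by rw [map_sub, hab, sub_self]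
      set w := a - b with hw
      have h2 : fderiv ℝ g x (tl w) + w 0 • v (g x) = 0 := by simpa [hL] using h1
      have h3 : w 0 = 0 := by
        have h4 := congrArg (fderiv ℝ ψ (g x)) h2
        rw [map_add, map_smul, hψg' x hx, hψv, map_zero, zero_add, smul_eq_mul] at h4
        have h5 : ‖v (g x)‖ ^ 2 ≠ 0 := pow_ne_zero _ (norm_ne_zero_iff.2 (hvne x hx))
        exact (mul_eq_zero.1 h4).resolve_right h5
      rw [h3, zero_smul, add_zero] at h2
      have h6 : tl w = 0 := hgd x hx (by rw [h2, map_zero])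
      have h7 : w = 0 := by
        rw [← cn_tl w, h3, h6]
        ext i
        refine Fin.cases ?_ (fun i => ?_) i <;> simp
      exact sub_eq_zero.1 h7
    have hsurj : Surjective L :=
      (LinearMap.injective_iff_surjective (f := (L : E (m + 1) →ₗ[ℝ] E (m + 1)))).1 hinj
    exact LD_of_contDiffAt (hFs x hx) (ContinuousLinearEquiv.ofBijective L
      (LinearMap.ker_eq_bot.2 hinj) (LinearMap.range_eq_top.2 hsurj)) (hFd x hx)
  -- derivative of `ψ ∘ F` in the direction `e0`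
  set D : E (m + 1) → ℝ := fun z => fderiv ℝ (fun w => ψ (F w)) z e0 with hD
  have hFN : ∀ x : E m, ‖x‖ ≤ R → ∀ᶠ z in 𝓝 (cn 0 x : E (m + 1)), F z ∈ N := by
    intro x hx
    refine (hFs x hx).self_of_nhds.continuousAt.eventually_mem (hN.mem_nhds ?_)
    rw [hF0]
    exact hgN x hx
  have hψF : ∀ x : E m, ‖x‖ ≤ R → ∀ᶠ z in 𝓝 (cn 0 x : E (m + 1)),
      ContDiffAt ℝ ∞ (fun w => ψ (F w)) z := by
    intro x hx
    filter_upwards [hFs x hx, hFN x hx] with z hz hz'
    exact ContDiffAt.comp (g := ψ) z (hψ _ hz') hz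
  have hDpos : ∀ x : E m, ‖x‖ ≤ R → ∀ᶠ z in 𝓝 (cn 0 x : E (m + 1)), 0 < D z := by
    intro x hx
    have h1 : ContinuousAt D (cn 0 x) := by
      have h2 : ContinuousAt (fderiv ℝ (fun w => ψ (F w))) (cn 0 x) :=
        ((hψF x hx).self_of_nhds.fderiv_right (m := 0) (by simp)).continuousAt
      exact h2.clm_apply continuousAt_const
    refine h1.eventually (lt_mem_nhds ?_)
    have h3 : HasFDerivAt (fun w => ψ (F w)) ((fderiv ℝ ψ (g x)).comp
        ((fderiv ℝ g x).comp tl + (EuclideanSpace.proj (0 : Fin (m + 1)) :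
        E (m + 1) →L[ℝ] ℝ).smulRight (v (g x)))) (cn 0 x) := by
      have h4 : HasFDerivAt ψ (fderiv ℝ ψ (g x)) (F (cn 0 x)) := by
        rw [hF0]
        exact ((hψ _ (hgN x hx)).differentiableAt (by simp)).hasFDerivAt
      exact h4.comp _ (hFd x hx)
    have h5 : D (cn 0 x) = ‖v (g x)‖ ^ 2 := by
      rw [hD]
      simp only
      rw [h3.fderiv]
      have h6 : tl (e0 : E (m + 1)) = 0 := by simp [e0]
      have h7 : (e0 : E (m + 1)) 0 = 1 := rfl
      simp [h6, h7, hψv]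
    rw [h5]
    have := norm_pos_iff.2 (hvne x hx)
    positivity
  -- injectivity near the hypersurface
  have hcomp : IsCompact ((fun y : E m => (cn 0 y : E (m + 1))) '' closedBall 0 R) := by
    refine (isCompact_closedBall _ _).image ?_
    exact (inc (m := m)).continuous
  have hinj0 : InjOn F ((fun y : E m => (cn 0 y : E (m + 1))) '' closedBall 0 R) := by
    rintro _ ⟨x, hx, rfl⟩ _ ⟨y, hy, rfl⟩ hxy
    simp only [hF0] at hxy
    rw [hgi hx hy hxy]
  obtain ⟨O₁, hO₁, hO₁i⟩ := hinj0.exists_mem_nhdsSet hcomp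
    (by
      rintro _ ⟨x, hx, rfl⟩
      exact (hLD x (by simpa using hx)).continuousAt)
    (by
      rintro _ ⟨x, hx, rfl⟩
      exact (hLD x (by simpa using hx)).eventually_injOn)
  have hO₂ : {z | LD (m + 1) F z ∧ F z ∈ N ∧ ContDiffAt ℝ ∞ (fun w => ψ (F w)) z ∧ 0 < D z} ∈
      𝓝ˢ ((fun y : E m => (cn 0 y : E (m + 1))) '' closedBall 0 R) := by
    refine mem_nhdsSet_iff_forall.2 ?_
    rintro _ ⟨x, hx, rfl⟩
    have hx' : ‖x‖ ≤ R := by simpa using hx
    filter_upwards [(hLD x hx').eventually, hFN x hx', hψF x hx', hDpos x hx'] with z h1 h2 h3 h4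
    exact ⟨h1, h2, h3, h4⟩
  obtain ⟨η, hη, hηO⟩ := exists_box (inter_mem hO₁ hO₂)
  refine ⟨η, hη, F, fun x _ => hF0 x, hO₁i.mono fun z hz => (hηO hz).1,
    fun z hz => ⟨(hηO hz).2.1, (hηO hz).2.2.1⟩, ?_⟩
  intro z hz
  -- the function `t ↦ ψ (F (t, tl z))`
  have hmono : StrictMonoOn (fun t : ℝ => ψ (F (cn t (tl z)))) (Icc (-η) η) := by
    have hb : ∀ t ∈ Icc (-η) η, (cn t (tl z) : E (m + 1)) ∈ box m R η := fun t ht =>
      ⟨by rw [tl_cn]; exact hz.1, by rw [cn_zero]; exact abs_le.2 ht⟩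
    have hder : ∀ t ∈ Icc (-η) η, HasDerivAt (fun t : ℝ => ψ (F (cn t (tl z))))
        (D (cn t (tl z))) t := by
      intro t ht
      have h1 : HasFDerivAt (fun w => ψ (F w)) (fderiv ℝ (fun w => ψ (F w)) (cn t (tl z)))
          (cn t (tl z)) := ((hηO (hb t ht)).2.2.2.1.differentiableAt (by simp)).hasFDerivAt
      have h2 : HasDerivAt (fun t : ℝ => (cn t (tl z) : E (m + 1))) e0 t := by
        have h3 : (fun t : ℝ => (cn t (tl z) : E (m + 1))) = fun t => t • e0 + cn 0 (tl z) := by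
          funext t
          exact cn_eq t (tl z)
        rw [h3]
        have h4 := ((hasDerivAt_id t).smul_const (e0 : E (m + 1))).add_const (cn 0 (tl z))
        simpa using h4
      exact HasFDerivAt.comp_hasDerivAt (l := fun w => ψ (F w)) t h1 h2
    refine strictMonoOn_of_deriv_pos (convex_Icc _ _)
      (fun t ht => (hder t ht).continuousAt.continuousWithinAt) ?_
    intro t ht
    rw [interior_Icc] at ht
    have ht' : t ∈ Icc (-η) η := Ioo_subset_Icc_self ht
    rw [(hder t ht').deriv]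
    exact (hηO (hb t ht')).2.2.2.2
  have h00 : ψ (F (cn 0 (tl z))) = 0 := by
    rw [hF0]
    exact (hψg (tl z) hz.1).self_of_nhds
  have hz0 := abs_le.1 hz.2
  have h0m : (0 : ℝ) ∈ Icc (-η) η := ⟨by linarith, hη.le⟩
  refine ⟨fun hpos => ?_, fun hneg => ?_⟩
  · have h1 := hmono h0m ⟨hz0.1, hz0.2⟩ hpos
    simp only [h00, cn_tl] at h1
    exact h1
  · have h1 := hmono ⟨hz0.1, hz0.2⟩ h0m hneg
    simp only [h00, cn_tl] at h1
    exact h1

end Pool.Agent.X175.SH
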