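import Pool.Agent.Y522.Tools
import Pool.Agent.Y784.SH.Ext

/-!
# Compression in a flow box
-/

set_option autoImplicit false

open Set Filter Topology Metric Function
open scoped Manifold ContDiff NNReal

noncomputable section

namespace Pool.Agent.X175.SH

open Pool.Agent.Y522 Pool.Agent.Y784.SH

/-- transport of a diffeomorphism with compact support by a chart -/
theorem transport {n : ℕ} {X : Type} [TopologicalSpace X] [T2Space X] [ChartedSpace (E n) X]
    {F : E n → X} {B K : Set (E n)} (hK : IsCompact K) (hKB : K ⊆ interior B)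
    (hF : InjOn F B) (hFd : ∀ z ∈ B, LD n F z) {h : E n → E n} (hh : Dif n h)
    (hhK : ∀ z, z ∉ K → h z = z) :
    ∃ Λ : X → X, Bijective Λ ∧ (∀ x, LD n Λ x) ∧ (∀ x, x ∉ F '' B → Λ x = x) ∧
      ∀ z ∈ B, Λ (F z) = F (h z) := by
  classical
  have hKB' : K ⊆ B := hKB.trans interior_subset
  have hKK : ∀ z ∈ K, h z ∈ K := by
    intro z hz
    by_contra hcon
    have h1 := hhK _ hcon
    have h2 := hh.1.1 h1
    exact hcon (by rw [h2]; exact hz)
  have hBB : ∀ z ∈ B, h z ∈ B := by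
    intro z hz
    by_cases hzK : z ∈ K
    · exact hKB' (hKK z hzK)
    · rw [hhK z hzK]; exact hz
  have hBB' : ∀ z ∈ B, ∃ w ∈ B, h w = z := by
    intro z hz
    obtain ⟨w, hw⟩ := hh.1.2 z
    refine ⟨w, ?_, hw⟩
    by_cases hwK : w ∈ K
    · exact hKB' hwK
    · rw [hhK w hwK] at hw
      rw [hw]; exact hz
  set gi : X → E n := fun x => if hx : x ∈ F '' B then hx.choose else 0 with hgi
  have hgi1 : ∀ z ∈ B, gi (F z) = z := by
    intro z hz
    have hx : F z ∈ F '' B := ⟨z, hz, rfl⟩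
    have h1 : gi (F z) = hx.choose := dif_pos hx
    rw [h1]
    exact hF hx.choose_spec.1 hz hx.choose_spec.2
  set Λ : X → X := fun x => if x ∈ F '' B then F (h (gi x)) else x with hΛ
  have hΛ1 : ∀ z ∈ B, Λ (F z) = F (h z) := by
    intro z hz
    have hx : F z ∈ F '' B := ⟨z, hz, rfl⟩
    simp only [hΛ, hx, if_true, hgi1 z hz]
  have hΛ2 : ∀ x, x ∉ F '' B → Λ x = x := fun x hx => if_neg hx
  refine ⟨Λ, ⟨?_, ?_⟩, ?_, hΛ2, hΛ1⟩
  · intro x x' hxx
    by_cases hx : x ∈ F '' B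
    · obtain ⟨z, hz, rfl⟩ := hx
      by_cases hx' : x' ∈ F '' B
      · obtain ⟨z', hz', rfl⟩ := hx'
        rw [hΛ1 z hz, hΛ1 z' hz'] at hxx
        rw [hh.1.1 (hF (hBB z hz) (hBB z' hz') hxx)]
      · rw [hΛ1 z hz, hΛ2 x' hx'] at hxx
        exact absurd ⟨_, hBB z hz, hxx⟩ hx'
    · by_cases hx' : x' ∈ F '' B
      · obtain ⟨z', hz', rfl⟩ := hx'
        rw [hΛ1 z' hz', hΛ2 x hx] at hxx
        exact absurd ⟨_, hBB z' hz', hxx.symm⟩ hx
      · rwa [hΛ2 x hx, hΛ2 x' hx'] at hxx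
  · intro x
    by_cases hx : x ∈ F '' B
    · obtain ⟨z, hz, rfl⟩ := hx
      obtain ⟨w, hw, hwz⟩ := hBB' z hz
      exact ⟨F w, by rw [hΛ1 w hw, hwz]⟩
    · exact ⟨x, hΛ2 x hx⟩
  · intro x
    by_cases hx : x ∈ F '' K
    · obtain ⟨z, hz, rfl⟩ := hx
      have hzi : z ∈ interior B := hKB hz
      have h1 : LD n gi (F z) := LD.inverse isOpen_interior
        (fun y hy => hFd y (interior_subset hy)) (fun y hy => hgi1 y (interior_subset hy)) hzi
      have h2 : LD n (fun x => F (h (gi x))) (F z) := by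
        refine LD.comp_fun (g := F) ?_ (LD.comp_fun (g := h) (hh.2 _) h1)
        rw [hgi1 z (hKB' hz)]
        exact hFd _ (hBB z (hKB' hz))
      refine h2.congr ?_
      have ho : IsOpen (F '' interior B) :=
        isOpen_image_of_LD isOpen_interior fun y hy => hFd y (interior_subset hy)
      filter_upwards [ho.mem_nhds ⟨z, hzi, rfl⟩] with w hw
      exact if_pos (image_mono interior_subset hw)
    · have hc : IsClosed (F '' K) := by
        refine (hK.image_of_continuousOn ?_).isClosed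
        exact fun y hy => (hFd y (hKB' hy)).continuousAt.continuousWithinAt
      refine (LD.id x).congr ?_
      filter_upwards [hc.isOpen_compl.mem_nhds hx] with w hw
      by_cases hwB : w ∈ F '' B
      · obtain ⟨y, hy, rfl⟩ := hwB
        rw [hΛ1 y hy, hhK]
        intro hyK
        exact hw ⟨y, hyK, rfl⟩
      · exact hΛ2 w hwB

theorem dif_small {n : ℕ} {u : E n → E n} (hu : ContDiff ℝ ∞ u) (hc : HasCompactSupport u) :
    ∃ c : ℝ, 0 < c ∧ c < 1 ∧ Dif n (fun x => x + (-c) • u x) := by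
  obtain ⟨K, hK⟩ := hu.lipschitzWith_of_hasCompactSupport hc (by simp)
  obtain ⟨c, hc0, hc1, hcK⟩ : ∃ c : ℝ, 0 < c ∧ c < 1 ∧ c * (K : ℝ) < 1 := by
    have hK0 : (0 : ℝ) ≤ K := K.2
    refine ⟨1 / (2 * (K + 1)), by positivity, ?_, ?_⟩
    · rw [div_lt_one (by positivity)]
      linarith
    · rw [div_mul_eq_mul_div, one_mul, div_lt_one (by positivity)]
      linarith
  have hl : LipschitzWith (Real.toNNReal (c * K)) (fun x => (-c) • u x) := by
    refine LipschitzWith.of_dist_le_mul fun x y => ?_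
    have h1 : ((Real.toNNReal (c * K) : ℝ≥0) : ℝ) = c * K :=
      Real.coe_toNNReal _ (mul_nonneg hc0.le (NNReal.coe_nonneg K))
    rw [dist_smul₀, norm_neg, Real.norm_of_nonneg hc0.le, h1, mul_assoc]
    exact mul_le_mul_of_nonneg_left (hK.dist_le_mul x y) hc0.le
  have hlt : Real.toNNReal (c * K) < 1 := Real.toNNReal_lt_one.2 hcK
  have hcu : ContDiff ℝ ∞ (fun x => (-c) • u x) := hu.const_smul (-c)
  exact ⟨c, hc0, hc1, dif_of_lip hcu hlt hl⟩

theorem box_subset_interior {m : ℕ} {R η R' η' : ℝ} (hR : R' < R) (hη : η' < η) :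
    box m R' η' ⊆ interior (box m R η) := by
  have ho : IsOpen {z : E (m + 1) | ‖tl z‖ < R ∧ |z 0| < η} := by
    apply IsOpen.inter
    · exact isOpen_lt (tl.continuous.norm) continuous_const
    · exact isOpen_lt (continuous_head.abs) continuous_const
  intro z hz
  refine mem_interior.2 ⟨_, ?_, ho, ⟨hz.1.trans_lt hR, hz.2.trans_lt hη⟩⟩
  exact fun w hw => ⟨hw.1.le, hw.2.le⟩

theorem stCompress : StCompress := by
  intro m X _ _ _ _ F R η hR hη hF hFd R' hR' τ hτ
  -- bump functions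
  set R₁ : ℝ := max R' (R / 2) with hR₁
  have hR₁0 : 0 < R₁ := lt_max_of_lt_right (by positivity)
  have hR₁R : R₁ < R := max_lt hR' (by linarith)
  let b₁ : ContDiffBump (0 : E m) := ⟨R₁, (R₁ + R) / 2, hR₁0, by linarith⟩
  let b₂ : ContDiffBump (0 : ℝ) := ⟨η / 4, η / 2, by positivity, by linarith⟩
  set χ : E (m + 1) → ℝ := fun z => b₁ (tl z) * b₂ (z 0) with hχ
  have hχs : ContDiff ℝ ∞ χ := by
    refine ContDiff.mul (b₁.contDiff.comp tl.contDiff) (b₂.contDiff.comp ?_)
    fun_prop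
  have hχ0 : ∀ z, 0 ≤ χ z := fun z => mul_nonneg b₁.nonneg b₂.nonneg
  have hχ1 : ∀ z, χ z ≤ 1 := fun z => mul_le_one₀ b₁.le_one b₂.nonneg b₂.le_one
  have hχK : ∀ z, z ∉ box m ((R₁ + R) / 2) (η / 2) → χ z = 0 := by
    intro z hz
    by_cases h1 : ‖tl z‖ ≤ (R₁ + R) / 2
    · have h2 : η / 2 ≤ |z 0| := by
        by_contra hcon
        exact hz ⟨h1, (not_le.1 hcon).le⟩
      have h3 : b₂ (z 0) = 0 := b₂.zero_of_le_dist (by
        rw [dist_zero_right, Real.norm_eq_abs]; exact h2)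
      simp only [hχ, h3, mul_zero]
    · have h3 : b₁ (tl z) = 0 := b₁.zero_of_le_dist (by
        rw [dist_zero_right]; exact (not_le.1 h1).le)
      simp only [hχ, h3, zero_mul]
  have hχe : ∀ y : E m, ‖y‖ ≤ R₁ → χ (cn 0 y) = 1 := by
    intro y hy
    have h1 : b₁ (tl (cn 0 y)) = 1 := by
      rw [tl_cn]
      exact b₁.one_of_mem_closedBall (by simpa using hy)
    have h2 : b₂ ((cn 0 y : E (m + 1)) 0) = 1 := by
      rw [cn_zero]
      exact b₂.one_of_mem_closedBall (by
        simp only [mem_closedBall, dist_self, b₂]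
        positivity)
    simp only [hχ, h1, h2, mul_one]
  set u : E (m + 1) → E (m + 1) := fun z => χ z • inc (tl z) with hu
  have hus : ContDiff ℝ ∞ u := hχs.smul (inc.contDiff.comp tl.contDiff)
  have huc : HasCompactSupport u := by
    refine HasCompactSupport.intro (isCompact_box ((R₁ + R) / 2) (η / 2)) fun z hz => ?_
    simp only [hu, hχK z hz, zero_smul]
  obtain ⟨c, hc0, hc1, hD⟩ := dif_small hus huc
  set h : E (m + 1) → E (m + 1) := fun z => z + (-c) • u z with hh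
  have hh0 : ∀ z, (h z) 0 = z 0 := by
    intro z
    simp [hh, hu]
  have hht : ∀ z, tl (h z) = (1 - c * χ z) • tl z := by
    intro z
    have h1 : tl (h z) = tl z + (-c) • (χ z • tl z) := by
      simp only [hh, hu, map_add, map_smul, inc_apply, tl_cn]
    rw [h1, smul_smul, sub_smul, one_smul, neg_mul, neg_smul, sub_eq_add_neg]
  have hhn : ∀ z, ‖tl (h z)‖ ≤ ‖tl z‖ := by
    intro z
    rw [hht, norm_smul]
    have h1 := hχ0 z
    have h2 := hχ1 z
    have h3 : 0 ≤ 1 - c * χ z := by nlinarith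
    have h4 : 1 - c * χ z ≤ 1 := by nlinarith
    rw [Real.norm_of_nonneg h3]
    exact mul_le_of_le_one_left (norm_nonneg _) h4
  have hhK : ∀ z, z ∉ box m ((R₁ + R) / 2) (η / 2) → h z = z := by
    intro z hz
    simp only [hh, hu, hχK z hz, zero_smul, smul_zero, add_zero]
  have hhe : ∀ y : E m, ‖y‖ ≤ R₁ → h (cn 0 y) = cn 0 ((1 - c) • y) := by
    intro y hy
    have h1 := cn_tl (h (cn 0 y))
    rw [hh0, hht, hχe y hy, mul_one, tl_cn, cn_zero] at h1
    exact h1.symm
  have hq0 : 0 ≤ 1 - c := by linarith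
  have hq1 : 1 - c < 1 := by linarith
  obtain ⟨N, hN⟩ := exists_pow_lt_of_lt_one (div_pos hτ hR₁0) hq1
  have hit0 : ∀ (k : ℕ) (z : E (m + 1)), (h^[k] z) 0 = z 0 := by
    intro k
    induction k with
    | zero => intro z; rfl
    | succ k ih => intro z; rw [iterate_succ', comp_apply, hh0, ih]
  have hitn : ∀ (k : ℕ) (z : E (m + 1)), ‖tl (h^[k] z)‖ ≤ ‖tl z‖ := by
    intro k
    induction k with
    | zero => intro z; exact le_rfl
    | succ k ih => intro z; rw [iterate_succ', comp_apply]; exact (hhn _).trans (ih z)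
  have hite : ∀ (k : ℕ) (y : E m), ‖y‖ ≤ R₁ → h^[k] (cn 0 y) = cn 0 ((1 - c) ^ k • y) := by
    intro k
    induction k with
    | zero => intro y _; simp
    | succ k ih =>
      intro y hy
      rw [iterate_succ', comp_apply, ih y hy, hhe, pow_succ', mul_smul]
      rw [norm_smul, norm_pow, Real.norm_of_nonneg hq0]
      exact (mul_le_of_le_one_left (norm_nonneg _) (pow_le_one₀ hq0 hq1.le)).trans hy
  have hDN : Dif (m + 1) (h^[N]) := Dif.iterate hD N
  obtain ⟨Λ, hΛb, hΛd, hΛ1, hΛ2⟩ := transport (isCompact_box ((R₁ + R) / 2) (η / 2))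
    (box_subset_interior (R := R) (η := η) (by linarith) (by linarith)) hF hFd hDN
    (fun z hz => iterate_fixed (hhK z hz) N)
  refine ⟨Λ, hΛb, hΛd, hΛ1, ?_, ?_⟩
  · intro z hz
    refine ⟨tl (h^[N] z), (hitn N z).trans hz.1, ?_⟩
    rw [hΛ2 z hz]
    congr 1
    rw [← hit0 N z]
    exact (cn_tl _).symm
  · intro y hy
    have hy1 : ‖y‖ ≤ R₁ := hy.trans (le_max_left _ _)
    refine ⟨(1 - c) ^ N • y, ?_, ?_⟩
    · rw [norm_smul, norm_pow, Real.norm_of_nonneg hq0]
      rw [lt_div_iff₀ hR₁0] at hN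
      exact (mul_le_mul_of_nonneg_left hy1 (by positivity)).trans_lt hN
    · rw [hΛ2 _ ⟨by rw [tl_cn]; linarith, by simpa using hη.le⟩, hite N y hy1]

end Pool.Agent.X175.SH
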