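import Pool.Agent.X175.SH.UCor
import Pool.Agent.Y514.SH.Base

/-!
# The Mazur-Brown theorem: engulfing of compact domains bounded by spheres
-/

set_option autoImplicit false

open Set Filter Topology Metric Function MeasureTheory
open scoped Manifold ContDiff

noncomputable section

namespace Pool.Agent.X175.SH

open Pool.Agent.Y522
open Pool.Agent.Y784.SH (Dif Dif.comp Dif.id Dif.inv Dif.iterate)

/-- diffeomorphisms which are the identity on a ball and squeeze a big ball into a slightly larger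
one -/
theorem exists_squeeze (n : ℕ) {r ρ : ℝ} (hr : 0 < r) (hrρ : r < ρ) (R : ℝ) :
    ∃ D : E n → E n, Dif n D ∧ (∀ y, ‖y‖ ≤ r → D y = y) ∧ ∀ y, ‖y‖ ≤ R → ‖D y‖ ≤ ρ := by
  let b : ContDiffBump (0 : E n) := ⟨r, ρ, hr, hrρ⟩
  have hR' : (0 : ℝ) < |R| + ρ + 1 := by have := abs_nonneg R; linarith
  let b2 : ContDiffBump (0 : E n) := ⟨|R| + ρ + 1, |R| + ρ + 2, hR', by linarith⟩
  set u : E n → E n := fun y => (b2 y - b y) • y with hu
  have hus : ContDiff ℝ ∞ u := (b2.contDiff.sub b.contDiff).smul contDiff_id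
  have huc : HasCompactSupport u := by
    refine HasCompactSupport.intro (isCompact_closedBall (0 : E n) (|R| + ρ + 2)) fun x hx => ?_
    rw [mem_closedBall_zero_iff, not_le] at hx
    have h1 : b2 x = 0 := b2.zero_of_le_dist (by rw [dist_zero_right]; exact hx.le)
    have h2 : b x = 0 := b.zero_of_le_dist (by
      rw [dist_zero_right]
      show ρ ≤ ‖x‖
      have := abs_nonneg R
      linarith)
    simp only [hu, h1, h2, sub_zero, zero_smul]
  obtain ⟨c, hc0, hc1, hD⟩ := dif_small hus huc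
  set D : E n → E n := fun x => x + (-c) • u x with hDdef
  have hb2 : ∀ y : E n, ‖y‖ ≤ |R| + ρ + 1 → b2 y = 1 := fun y hy =>
    b2.one_of_mem_closedBall (by rw [mem_closedBall_zero_iff]; exact hy)
  have hb : ∀ y : E n, ‖y‖ ≤ r → b y = 1 := fun y hy =>
    b.one_of_mem_closedBall (by rw [mem_closedBall_zero_iff]; exact hy)
  have hid : ∀ y : E n, ‖y‖ ≤ r → D y = y := by
    intro y hy
    have h1 : ‖y‖ ≤ |R| + ρ + 1 := by have := abs_nonneg R; linarith
    simp only [hDdef, hu, hb2 y h1, hb y hy, sub_self, zero_smul, smul_zero, add_zero]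
  have hform : ∀ y : E n, D y = (1 - c * (b2 y - b y)) • y := by
    intro y
    simp only [hDdef, hu, sub_smul, one_smul, neg_smul, mul_smul]
    abel
  have hle : ∀ y : E n, ‖y‖ ≤ |R| + ρ + 1 → ‖D y‖ ≤ ‖y‖ := by
    intro y hy
    rw [hform, norm_smul, hb2 y hy]
    have h2 := b.nonneg (x := y)
    have h3 := b.le_one (x := y)
    have h4 : 0 ≤ 1 - c * (1 - b y) := by nlinarith
    rw [Real.norm_of_nonneg h4]
    calc (1 - c * (1 - b y)) * ‖y‖ ≤ 1 * ‖y‖ := by
          refine mul_le_mul_of_nonneg_right ?_ (norm_nonneg _)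
          nlinarith
      _ = ‖y‖ := one_mul _
  have hcon : ∀ y : E n, ρ ≤ ‖y‖ → ‖y‖ ≤ |R| + ρ + 1 → ‖D y‖ = (1 - c) * ‖y‖ := by
    intro y hy1 hy
    have h0 : b y = 0 := b.zero_of_le_dist (by rw [dist_zero_right]; exact hy1)
    rw [hform, norm_smul, hb2 y hy, h0, sub_zero, mul_one,
      Real.norm_of_nonneg (by linarith : (0 : ℝ) ≤ 1 - c)]
  have hstep : ∀ (k : ℕ) (y : E n), ‖y‖ ≤ R → ‖D^[k] y‖ ≤ max ρ ((1 - c) ^ k * |R|) := by
    intro k y hy
    have hρ0 : 0 < ρ := hr.trans hrρ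
    induction k with
    | zero =>
      refine le_trans ?_ (le_max_right _ _)
      simp only [iterate_zero, id_eq, pow_zero, one_mul]
      exact hy.trans (le_abs_self R)
    | succ k ih =>
      rw [iterate_succ_apply']
      set z := D^[k] y with hz
      have h1 : (1 - c) ^ k * |R| ≤ |R| := by
        have h2 : (1 - c) ^ k ≤ 1 := pow_le_one₀ (by linarith) (by linarith)
        nlinarith [abs_nonneg R]
      have hzb : ‖z‖ ≤ |R| + ρ + 1 := by
        refine ih.trans (max_le ?_ ?_)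
        · have := abs_nonneg R; linarith
        · linarith
      by_cases hzρ : ρ ≤ ‖z‖
      · rw [hcon z hzρ hzb]
        rcases le_max_iff.1 ih with h2 | h2
        · refine le_trans ?_ (le_max_left _ _)
          nlinarith [norm_nonneg z]
        · refine le_trans ?_ (le_max_right _ _)
          rw [pow_succ]
          nlinarith [norm_nonneg z]
      · push Not at hzρ
        exact (hle z hzb).trans (hzρ.le.trans (le_max_left _ _))
  obtain ⟨N, hN⟩ : ∃ N : ℕ, (1 - c) ^ N * |R| ≤ ρ := by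
    have h1 : Tendsto (fun N : ℕ => (1 - c) ^ N * |R|) atTop (𝓝 (0 * |R|)) :=
      (tendsto_pow_atTop_nhds_zero_of_lt_one (by linarith) (by linarith)).mul_const _
    rw [zero_mul] at h1
    obtain ⟨N, hN⟩ := (h1.eventually (gt_mem_nhds (hr.trans hrρ))).exists
    exact ⟨N, hN.le⟩
  refine ⟨D^[N], Dif.iterate hD N, ?_, ?_⟩
  · intro y hy
    have h1 : ∀ k : ℕ, D^[k] y = y := by
      intro k
      induction k with
      | zero => rfl
      | succ k ih => rw [iterate_succ_apply', ih, hid y hy]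
    exact h1 N
  · intro y hy
    exact (hstep N y hy).trans (max_le le_rfl hN)

/-- compact subsets of the range of an open embedding -/
theorem exists_ball_image {n : ℕ} {g : E n → E n} (hg : ∀ x, LD n g x) {L : Set (E n)}
    (hL : IsCompact L) (hLg : L ⊆ range g) : ∃ R : ℝ, 0 < R ∧ L ⊆ g '' ball 0 R := by
  have h1 : L ⊆ ⋃ k : ℕ, g '' ball 0 (k + 1) := by
    intro z hz
    obtain ⟨y, rfl⟩ := hLg hz
    obtain ⟨k, hk⟩ := exists_nat_ge ‖y‖
    refine mem_iUnion.2 ⟨k, y, ?_, rfl⟩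
    rw [mem_ball_zero_iff]
    linarith
  obtain ⟨t, ht⟩ := hL.elim_finite_subcover (fun k : ℕ => g '' ball 0 ((k : ℝ) + 1))
    (fun k => isOpen_image_of_LD isOpen_ball fun x _ => hg x) h1
  obtain ⟨K, hK⟩ := t.exists_nat_subset_range
  refine ⟨K + 1, by positivity, fun z hz => ?_⟩
  obtain ⟨k, hk, hzk⟩ := mem_iUnion₂.1 (ht hz)
  refine image_mono (ball_subset_ball ?_) hzk
  have h2 : k < K := Finset.mem_range.1 (hK hk)
  have h3 : (k : ℝ) < K := by exact_mod_cast h2
  linarith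

/-- expansion of an engulfing open set -/
theorem exists_theta {n : ℕ} {L O : Set (E n)} (hL : IsCompact L) (g : E n → E n)
    (hgi : Injective g) (hg : ∀ x, LD n g x) (hLg : L ⊆ range g) (hgO : ∀ y, g y ∈ O) :
    ∃ V : Set (E n), IsOpen V ∧ L ⊆ V ∧ ∀ Q : Set (E n), IsCompact Q →
      ∃ Θ : E n → E n, Dif n Θ ∧ (∀ z ∈ V, Θ z = z) ∧ Q ⊆ Θ '' O := by
  obtain ⟨R, hR, hLR⟩ := exists_ball_image hg hL hLg
  refine ⟨g '' ball 0 R, isOpen_image_of_LD isOpen_ball fun x _ => hg x, hLR, fun Q hQ => ?_⟩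
  obtain ⟨G, hGb, hGL, hG⟩ := (Pool.Agent.Y784.SH.ext Pool.Agent.Y248.SH.germ : StExt) n g hgi hg
    (R + 1)
  obtain ⟨G', hG', hG1, hG2⟩ := Dif.inv ⟨hGb, hGL⟩
  have hG'c : Continuous G' := continuous_iff_continuousAt.2 fun x => (hG'.2 x).continuousAt
  obtain ⟨R3, hR3⟩ := (hQ.image hG'c).isBounded.subset_closedBall (0 : E n)
  obtain ⟨D, hD, hD1, hD2⟩ := exists_squeeze n hR (by linarith : R < R + 1) R3
  obtain ⟨η, hη, hη1, hη2⟩ := hD.inv
  refine ⟨fun z => G (η (G' z)), Dif.comp ⟨hGb, hGL⟩ (hη.comp hG'), ?_, ?_⟩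
  · rintro _ ⟨y, hy, rfl⟩
    rw [mem_ball_zero_iff] at hy
    have h1 : g y = G y := (hG y (by linarith)).symm
    have h2 : η y = y := by
      have := hη1 y
      rwa [hD1 y hy.le] at this
    show G (η (G' (g y))) = g y
    rw [h1, hG1, h2]
  · intro q hq
    have h1 : ‖G' q‖ ≤ R3 := mem_closedBall_zero_iff.1 (hR3 ⟨q, hq, rfl⟩)
    have h2 := hD2 _ h1
    refine ⟨G (D (G' q)), ?_, ?_⟩
    · rw [hG _ h2]
      exact hgO _
    · show G (η (G' (G (D (G' q))))) = q
      rw [hG1, hη1, hG2]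

/-- open embeddings of `ℝ^n` into a ball which are the identity on a smaller ball -/
theorem exists_shr (n : ℕ) {s t : ℝ} (hs : 0 < s) (hst : s < t) : ∃ σ : E n → E n, Injective σ ∧
    (∀ x, LD n σ x) ∧ (∀ x, ‖σ x‖ < t) ∧ ∀ x, ‖x‖ ≤ s → σ x = x := by
  obtain ⟨σ, hσi, hσL, hσb, hσ⟩ := Pool.Agent.Y514.SH.exists_shrink' n
    (δ := t / s - 1) (by rw [sub_pos, one_lt_div hs]; exact hst)
  have hs0 : s ≠ 0 := hs.ne'
  have hsi : s⁻¹ ≠ 0 := inv_ne_zero hs0
  let e : E n ≃L[ℝ] E n := ContinuousLinearEquiv.smulLeft (Units.mk0 s hs0)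
  let e' : E n ≃L[ℝ] E n := ContinuousLinearEquiv.smulLeft (Units.mk0 s⁻¹ hsi)
  have he : ∀ x, e x = s • x := fun x => rfl
  have he' : ∀ x, e' x = s⁻¹ • x := fun x => rfl
  refine ⟨fun x => e (σ (e' x)), ?_, ?_, ?_, ?_⟩
  · intro x y hxy
    exact e'.injective (hσi (e.injective hxy))
  · intro x
    refine LD.comp_fun (g := fun y => e y) (f := fun x => σ (e' x)) (LD_linear e _) ?_
    exact LD.comp_fun (g := σ) (f := fun x => e' x) (hσL _) (LD_linear e' _)
  · intro x
    have h1 := hσb (e' x)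
    simp only [he]
    rw [norm_smul, Real.norm_of_nonneg hs.le]
    calc s * ‖σ (e' x)‖ < s * (1 + (t / s - 1)) := mul_lt_mul_of_pos_left h1 hs
      _ = t := by field_simp; ring
  · intro x hx
    have h1 : ‖e' x‖ ≤ 1 := by
      rw [he', norm_smul, Real.norm_of_nonneg (inv_pos.2 hs).le]
      calc s⁻¹ * ‖x‖ ≤ s⁻¹ * s := mul_le_mul_of_nonneg_left hx (inv_pos.2 hs).le
        _ = 1 := inv_mul_cancel₀ hs0
    simp only [hσ _ h1]
    rw [he, he', smul_smul, mul_inv_cancel₀ hs0, one_smul]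

/-- a smooth function which is the identity near `0`, has the sign of its argument and is constant
outside a small interval -/
theorem exists_tau2 (δ : ℝ) (hδ : 0 < δ) : ∃ τ : ℝ → ℝ, ContDiff ℝ ∞ τ ∧
    (∀ t, |t| ≤ δ / 4 → τ t = t) ∧ (∀ t, τ t ≤ 0 ↔ t ≤ 0) ∧ (∀ t, 0 ≤ τ t ↔ 0 ≤ t) ∧
    (∀ t, t ≤ -(δ / 2) → τ t = -δ) ∧ ∀ t, δ / 2 ≤ t → τ t = δ := by
  let b : ContDiffBump (0 : ℝ) := ⟨δ / 4, δ / 2, by positivity, by linarith⟩
  set σ : ℝ → ℝ := fun t => if 0 < t then δ else -δ with hσ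
  set τ : ℝ → ℝ := fun t => b t * t + (1 - b t) * σ t with hτ
  have hb1 : ∀ t, |t| ≤ δ / 4 → b t = 1 := fun t ht =>
    b.one_of_mem_closedBall (by simpa [Real.norm_eq_abs] using ht)
  have hb0 : ∀ t, δ / 2 ≤ |t| → b t = 0 := fun t ht =>
    b.zero_of_le_dist (by rw [dist_zero_right, Real.norm_eq_abs]; exact ht)
  have hσp : ∀ t, 0 < t → σ t = δ := fun t ht => if_pos ht
  have hσn : ∀ t, t ≤ 0 → σ t = -δ := fun t ht => if_neg (not_lt.2 ht)
  have hσl : ∀ t, t ≠ 0 → ∀ᶠ s in 𝓝 t, σ s = σ t := by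
    intro t ht
    rcases lt_or_gt_of_ne ht with h | h
    · filter_upwards [gt_mem_nhds h] with s hs
      rw [hσn s (le_of_lt hs), hσn t h.le]
    · filter_upwards [lt_mem_nhds h] with s hs
      rw [hσp s hs, hσp t h]
  have hpos : ∀ t, 0 < t → 0 < τ t := by
    intro t ht
    simp only [hτ, hσp t ht]
    have h1 := b.nonneg (x := t)
    have h2 := b.le_one (x := t)
    rcases h1.eq_or_lt with h | h
    · rw [← h]; simpa using hδ
    · nlinarith [mul_pos h ht, mul_nonneg (sub_nonneg.2 h2) hδ.le]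
  have hneg : ∀ t, t < 0 → τ t < 0 := by
    intro t ht
    simp only [hτ, hσn t ht.le]
    have h1 := b.nonneg (x := t)
    have h2 := b.le_one (x := t)
    rcases h1.eq_or_lt with h | h
    · rw [← h]; simpa using hδ
    · nlinarith [mul_pos h (neg_pos.2 ht), mul_nonneg (sub_nonneg.2 h2) hδ.le]
  have hzero : τ 0 = 0 := by
    simp only [hτ, hb1 0 (by simpa using by positivity)]
    ring
  refine ⟨τ, ?_, ?_, ?_, ?_, ?_, ?_⟩
  · refine contDiff_iff_contDiffAt.2 fun t => ?_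
    by_cases ht : t = 0
    · subst ht
      refine contDiffAt_id.congr_of_eventuallyEq ?_
      have h1 : ball (0 : ℝ) (δ / 4) ∈ 𝓝 (0 : ℝ) := ball_mem_nhds _ (by positivity)
      filter_upwards [h1] with s hs
      rw [mem_ball_zero_iff, Real.norm_eq_abs] at hs
      simp only [hτ, hb1 s hs.le]
      simp
    · have h1 : ContDiffAt ℝ ∞ (fun s => b s * s + (1 - b s) * σ t) t :=
        (b.contDiffAt.mul contDiffAt_id).add ((contDiffAt_const.sub b.contDiffAt).mul
          contDiffAt_const)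
      refine h1.congr_of_eventuallyEq ?_
      filter_upwards [hσl t ht] with s hs
      simp only [hτ, hs]
  · intro t ht
    simp only [hτ, hb1 t ht]
    ring
  · intro t
    constructor
    · intro h
      by_contra hcon
      exact absurd h (not_le.2 (hpos t (not_le.1 hcon)))
    · intro h
      rcases h.lt_or_eq with h | h
      · exact (hneg t h).le
      · rw [h, hzero]
  · intro t
    constructor
    · intro h
      by_contra hcon
      exact absurd h (not_le.2 (hneg t (not_le.1 hcon)))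
    · intro h
      rcases h.lt_or_eq with h | h
      · exact (hpos t h).le
      · rw [← h, hzero]
  · intro t ht
    have h1 : δ / 2 ≤ |t| := by
      rw [abs_of_nonpos (by linarith)]
      linarith
    simp only [hτ, hb0 t h1, hσn t (by linarith)]
    ring
  · intro t ht
    have h1 : δ / 2 ≤ |t| := by
      rw [abs_of_pos (by linarith)]
      exact ht
    simp only [hτ, hb0 t h1, hσp t (by linarith)]
    ring

/-- the open shell between the spheres of radius `a` and `b` -/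
def Shell (n : ℕ) (a b : ℝ) : Set (E n) := {y | a < ‖y‖ ∧ ‖y‖ < b}

theorem isOpen_Shell (n : ℕ) (a b : ℝ) : IsOpen (Shell n a b) :=
  (isOpen_lt continuous_const continuous_norm).inter (isOpen_lt continuous_norm continuous_const)

/-- `L` is a compact domain in `ℝ^n` whose boundary is parametrized by the unit sphere, with a
collar. -/
structure Dom (n : ℕ) (c : E n → E n) (a b : ℝ) (L : Set (E n)) : Prop where
  ha0 : 0 < a
  ha : a < 1
  hb : 1 < b
  inj : InjOn c (Shell n a b)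
  ld : ∀ y ∈ Shell n a b, LD n c y
  cpt : IsCompact L
  mem : ∀ y ∈ Shell n a b, (c y ∈ L ↔ ‖y‖ ≤ 1)
  opn : IsOpen (L \ c '' sphere 0 1)

/-- derivatives of parametrizations are injective -/
theorem Par.deriv_inj {m : ℕ} {T : Set (E (m + 1))} {G : E m → E (m + 1)} {G' : E (m + 1) → E m}
    (h : Par m T G G') (y : E m) : Injective (mfderiv (𝓡 m) (𝓡 (m + 1)) G y) := by
  have h1 : MDifferentiableAt (𝓡 (m + 1)) (𝓡 m) G' (G y) :=
    (contMDiffAt_iff_contDiffAt.2 (h.inv_smooth _ (h.mem y))).mdifferentiableAt (by simp)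
  have h2 : MDifferentiableAt (𝓡 m) (𝓡 (m + 1)) G y :=
    (contMDiff_iff_contDiff.2 h.smooth).contMDiffAt.mdifferentiableAt (by simp)
  have h3 : mfderiv (𝓡 m) (𝓡 m) (fun y => G' (G y)) y =
      (mfderiv (𝓡 (m + 1)) (𝓡 m) G' (G y)).comp (mfderiv (𝓡 m) (𝓡 (m + 1)) G y) :=
    mfderiv_comp y h1 h2
  have h4 : (fun y => G' (G y)) = fun y => y := funext h.left
  rw [h4] at h3
  have h5 : mfderiv (𝓡 m) (𝓡 m) (fun y : E m => y) y =
    ContinuousLinearMap.id ℝ (TangentSpace (𝓡 m) y) := mfderiv_id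
  rw [h5] at h3
  intro v w hvw
  have h6 := congrArg (fun A => A v) h3
  have h7 := congrArg (fun A => A w) h3
  change v = mfderiv (𝓡 (m + 1)) (𝓡 m) G' (G y) (mfderiv (𝓡 m) (𝓡 (m + 1)) G y v) at h6
  change w = mfderiv (𝓡 (m + 1)) (𝓡 m) G' (G y) (mfderiv (𝓡 m) (𝓡 (m + 1)) G y w) at h7
  rw [h6, h7, hvw]

end Pool.Agent.X175.SH
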