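import Pool.Agent.X175.SH.MB1

/-!
# The Mazur-Brown theorem: small engulfing balls
-/

set_option autoImplicit false

open Set Filter Topology Metric Function MeasureTheory
open scoped Manifold ContDiff

noncomputable section

namespace Pool.Agent.X175.SH

open Pool.Agent.Y522
open Pool.Agent.Y784.SH (Dif Dif.comp Dif.id Dif.inv Dif.iterate)

section dom

variable {m : ℕ} {c : E (m + 1) → E (m + 1)} {a b : ℝ} {L : Set (E (m + 1))}

theorem Dom.sphere_sub {n : ℕ} {c : E n → E n} {a b : ℝ} {L : Set (E n)} (h : Dom n c a b L)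
    {y : E n} (hy : ‖y‖ = 1) : y ∈ Shell n a b := by
  refine ⟨?_, ?_⟩
  · rw [hy]; exact h.ha
  · rw [hy]; exact h.hb

theorem Dom.compact {n : ℕ} {c : E n → E n} {a b : ℝ} {L : Set (E n)} (h : Dom n c a b L) {s : ℝ}
    (hs : s < b) : IsCompact (L ∪ c '' {y | 1 ≤ ‖y‖ ∧ ‖y‖ ≤ s}) := by
  refine h.cpt.union ?_
  have h1 : IsCompact {y : E n | 1 ≤ ‖y‖ ∧ ‖y‖ ≤ s} := by
    refine (isCompact_closedBall (0 : E n) s).of_isClosed_subset
      ((isClosed_le continuous_const continuous_norm).inter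
        (isClosed_le continuous_norm continuous_const)) ?_
    intro y hy
    rw [mem_closedBall_zero_iff]
    exact hy.2
  refine h1.image_of_continuousOn fun y hy => ?_
  exact (h.ld y ⟨h.ha.trans_le hy.1, hy.2.trans_lt hs⟩).continuousAt.continuousWithinAt

/-- the domain is contained in an open ball in each small neighbourhood -/
theorem Dom.engulf (h : Dom (m + 1) c a b L) {r : ℝ} (hr1 : 1 < r) (hrb : r < b) :
    ∃ g : E (m + 1) → E (m + 1), Injective g ∧ (∀ x, LD (m + 1) g x) ∧ L ⊆ range g ∧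
      ∀ y, g y ∈ L ∪ c '' {y | y ∈ Shell (m + 1) a b ∧ ‖y‖ < r} := by
  classical
  set r1 : ℝ := (1 + r) / 2 with hr1def
  have h1r1 : 1 < r1 := by rw [hr1def]; linarith
  have hr1r : r1 < r := by rw [hr1def]; linarith
  have hr10 : 0 < r1 := one_pos.trans h1r1
  set δ : ℝ := min (r1 ^ 2 - 1) (r ^ 2 - r1 ^ 2) with hδdef
  have hδ : 0 < δ := by
    refine lt_min ?_ ?_
    · nlinarith
    · nlinarith
  have hδ1 : δ ≤ r1 ^ 2 - 1 := min_le_left _ _
  have hδ2 : δ ≤ r ^ 2 - r1 ^ 2 := min_le_right _ _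
  obtain ⟨τ, hτ, hτ1, hτ2, hτ3, hτ4, hτ5⟩ := exists_tau2 δ hδ
  -- the inverse of `c`
  have : Nonempty (E (m + 1)) := ⟨0⟩
  obtain ⟨c', hc'⟩ : ∃ c' : E (m + 1) → E (m + 1), ∀ y ∈ Shell (m + 1) a b, c' (c y) = y :=
    ⟨invFunOn c (Shell (m + 1) a b), fun y hy => h.inj.leftInvOn_invFunOn hy⟩
  have hcS : IsOpen (c '' Shell (m + 1) a b) := isOpen_image_of_LD (isOpen_Shell _ _ _) h.ld
  have hc'L : ∀ z ∈ c '' Shell (m + 1) a b, LD (m + 1) c' z := by
    rintro _ ⟨y, hy, rfl⟩
    exact LD.inverse (isOpen_Shell _ _ _) h.ld hc' hy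
  -- the function
  set φ : E (m + 1) → ℝ := fun z => if z ∈ L then -δ else
    if z ∈ c '' Shell (m + 1) a b then τ (‖c' z‖ ^ 2 - r1 ^ 2) else δ with hφdef
  have hφL : ∀ z ∈ L, φ z = -δ := fun z hz => if_pos hz
  have hφc : ∀ y ∈ Shell (m + 1) a b, φ (c y) = τ (‖y‖ ^ 2 - r1 ^ 2) := by
    intro y hy
    by_cases hyL : c y ∈ L
    · rw [hφL _ hyL]
      have h1 := (h.mem y hy).1 hyL
      rw [hτ4 _ (by nlinarith [norm_nonneg y])]
    · simp only [hφdef, if_neg hyL, if_pos (mem_image_of_mem c hy), hc' y hy]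
  have hφo : ∀ z, z ∉ L → z ∉ c '' Shell (m + 1) a b → φ z = δ := by
    intro z hz hz2
    simp only [hφdef, if_neg hz, if_neg hz2]
  have hloc : ∀ z ∈ c '' Shell (m + 1) a b, ∀ᶠ w in 𝓝 z, φ w = τ (‖c' w‖ ^ 2 - r1 ^ 2) := by
    intro z hz
    filter_upwards [hcS.mem_nhds hz] with w hw
    obtain ⟨y, hy, rfl⟩ := hw
    rw [hφc y hy, hc' y hy]
  have hφs : ContDiff ℝ ∞ φ := by
    refine contDiff_iff_contDiffAt.2 fun z => ?_
    by_cases hz : z ∈ c '' Shell (m + 1) a b
    · have h1 : ContDiffAt ℝ ∞ (fun w => τ (‖c' w‖ ^ 2 - r1 ^ 2)) z := by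
        refine hτ.contDiffAt.comp z ?_
        exact ((hc'L z hz).contDiffAt.norm_sq ℝ).sub contDiffAt_const
      exact h1.congr_of_eventuallyEq (hloc z hz)
    · by_cases hzL : z ∈ L
      · have h1 : z ∈ L \ c '' sphere 0 1 := by
          refine ⟨hzL, ?_⟩
          rintro ⟨y, hy, rfl⟩
          exact hz ⟨y, h.sphere_sub (mem_sphere_zero_iff_norm.1 hy), rfl⟩
        refine (contDiffAt_const (c := -δ)).congr_of_eventuallyEq ?_
        filter_upwards [h.opn.mem_nhds h1] with w hw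
        exact hφL w hw.1
      · have h1 : z ∉ L ∪ c '' {y | 1 ≤ ‖y‖ ∧ ‖y‖ ≤ r} := by
          rintro (h2 | ⟨y, hy, rfl⟩)
          · exact hzL h2
          · exact hz ⟨y, ⟨h.ha.trans_le hy.1, hy.2.trans_lt hrb⟩, rfl⟩
        refine (contDiffAt_const (c := δ)).congr_of_eventuallyEq ?_
        filter_upwards [(h.compact hrb).isClosed.isOpen_compl.mem_nhds h1] with w hw
        by_cases hwc : w ∈ c '' Shell (m + 1) a b
        · obtain ⟨y, hy, rfl⟩ := hwc
          rw [hφc y hy]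
          refine hτ5 _ ?_
          have h2 : r < ‖y‖ := by
            by_contra hcon
            push Not at hcon
            apply hw
            by_cases hy1 : ‖y‖ ≤ 1
            · exact Or.inl ((h.mem y hy).2 hy1)
            · push Not at hy1
              exact Or.inr ⟨y, ⟨hy1.le, hcon⟩, rfl⟩
          nlinarith
        · exact hφo w (fun h2 => hw (Or.inl h2)) hwc
  have hφle : ∀ z, φ z ≤ 0 ↔ z ∈ L ∪ c '' {y | 1 ≤ ‖y‖ ∧ ‖y‖ ≤ r1} := by
    intro z
    by_cases hzL : z ∈ L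
    · rw [hφL z hzL]
      exact ⟨fun _ => Or.inl hzL, fun _ => by linarith⟩
    · by_cases hzc : z ∈ c '' Shell (m + 1) a b
      · obtain ⟨y, hy, rfl⟩ := hzc
        rw [hφc y hy, hτ2]
        have hy1 : 1 < ‖y‖ := by
          by_contra hcon
          exact hzL ((h.mem y hy).2 (not_lt.1 hcon))
        constructor
        · intro h1
          refine Or.inr ⟨y, ⟨hy1.le, ?_⟩, rfl⟩
          exact le_of_sq_le_sq (by linarith) hr10.le
        · rintro (h1 | ⟨y', hy', hyy'⟩)
          · exact absurd h1 hzL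
          · have h2 : y' = y := h.inj ⟨h.ha.trans_le hy'.1, by linarith [hy'.2]⟩ hy hyy'
            rw [h2] at hy'
            nlinarith [hy'.2]
      · rw [hφo z hzL hzc]
        constructor
        · intro h1
          linarith
        · rintro (h1 | ⟨y', hy', rfl⟩)
          · exact absurd h1 hzL
          · exact absurd ⟨y', ⟨h.ha.trans_le hy'.1, by linarith [hy'.2]⟩, rfl⟩ hzc
  -- the boundary sphere
  obtain ⟨G, G', hP⟩ := stereo_param (m := m) r1 hr10
  have hGS : ∀ y, G y ∈ Shell (m + 1) a b := by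
    intro y
    have h1 : ‖G y‖ = r1 := (hP.mem y).1
    exact ⟨by rw [h1]; linarith [h.ha], by rw [h1]; linarith⟩
  set p : E (m + 1) := r1 • e0 with hp
  have hpn : ‖p‖ = r1 := by rw [hp, norm_smul, norm_e0, mul_one, Real.norm_of_nonneg hr10.le]
  have hpS : p ∈ Shell (m + 1) a b :=
    ⟨by rw [hpn]; linarith [h.ha], by rw [hpn]; linarith⟩
  have hφ0 : ∀ y ∈ Shell (m + 1) a b, ‖y‖ = r1 → φ (c y) = 0 := by
    intro y hy hy1
    rw [hφc y hy, hy1, sub_self, hτ1 0 (by rw [abs_zero]; positivity)]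
  have hset : {z | φ z ≤ 0} = L ∪ c '' {y | 1 ≤ ‖y‖ ∧ ‖y‖ ≤ r1} := by
    ext z
    exact hφle z
  obtain ⟨g, hg1, hg2, hg3, hg4⟩ := mazur_in (m := m) (X := E (m + 1)) φ (c p) (fun y => c (G y))
    (contMDiff_iff_contDiff.2 hφs)
    (by rw [hset]; exact h.compact (by linarith))
    (L ∪ c '' {y | y ∈ Shell (m + 1) a b ∧ ‖y‖ < r}) (fun x => x)
    (by
      have h1 : L ∪ c '' {y | y ∈ Shell (m + 1) a b ∧ ‖y‖ < r} =
          (L \ c '' sphere 0 1) ∪ c '' {y | y ∈ Shell (m + 1) a b ∧ ‖y‖ < r} := by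
        ext z
        constructor
        · rintro (h2 | h2)
          · by_cases h3 : z ∈ c '' sphere 0 1
            · obtain ⟨y, hy, rfl⟩ := h3
              have hy1 := mem_sphere_zero_iff_norm.1 hy
              exact Or.inr ⟨y, ⟨h.sphere_sub hy1, by rw [hy1]; exact hr1⟩, rfl⟩
            · exact Or.inl ⟨h2, h3⟩
          · exact Or.inr h2
        · rintro (h2 | h2)
          · exact Or.inl h2.1
          · exact Or.inr h2
      rw [h1]
      refine h.opn.union (isOpen_image_of_LD ?_ fun y hy => h.ld y hy.1)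
      exact (isOpen_Shell _ _ _).inter (isOpen_lt continuous_norm continuous_const))
    (by
      rw [hset]
      rintro z (h2 | ⟨y, hy, rfl⟩)
      · exact Or.inl h2
      · exact Or.inr ⟨y, ⟨⟨h.ha.trans_le hy.1, by linarith [hy.2]⟩, by linarith [hy.2]⟩, rfl⟩)
    (fun x _ y _ hxy => hxy) (fun x _ => LD.id x) (hφ0 p hpS hpn)
    (by
      intro y y' hyy'
      have h1 := h.inj (hGS y) (hGS y') hyy'
      rw [← hP.left y, ← hP.left y', h1])
    (by
      intro y
      exact (h.ld _ (hGS y)).contMDiffAt.comp y (contMDiff_iff_contDiff.2 hP.smooth).contMDiffAt)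
    (by
      intro y
      have h1 : mfderiv (𝓡 m) (𝓡 (m + 1)) (fun y => c (G y)) y =
          (mfderiv (𝓡 (m + 1)) (𝓡 (m + 1)) c (G y)).comp (mfderiv (𝓡 m) (𝓡 (m + 1)) G y) :=
        mfderiv_comp y (h.ld _ (hGS y)).mdifferentiableAt
          ((contMDiff_iff_contDiff.2 hP.smooth).contMDiffAt.mdifferentiableAt (by simp))
      rw [h1]
      exact (h.ld _ (hGS y)).mfderiv_injective.comp (hP.deriv_inj y))
    (fun y => hφ0 _ (hGS y) (hP.mem y).1)
    (fun y hy => (hP.mem y).2 (h.inj (hGS y) hpS hy))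
    (by
      intro y
      have hz : c (G y) ∈ c '' Shell (m + 1) a b := ⟨_, hGS y, rfl⟩
      have h0 : c' (c (G y)) = G y := hc' _ (hGS y)
      have h1 : φ =ᶠ[𝓝 (c (G y))] fun w => ‖c' w‖ ^ 2 - r1 ^ 2 := by
        have hc : ContinuousAt (fun w => |‖c' w‖ ^ 2 - r1 ^ 2|) (c (G y)) :=
          (((hc'L _ hz).continuousAt.norm.pow 2).sub continuousAt_const).abs
        have h2 : ∀ᶠ w in 𝓝 (c (G y)), |‖c' w‖ ^ 2 - r1 ^ 2| < δ / 4 := by
          refine hc.eventually (gt_mem_nhds ?_)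
          have h3 : ‖G y‖ = r1 := (hP.mem y).1
          simp only [h0, h3, sub_self, abs_zero]
          positivity
        filter_upwards [h2, hloc _ hz] with w hw hw'
        rw [hw', hτ1 _ hw.le]
      rw [h1.mfderiv_eq]
      have hd : HasFDerivAt (fun z : E (m + 1) => ‖z‖ ^ 2 - r1 ^ 2) (2 • (innerSL ℝ (G y)))
          (c' (c (G y))) := by
        rw [h0]
        exact (hasStrictFDerivAt_norm_sq (G y)).hasFDerivAt.sub_const _
      refine mfderiv_comp_ne (H := c') (hc'L _ hz) (u := fun z => ‖z‖ ^ 2 - r1 ^ 2)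
        hd.differentiableAt ?_
      rw [hd.fderiv]
      intro h2
      have h3 := congrArg (fun A : E (m + 1) →L[ℝ] ℝ => A (G y)) h2
      have h4 : ‖G y‖ = r1 := (hP.mem y).1
      simp only [ContinuousLinearMap.smul_apply, innerSL_apply_apply, real_inner_self_eq_norm_sq,
        h4, ContinuousLinearMap.zero_apply, nsmul_eq_mul, Nat.cast_ofNat] at h3
      nlinarith)
    (by
      intro z hz hzp
      have hzL : z ∉ L := by
        intro h1
        rw [hφL z h1] at hz
        linarith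
      have hzc : z ∈ c '' Shell (m + 1) a b := by
        by_contra h1
        rw [hφo z hzL h1] at hz
        linarith
      obtain ⟨y, hy, rfl⟩ := hzc
      rw [hφc y hy] at hz
      have h1 := (hτ2 _).1 hz.le
      have h2 := (hτ3 _).1 hz.ge
      have h3 : ‖y‖ = r1 := by
        have h4 : ‖y‖ ^ 2 = r1 ^ 2 := by linarith
        exact (sq_eq_sq₀ (norm_nonneg _) hr10.le).1 h4
      refine ⟨G' y, ?_⟩
      show c (G (G' y)) = c y
      rw [hP.right y ⟨h3, fun h4 => hzp (by rw [h4])⟩])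
    L h.cpt (fun z hz => by rw [hφL z hz]; linarith)
  exact ⟨g, hg1, hg2, hg3, hg4⟩

end dom

end Pool.Agent.X175.SH
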