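import Pool.Agent.X175.SH.MB2

/-!
# The Mazur-Brown theorem: the complement of a domain bounded by a sphere
-/

set_option autoImplicit false

open Set Filter Topology Metric Function MeasureTheory
open scoped Manifold ContDiff

noncomputable section

namespace Pool.Agent.X175.SH

open Pool.Agent.Y522
open Pool.Agent.Y784.SH (Dif Dif.comp Dif.id Dif.inv Dif.iterate)

/-- open embeddings of `{a < ‖y‖}` onto bounded neighbourhoods of infinity in the complement of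
`L` -/
structure GoodM (n : ℕ) (c : E n → E n) (a : ℝ) (L : Set (E n)) (ε : ℝ) (F : E n → E n) :
    Prop where
  inj : InjOn F {y | a < ‖y‖}
  ld : ∀ y, a < ‖y‖ → LD n F y
  eq : ∀ y, a < ‖y‖ → ‖y‖ ≤ 1 + ε → F y = c y
  out : ∀ y, 1 < ‖y‖ → F y ∉ L
  bdd : ∃ ρ : ℝ, ∀ y, a < ‖y‖ → ‖F y‖ ≤ ρ

/-- maps which are the identity on a ball and injective preserve the complement -/
theorem norm_gt_of_inj {n : ℕ} {σ : E n → E n} (hσ : Injective σ) {s : ℝ}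
    (h : ∀ x, ‖x‖ ≤ s → σ x = x) {x : E n} (hx : s < ‖x‖) : s < ‖σ x‖ := by
  by_contra hcon
  have h1 := hσ (h _ (not_lt.1 hcon))
  rw [h1] at hcon
  exact hcon hx

theorem norm_gt_of_inj' {n : ℕ} {σ : E n → E n} (hσ : Injective σ) {s t : ℝ} (hts : t ≤ s)
    (h : ∀ x, ‖x‖ ≤ s → σ x = x) {x : E n} (hx : t < ‖x‖) : t < ‖σ x‖ :=
  norm_gt_of_inj hσ (fun y hy => h y (hy.trans hts)) hx

section dom

variable {m : ℕ} {c : E (m + 1) → E (m + 1)} {a b : ℝ} {L : Set (E (m + 1))}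

theorem Dom.base (h : Dom (m + 1) c a b L) : ∃ ε : ℝ, 0 < ε ∧ 1 + ε < b ∧ ∀ ρ : ℝ,
    ∃ F : E (m + 1) → E (m + 1), GoodM (m + 1) c a L ε F ∧
      ∀ z, ‖z‖ ≤ ρ → z ∉ L → ∃ y, 1 < ‖y‖ ∧ F y = z := by
  have hb := h.hb
  have ha := h.ha
  set s : ℝ := (1 + b) / 2 with hs
  set t : ℝ := (s + b) / 2 with ht
  have h1s : 1 < s := by rw [hs]; linarith
  have hsb : s < b := by rw [hs]; linarith
  have hst : s < t := by rw [ht]; linarith
  have htb : t < b := by rw [ht]; linarith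
  obtain ⟨g, hgi, hgL, hLg, hgO⟩ := h.engulf h1s hsb
  obtain ⟨V, hVo, hLV, hΘ⟩ := exists_theta h.cpt g hgi hgL hLg hgO
  -- the size of the collar
  obtain ⟨ε, hε, hεs, hεV⟩ : ∃ ε : ℝ, 0 < ε ∧ 1 + ε ≤ s ∧
      ∀ y, a < ‖y‖ → ‖y‖ ≤ 1 + ε → c y ∈ V := by
    set W : Set (E (m + 1)) := Shell (m + 1) a b ∩ c ⁻¹' V with hW
    have hWo : IsOpen W :=
      ContinuousOn.isOpen_inter_preimage (fun y hy => (h.ld y hy).continuousAt.continuousWithinAt)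
        (isOpen_Shell _ _ _) hVo
    have hsub1 : ∀ y, ‖y‖ = 1 → y ∈ W := fun y hy =>
      ⟨h.sphere_sub hy, hLV ((h.mem y (h.sphere_sub hy)).2 hy.le)⟩
    have hC : IsCompact ({y : E (m + 1) | 1 ≤ ‖y‖ ∧ ‖y‖ ≤ s} ∩ Wᶜ) := by
      refine (isCompact_closedBall (0 : E (m + 1)) s).of_isClosed_subset
        (((isClosed_le continuous_const continuous_norm).inter
          (isClosed_le continuous_norm continuous_const)).inter hWo.isClosed_compl) ?_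
      intro y hy
      rw [mem_closedBall_zero_iff]
      exact hy.1.2
    rcases ({y : E (m + 1) | 1 ≤ ‖y‖ ∧ ‖y‖ ≤ s} ∩ Wᶜ).eq_empty_or_nonempty with h0 | h0
    · refine ⟨s - 1, by linarith, by linarith, fun y hy1 hy2 => ?_⟩
      by_cases hy3 : ‖y‖ ≤ 1
      · exact hLV ((h.mem y ⟨hy1, by linarith⟩).2 hy3)
      · by_contra hcon
        have : y ∈ ({y : E (m + 1) | 1 ≤ ‖y‖ ∧ ‖y‖ ≤ s} ∩ Wᶜ) := by
          refine ⟨⟨(not_le.1 hy3).le, by linarith⟩, fun h2 => hcon h2.2⟩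
        rw [h0] at this
        exact this
    · obtain ⟨y₀, hy₀, hmin⟩ := hC.exists_isMinOn h0 continuous_norm.continuousOn
      have h1 : 1 < ‖y₀‖ := by
        refine lt_of_le_of_ne hy₀.1.1 fun h2 => hy₀.2 (hsub1 y₀ h2.symm)
      refine ⟨(‖y₀‖ - 1) / 2, by linarith, by linarith [hy₀.1.2], fun y hy1 hy2 => ?_⟩
      by_cases hy3 : ‖y‖ ≤ 1
      · exact hLV ((h.mem y ⟨hy1, by linarith⟩).2 hy3)
      · by_contra hcon
        have h2 : y ∈ ({y : E (m + 1) | 1 ≤ ‖y‖ ∧ ‖y‖ ≤ s} ∩ Wᶜ) := by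
          refine ⟨⟨(not_le.1 hy3).le, by linarith [hy₀.1.2]⟩, fun h2 => hcon h2.2⟩
        have h3 : ‖y₀‖ ≤ ‖y‖ := hmin h2
        linarith
  refine ⟨ε, hε, by linarith, fun ρ => ?_⟩
  obtain ⟨Θ, hΘd, hΘV, hΘQ⟩ := hΘ (closedBall 0 ρ) (isCompact_closedBall _ _)
  obtain ⟨σ, hσi, hσL, hσt, hσs⟩ := exists_shr (m + 1) (by linarith : 0 < s) hst
  have hσS : ∀ y, a < ‖y‖ → σ y ∈ Shell (m + 1) a b := fun y hy =>
    ⟨norm_gt_of_inj' hσi (by linarith) hσs hy, (hσt y).trans htb⟩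
  have hΘL : ∀ z, Θ z ∈ L → z ∈ L := by
    intro z hz
    have h1 := hΘd.1.1 (hΘV _ (hLV hz))
    rwa [h1] at hz
  refine ⟨fun y => Θ (c (σ y)), ⟨?_, ?_, ?_, ?_, ?_⟩, ?_⟩
  · intro y hy y' hy' hyy'
    exact hσi (h.inj (hσS y hy) (hσS y' hy') (hΘd.1.1 hyy'))
  · intro y hy
    refine LD.comp_fun (g := Θ) (f := fun y => c (σ y)) (hΘd.2 _) ?_
    exact LD.comp_fun (g := c) (f := σ) (h.ld _ (hσS y hy)) (hσL y)
  · intro y hy1 hy2
    show Θ (c (σ y)) = c y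
    rw [hσs y (by linarith), hΘV _ (hεV y hy1 hy2)]
  · intro y hy hyL
    have h1 := (h.mem _ (hσS y (by linarith))).1 (hΘL _ hyL)
    have h2 := norm_gt_of_inj' hσi (by linarith : (1 : ℝ) ≤ s) hσs hy
    linarith
  · have h1 : IsCompact (Θ '' (L ∪ c '' {y | 1 ≤ ‖y‖ ∧ ‖y‖ ≤ t})) :=
      (h.compact htb).image (continuous_iff_continuousAt.2 fun x => (hΘd.2 x).continuousAt)
    obtain ⟨ρ', hρ'⟩ := h1.isBounded.subset_closedBall (0 : E (m + 1))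
    refine ⟨ρ', fun y hy => ?_⟩
    refine mem_closedBall_zero_iff.1 (hρ' ⟨c (σ y), ?_, rfl⟩)
    by_cases hy1 : ‖σ y‖ ≤ 1
    · exact Or.inl ((h.mem _ (hσS y hy)).2 hy1)
    · exact Or.inr ⟨σ y, ⟨(not_le.1 hy1).le, (hσt y).le⟩, rfl⟩
  · intro z hz hzL
    obtain ⟨o, ho, hoz⟩ := hΘQ (mem_closedBall_zero_iff.2 hz)
    rcases ho with ho | ⟨y, hy, rfl⟩
    · rw [hΘV o (hLV ho)] at hoz
      rw [hoz] at ho
      exact absurd ho hzL
    · have hy1 : 1 < ‖y‖ := by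
        by_contra hcon
        have h1 := (h.mem y hy.1).2 (not_lt.1 hcon)
        rw [hΘV _ (hLV h1)] at hoz
        rw [hoz] at h1
        exact hzL h1
      refine ⟨y, hy1, ?_⟩
      show Θ (c (σ y)) = z
      rw [hσs y hy.2.le, hoz]

theorem Dom.step (h : Dom (m + 1) c a b L) {ε : ℝ} (hε : 0 < ε) (hεb : 1 + ε < b)
    (hbase : ∀ ρ : ℝ, ∃ F : E (m + 1) → E (m + 1), GoodM (m + 1) c a L ε F ∧
      ∀ z, ‖z‖ ≤ ρ → z ∉ L → ∃ y, 1 < ‖y‖ ∧ F y = z)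
    {F : E (m + 1) → E (m + 1)} (hF : GoodM (m + 1) c a L ε F) (R ρ : ℝ) :
    ∃ F' : E (m + 1) → E (m + 1), GoodM (m + 1) c a L ε F' ∧
      (∀ y, a < ‖y‖ → ‖y‖ ≤ R → F' y = F y) ∧
      ∀ z, ‖z‖ ≤ ρ → z ∉ L → ∃ y, 1 < ‖y‖ ∧ F' y = z := by
  classical
  have ha := h.ha
  obtain ⟨ρ₀, hρ₀⟩ := hF.bdd
  obtain ⟨F₁, hF₁, hcov⟩ := hbase (max ρ ρ₀)
  have : Nonempty (E (m + 1)) := ⟨0⟩
  -- the inverse of `F₁`
  obtain ⟨F₁', hF₁'⟩ : ∃ F₁' : E (m + 1) → E (m + 1), ∀ y, a < ‖y‖ → F₁' (F₁ y) = y :=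
    ⟨invFunOn F₁ {y | a < ‖y‖}, fun y hy => hF₁.inj.leftInvOn_invFunOn hy⟩
  have hYo : IsOpen {y : E (m + 1) | a < ‖y‖} := isOpen_lt continuous_const continuous_norm
  have hsub : ∀ y, a < ‖y‖ → ∃ w, a < ‖w‖ ∧ F₁ w = F y := by
    intro y hy
    by_cases hy1 : ‖y‖ ≤ 1
    · exact ⟨y, hy, by rw [hF.eq y hy (by linarith), hF₁.eq y hy (by linarith)]⟩
    · obtain ⟨w, hw, hwy⟩ := hcov (F y) ((hρ₀ y hy).trans (le_max_right _ _))
        (hF.out y (not_le.1 hy1))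
      exact ⟨w, ha.trans hw, hwy⟩
  set τ : E (m + 1) → E (m + 1) := fun y => if a < ‖y‖ then F₁' (F y) else y with hτ
  have hτY : ∀ y, a < ‖y‖ → τ y = F₁' (F y) := fun y hy => if_pos hy
  have hτn : ∀ y, ¬ a < ‖y‖ → τ y = y := fun y hy => if_neg hy
  have hτid : ∀ y, ‖y‖ ≤ 1 + ε → τ y = y := by
    intro y hy
    by_cases hy1 : a < ‖y‖
    · rw [hτY y hy1, hF.eq y hy1 hy, ← hF₁.eq y hy1 hy, hF₁' y hy1]
    · exact hτn y hy1
  have hτF : ∀ y, a < ‖y‖ → a < ‖τ y‖ ∧ F₁ (τ y) = F y := by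
    intro y hy
    obtain ⟨w, hw, hwy⟩ := hsub y hy
    rw [hτY y hy, ← hwy, hF₁' w hw]
    exact ⟨hw, rfl⟩
  have hτi : Injective τ := by
    intro y y' hyy'
    by_cases hy : a < ‖y‖
    · by_cases hy' : a < ‖y'‖
      · refine hF.inj hy hy' ?_
        rw [← (hτF y hy).2, ← (hτF y' hy').2, hyy']
      · exfalso
        rw [hτn y' hy'] at hyy'
        rw [← hyy'] at hy'
        exact hy' (hτF y hy).1
    · by_cases hy' : a < ‖y'‖
      · exfalso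
        rw [hτn y hy] at hyy'
        rw [hyy'] at hy
        exact hy (hτF y' hy').1
      · rwa [hτn y hy, hτn y' hy'] at hyy'
  have hτL : ∀ y, LD (m + 1) τ y := by
    intro y
    by_cases hy : a < ‖y‖
    · obtain ⟨w, hw, hwy⟩ := hsub y hy
      have h1 : LD (m + 1) F₁' (F y) := by
        rw [← hwy]
        exact LD.inverse hYo hF₁.ld hF₁' hw
      refine (LD.comp_fun (g := F₁') (f := F) h1 (hF.ld y hy)).congr ?_
      filter_upwards [hYo.mem_nhds hy] with z hz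
      exact hτY z hz
    · refine (LD.id y).congr ?_
      have h1 : ∀ᶠ z : E (m + 1) in 𝓝 y, ‖z‖ < 1 + ε :=
        continuous_norm.continuousAt.eventually (gt_mem_nhds (by linarith [not_lt.1 hy]))
      filter_upwards [h1] with z hz
      exact hτid z hz.le
  obtain ⟨G, hGb, hGL, hG⟩ := (Pool.Agent.Y784.SH.ext Pool.Agent.Y248.SH.germ : StExt) (m + 1) τ
    hτi hτL (max R (1 + ε))
  have hGid : ∀ y, ‖y‖ ≤ 1 + ε → G y = y := fun y hy => by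
    rw [hG y (hy.trans (le_max_right _ _)), hτid y hy]
  have hGgt : ∀ s : ℝ, s ≤ 1 + ε → ∀ y, s < ‖y‖ → s < ‖G y‖ := fun s hs y hy =>
    norm_gt_of_inj' hGb.1 hs hGid hy
  refine ⟨fun y => F₁ (G y), ⟨?_, ?_, ?_, ?_, ?_⟩, ?_, ?_⟩
  · intro y hy y' hy' hyy'
    exact hGb.1 (hF₁.inj (hGgt a (by linarith) y hy) (hGgt a (by linarith) y' hy') hyy')
  · intro y hy
    exact LD.comp_fun (g := F₁) (f := G) (hF₁.ld _ (hGgt a (by linarith) y hy)) (hGL y)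
  · intro y hy hy2
    show F₁ (G y) = c y
    rw [hGid y hy2, hF₁.eq y hy hy2]
  · intro y hy
    exact hF₁.out _ (hGgt 1 (by linarith) y hy)
  · obtain ⟨ρ₁, hρ₁⟩ := hF₁.bdd
    exact ⟨ρ₁, fun y hy => hρ₁ _ (hGgt a (by linarith) y hy)⟩
  · intro y hy hyR
    show F₁ (G y) = F y
    rw [hG y (hyR.trans (le_max_left _ _))]
    exact (hτF y hy).2
  · intro z hz hzL
    obtain ⟨w, hw, hwz⟩ := hcov z (hz.trans (le_max_left _ _)) hzL
    obtain ⟨y, rfl⟩ := hGb.2 w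
    refine ⟨y, ?_, hwz⟩
    by_contra hcon
    rw [hGid y (by linarith)] at hw
    exact hcon hw

theorem Dom.cover (h : Dom (m + 1) c a b L) {ε : ℝ} (hε : 0 < ε)
    {F : E (m + 1) → E (m + 1)} (hF : GoodM (m + 1) c a L ε F) {ρ : ℝ}
    (hcov : ∀ z, ‖z‖ ≤ ρ → z ∉ L → ∃ y, 1 < ‖y‖ ∧ F y = z) :
    ∃ R : ℝ, ∀ z, ‖z‖ ≤ ρ → z ∉ L → ∃ y, 1 < ‖y‖ ∧ ‖y‖ ≤ R ∧ F y = z := by
  have ha := h.ha
  have hC : IsCompact (closedBall (0 : E (m + 1)) ρ ∩ (L \ c '' sphere 0 1)ᶜ) :=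
    (isCompact_closedBall _ _).inter_right h.opn.isClosed_compl
  have hsub : closedBall (0 : E (m + 1)) ρ ∩ (L \ c '' sphere 0 1)ᶜ ⊆
      ⋃ k : ℕ, F '' {y | a < ‖y‖ ∧ ‖y‖ < k} := by
    rintro z ⟨hz1, hz2⟩
    have h1 : ∃ y, a < ‖y‖ ∧ F y = z := by
      by_cases hzL : z ∈ L
      · have h3 : z ∈ c '' sphere 0 1 := by
          by_contra hcon
          exact hz2 ⟨hzL, hcon⟩
        obtain ⟨y, hy, rfl⟩ := h3
        have hy1 := mem_sphere_zero_iff_norm.1 hy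
        exact ⟨y, by linarith, hF.eq y (by linarith) (by linarith)⟩
      · obtain ⟨y, hy, hyz⟩ := hcov z (mem_closedBall_zero_iff.1 hz1) hzL
        exact ⟨y, by linarith, hyz⟩
    obtain ⟨y, hy, hyz⟩ := h1
    obtain ⟨k, hk⟩ := exists_nat_gt ‖y‖
    exact mem_iUnion.2 ⟨k, y, ⟨hy, hk⟩, hyz⟩
  obtain ⟨t, ht⟩ := hC.elim_finite_subcover (fun k : ℕ => F '' {y | a < ‖y‖ ∧ ‖y‖ < k})
    (fun k => isOpen_image_of_LD ((isOpen_lt continuous_const continuous_norm).inter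
      (isOpen_lt continuous_norm continuous_const)) fun y hy => hF.ld y hy.1) hsub
  obtain ⟨K, hK⟩ := t.exists_nat_subset_range
  refine ⟨K, fun z hz hzL => ?_⟩
  obtain ⟨k, hk, y, hy, hyz⟩ := mem_iUnion₂.1 (ht ⟨mem_closedBall_zero_iff.2 hz, fun h2 =>
    hzL h2.1⟩)
  have h2 : k < K := Finset.mem_range.1 (hK hk)
  have h3 : (k : ℝ) < K := by exact_mod_cast h2
  refine ⟨y, ?_, by linarith [hy.2], hyz⟩
  by_contra hcon
  apply hzL
  rw [← hyz, hF.eq y hy.1 (by linarith)]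
  exact (h.mem y ⟨hy.1, by linarith [h.hb]⟩).2 (not_lt.1 hcon)

/-- **The complement of the domain is the complement of a ball.** -/
theorem Dom.exists_F (h : Dom (m + 1) c a b L) : ∃ (F : E (m + 1) → E (m + 1)) (ε : ℝ), 0 < ε ∧
    1 + ε < b ∧ InjOn F {y | a < ‖y‖} ∧ (∀ y, a < ‖y‖ → LD (m + 1) F y) ∧
    (∀ y, a < ‖y‖ → ‖y‖ ≤ 1 + ε → F y = c y) ∧ (∀ y, 1 < ‖y‖ → F y ∉ L) ∧
    (∀ z, z ∉ L → ∃ y, 1 < ‖y‖ ∧ F y = z) ∧
    ∀ ρ : ℝ, ∃ R : ℝ, ∀ y, R < ‖y‖ → ρ < ‖F y‖ := by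
  classical
  have ha := h.ha
  obtain ⟨ε, hε, hεb, hbase⟩ := h.base
  let P : ℕ → (E (m + 1) → E (m + 1)) × ℝ → Prop := fun k p =>
    GoodM (m + 1) c a L ε p.1 ∧ (k : ℝ) ≤ p.2 ∧
      ∀ z, ‖z‖ ≤ k → z ∉ L → ∃ y, 1 < ‖y‖ ∧ ‖y‖ ≤ p.2 ∧ p.1 y = z
  let Q : (E (m + 1) → E (m + 1)) × ℝ → (E (m + 1) → E (m + 1)) × ℝ → Prop := fun p q =>
    p.2 ≤ q.2 ∧ ∀ y, a < ‖y‖ → ‖y‖ ≤ p.2 → q.1 y = p.1 y
  have hstart : ∃ p, P 0 p := by
    obtain ⟨F, hF, hcov⟩ := hbase ((0 : ℕ) : ℝ)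
    obtain ⟨R, hR⟩ := h.cover hε hF hcov
    refine ⟨(F, max R 0), hF, ?_, fun z hz hzL => ?_⟩
    · rw [Nat.cast_zero]
      exact le_max_right _ _
    · obtain ⟨y, hy1, hy2, hy3⟩ := hR z hz hzL
      exact ⟨y, hy1, hy2.trans (le_max_left _ _), hy3⟩
  have hnext : ∀ k p, P k p → ∃ q, P (k + 1) q ∧ Q p q := by
    rintro k ⟨F, R⟩ ⟨hF, hkR, hcov⟩
    obtain ⟨F', hF', hF'F, hcov'⟩ := h.step hε hεb hbase hF R ((k + 1 : ℕ) : ℝ)
    obtain ⟨R', hR'⟩ := h.cover hε hF' hcov'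
    refine ⟨(F', max R' (R + 1)), ⟨hF', ?_, fun z hz hzL => ?_⟩, ?_, hF'F⟩
    · have h1 : (k : ℝ) ≤ R := hkR
      push_cast
      exact le_trans (by linarith) (le_max_right _ _)
    · obtain ⟨y, hy1, hy2, hy3⟩ := hR' z hz hzL
      exact ⟨y, hy1, hy2.trans (le_max_left _ _), hy3⟩
    · show R ≤ max R' (R + 1)
      exact le_trans (by linarith) (le_max_right _ _)
  obtain ⟨p0, hp0⟩ := hstart
  choose! next hnext1 hnext2 using hnext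
  let seq : ℕ → (E (m + 1) → E (m + 1)) × ℝ := fun k => Nat.rec p0 (fun k p => next k p) k
  have hseq : ∀ k, seq (k + 1) = next k (seq k) := fun k => rfl
  have hP : ∀ k, P k (seq k) := by
    intro k
    induction k with
    | zero => exact hp0
    | succ k ih => rw [hseq]; exact hnext1 k _ ih
  have hQ : ∀ k, Q (seq k) (seq (k + 1)) := fun k => by
    rw [hseq]; exact hnext2 k _ (hP k)
  have hmono : ∀ k j, k ≤ j → Q (seq k) (seq j) := by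
    intro k j hkj
    induction j, hkj using Nat.le_induction with
    | base => exact ⟨le_rfl, fun _ _ _ => rfl⟩
    | succ j _ ih =>
      refine ⟨ih.1.trans (hQ j).1, fun y hy1 hy2 => ?_⟩
      rw [(hQ j).2 y hy1 (hy2.trans ih.1), ih.2 y hy1 hy2]
  set F : E (m + 1) → E (m + 1) := fun y => (seq ⌈‖y‖⌉₊).1 y with hF
  have hFk : ∀ k y, a < ‖y‖ → ‖y‖ ≤ (seq k).2 → F y = (seq k).1 y := by
    intro k y hy1 hy2
    rcases le_total k ⌈‖y‖⌉₊ with h1 | h1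
    · exact (hmono _ _ h1).2 y hy1 hy2
    · refine ((hmono _ _ h1).2 y hy1 ?_).symm
      exact (Nat.le_ceil _).trans (hP _).2.1
  have hlarge : ∀ r : ℝ, ∃ k, r < (seq k).2 := by
    intro r
    obtain ⟨k, hk⟩ := exists_nat_gt r
    exact ⟨k, hk.trans_le (hP k).2.1⟩
  refine ⟨F, ε, hε, hεb, ?_, ?_, ?_, ?_, ?_, ?_⟩
  · intro y hy y' hy' hyy'
    obtain ⟨k, hk⟩ := hlarge (max ‖y‖ ‖y'‖)
    have h1 : ‖y‖ ≤ (seq k).2 := (le_max_left _ _).trans hk.le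
    have h2 : ‖y'‖ ≤ (seq k).2 := (le_max_right _ _).trans hk.le
    rw [hFk k y hy h1, hFk k y' hy' h2] at hyy'
    exact (hP k).1.inj hy hy' hyy'
  · intro y hy
    obtain ⟨k, hk⟩ := hlarge ‖y‖
    refine ((hP k).1.ld y hy).congr ?_
    filter_upwards [(isOpen_Shell (m + 1) a (seq k).2).mem_nhds ⟨hy, hk⟩] with z hz
    exact hFk k z hz.1 hz.2.le
  · intro y hy hy2
    obtain ⟨k, hk⟩ := hlarge ‖y‖
    rw [hFk k y hy hk.le]
    exact (hP k).1.eq y hy hy2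
  · intro y hy
    obtain ⟨k, hk⟩ := hlarge ‖y‖
    rw [hFk k y (by linarith) hk.le]
    exact (hP k).1.out y hy
  · intro z hz
    obtain ⟨y, hy1, hy2, hy3⟩ := (hP ⌈‖z‖⌉₊).2.2 z (Nat.le_ceil _) hz
    exact ⟨y, hy1, by rw [hFk _ y (by linarith) hy2]; exact hy3⟩
  · intro ρ
    refine ⟨max (seq ⌈ρ⌉₊).2 1, fun y hy => ?_⟩
    have hy1 : 1 < ‖y‖ := (le_max_right _ _).trans_lt hy
    have hyR : (seq ⌈ρ⌉₊).2 < ‖y‖ := (le_max_left _ _).trans_lt hy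
    by_contra hcon
    push Not at hcon
    have hout : F y ∉ L := by
      obtain ⟨k, hk⟩ := hlarge ‖y‖
      rw [hFk k y (by linarith) hk.le]
      exact (hP k).1.out y hy1
    obtain ⟨w, hw1, hw2, hw3⟩ := (hP ⌈ρ⌉₊).2.2 (F y) (hcon.trans (Nat.le_ceil _)) hout
    rw [← hFk _ w (by linarith) hw2] at hw3
    obtain ⟨k, hk⟩ := hlarge (max ‖y‖ ‖w‖)
    have h1 : ‖y‖ ≤ (seq k).2 := (le_max_left _ _).trans hk.le
    have h2 : ‖w‖ ≤ (seq k).2 := (le_max_right _ _).trans hk.le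
    rw [hFk k y (by linarith) h1, hFk k w (by linarith) h2] at hw3
    have h3 : w = y := (hP k).1.inj (show a < ‖w‖ by linarith) (show a < ‖y‖ by linarith) hw3
    rw [h3] at hw2
    linarith

end dom

end Pool.Agent.X175.SH
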