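import Pool.Agent.X175.SH.MB3

/-!
# The Mazur-Brown theorem: the interior of the domain is the interior of the ball off one point
-/

set_option autoImplicit false

open Set Filter Topology Metric Function MeasureTheory
open scoped Manifold ContDiff

noncomputable section

namespace Pool.Agent.X175.SH

open Pool.Agent.Y522

section inv

variable {m : ℕ} {c : E (m + 1) → E (m + 1)} {a b : ℝ} {K : Set (E (m + 1))}

theorem inv0_shell {n : ℕ} {a b : ℝ} (ha : 0 < a) (hb : 0 < b) {y : E n}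
    (hy : y ∈ Shell n b⁻¹ a⁻¹) : inv0 y ∈ Shell n a b := by
  have h0 : 0 < ‖y‖ := (inv_pos.2 hb).trans hy.1
  constructor
  · rw [norm_inv0, lt_inv_comm₀ ha h0]
    exact hy.2
  · rw [norm_inv0, inv_lt_comm₀ h0 hb]
    exact hy.1

/-- inversion of a domain at an interior point -/
theorem Dom.invert (h : Dom (m + 1) c a b K) {p : E (m + 1)} (hpK : p ∈ K \ c '' sphere 0 1)
    {a' : ℝ} (ha' : a ≤ a') (ha'1 : a' < 1) (hpc : ∀ y ∈ Shell (m + 1) a' b, c y ≠ p) :
    Dom (m + 1) (fun y => inv0 (c (inv0 y) - p)) b⁻¹ a'⁻¹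
      {z | z = 0 ∨ inv0 z + p ∉ K \ c '' sphere 0 1} := by
  have hb0 : 0 < b := one_pos.trans h.hb
  have ha0 : 0 < a' := h.ha0.trans_le ha'
  have hS : ∀ y ∈ Shell (m + 1) b⁻¹ a'⁻¹, inv0 y ∈ Shell (m + 1) a' b := fun y hy =>
    inv0_shell ha0 hb0 hy
  have hS2 : ∀ y ∈ Shell (m + 1) a' b, y ∈ Shell (m + 1) a b := fun y hy =>
    ⟨ha'.trans_lt hy.1, hy.2⟩
  have hne : ∀ y ∈ Shell (m + 1) b⁻¹ a'⁻¹, c (inv0 y) - p ≠ 0 := fun y hy =>
    sub_ne_zero.2 (hpc _ (hS y hy))
  have hy0 : ∀ y ∈ Shell (m + 1) b⁻¹ a'⁻¹, y ≠ 0 := fun y hy =>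
    norm_pos_iff.1 ((inv_pos.2 hb0).trans hy.1)
  have hsph : ∀ y ∈ Shell (m + 1) a b, (c y ∈ c '' sphere 0 1 ↔ ‖y‖ = 1) := by
    intro y hy
    constructor
    · rintro ⟨z, hz, hzy⟩
      have hz1 := mem_sphere_zero_iff_norm.1 hz
      rw [← h.inj (h.sphere_sub hz1) hy hzy]
      exact hz1
    · intro h1
      exact ⟨y, mem_sphere_zero_iff_norm.2 h1, rfl⟩
  have hsK : c '' sphere 0 1 ⊆ K := by
    rintro _ ⟨y, hy, rfl⟩
    have hy1 := mem_sphere_zero_iff_norm.1 hy
    exact (h.mem y (h.sphere_sub hy1)).2 hy1.le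
  have hKo : ∀ y ∈ Shell (m + 1) a b, (c y ∈ K \ c '' sphere 0 1 ↔ ‖y‖ < 1) := by
    intro y hy
    rw [mem_diff, h.mem y hy, hsph y hy]
    exact ⟨fun h1 => lt_of_le_of_ne h1.1 h1.2, fun h1 => ⟨h1.le, h1.ne⟩⟩
  refine ⟨inv_pos.2 hb0, inv_lt_one_of_one_lt₀ h.hb, (one_lt_inv₀ ha0).2 ha'1, ?_, ?_, ?_, ?_, ?_⟩
  · intro y hy y' hy' hyy'
    have h1 := inv0_inj hyy'
    exact inv0_inj (h.inj (hS2 _ (hS y hy)) (hS2 _ (hS y' hy')) (sub_left_injective h1))
  · intro y hy
    refine LD.comp_fun (g := inv0) (f := fun y => c (inv0 y) - p) (LD_inv0 (hne y hy)) ?_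
    have h1 : LD (m + 1) (fun z : E (m + 1) => z - p) (c (inv0 y)) := by
      simpa only [sub_eq_add_neg] using LD_add_const (-p) (c (inv0 y))
    refine LD.comp_fun (g := fun z => z - p) (f := fun y => c (inv0 y)) h1 ?_
    exact LD.comp_fun (g := c) (f := inv0) (h.ld _ (hS2 _ (hS y hy))) (LD_inv0 (hy0 y hy))
  · obtain ⟨ρ, hρ, hball⟩ := Metric.isOpen_iff.1 h.opn p hpK
    refine Metric.isCompact_of_isClosed_isBounded ?_ ?_
    · rw [← isOpen_compl_iff, isOpen_iff_mem_nhds]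
      intro z hz
      simp only [mem_compl_iff, mem_setOf_eq, not_or, not_not] at hz
      have h1 : ContinuousAt (fun z : E (m + 1) => inv0 z + p) z :=
        (contDiffAt_inv0 hz.1).continuousAt.add continuousAt_const
      filter_upwards [h1.eventually_mem (h.opn.mem_nhds hz.2), isOpen_ne.mem_nhds hz.1] with w hw
        hw0
      simp only [mem_compl_iff, mem_setOf_eq, not_or, not_not]
      exact ⟨hw0, hw⟩
    · refine (isBounded_iff_subset_closedBall (0 : E (m + 1))).2 ⟨ρ⁻¹, fun z hz => ?_⟩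
      rw [mem_closedBall_zero_iff]
      rcases hz with rfl | hz
      · rw [norm_zero]
        exact (inv_pos.2 hρ).le
      · by_contra hcon
        push Not at hcon
        refine hz (hball ?_)
        rw [mem_ball, dist_eq_norm, add_sub_cancel_right, norm_inv0]
        exact inv_lt_of_inv_lt₀ hρ hcon
  · intro y hy
    have h1 := hne y hy
    show (_ = 0 ∨ _ ∉ _) ↔ _
    rw [inv0_inv0, sub_add_cancel, hKo _ (hS2 _ (hS y hy)), norm_inv0, not_lt]
    have hy1 : 0 < ‖y‖ := norm_pos_iff.2 (hy0 y hy)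
    rw [one_le_inv₀ hy1]
    exact ⟨fun h2 => h2.resolve_left (inv0_ne h1), Or.inr⟩
  · have hC : IsCompact ((fun x => x - p) '' K) :=
      h.cpt.image (continuous_id.sub continuous_const)
    have h1 : {z | z = 0 ∨ inv0 z + p ∉ K \ c '' sphere 0 1} \
        (fun y => inv0 (c (inv0 y) - p)) '' sphere 0 1 =
        {w : E (m + 1) | w ≠ 0 ∧ inv0 w ∈ (fun x => x - p) '' K}ᶜ := by
      ext z
      have h2 : inv0 z ∈ (fun x => x - p) '' K ↔ inv0 z + p ∈ K := by
        constructor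
        · rintro ⟨x, hx, hxz⟩
          have h3 : x - p = inv0 z := hxz
          rw [← h3, sub_add_cancel]
          exact hx
        · intro h3
          exact ⟨_, h3, add_sub_cancel_right _ _⟩
      have h3 : z ∈ (fun y => inv0 (c (inv0 y) - p)) '' sphere 0 1 ↔
          z ≠ 0 ∧ inv0 z + p ∈ c '' sphere 0 1 := by
        constructor
        · rintro ⟨y, hy, rfl⟩
          have hy1 := mem_sphere_zero_iff_norm.1 hy
          have hyS : y ∈ Shell (m + 1) b⁻¹ a'⁻¹ := by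
            refine ⟨?_, ?_⟩
            · rw [hy1]; exact inv_lt_one_of_one_lt₀ h.hb
            · rw [hy1]; exact (one_lt_inv₀ ha0).2 ha'1
          refine ⟨inv0_ne (hne y hyS), inv0 y, ?_, ?_⟩
          · rw [mem_sphere_zero_iff_norm, norm_inv0, hy1, inv_one]
          · simp only [inv0_inv0, sub_add_cancel]
        · rintro ⟨_, y, hy, hyz⟩
          have hy1 := mem_sphere_zero_iff_norm.1 hy
          refine ⟨inv0 y, ?_, ?_⟩
          · rw [mem_sphere_zero_iff_norm, norm_inv0, hy1, inv_one]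
          · simp only [inv0_inv0]
            rw [hyz, add_sub_cancel_right, inv0_inv0]
      rw [mem_diff, h3, mem_compl_iff, mem_setOf_eq, mem_setOf_eq, h2, mem_diff]
      constructor
      · rintro ⟨h4, h5⟩ ⟨h6, h7⟩
        rcases h4 with h4 | h4
        · exact h6 h4
        · exact h4 ⟨h7, fun h8 => h5 ⟨h6, h8⟩⟩
      · intro h4
        refine ⟨?_, fun h5 => h4 ⟨h5.1, hsK h5.2⟩⟩
        by_cases h5 : z = 0
        · exact Or.inl h5
        · exact Or.inr fun h6 => h4 ⟨h5, h6.1⟩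
    rw [h1]
    exact (isClosed_inv0 hC).isOpen_compl

/-- **The Mazur-Brown theorem.** A compact domain bounded by a collared sphere is the image of the
closed ball under a homeomorphism which is regular off the centre and extends the given collar. -/
theorem Dom.mazur_brown (h : Dom (m + 1) c a b K) :
    ∃ (G : E (m + 1) → E (m + 1)) (r : ℝ), a ≤ r ∧ r < 1 ∧ InjOn G (ball 0 b) ∧
      (∀ y, ‖y‖ < b → ContinuousAt G y) ∧ (∀ y, y ≠ 0 → ‖y‖ < b → LD (m + 1) G y) ∧
      (∀ y, r < ‖y‖ → ‖y‖ < b → G y = c y) ∧ (∀ y, ‖y‖ < 1 → G y ∈ K \ c '' sphere 0 1) ∧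
      ∀ z ∈ K \ c '' sphere 0 1, ∃ y, ‖y‖ < 1 ∧ G y = z := by
  classical
  have ha0 := h.ha0
  have ha := h.ha
  have hb := h.hb
  have hb0 : 0 < b := one_pos.trans hb
  set y0 : E (m + 1) := ((a + 1) / 2) • e0 with hy0
  have hy0n : ‖y0‖ = (a + 1) / 2 := by
    rw [hy0, norm_smul, norm_e0, mul_one, Real.norm_of_nonneg (by linarith)]
  have hy0S : y0 ∈ Shell (m + 1) a b := ⟨by rw [hy0n]; linarith, by rw [hy0n]; linarith⟩
  set p := c y0 with hp
  set a' : ℝ := (a + 3) / 4 with ha'def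
  have ha'0 : 0 < a' := by rw [ha'def]; linarith
  have ha'1 : a' < 1 := by rw [ha'def]; linarith
  have haa' : a ≤ a' := by rw [ha'def]; linarith
  have hpK : p ∈ K \ c '' sphere 0 1 := by
    refine ⟨(h.mem y0 hy0S).2 (by rw [hy0n]; linarith), ?_⟩
    rintro ⟨z, hz, hzy⟩
    have hz1 := mem_sphere_zero_iff_norm.1 hz
    have h1 := h.inj (h.sphere_sub hz1) hy0S hzy
    rw [h1, hy0n] at hz1
    linarith
  have hpc : ∀ y ∈ Shell (m + 1) a' b, c y ≠ p := by
    intro y hy hyp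
    have h1 := h.inj ⟨haa'.trans_lt hy.1, hy.2⟩ hy0S hyp
    have h2 := hy.1
    rw [h1, hy0n, ha'def] at h2
    linarith
  have hI := h.invert hpK haa' ha'1 hpc
  obtain ⟨F, ε, hε, hεa, hFi, hFL, hFc, hFo, hFs, hFp⟩ := hI.exists_F
  have hF0 : ∀ y, b⁻¹ < ‖y‖ → F y ≠ 0 := by
    intro y hy h0
    by_cases hy1 : ‖y‖ ≤ 1
    · rw [hFc y hy (by linarith)] at h0
      have h1 : c (inv0 y) - p ≠ 0 := sub_ne_zero.2 (hpc _ (inv0_shell ha'0 hb0 ⟨hy, by linarith⟩))
      exact inv0_ne h1 h0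
    · exact hFo y (not_le.1 hy1) (Or.inl h0)
  have hinv : ∀ y : E (m + 1), y ≠ 0 → ‖y‖ < b → b⁻¹ < ‖inv0 y‖ := by
    intro y hy hyb
    rw [norm_inv0]
    exact inv_strictAnti₀ (norm_pos_iff.2 hy) hyb
  set G : E (m + 1) → E (m + 1) := fun y => if y = 0 then p else inv0 (F (inv0 y)) + p with hG
  have hG0 : G 0 = p := if_pos rfl
  have hGn : ∀ y, y ≠ 0 → G y = inv0 (F (inv0 y)) + p := fun y hy => if_neg hy
  have hGp : ∀ y, y ≠ 0 → ‖y‖ < b → G y ≠ p := by
    intro y hy hyb h1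
    rw [hGn y hy, add_eq_right] at h1
    exact inv0_ne (hF0 _ (hinv y hy hyb)) h1
  have hr1 : (1 + ε)⁻¹ < 1 := inv_lt_one_of_one_lt₀ (by linarith)
  have har : a' < (1 + ε)⁻¹ := by
    rw [lt_inv_comm₀ ha'0 (by linarith)]
    exact hεa
  have hGL : ∀ y, y ≠ 0 → ‖y‖ < b → LD (m + 1) G y := by
    intro y hy hyb
    have h1 : LD (m + 1) (fun y => inv0 (F (inv0 y)) + p) y := by
      refine LD.comp_fun (g := fun z => z + p) (f := fun y => inv0 (F (inv0 y)))
        (LD_add_const p _) ?_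
      refine LD.comp_fun (g := inv0) (f := fun y => F (inv0 y)) (LD_inv0 (hF0 _ (hinv y hy hyb))) ?_
      exact LD.comp_fun (g := F) (f := inv0) (hFL _ (hinv y hy hyb)) (LD_inv0 hy)
    refine h1.congr ?_
    filter_upwards [isOpen_ne.mem_nhds hy] with z hz
    exact hGn z hz
  refine ⟨G, (1 + ε)⁻¹, by linarith, hr1, ?_, ?_, hGL, ?_, ?_, ?_⟩
  · intro y hy y' hy' hyy'
    rw [mem_ball_zero_iff] at hy hy'
    by_cases h1 : y = 0
    · by_cases h2 : y' = 0
      · rw [h1, h2]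
      · rw [h1, hG0] at hyy'
        exact absurd hyy'.symm (hGp y' h2 hy')
    · by_cases h2 : y' = 0
      · rw [h2, hG0] at hyy'
        exact absurd hyy' (hGp y h1 hy)
      · rw [hGn y h1, hGn y' h2, add_left_inj] at hyy'
        exact inv0_inj (hFi (hinv y h1 hy) (hinv y' h2 hy') (inv0_inj hyy'))
  · intro y hy
    by_cases h1 : y = 0
    · subst h1
      rw [ContinuousAt, hG0, Metric.tendsto_nhds]
      intro ρ hρ
      obtain ⟨R, hR⟩ := hFp ρ⁻¹
      have hδ : (0 : ℝ) < (max R 1)⁻¹ := inv_pos.2 (lt_of_lt_of_le one_pos (le_max_right _ _))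
      filter_upwards [ball_mem_nhds (0 : E (m + 1)) hδ] with z hz
      rw [mem_ball_zero_iff] at hz
      by_cases hz0 : z = 0
      · rw [hz0, hG0, dist_self]
        exact hρ
      · rw [hGn z hz0, dist_eq_norm, add_sub_cancel_right, norm_inv0]
        have h2 : R < ‖inv0 z‖ := by
          rw [norm_inv0]
          refine (le_max_left R 1).trans_lt ?_
          rw [lt_inv_comm₀ (lt_of_lt_of_le one_pos (le_max_right _ _)) (norm_pos_iff.2 hz0)]
          exact hz
        exact inv_lt_of_inv_lt₀ hρ (hR _ h2)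
    · exact (hGL y h1 hy).continuousAt
  · intro y hy hyb
    have h1 : y ≠ 0 := norm_pos_iff.1 (by linarith)
    have h2 : ‖inv0 y‖ ≤ 1 + ε := by
      rw [norm_inv0]
      exact (inv_lt_of_inv_lt₀ (by linarith) hy).le
    rw [hGn y h1, hFc _ (hinv y h1 hyb) h2, inv0_inv0, inv0_inv0, sub_add_cancel]
  · intro y hy
    by_cases h1 : y = 0
    · rw [h1, hG0]
      exact hpK
    · rw [hGn y h1]
      have h2 : 1 < ‖inv0 y‖ := by
        rw [norm_inv0]
        exact (one_lt_inv₀ (norm_pos_iff.2 h1)).2 hy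
      by_contra hcon
      exact hFo _ h2 (Or.inr hcon)
  · intro z hz
    by_cases h1 : z = p
    · exact ⟨0, by rw [norm_zero]; exact one_pos, by rw [hG0, h1]⟩
    · have h2 : z - p ≠ 0 := sub_ne_zero.2 h1
      obtain ⟨y, hy, hyz⟩ := hFs (inv0 (z - p)) (by
        rintro (h3 | h3)
        · exact inv0_ne h2 h3
        · rw [inv0_inv0, sub_add_cancel] at h3
          exact h3 hz)
      have hy0' : y ≠ 0 := norm_pos_iff.1 (by linarith)
      refine ⟨inv0 y, ?_, ?_⟩
      · rw [norm_inv0]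
        exact inv_lt_one_of_one_lt₀ hy
      · rw [hGn _ (inv0_ne hy0'), inv0_inv0, hyz, inv0_inv0, sub_add_cancel]

end inv

end Pool.Agent.X175.SH
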