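import Pool.Agent.X175.SH.UCor

/-!
# Theorem U for thin bad sets
-/

set_option autoImplicit false

open Set Filter Topology Metric Function MeasureTheory
open scoped Manifold ContDiff

noncomputable section

namespace Pool.Agent.X175.SH

open Pool.Agent.Y522

/-- `B` is thin: for each coordinate the values in any interval which the coordinate does not take on
`B` have positive measure, and there are such norms in `(R, ∞)` for all `R`. -/
def Thin {n : ℕ} (B : Set (E n)) : Prop :=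
  (∀ i (a b : ℝ), a < b → volume {c : ℝ | a < c ∧ c < b ∧ ∀ y ∈ B, y i ≠ c} ≠ 0) ∧
  ∀ R : ℝ, volume {r : ℝ | R < r ∧ ∀ y ∈ B, ‖y‖ ≠ r} ≠ 0

theorem not_null_diff {A N : Set ℝ} (hA : volume A ≠ 0) (hN : volume N = 0) :
    ∃ c ∈ A, c ∉ N := by
  by_contra hcon
  push Not at hcon
  exact hA (measure_mono_null hcon hN)

/-- sets of one-dimensional measure zero are thin -/
theorem thin_of_null {n : ℕ} {B : Set (E n)} (hB : μH[1] B = 0) : Thin B := by
  constructor
  · intro i a b hab h0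
    have h2 : volume ((fun z : E n => z i) '' B) = 0 := by
      refine image_null_of_lipschitz hB (LipschitzWith.of_dist_le_mul fun x y => ?_)
      rw [NNReal.coe_one, one_mul, dist_eq_norm, dist_eq_norm]
      have := PiLp.norm_apply_le (x - y) i
      simpa using this
    have h3 : volume (Ioo a b) = 0 := by
      refine measure_mono_null (t := {c : ℝ | a < c ∧ c < b ∧ ∀ y ∈ B, y i ≠ c} ∪
        (fun z : E n => z i) '' B) ?_ (measure_union_null h0 h2)
      intro c hc
      by_cases h : ∀ y ∈ B, y i ≠ c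
      · exact Or.inl ⟨hc.1, hc.2, h⟩
      · push Not at h
        obtain ⟨y, hy, hyc⟩ := h
        exact Or.inr ⟨y, hy, hyc⟩
    rw [Real.volume_Ioo, ENNReal.ofReal_eq_zero] at h3
    linarith
  · intro R h0
    have h2 : volume ((fun z : E n => ‖z‖) '' B) = 0 :=
      image_null_of_lipschitz hB lipschitzWith_one_norm
    have h3 : volume (Ioi R) = 0 := by
      refine measure_mono_null (t := {r : ℝ | R < r ∧ ∀ y ∈ B, ‖y‖ ≠ r} ∪
        (fun z : E n => ‖z‖) '' B) ?_ (measure_union_null h0 h2)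
      intro c hc
      by_cases h : ∀ y ∈ B, ‖y‖ ≠ c
      · exact Or.inl ⟨hc, h⟩
      · push Not at h
        obtain ⟨y, hy, hyc⟩ := h
        exact Or.inr ⟨y, hy, hyc⟩
    rw [Real.volume_Ioi] at h3
    exact absurd h3 ENNReal.top_ne_zero

/-- compact sets with nowhere dense coordinate projections are thin -/
theorem thin_of_compact {n : ℕ} {B : Set (E n)} (hB : IsCompact B)
    (hd : ∀ i, Dense {c : ℝ | ∀ y ∈ B, y i ≠ c}) : Thin B := by
  constructor
  · intro i a b hab h0
    have hcl : IsClosed ((fun z : E n => z i) '' B) := by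
      have hc : Continuous fun z : E n => z i := by fun_prop
      exact (hB.image hc).isClosed
    obtain ⟨c, hc, hac, hcb⟩ := (hd i).exists_between hab
    have hopen : IsOpen (Ioo a b ∩ ((fun z : E n => z i) '' B)ᶜ) := isOpen_Ioo.inter hcl.isOpen_compl
    have hne : (Ioo a b ∩ ((fun z : E n => z i) '' B)ᶜ).Nonempty := by
      refine ⟨c, ⟨hac, hcb⟩, ?_⟩
      rintro ⟨y, hy, hyc⟩
      exact hc y hy hyc
    refine (hopen.measure_pos volume hne).ne' (measure_mono_null ?_ h0)
    rintro t ⟨ht, ht2⟩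
    exact ⟨ht.1, ht.2, fun y hy hyc => ht2 ⟨y, hy, hyc⟩⟩
  · intro R h0
    obtain ⟨M, hM⟩ := hB.isBounded.subset_closedBall (0 : E n)
    have h1 : volume (Ioi (max R M)) = 0 := by
      refine measure_mono_null ?_ h0
      intro r hr
      have hr' : max R M < r := hr
      refine ⟨(le_max_left _ _).trans_lt hr', fun y hy hyr => ?_⟩
      have h2 := hM hy
      rw [mem_closedBall_zero_iff, hyr] at h2
      exact absurd ((le_max_right R M).trans_lt hr') (not_lt.2 h2)
    rw [Real.volume_Ioi] at h1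
    exact absurd h1 ENNReal.top_ne_zero

section main

variable {m : ℕ} {X : Type} [TopologicalSpace X] [T2Space X] [ChartedSpace (E (m + 1)) X]
    [IsManifold (𝓡 (m + 1)) ∞ X]

/-- **Theorem U** for thin bad sets. -/
theorem thinU (H : X → E (m + 1)) (hH : IsProperMap H)
    (hsurj : Surjective H) (B : Set (E (m + 1))) (hB : IsClosed B) (hT : Thin B)
    (hinj : ∀ x y, H x ∉ B → H x = H y → x = y)
    (hsm : ∀ x, H x ∉ B → ContMDiffAt (𝓡 (m + 1)) (𝓡 (m + 1)) ∞ H x)
    (hfib : ∀ y ∈ B, Emb (m + 1) (H ⁻¹' {y})) :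
    (∀ K : Set X, IsCompact K → Emb (m + 1) K) ∧
      Nonempty (Diffeomorph (𝓡 (m + 1)) (𝓡 (m + 1)) X (E (m + 1)) ∞) := by
  have : SigmaCompactSpace X := sigmaCompact_of_proper hH
  have : SecondCountableTopology X :=
    ChartedSpace.secondCountable_of_sigmaCompact (E (m + 1)) X
  have hU : IsOpen (H ⁻¹' Bᶜ) := hB.isOpen_compl.preimage hH.continuous
  refine mainU H hH hsurj B hB hinj hsm hfib ?_ ?_
  · intro i
    have hpr : ContDiff ℝ ∞ (fun z : E (m + 1) => z i) := by fun_prop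
    have h1 := sardMU (fun x => H x i) (H ⁻¹' Bᶜ) hU (fun x hx =>
      (contMDiff_iff_contDiff.2 hpr).contMDiffAt.comp x (hsm x hx))
    refine dense_iff_inter_open.2 fun U hUo hUn => ?_
    obtain ⟨u, hu⟩ := hUn
    obtain ⟨ε, hε, hball⟩ := Metric.isOpen_iff.1 hUo u hu
    obtain ⟨c, ⟨hc1, hc2, hc3⟩, hc4⟩ := not_null_diff (hT.1 i (u - ε) (u + ε) (by linarith)) h1
    refine ⟨c, hball ?_, hc3, fun x hx h0 => hc4 ⟨x, ⟨?_, h0⟩, hx⟩⟩
    · rw [Real.ball_eq_Ioo]
      exact ⟨hc1, hc2⟩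
    · intro hxB
      exact hc3 _ hxB hx
  · intro R
    have hpr : ContDiff ℝ ∞ (fun z : E (m + 1) => ‖z‖ ^ 2) := contDiff_norm_sq ℝ
    have h1 := sardMU (fun x => ‖H x‖ ^ 2) (H ⁻¹' Bᶜ) hU (fun x hx =>
      (contMDiff_iff_contDiff.2 hpr).contMDiffAt.comp x (hsm x hx))
    set N : Set ℝ := (fun x => ‖H x‖ ^ 2) '' {x | x ∈ H ⁻¹' Bᶜ ∧
          mfderiv (𝓡 (m + 1)) 𝓘(ℝ, ℝ) (fun x => ‖H x‖ ^ 2) x = 0} with hN
    have h2 : volume (Real.sqrt '' (N ∩ Ioi 0)) = 0 := by
      refine addHaar_image_eq_zero_of_differentiableOn_of_addHaar_eq_zero volume ?_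
        (measure_mono_null inter_subset_left h1)
      intro t ht
      exact (Real.hasDerivAt_sqrt (ne_of_gt ht.2)).differentiableAt.differentiableWithinAt
    obtain ⟨r, ⟨hr1, hr2⟩, hr3⟩ := not_null_diff (hT.2 (max R 0)) h2
    have hr0 : 0 < r := (le_max_right _ _).trans_lt hr1
    refine ⟨r, (le_max_left _ _).trans_lt hr1, hr2, fun x hx h0 => hr3 ?_⟩
    refine ⟨r ^ 2, ⟨⟨x, ⟨?_, h0⟩, by simp only [hx]⟩, by
      show (0 : ℝ) < r ^ 2
      positivity⟩, Real.sqrt_sq hr0.le⟩
    intro hxB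
    exact hr2 _ hxB hx

end main

end Pool.Agent.X175.SH
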