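import Pool.Agent.X175.SH.MB4
import Pool.Agent.X175.SH.UThin

/-!
# Homeomorphisms whose singular values lie in a cell
-/

set_option autoImplicit false

open Set Filter Topology Metric Function MeasureTheory
open scoped Manifold ContDiff

noncomputable section

namespace Pool.Agent.X175.SH

open Pool.Agent.Y522

section opens

variable {n : ℕ} {M : Type} [TopologicalSpace M] [ChartedSpace (E n) M] [IsManifold (𝓡 n) ∞ M]

open Classical in
/-- an inverse of the inclusion of an open set -/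
def iv (U : TopologicalSpace.Opens M) (x₀ : U) (y : M) : U := if h : y ∈ U then ⟨y, h⟩ else x₀

theorem iv_val (U : TopologicalSpace.Opens M) (x₀ : U) (x : U) : iv U x₀ x.1 = x := dif_pos x.2

omit [IsManifold (𝓡 n) ∞ M] in
theorem LD_val (U : TopologicalSpace.Opens M) (x : U) :
    LD n (Subtype.val : U → M) x := by
  refine ⟨{ toFun := Subtype.val, invFun := iv U x, source := univ, target := U,
            map_source' := fun y _ => y.2, map_target' := fun _ _ => mem_univ _,
            left_inv' := fun y _ => iv_val U x y, right_inv' := fun m hm => ?_,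
            open_source := isOpen_univ, open_target := U.isOpen,
            contMDiffOn_toFun := contMDiff_subtype_val.contMDiffOn,
            contMDiffOn_invFun := ?_ }, mem_univ _, fun _ _ => rfl⟩
  · have h1 := iv_val U x ⟨m, hm⟩
    exact congrArg Subtype.val h1
  · intro y hy
    refine ContMDiffAt.contMDiffWithinAt ?_
    refine (contMDiffAt_subtype_iff (x := (⟨y, hy⟩ : U))).1 ?_
    have h1 : (fun z : U => iv U x z.1) = fun z => z := funext fun z => iv_val U x z
    rw [h1]
    exact contMDiffAt_id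

omit [IsManifold (𝓡 n) ∞ M] in
theorem Emb_val (U : TopologicalSpace.Opens M) {K : Set U} (h : Emb n K) :
    Emb n (Subtype.val '' K) := by
  obtain ⟨V, k, hV, hKV, hk, hkL⟩ := h
  rcases K.eq_empty_or_nonempty with rfl | ⟨x₀, hx₀⟩
  · rw [image_empty]
    exact ⟨∅, fun _ => 0, isOpen_empty, subset_rfl, injOn_empty _, fun x hx => hx.elim⟩
  refine ⟨Subtype.val '' V, fun x => k (iv U x₀ x), U.isOpen.isOpenMap_subtype_val _ hV,
    image_mono hKV, ?_, ?_⟩
  · rintro _ ⟨x, hx, rfl⟩ _ ⟨y, hy, rfl⟩ hxy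
    simp only [iv_val] at hxy
    rw [hk hx hy hxy]
  · rintro _ ⟨x, hx, rfl⟩
    have h1 : LD n (iv U x₀) x.1 := LD.inverse (k := (Subtype.val : U → M)) isOpen_univ
      (fun z _ => LD_val U z) (fun z _ => iv_val U x₀ z) (mem_univ x)
    have h2 : LD n k (iv U x₀ x.1) := by
      rw [iv_val]
      exact hkL x hx
    exact LD.comp_fun (g := k) (f := iv U x₀) h2 h1

end opens

/-- continuity of an inverse at the centre -/
theorem contAt_inv {n : ℕ} {G G' : E n → E n} {s : ℝ} (hs : 0 < s)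
    (hi : InjOn G (closedBall 0 s)) (hc : ∀ y ∈ closedBall 0 s, ContinuousAt G y)
    (hn : G '' closedBall 0 s ∈ 𝓝 (G 0)) (hG' : ∀ y ∈ closedBall 0 s, G' (G y) = y) :
    ContinuousAt G' (G 0) := by
  have : CompactSpace (closedBall (0 : E n) s) :=
    isCompact_iff_compactSpace.1 (isCompact_closedBall _ _)
  let f : closedBall (0 : E n) s → E n := fun y => G y
  have hf : Continuous f := by
    rw [continuous_iff_continuousAt]
    intro y
    exact (hc y.1 y.2).comp continuous_subtype_val.continuousAt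
  have hfi : Injective f := fun x y hxy => Subtype.ext (hi x.2 y.2 hxy)
  have hfe := hf.isClosedEmbedding hfi
  let o : closedBall (0 : E n) s := ⟨0, mem_closedBall_self hs.le⟩
  have h1 : range f = G '' closedBall 0 s := by
    ext z
    constructor
    · rintro ⟨y, rfl⟩
      exact ⟨y.1, y.2, rfl⟩
    · rintro ⟨y, hy, rfl⟩
      exact ⟨⟨y, hy⟩, rfl⟩
  have h2 : Filter.map f (𝓝 o) = 𝓝 (f o) :=
    hfe.isEmbedding.map_nhds_of_mem o (by rw [h1]; exact hn)
  show Tendsto G' (𝓝 (f o)) (𝓝 (G' (G 0)))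
  rw [← h2, tendsto_map'_iff, hG' 0 (mem_closedBall_self hs.le)]
  have h3 : G' ∘ f = Subtype.val := funext fun y => hG' y.1 y.2
  rw [h3]
  exact continuous_subtype_val.continuousAt

section main

variable {m : ℕ} {M N : Type} [TopologicalSpace M] [T2Space M] [ChartedSpace (E (m + 1)) M]
    [IsManifold (𝓡 (m + 1)) ∞ M] [TopologicalSpace N] [T2Space N] [ChartedSpace (E (m + 1)) N]

omit [T2Space N] in
/-- compact preimages in a cell embed -/
theorem emb_over_cell (g : M → N) (hg : IsProperMap g) (hs : Surjective g)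
    (c : E (m + 1) → N) (hci : Injective c) (hcL : ∀ y, LD (m + 1) c y)
    (B : Set (E (m + 1))) (hB : IsClosed B) (hT : Thin B)
    (hinj : ∀ x y, g x ∈ range c → g x ∉ c '' B → g x = g y → x = y)
    (hsm : ∀ x, g x ∈ range c → g x ∉ c '' B → ContMDiffAt (𝓡 (m + 1)) (𝓡 (m + 1)) ∞ g x)
    (hfib : ∀ y ∈ B, Emb (m + 1) (g ⁻¹' {c y})) {K : Set M} (hK : IsCompact K)
    (hKc : K ⊆ g ⁻¹' range c) : Emb (m + 1) K := by
  have hcc : Continuous c := continuous_iff_continuousAt.2 fun y => (hcL y).continuousAt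
  have hcom : IsOpenMap c := fun s hs => isOpen_image_of_LD hs fun x _ => hcL x
  have hce : IsOpenEmbedding c := .of_continuous_injective_isOpenMap hcc hci hcom
  let X : TopologicalSpace.Opens M := ⟨g ⁻¹' range c, hce.isOpen_range.preimage hg.continuous⟩
  let e : E (m + 1) ≃ₜ range c := hce.isEmbedding.toHomeomorph
  let H : X → E (m + 1) := fun x => e.symm ⟨g x.1, x.2⟩
  have hcH : ∀ x : X, c (H x) = g x.1 := by
    intro x
    have h1 : (e (e.symm ⟨g x.1, x.2⟩) : range c) = ⟨g x.1, x.2⟩ := e.apply_symm_apply _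
    exact congrArg Subtype.val h1
  have hHp : IsProperMap H := by
    have h1 : IsProperMap ((range c).restrictPreimage g) := hg.restrictPreimage _
    have h2 : IsProperMap (e.symm : range c → E (m + 1)) := e.symm.isProperMap
    exact h2.comp h1
  have hHs : Surjective H := by
    intro y
    obtain ⟨x, hx⟩ := hs (c y)
    refine ⟨⟨x, ⟨y, hx.symm⟩⟩, hci ?_⟩
    rw [hcH]
    exact hx
  have hHB : ∀ x : X, (H x ∈ B ↔ g x.1 ∈ c '' B) := by
    intro x
    constructor
    · intro h
      exact ⟨H x, h, hcH x⟩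
    · rintro ⟨y, hy, hyx⟩
      rw [← hcH x] at hyx
      rw [← hci hyx]
      exact hy
  -- the inverse of `c`
  have hne : Nonempty (E (m + 1)) := ⟨0⟩
  let c' : N → E (m + 1) := invFun c
  have hc' : ∀ y, c' (c y) = y := leftInverse_invFun hci
  have hc'L : ∀ y, LD (m + 1) c' (c y) := fun y =>
    LD.inverse (k := c) isOpen_univ (fun z _ => hcL z) (fun z _ => hc' z) (mem_univ y)
  have hHc' : ∀ x : X, H x = c' (g x.1) := fun x => by rw [← hcH x, hc']
  have hval : (Subtype.val : X → M) '' (Subtype.val ⁻¹' K) = K := by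
    ext x
    constructor
    · rintro ⟨y, hy, rfl⟩
      exact hy
    · intro hx
      exact ⟨⟨x, hKc hx⟩, hx, rfl⟩
  have h1 := (thinU (X := X) H hHp hHs B hB hT ?_ ?_ ?_).1
  · have h2 : Emb (m + 1) ((Subtype.val : X → M) ⁻¹' K) := by
      refine h1 _ ?_
      rw [Subtype.isCompact_iff, hval]
      exact hK
    have h3 := Emb_val X h2
    rwa [hval] at h3
  · intro x y hx hxy
    refine Subtype.ext (hinj x.1 y.1 x.2 (fun h => hx ((hHB x).2 h)) ?_)
    rw [← hcH x, ← hcH y, hxy]
  · intro x hx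
    have h2 : ContMDiffAt (𝓡 (m + 1)) (𝓡 (m + 1)) ∞ g x.1 :=
      hsm x.1 x.2 fun h => hx ((hHB x).2 h)
    have h3 : ContMDiffAt (𝓡 (m + 1)) (𝓡 (m + 1)) ∞ c' (g x.1) := by
      rw [← hcH x]
      exact (hc'L _).contMDiffAt
    have h4 : H = fun x : X => c' (g x.1) := funext hHc'
    rw [h4]
    exact h3.comp x (h2.comp x (contMDiff_subtype_val x))
  · intro y hy
    obtain ⟨U, k, hU, hKU, hk, hkL⟩ := hfib y hy
    refine ⟨Subtype.val ⁻¹' U, fun x => k x.1, hU.preimage continuous_subtype_val, ?_, ?_, ?_⟩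
    · intro x hx
      refine hKU ?_
      show g x.1 = c y
      rw [← hcH x]
      exact congrArg c hx
    · intro x hx z hz hxz
      exact Subtype.ext (hk hx hz hxz)
    · intro x hx
      exact LD.comp_fun (g := k) (f := (Subtype.val : X → M)) (hkL x.1 hx) (LD_val X x)

/-- **Singular values in a cell.** The map can be changed over the unit ball of the cell so that it
becomes a homeomorphism there, and regular off one point. -/
theorem one_point_map (g : M → N) (hg : IsProperMap g) (hs : Surjective g)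
    (c : E (m + 1) → N) (hci : Injective c) (hcL : ∀ y, LD (m + 1) c y)
    (B : Set (E (m + 1))) (hB : IsClosed B) (hT : Thin B) (a : ℝ) (ha0 : 0 < a) (ha : a < 1)
    (hBa : B ⊆ closedBall 0 a)
    (hinj : ∀ x y, g x ∈ range c → g x ∉ c '' B → g x = g y → x = y)
    (hsm : ∀ x, g x ∈ range c → g x ∉ c '' B → ContMDiffAt (𝓡 (m + 1)) (𝓡 (m + 1)) ∞ g x)
    (hfib : ∀ y ∈ B, Emb (m + 1) (g ⁻¹' {c y}))
    (hLD : ∀ x, g x ∈ range c → g x ∉ c '' closedBall 0 a → LD (m + 1) g x) :
    ∃ (G : M → N) (x₀ : M), IsProperMap G ∧ Surjective G ∧ G x₀ = c 0 ∧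
      (∀ x, g x ∉ c '' ball 0 1 → G x = g x) ∧ (∀ x, G x ∈ c '' ball 0 1 ↔ g x ∈ c '' ball 0 1) ∧
      (∀ x, g x ∉ c '' ball 0 1 → ∀ᶠ y in 𝓝 x, G y = g y) ∧
      (∀ x y, G x ∈ range c → G x = G y → x = y) ∧
      ∀ x, x ≠ x₀ → G x ∈ range c → LD (m + 1) G x := by
  classical
  have hcc : Continuous c := continuous_iff_continuousAt.2 fun y => (hcL y).continuousAt
  have hcom : IsOpenMap c := fun s hs => isOpen_image_of_LD hs fun x _ => hcL x
  have hne : Nonempty (E (m + 1)) := ⟨0⟩
  obtain ⟨c', hc'⟩ : ∃ c' : N → E (m + 1), ∀ y, c' (c y) = y :=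
    ⟨invFun c, leftInverse_invFun hci⟩
  have hc'L : ∀ y, LD (m + 1) c' (c y) := fun y =>
    LD.inverse (k := c) isOpen_univ (fun z _ => hcL z) (fun z _ => hc' z) (mem_univ y)
  obtain ⟨gi, hgi⟩ : ∃ gi : N → M, ∀ z, g (gi z) = z := ⟨surjInv hs, surjInv_eq hs⟩
  have hgi' : ∀ x, g x ∈ range c → g x ∉ c '' B → gi (g x) = x := fun x hx0 hx =>
    (hinj x _ hx0 hx (hgi _).symm).symm
  -- an embedding of a neighbourhood of the preimage of the ball of radius `2`
  have hK2 : IsCompact (g ⁻¹' (c '' closedBall 0 2)) :=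
    hg.isCompact_preimage ((isCompact_closedBall (0 : E (m + 1)) 2).image hcc)
  obtain ⟨U, k, hU, hKU, hk, hkL⟩ := emb_over_cell g hg hs c hci hcL B hB hT hinj hsm hfib hK2
    (preimage_mono (image_subset_range _ _))
  have hcb : ∀ {r : ℝ} {y : E (m + 1)}, c y ∈ c '' ball 0 r ↔ ‖y‖ < r := fun {r y} => by
    rw [hci.mem_set_image, mem_ball_zero_iff]
  have hccb : ∀ {r : ℝ} {y : E (m + 1)}, c y ∈ c '' closedBall 0 r ↔ ‖y‖ ≤ r := fun {r y} => by
    rw [hci.mem_set_image, mem_closedBall_zero_iff]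
  have hBn : ∀ y : E (m + 1), a < ‖y‖ → c y ∉ c '' B := by
    intro y hy h
    rw [hci.mem_set_image] at h
    exact absurd (mem_closedBall_zero_iff.1 (hBa h)) (not_le.2 hy)
  set c₁ : E (m + 1) → E (m + 1) := fun y => k (gi (c y)) with hc₁
  have hgiU : ∀ y : E (m + 1), ‖y‖ ≤ 2 → gi (c y) ∈ U := by
    intro y hy
    refine hKU ?_
    rw [mem_preimage, hgi]
    exact hccb.2 hy
  set K : Set (E (m + 1)) := k '' (g ⁻¹' (c '' closedBall 0 1)) with hKdef
  have hK1U : ∀ {r : ℝ}, r ≤ 2 → g ⁻¹' (c '' closedBall 0 r) ⊆ U := fun {r} hr =>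
    (preimage_mono (image_mono (closedBall_subset_closedBall hr))).trans hKU
  have hb1U : ∀ {r : ℝ}, r ≤ 2 → g ⁻¹' (c '' ball 0 r) ⊆ U := fun {r} hr =>
    (preimage_mono (image_mono ball_subset_closedBall)).trans (hK1U hr)
  -- the inverse of `g` is a local diffeomorphism over the shell
  have hW : IsOpen (g ⁻¹' (c '' {y | a < ‖y‖})) :=
    (hcom _ (isOpen_lt continuous_const continuous_norm)).preimage hg.continuous
  have hWg : ∀ x ∈ g ⁻¹' (c '' {y | a < ‖y‖}), g x ∉ c '' B ∧ LD (m + 1) g x := by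
    rintro x ⟨y, hy, hyx⟩
    refine ⟨by rw [← hyx]; exact hBn y hy, hLD x ⟨y, hyx⟩ ?_⟩
    rw [← hyx]
    intro h
    exact absurd (hccb.1 h) (not_le.2 hy)
  have hgiL : ∀ y : E (m + 1), a < ‖y‖ → LD (m + 1) gi (c y) := by
    intro y hy
    have hx : gi (c y) ∈ g ⁻¹' (c '' {y | a < ‖y‖}) := by
      rw [mem_preimage, hgi]
      exact ⟨y, hy, rfl⟩
    have h1 := LD.inverse (k := g) hW (fun x hx => (hWg x hx).2)
      (fun x hx => hgi' x (image_subset_range _ _ hx) (hWg x hx).1) hx
    rwa [hgi] at h1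
  have hsph : K \ c₁ '' sphere 0 1 = k '' (g ⁻¹' (c '' ball 0 1)) := by
    ext z
    constructor
    · rintro ⟨⟨x, ⟨y, hy, hyx⟩, rfl⟩, hz⟩
      refine ⟨x, ⟨y, ?_, hyx⟩, rfl⟩
      rw [mem_closedBall_zero_iff] at hy
      rw [mem_ball_zero_iff]
      refine lt_of_le_of_ne hy fun h1 => hz ⟨y, mem_sphere_zero_iff_norm.2 h1, ?_⟩
      show k (gi (c y)) = k x
      rw [hyx, hgi' x ⟨y, hyx⟩ (by rw [← hyx]; exact hBn y (by rw [h1]; exact ha))]
    · rintro ⟨x, ⟨y, hy, hyx⟩, rfl⟩
      rw [mem_ball_zero_iff] at hy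
      refine ⟨⟨x, ⟨y, mem_closedBall_zero_iff.2 hy.le, hyx⟩, rfl⟩, ?_⟩
      rintro ⟨w, hw, hwx⟩
      have hw1 := mem_sphere_zero_iff_norm.1 hw
      have h1 : gi (c w) = x := hk (hgiU w (by linarith))
        (hb1U (r := 1) (by norm_num) ⟨y, mem_ball_zero_iff.2 hy, hyx⟩) hwx
      have h2 : c w = c y := by rw [hyx, ← h1, hgi]
      rw [hci h2] at hw1
      linarith
  have hDom : Dom (m + 1) c₁ a 2 K := by
    refine ⟨ha0, ha, by norm_num, ?_, ?_, ?_, ?_, ?_⟩
    · intro y hy y' hy' hyy'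
      have h1 := hk (hgiU y hy.2.le) (hgiU y' hy'.2.le) hyy'
      have h2 := congrArg g h1
      rw [hgi, hgi] at h2
      exact hci h2
    · intro y hy
      refine LD.comp_fun (g := k) (f := fun y => gi (c y)) (hkL _ (hgiU y hy.2.le)) ?_
      exact LD.comp_fun (g := gi) (f := c) (hgiL y hy.1) (hcL y)
    · refine (hg.isCompact_preimage ((isCompact_closedBall (0 : E (m + 1)) 1).image
        hcc)).image_of_continuousOn fun x hx => ?_
      exact (hkL x (hK1U (by norm_num) hx)).continuousAt.continuousWithinAt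
    · intro y hy
      constructor
      · rintro ⟨x, hx, hxy⟩
        have h1 : x = gi (c y) := hk (hK1U (by norm_num) hx) (hgiU y hy.2.le) hxy
        rw [h1, mem_preimage, hgi] at hx
        exact hccb.1 hx
      · intro h1
        refine ⟨gi (c y), ?_, rfl⟩
        rw [mem_preimage, hgi]
        exact hccb.2 h1
    · rw [hsph]
      exact isOpen_image_of_LD (n := m + 1) ((hcom _ isOpen_ball).preimage hg.continuous)
        fun x hx => hkL x (hb1U (r := 1) (by norm_num) hx)
  obtain ⟨F, r, har, hr1, hFi, hFc, hFL, hFe, hFm, hFs⟩ := hDom.mazur_brown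
  rw [hsph] at hFm hFs
  -- `F` on the ball of radius two
  have hFm2 : ∀ y, ‖y‖ < 2 → F y ∈ k '' (g ⁻¹' (c '' ball 0 2)) := by
    intro y hy
    by_cases h1 : ‖y‖ < 1
    · exact image_mono (preimage_mono (image_mono (ball_subset_ball (by norm_num)))) (hFm y h1)
    · rw [hFe y (by linarith) hy]
      refine ⟨gi (c y), ?_, rfl⟩
      rw [mem_preimage, hgi]
      exact hcb.2 hy
  have hFs2 : ∀ x ∈ g ⁻¹' (c '' ball 0 2), ∃ y, ‖y‖ < 2 ∧ F y = k x := by
    rintro x ⟨w, hw, hwx⟩
    rw [mem_ball_zero_iff] at hw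
    by_cases h1 : ‖w‖ < 1
    · obtain ⟨y, hy, hyx⟩ := hFs (k x) ⟨x, ⟨w, mem_ball_zero_iff.2 h1, hwx⟩, rfl⟩
      exact ⟨y, by linarith, hyx⟩
    · refine ⟨w, hw, ?_⟩
      rw [hFe w (by linarith) hw]
      show k (gi (c w)) = k x
      rw [hwx, hgi' x ⟨w, hwx⟩ (by rw [← hwx]; exact hBn w (by linarith))]
  obtain ⟨F', hF'⟩ : ∃ F' : E (m + 1) → E (m + 1), ∀ y ∈ ball (0 : E (m + 1)) 2, F' (F y) = y :=
    ⟨invFunOn F (ball 0 2), fun y hy => hFi.leftInvOn_invFunOn hy⟩
  have hF'L : ∀ y, y ≠ 0 → ‖y‖ < 2 → LD (m + 1) F' (F y) := by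
    intro y hy hy2
    exact LD.inverse (k := F) (U := ball 0 2 ∩ {0}ᶜ) (isOpen_ball.inter isOpen_compl_singleton)
      (fun z hz => hFL z hz.2 (mem_ball_zero_iff.1 hz.1)) (fun z hz => hF' z hz.1)
      ⟨mem_ball_zero_iff.2 hy2, hy⟩
  have hF'c : ∀ y, ‖y‖ < 2 → ContinuousAt F' (F y) := by
    intro y hy
    by_cases h0 : y = 0
    · subst h0
      refine contAt_inv (s := 1) one_pos (hFi.mono (closedBall_subset_ball (by norm_num)))
        (fun z hz => hFc z (by rw [mem_closedBall_zero_iff] at hz; linarith)) ?_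
        (fun z hz => hF' z (closedBall_subset_ball (by norm_num) hz))
      have h1 : IsOpen (k '' (g ⁻¹' (c '' ball 0 1))) := by
        rw [← hsph]
        exact hDom.opn
      refine mem_of_superset (h1.mem_nhds (hFm 0 (by rw [norm_zero]; exact one_pos))) ?_
      intro z hz
      obtain ⟨y, hy, hyz⟩ := hFs z hz
      exact ⟨y, mem_closedBall_zero_iff.2 hy.le, hyz⟩
    · exact (hF'L y h0 hy).continuousAt
  -- the inverse of `k`
  have hMne : Nonempty M := ⟨gi (c 0)⟩
  obtain ⟨k', hk'⟩ : ∃ k' : E (m + 1) → M, ∀ x ∈ U, k' (k x) = x :=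
    ⟨invFunOn k U, fun x hx => hk.leftInvOn_invFunOn hx⟩
  -- the new map
  set G : M → N := fun x => if g x ∈ c '' ball 0 2 then c (F' (k x)) else g x with hG
  set Gi : N → M := fun z => if z ∈ c '' ball 0 2 then k' (F (c' z)) else gi z with hGi
  have hGin : ∀ x, g x ∈ c '' ball 0 2 → G x = c (F' (k x)) := fun x hx => if_pos hx
  have hGout : ∀ x, g x ∉ c '' ball 0 2 → G x = g x := fun x hx => if_neg hx
  -- the new map is the old one off the ball of radius `r`
  have hGe : ∀ x, g x ∉ c '' closedBall 0 r → G x = g x := by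
    intro x hx
    by_cases h1 : g x ∈ c '' ball 0 2
    · rw [hGin x h1]
      obtain ⟨w, hw, hwx⟩ := h1
      rw [mem_ball_zero_iff] at hw
      have h2 : r < ‖w‖ := by
        by_contra hcon
        apply hx
        rw [← hwx]
        exact hccb.2 (not_lt.1 hcon)
      have h3 : F w = k x := by
        rw [hFe w h2 hw]
        show k (gi (c w)) = k x
        rw [hwx, hgi' x ⟨w, hwx⟩ (by rw [← hwx]; exact hBn w (by linarith))]
      rw [← h3, hF' w (mem_ball_zero_iff.2 hw), hwx]
    · exact hGout x h1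
  have hopen : IsOpen (g ⁻¹' (c '' closedBall 0 r)ᶜ) :=
    ((isCompact_closedBall (0 : E (m + 1)) r).image hcc).isClosed.isOpen_compl.preimage
      hg.continuous
  have hGev : ∀ x, g x ∉ c '' closedBall 0 r → ∀ᶠ y in 𝓝 x, G y = g y := by
    intro x hx
    filter_upwards [hopen.mem_nhds hx] with y hy
    exact hGe y hy
  have hGFF : ∀ x, g x ∈ c '' ball 0 2 → ∃ y, ‖y‖ < 2 ∧ F y = k x ∧ G x = c y := by
    intro x hx
    obtain ⟨y, hy, hyx⟩ := hFs2 x hx
    exact ⟨y, hy, hyx, by rw [hGin x hx, ← hyx, hF' y (mem_ball_zero_iff.2 hy)]⟩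
  have hmem2 : ∀ x, G x ∈ c '' ball 0 2 ↔ g x ∈ c '' ball 0 2 := by
    intro x
    constructor
    · intro h1
      by_contra hcon
      rw [hGout x hcon] at h1
      exact hcon h1
    · intro h1
      obtain ⟨y, hy, _, hGx⟩ := hGFF x h1
      rw [hGx]
      exact hcb.2 hy
  have hleft : ∀ x, G x ∈ c '' ball 0 2 → Gi (G x) = x := by
    intro x h0
    have h1 := (hmem2 x).1 h0
    obtain ⟨y, hy, hyx, hGx⟩ := hGFF x h1
    simp only [hGi, hGx, if_pos (hcb.2 hy), hc', hyx]
    exact hk' x (hb1U le_rfl h1)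
  have hinjG : ∀ x y, G x ∈ range c → G x = G y → x = y := by
    intro x y hx hxy
    by_cases h1 : G x ∈ c '' ball 0 2
    · rw [← hleft x h1, ← hleft y (hxy ▸ h1), hxy]
    · have h2 : G y ∉ c '' ball 0 2 := hxy ▸ h1
      have h3 : g x ∉ c '' ball 0 2 := fun h => h1 ((hmem2 x).2 h)
      have h4 : g y ∉ c '' ball 0 2 := fun h => h2 ((hmem2 y).2 h)
      rw [hGout x h3, hGout y h4] at hxy
      refine hinj x y (by rw [← hGout x h3]; exact hx) (fun h => h3 ?_) hxy
      exact image_mono (hBa.trans (closedBall_subset_ball (by linarith))) h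
  have hright : ∀ z, G (Gi z) = z := by
    intro z
    by_cases h1 : z ∈ c '' ball 0 2
    · simp only [hGi, if_pos h1]
      obtain ⟨y, hy, rfl⟩ := h1
      rw [mem_ball_zero_iff] at hy
      obtain ⟨x, hx, hxy⟩ := hFm2 y hy
      rw [hc', ← hxy, hk' x (hb1U le_rfl hx), hGin x hx, hxy, hF' y (mem_ball_zero_iff.2 hy)]
    · simp only [hGi, if_neg h1]
      have h2 : g (gi z) ∉ c '' ball 0 2 := by rw [hgi]; exact h1
      rw [hGout _ h2, hgi]
  have hin : ∀ x, g x ∈ c '' ball 0 2 → ∀ᶠ y in 𝓝 x, G y = c (F' (k y)) := by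
    intro x hx
    filter_upwards [((hcom _ isOpen_ball).preimage hg.continuous).mem_nhds hx] with y hy
    exact hGin y hy
  have hGc : Continuous G := by
    rw [continuous_iff_continuousAt]
    intro x
    by_cases h1 : g x ∈ c '' ball 0 2
    · obtain ⟨y, hy, hyx, _⟩ := hGFF x h1
      have h2 : ContinuousAt F' (k x) := by
        rw [← hyx]
        exact hF'c y hy
      have h3 : ContinuousAt (fun x => c (F' (k x))) x :=
        hcc.continuousAt.comp (h2.comp (hkL x (hb1U le_rfl h1)).continuousAt)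
      exact h3.congr (by filter_upwards [hin x h1] with y hy; rw [hy])
    · have h2 : g x ∉ c '' closedBall 0 r := fun h2 =>
        h1 (image_mono (closedBall_subset_ball (by linarith)) h2)
      exact hg.continuous.continuousAt.congr (by filter_upwards [hGev x h2] with y hy; rw [hy])
  have hGcl : IsClosedMap G := by
    intro A hA
    have h1 : G '' A = g '' (A ∩ (g ⁻¹' (c '' ball 0 1))ᶜ) ∪
        G '' (A ∩ g ⁻¹' (c '' closedBall 0 1)) := by
      ext z
      constructor
      · rintro ⟨x, hx, rfl⟩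
        by_cases h2 : g x ∈ c '' closedBall 0 1
        · exact Or.inr ⟨x, ⟨hx, h2⟩, rfl⟩
        · refine Or.inl ⟨x, ⟨hx, fun h3 => h2 (image_mono ball_subset_closedBall h3)⟩, ?_⟩
          exact (hGe x fun h3 => h2 (image_mono (closedBall_subset_closedBall hr1.le) h3)).symm
      · rintro (⟨x, ⟨hx, hx2⟩, rfl⟩ | ⟨x, ⟨hx, _⟩, rfl⟩)
        · refine ⟨x, hx, hGe x fun h3 => hx2 ?_⟩
          exact image_mono (closedBall_subset_ball hr1) h3
        · exact ⟨x, hx, rfl⟩
    rw [h1]
    refine IsClosed.union (hg.isClosedMap _ (hA.inter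
      ((hcom _ isOpen_ball).preimage hg.continuous).isClosed_compl)) ?_
    refine IsCompact.isClosed (IsCompact.image ?_ hGc)
    exact (hg.isCompact_preimage ((isCompact_closedBall (0 : E (m + 1)) 1).image
      hcc)).inter_left hA
  have hfibc : ∀ z, IsCompact (G ⁻¹' {z}) := by
    intro z
    by_cases hz : z ∈ c '' ball 0 2
    · have h1 : G ⁻¹' {z} ⊆ {Gi z} := by
        intro x hx
        have hx' : G x = z := hx
        rw [mem_singleton_iff, ← hx', hleft x (by rw [hx']; exact hz)]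
      exact ((finite_singleton _).subset h1).isCompact
    · have h1 : G ⁻¹' {z} = g ⁻¹' {z} := by
        ext x
        constructor
        · intro hx
          have hx' : G x = z := hx
          show g x = z
          rw [← hGout x (fun h => hz (by rw [← hx']; exact (hmem2 x).2 h)), hx']
        · intro hx
          have hx' : g x = z := hx
          show G x = z
          rw [hGout x (by rw [hx']; exact hz), hx']
      rw [h1]
      exact hg.isCompact_preimage isCompact_singleton
  have hmem1 : ∀ x, G x ∈ c '' ball 0 1 ↔ g x ∈ c '' ball 0 1 := by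
    intro x
    constructor
    · intro h1
      by_contra hcon
      rw [hGe x fun h => hcon (image_mono (closedBall_subset_ball hr1) h)] at h1
      exact hcon h1
    · intro h1
      obtain ⟨y, hy, hyx⟩ := hFs (k x) ⟨x, h1, rfl⟩
      have h2 : g x ∈ c '' ball 0 2 := image_mono (ball_subset_ball (by norm_num)) h1
      rw [hGin x h2, ← hyx, hF' y (mem_ball_zero_iff.2 (by linarith))]
      exact hcb.2 hy
  refine ⟨G, Gi (c 0), isProperMap_iff_isClosedMap_and_compact_fibers.2 ⟨hGc, hGcl, hfibc⟩,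
    fun z => ⟨Gi z, hright z⟩, hright _, ?_, hmem1, ?_, hinjG, ?_⟩
  · intro x hx
    exact hGe x fun h => hx (image_mono (closedBall_subset_ball hr1) h)
  · intro x hx
    exact hGev x fun h => hx (image_mono (closedBall_subset_ball hr1) h)
  · intro x hx hxc
    by_cases h1 : g x ∈ c '' ball 0 2
    · obtain ⟨y, hy, hyx, hGx⟩ := hGFF x h1
      have hy0 : y ≠ 0 := by
        rintro rfl
        apply hx
        rw [← hGx, hleft x ((hmem2 x).2 h1)]
      have h2 : LD (m + 1) F' (k x) := by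
        rw [← hyx]
        exact hF'L y hy0 hy
      have h3 : LD (m + 1) (fun x => c (F' (k x))) x := by
        refine LD.comp_fun (g := c) (f := fun x => F' (k x)) (hcL _) ?_
        exact LD.comp_fun (g := F') (f := k) h2 (hkL x (hb1U le_rfl h1))
      exact h3.congr (hin x h1)
    · have h2 : g x ∉ c '' closedBall 0 r := fun h2 =>
        h1 (image_mono (closedBall_subset_ball (by linarith)) h2)
      have h3 : G x = g x := hGout x h1
      have h4 : LD (m + 1) g x := by
        refine hLD x ?_ fun h4 => h1 (image_mono (closedBall_subset_ball (by linarith)) h4)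
        rw [← h3]
        exact hxc
      exact h4.congr (hGev x h2)

/-- a proper continuous bijection is a homeomorphism -/
theorem homeo_of_proper {X Y : Type} [TopologicalSpace X] [TopologicalSpace Y] {G : X → Y}
    (hG : IsProperMap G) (hb : Bijective G) : ∃ e : X ≃ₜ Y, ∀ x, e x = G x :=
  ⟨(Equiv.ofBijective G hb).toHomeomorphOfContinuousClosed hG.continuous hG.isClosedMap,
    fun _ => rfl⟩

end main

end Pool.Agent.X175.SH
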