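import Pool.Agent.X175.SH.UThin
import Pool.Agent.Y833.SH.Boundary
import Pool.Agent.Y514.SH.Base

/-!
# Manifolds with boundary that are homeomorphic to the ball: the interior
-/

set_option autoImplicit false

open Set Filter Topology Metric Function MeasureTheory
open scoped Manifold ContDiff

noncomputable section

namespace Pool.Agent.X175.SH

open Pool.Agent.Y522

/-- preimages of sets of measure zero under a local diffeomorphism with a left inverse -/
theorem null_preimage {n : ℕ} {B : Set (E n)} (hB : μH[1] B = 0) (P Q : E n → E n)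
    (hP : Continuous P) (hQ : ∀ x, ContDiffAt ℝ 1 Q (P x)) (hQP : ∀ x, Q (P x) = x) :
    μH[1] (P ⁻¹' B) = 0 := by
  refine measure_null_of_locally_null _ fun x hx => ?_
  obtain ⟨K, t, ht, hK⟩ := (hQ x).exists_lipschitzOnWith
  refine ⟨P ⁻¹' B ∩ P ⁻¹' t, inter_mem self_mem_nhdsWithin
    (mem_nhdsWithin_of_mem_nhds (hP.continuousAt ht)), ?_⟩
  have h1 : μH[1] (Q '' (B ∩ t)) = 0 := by
    have h2 := (hK.mono (inter_subset_right : B ∩ t ⊆ t)).hausdorffMeasure_image_le
      (d := 1) zero_le_one
    have h3 : μH[1] (B ∩ t) = 0 := measure_mono_null inter_subset_left hB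
    rw [h3, mul_zero] at h2
    exact le_antisymm h2 bot_le
  refine measure_mono_null ?_ h1
  rintro y ⟨hy1, hy2⟩
  exact ⟨P y, ⟨hy1, hy2⟩, hQP y⟩

/-- points have neighbourhoods which embed in `ℝ^n` -/
theorem emb_singleton {n : ℕ} {X : Type} [TopologicalSpace X] [ChartedSpace (E n) X]
    [IsManifold (𝓡 n) ∞ X] (x : X) : Emb n ({x} : Set X) := by
  refine ⟨(chartAt (E n) x).source, chartAt (E n) x, (chartAt (E n) x).open_source, ?_,
    (chartAt (E n) x).injOn, ?_⟩
  · rintro z rfl
    exact mem_chart_source _ _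
  · intro z hz
    exact ⟨{ toPartialEquiv := (chartAt (E n) x).toPartialEquiv
             open_source := (chartAt (E n) x).open_source
             open_target := (chartAt (E n) x).open_target
             contMDiffOn_toFun := contMDiffOn_chart
             contMDiffOn_invFun := contMDiffOn_chart_symm }, hz, fun _ _ => rfl⟩

/-- the interior of a manifold with boundary homeomorphic to the ball by a homeomorphism which is
smooth at interior points off a small set -/
theorem int_diffeo (m : ℕ) (M : Type) [TopologicalSpace M]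
    [ChartedSpace (EuclideanHalfSpace (m + 1)) M] [IsManifold (𝓡∂ (m + 1)) ∞ M]
    (h : M ≃ₜ closedBall (0 : E (m + 1)) 1) (B : Set (E (m + 1))) (hB : IsClosed B)
    (hB0 : μH[1] B = 0)
    (hs : ∀ x, ‖(h x : E (m + 1))‖ < 1 → (h x : E (m + 1)) ∉ B →
      ContMDiffAt (𝓡∂ (m + 1)) (𝓡 (m + 1)) ∞ (fun x => (h x : E (m + 1))) x) :
    ∃ j : E (m + 1) → M, Injective j ∧ range j = (𝓡∂ (m + 1)).interior M ∧
      ∀ x, IsLocalDiffeomorphAt (𝓡 (m + 1)) (𝓡∂ (m + 1)) ∞ j x := by
  let := Pool.Agent.Y833.SH.csI (M := M) (𝓡∂ (m + 1))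
  have := Pool.Agent.Y833.SH.mfI (M := M) (𝓡∂ (m + 1))
  have : T2Space M := h.symm.t2Space
  set H := Pool.Agent.Y833.SH.HH (𝓡∂ (m + 1)) inferInstance h with hH
  have hHx : ∀ x, H x = OpenPartialHomeomorph.univUnitBall.symm (h x.1 : E (m + 1)) :=
    fun x => rfl
  have hlt : ∀ x : (𝓡∂ (m + 1)).interior M, ‖(h x.1 : E (m + 1))‖ < 1 := fun x =>
    (Pool.Agent.Y833.SH.int_iff (𝓡∂ (m + 1)) inferInstance h x.1).1 x.2
  have hsymm : ∀ y : E (m + 1), ‖y‖ < 1 →
      ContDiffAt ℝ ∞ (OpenPartialHomeomorph.univUnitBall.symm : E (m + 1) → E (m + 1)) y :=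
    fun y hy => (OpenPartialHomeomorph.contDiffOn_univUnitBall_symm (n := ⊤)).contDiffAt
      (isOpen_ball.mem_nhds (mem_ball_zero_iff.2 hy))
  have hub : ∀ y : E (m + 1), ‖(OpenPartialHomeomorph.univUnitBall y : E (m + 1))‖ < 1 := fun y =>
    mem_ball_zero_iff.1 (OpenPartialHomeomorph.univUnitBall.map_source (mem_univ y))
  have hubc : Continuous (OpenPartialHomeomorph.univUnitBall : E (m + 1) → E (m + 1)) :=
    (OpenPartialHomeomorph.contDiff_univUnitBall (n := 0)).continuous
  set B' : Set (E (m + 1)) := (OpenPartialHomeomorph.univUnitBall : E (m + 1) → E (m + 1)) ⁻¹' B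
    with hB'
  have hB'0 : μH[1] B' = 0 := by
    refine null_preimage hB0 _ (OpenPartialHomeomorph.univUnitBall.symm) hubc (fun x => ?_)
      (fun x => ?_)
    · exact (hsymm _ (hub x)).of_le (by simp)
    · exact OpenPartialHomeomorph.univUnitBall.left_inv (mem_univ x)
  have hoff : ∀ x, H x ∉ B' → (h x.1 : E (m + 1)) ∉ B := by
    intro x hx hxB
    apply hx
    show OpenPartialHomeomorph.univUnitBall (H x) ∈ B
    rw [hHx, OpenPartialHomeomorph.univUnitBall.right_inv
      (by rw [OpenPartialHomeomorph.univUnitBall_target, mem_ball_zero_iff]; exact hlt x)]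
    exact hxB
  obtain ⟨-, ⟨D⟩⟩ := thinU (m := m) (X := (𝓡∂ (m + 1)).interior M) H H.isProperMap H.surjective B'
    (hB.preimage hubc) (thin_of_null hB'0) (fun x y _ hxy => H.injective hxy)
    (fun x hx => by
      have h2 : ContMDiffAt (𝓡 (m + 1)) (𝓡 (m + 1)) ∞
          (fun x : (𝓡∂ (m + 1)).interior M => (h x.1 : E (m + 1))) x :=
        (hs x.1 (hlt x) (hoff x hx)).comp x (Pool.Agent.Y833.SH.contMDiff_val (𝓡∂ (m + 1)) x)
      exact ContMDiffAt.comp (g := (OpenPartialHomeomorph.univUnitBall.symm :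
        E (m + 1) → E (m + 1))) x (hsymm _ (hlt x)).contMDiffAt h2)
    (fun y _ => by
      have h3 : H ⁻¹' {y} = {H.symm y} := by
        ext x
        constructor
        · intro hx
          have hx' : H x = y := hx
          show x = H.symm y
          rw [← hx', H.symm_apply_apply]
        · intro hx
          have hx' : x = H.symm y := hx
          show H x = y
          rw [hx', H.apply_symm_apply]
      rw [h3]
      exact emb_singleton _)
  refine ⟨fun y => (D.symm y : M), ?_, ?_, ?_⟩
  · intro y z hyz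
    exact D.symm.injective (Subtype.ext hyz)
  · ext x
    constructor
    · rintro ⟨y, rfl⟩
      exact (D.symm y).2
    · intro hx
      exact ⟨D ⟨x, hx⟩, by simp⟩
  · intro y
    exact IsLocalDiffeomorphAt.comp (𝓡∂ (m + 1)) M (D.symm.isLocalDiffeomorph y)
      (Pool.Agent.Y833.SH.ldiff_val (𝓡∂ (m + 1)) (D.symm y))

end Pool.Agent.X175.SH
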