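import Pool.Agent.X175.SH.MB5
import Pool.Agent.X175.SH.UBd

/-!
# Flattening: homeomorphisms which are regular off a point can be made smooth there
-/

set_option autoImplicit false

open Set Filter Topology Metric Function MeasureTheory
open scoped Manifold ContDiff

noncomputable section

namespace Pool.Agent.X175.SH

open Pool.Agent.Y522

/-- smooth steps -/
def st (k : ℕ) (t : ℝ) : ℝ := Real.smoothTransition (2 ^ (k + 1) * t - 1)

theorem st_contDiff (k : ℕ) : ContDiff ℝ ∞ (st k) :=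
  Real.smoothTransition.contDiff.comp ((contDiff_const.mul contDiff_id).sub contDiff_const)

theorem st_mono (k : ℕ) : Monotone (st k) := fun s t h =>
  Real.smoothTransition.monotone (by
    have : (0 : ℝ) < 2 ^ (k + 1) := by positivity
    nlinarith)

theorem st_nonneg (k : ℕ) (t : ℝ) : 0 ≤ st k t := Real.smoothTransition.nonneg _

theorem st_le_one (k : ℕ) (t : ℝ) : st k t ≤ 1 := Real.smoothTransition.le_one _

theorem st_zero {k : ℕ} {t : ℝ} (h : t ≤ (1 / 2) ^ (k + 1)) : st k t = 0 := by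
  refine Real.smoothTransition.zero_of_nonpos ?_
  have h1 : (0 : ℝ) < 2 ^ (k + 1) := by positivity
  have h2 : (2 : ℝ) ^ (k + 1) * (1 / 2) ^ (k + 1) = 1 := by
    rw [← mul_pow]
    norm_num
  nlinarith

theorem st_one {k : ℕ} {t : ℝ} (h : (1 / 2) ^ k ≤ t) : st k t = 1 := by
  refine Real.smoothTransition.one_of_one_le ?_
  have h1 : (0 : ℝ) < 2 ^ (k + 1) := by positivity
  have h2 : (2 : ℝ) ^ (k + 1) * (1 / 2) ^ k = 2 := by
    rw [pow_succ, mul_assoc, mul_comm (2 : ℝ), ← mul_assoc, ← mul_pow]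
    norm_num
  nlinarith

theorem exists_eps {n : ℕ} (w : ℕ → E n → E n) (hw : ∀ i, ContDiff ℝ ∞ (w i))
    (hc : ∀ i, HasCompactSupport (w i)) :
    ∃ ε : ℕ → ℝ, (∀ i, 0 < ε i) ∧ HasSum ε 1 ∧ ContDiff ℝ ∞ (fun x => ∑' i, ε i • w i x) := by
  have hb : ∀ i k : ℕ, ∃ C : ℝ, ∀ x, ‖iteratedFDeriv ℝ k (w i) x‖ ≤ C := by
    intro i k
    have h1 : HasCompactSupport (iteratedFDeriv ℝ k (w i)) := (hc i).iteratedFDeriv k
    have h2 : Continuous (iteratedFDeriv ℝ k (w i)) :=
      (hw i).continuous_iteratedFDeriv (by exact_mod_cast le_top)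
    exact h1.exists_bound_of_continuous h2
  choose C hC using hb
  set D : ℕ → ℝ := fun i => 1 + ∑ k ∈ Finset.range (i + 1), |C i k| with hD
  have hD1 : ∀ i, 1 ≤ D i := fun i => by
    have : 0 ≤ ∑ k ∈ Finset.range (i + 1), |C i k| := Finset.sum_nonneg fun k _ => abs_nonneg _
    simp only [hD]
    linarith
  have hD2 : ∀ k i, k ≤ i → ∀ x, ‖iteratedFDeriv ℝ k (w i) x‖ ≤ D i := by
    intro k i hki x
    have h1 : |C i k| ≤ ∑ k ∈ Finset.range (i + 1), |C i k| :=
      Finset.single_le_sum (f := fun k => |C i k|) (fun k _ => abs_nonneg _)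
        (Finset.mem_range.2 (by omega))
    have h2 := hC i k x
    have h3 := le_abs_self (C i k)
    simp only [hD]
    linarith
  set δ : ℕ → ℝ := fun i => (1 / 2) ^ i / D i with hδ
  have hδ0 : ∀ i, 0 < δ i := fun i => div_pos (by positivity) (one_pos.trans_le (hD1 i))
  have hδ1 : ∀ i, δ i ≤ (1 / 2) ^ i := fun i => div_le_self (by positivity) (hD1 i)
  have hδs : Summable δ := Summable.of_nonneg_of_le (fun i => (hδ0 i).le) hδ1
    summable_geometric_two
  set S := ∑' i, δ i with hS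
  have hS0 : 0 < S := hδs.tsum_pos (fun i => (hδ0 i).le) 0 (hδ0 0)
  refine ⟨fun i => δ i / S, fun i => div_pos (hδ0 i) hS0, ?_, ?_⟩
  · have h1 := hδs.hasSum.div_const S
    rwa [← hS, div_self hS0.ne'] at h1
  · refine contDiff_tsum_of_eventually (v := fun _ i => (1 / 2) ^ i / S) ?_ ?_ ?_
    · intro i
      exact (hw i).const_smul _
    · intro k _
      exact summable_geometric_two.div_const S
    · intro k _
      rw [Nat.cofinite_eq_atTop]
      filter_upwards [eventually_ge_atTop k] with i hi x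
      have h1 : iteratedFDeriv ℝ k (fun x => (δ i / S) • w i x) x =
          (δ i / S) • iteratedFDeriv ℝ k (w i) x :=
        iteratedFDeriv_const_smul_apply' ((hw i).contDiffAt.of_le (by exact_mod_cast le_top))
      rw [h1, norm_smul, Real.norm_of_nonneg (div_pos (hδ0 i) hS0).le]
      calc δ i / S * ‖iteratedFDeriv ℝ k (w i) x‖ ≤ δ i / S * D i :=
            mul_le_mul_of_nonneg_left (hD2 k i hi x) (div_pos (hδ0 i) hS0).le
        _ = (1 / 2) ^ i / S := by
            have h2 : D i ≠ 0 := (one_pos.trans_le (hD1 i)).ne'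
            simp only [hδ]
            field_simp

/-- functions which are flat enough at zero -/
theorem exists_flat {n : ℕ} (h : E n → E n) (δ : ℝ) (hδ : 0 < δ) (h0 : h 0 = 0)
    (hc : ContinuousAt h 0) (hs : ∀ x, x ≠ 0 → ‖x‖ < δ → ContDiffAt ℝ ∞ h x) :
    ∃ ρ : ℝ → ℝ, Monotone ρ ∧ (∀ t, 0 < t → 0 < ρ t) ∧ (∀ t, 1 ≤ t → ρ t = 1) ∧
      (∀ t, 0 ≤ ρ t) ∧ (∀ t, 0 < t → ContDiffAt ℝ ∞ ρ t) ∧
      ContDiffAt ℝ ∞ (fun x => ρ (‖h x‖ ^ 2) • h x) 0 := by
  let χ : ContDiffBump (0 : E n) := ⟨δ / 4, δ / 2, by positivity, by linarith⟩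
  set w : ℕ → E n → E n := fun i x => χ x • st i (‖h x‖ ^ 2) • h x with hw
  have hw0 : ∀ i x, δ / 2 ≤ ‖x‖ → w i x = 0 := by
    intro i x hx
    have h1 : χ x = 0 := χ.zero_of_le_dist (by rw [dist_zero_right]; exact hx)
    simp only [hw, h1, zero_smul]
  have hws : ∀ i, ContDiff ℝ ∞ (w i) := by
    intro i
    refine contDiff_iff_contDiffAt.2 fun x => ?_
    by_cases hx0 : x = 0
    · subst hx0
      refine (contDiffAt_const (c := (0 : E n))).congr_of_eventuallyEq ?_
      have h1 : ContinuousAt (fun x => ‖h x‖ ^ 2) 0 := hc.norm.pow 2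
      have h2 : ∀ᶠ x in 𝓝 (0 : E n), ‖h x‖ ^ 2 < (1 / 2) ^ (i + 1) := by
        refine h1.eventually (gt_mem_nhds ?_)
        show ‖h 0‖ ^ 2 < _
        rw [h0, norm_zero, zero_pow two_ne_zero]
        positivity
      filter_upwards [h2] with y hy
      simp only [hw, st_zero hy.le, zero_smul, smul_zero]
    · by_cases hxδ : ‖x‖ < δ
      · have h1 := hs x hx0 hxδ
        exact χ.contDiffAt.smul (((st_contDiff i).contDiffAt.comp x (h1.norm_sq ℝ)).smul h1)
      · refine (contDiffAt_const (c := (0 : E n))).congr_of_eventuallyEq ?_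
        have h1 : ∀ᶠ y : E n in 𝓝 x, δ / 2 < ‖y‖ :=
          continuous_norm.continuousAt.eventually (lt_mem_nhds (by linarith [not_lt.1 hxδ]))
        filter_upwards [h1] with y hy
        exact hw0 i y hy.le
  have hwc : ∀ i, HasCompactSupport (w i) := fun i =>
    HasCompactSupport.intro (isCompact_closedBall (0 : E n) (δ / 2)) fun x hx => by
      rw [mem_closedBall_zero_iff, not_le] at hx
      exact hw0 i x hx.le
  obtain ⟨ε, hε, hεs, hsm⟩ := exists_eps w hws hwc
  have hsum : ∀ t, Summable fun i => ε i * st i t := fun t =>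
    Summable.of_nonneg_of_le (fun i => mul_nonneg (hε i).le (st_nonneg i t))
      (fun i => by
        have := st_le_one i t
        have := hε i
        nlinarith) hεs.summable
  set ρ : ℝ → ℝ := fun t => ∑' i, ε i * st i t with hρ
  refine ⟨ρ, ?_, ?_, ?_, ?_, ?_, ?_⟩
  · intro s t hst
    exact (hsum s).tsum_le_tsum (fun i => mul_le_mul_of_nonneg_left (st_mono i hst) (hε i).le)
      (hsum t)
  · intro t ht
    obtain ⟨k, hk⟩ := exists_pow_lt_of_lt_one ht (by norm_num : (1 / 2 : ℝ) < 1)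
    refine (hsum t).tsum_pos (fun i => mul_nonneg (hε i).le (st_nonneg i t)) k ?_
    rw [st_one hk.le, mul_one]
    exact hε k
  · intro t ht
    have h1 : ∀ i, ε i * st i t = ε i := fun i => by
      rw [st_one (le_trans (pow_le_one₀ (by norm_num) (by norm_num)) ht), mul_one]
    simp only [hρ, h1]
    exact hεs.tsum_eq
  · intro t
    exact tsum_nonneg fun i => mul_nonneg (hε i).le (st_nonneg i t)
  · intro t ht
    obtain ⟨k, hk⟩ := exists_pow_lt_of_lt_one ht (by norm_num : (1 / 2 : ℝ) < 1)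
    have h1 : ∀ᶠ s in 𝓝 t, ρ s = ∑ i ∈ Finset.range k, ε i * st i s + ∑' i, ε (i + k) := by
      filter_upwards [lt_mem_nhds hk] with s hs
      simp only [hρ]
      rw [← (hsum s).sum_add_tsum_nat_add k]
      congr 1
      refine tsum_congr fun i => ?_
      rw [st_one, mul_one]
      refine le_trans ?_ hs.le
      exact pow_le_pow_of_le_one (by norm_num) (by norm_num) (by omega)
    have h2 : ContDiffAt ℝ ∞ (fun s => ∑ i ∈ Finset.range k, ε i * st i s + ∑' i, ε (i + k)) t := by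
      refine ContDiffAt.add (ContDiffAt.sum fun i _ => ?_) contDiffAt_const
      exact contDiffAt_const.mul (st_contDiff i).contDiffAt
    exact h2.congr_of_eventuallyEq h1
  · refine hsm.contDiffAt.congr_of_eventuallyEq ?_
    filter_upwards [ball_mem_nhds (0 : E n) (by positivity : 0 < δ / 4)] with x hx
    have h1 : χ x = 1 := χ.one_of_mem_closedBall (ball_subset_closedBall hx)
    have h2 : ∀ i, ε i • w i x = (ε i * st i (‖h x‖ ^ 2)) • h x := fun i => by
      simp only [hw, h1, one_smul, mul_smul]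
    simp only [h2]
    exact ((hsum _).tsum_smul_const _).symm

/-- the radial homeomorphisms -/
theorem exists_radial (n : ℕ) (ρ : ℝ → ℝ) (hm : Monotone ρ) (hp : ∀ t, 0 < t → 0 < ρ t)
    (h1 : ∀ t, 1 ≤ t → ρ t = 1) (h0 : ∀ t, 0 ≤ ρ t) (hs : ∀ t, 0 < t → ContDiffAt ℝ ∞ ρ t) :
    ∃ Φ : E n ≃ₜ E n, (∀ y, Φ y = ρ (‖y‖ ^ 2) • y) ∧ ∀ y, y ≠ 0 → LD n Φ y := by
  have hle : ∀ t, ρ t ≤ 1 := fun t => by
    rcases le_total t 1 with h | h
    · exact (hm h).trans (h1 1 le_rfl).le
    · exact (h1 t h).le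
  set f : E n → E n := fun y => ρ (‖y‖ ^ 2) • y with hf
  have hnorm : ∀ y, ‖f y‖ = ρ (‖y‖ ^ 2) * ‖y‖ := fun y => by
    rw [hf, norm_smul, Real.norm_of_nonneg (h0 _)]
  have hstrict : ∀ s t : ℝ, 0 ≤ s → s < t → ρ (s ^ 2) * s < ρ (t ^ 2) * t := by
    intro s t hs0 hst
    have ht : 0 < t := hs0.trans_lt hst
    have h2 : ρ (s ^ 2) ≤ ρ (t ^ 2) := hm (by nlinarith)
    have h3 := hp (t ^ 2) (by positivity)
    nlinarith
  have hinj : Injective f := by
    intro y z hyz
    have h2 : ‖f y‖ = ‖f z‖ := by rw [hyz]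
    rw [hnorm, hnorm] at h2
    have h3 : ‖y‖ = ‖z‖ := by
      rcases lt_trichotomy ‖y‖ ‖z‖ with h | h | h
      · exact absurd h2 (hstrict _ _ (norm_nonneg _) h).ne
      · exact h
      · exact absurd h2 (hstrict _ _ (norm_nonneg _) h).ne'
    by_cases hy : y = 0
    · rw [hy, norm_zero] at h3
      rw [hy, norm_eq_zero.1 h3.symm]
    · simp only [hf, h3] at hyz
      have h4 : 0 < ‖z‖ := by rw [← h3]; exact norm_pos_iff.2 hy
      exact smul_right_injective _ (hp _ (by positivity)).ne' hyz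
  have hcont : Continuous f := by
    rw [continuous_iff_continuousAt]
    intro y
    by_cases hy : y = 0
    · subst hy
      have h2 : f 0 = 0 := by simp [hf]
      rw [ContinuousAt, h2]
      refine squeeze_zero_norm (a := fun y : E n => ‖y‖) ?_ ?_
      · intro y
        rw [hnorm]
        nlinarith [hle (‖y‖ ^ 2), norm_nonneg y]
      · have h3 : Tendsto (fun y : E n => ‖y‖) (𝓝 0) (𝓝 ‖(0 : E n)‖) :=
          continuous_norm.continuousAt
        rwa [norm_zero] at h3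
    · have h2 : 0 < ‖y‖ := norm_pos_iff.2 hy
      have h3 : ContinuousAt ρ (‖y‖ ^ 2) := (hs _ (by positivity)).continuousAt
      exact ContinuousAt.smul (h3.comp (f := fun y : E n => ‖y‖ ^ 2)
        (continuous_norm.pow 2).continuousAt) continuousAt_id
  have hfid : ∀ y, 1 ≤ ‖y‖ → f y = y := fun y hy => by
    simp only [hf, h1 _ (by nlinarith : 1 ≤ ‖y‖ ^ 2), one_smul]
  have hsurj : Surjective f := by
    intro z
    by_cases hz : 1 ≤ ‖z‖
    · exact ⟨z, hfid z hz⟩
    · push Not at hz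
      by_cases hz0 : z = 0
      · exact ⟨0, by rw [hz0]; simp [hf]⟩
      · have hzp : 0 < ‖z‖ := norm_pos_iff.2 hz0
        set u : E n := ‖z‖⁻¹ • z with hu
        have hun : ‖u‖ = 1 := by
          rw [hu, norm_smul, norm_inv, norm_norm, inv_mul_cancel₀ hzp.ne']
        have hfu : ∀ t : ℝ, 0 ≤ t → f (t • u) = (ρ (t ^ 2) * t) • u := by
          intro t ht
          simp only [hf, norm_smul, hun, mul_one, Real.norm_of_nonneg ht, smul_smul]
        have hc2 : ContinuousOn (fun t : ℝ => ‖f (t • u)‖) (Icc 0 1) :=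
          (hcont.comp (continuous_id.smul continuous_const)).norm.continuousOn
        have h2 := intermediate_value_Icc (zero_le_one' ℝ) hc2
        have h3 : ‖z‖ ∈ Icc ‖f ((0 : ℝ) • u)‖ ‖f ((1 : ℝ) • u)‖ := by
          constructor
          · rw [hfu 0 le_rfl, mul_zero, zero_smul, norm_zero]
            exact hzp.le
          · rw [hfid _ (by rw [one_smul, hun]), one_smul, hun]
            exact hz.le
        obtain ⟨t, ht, htz⟩ := h2 h3
        refine ⟨t • u, ?_⟩
        have h4 : ρ (t ^ 2) * t = ‖z‖ := by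
          have h5 : ‖f (t • u)‖ = ‖z‖ := htz
          rw [← h5, hfu t ht.1, norm_smul, hun, mul_one,
            Real.norm_of_nonneg (mul_nonneg (h0 _) ht.1)]
        rw [hfu t ht.1, h4, hu, smul_smul, mul_inv_cancel₀ hzp.ne', one_smul]
  have hclosed : IsClosedMap f := by
    intro A hA
    have h2 : f '' A = (A ∩ {y | 1 ≤ ‖y‖}) ∪ f '' (A ∩ closedBall 0 1) := by
      ext z
      constructor
      · rintro ⟨y, hy, rfl⟩
        by_cases h3 : 1 ≤ ‖y‖
        · left
          rw [hfid y h3]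
          exact ⟨hy, h3⟩
        · exact Or.inr ⟨y, ⟨hy, mem_closedBall_zero_iff.2 (not_le.1 h3).le⟩, rfl⟩
      · rintro (⟨hz, h3⟩ | ⟨y, ⟨hy, _⟩, rfl⟩)
        · exact ⟨z, hz, hfid z h3⟩
        · exact ⟨y, hy, rfl⟩
    rw [h2]
    exact (hA.inter (isClosed_le continuous_const continuous_norm)).union
      (((isCompact_closedBall _ _).inter_left hA).image hcont).isClosed
  refine ⟨(Equiv.ofBijective f ⟨hinj, hsurj⟩).toHomeomorphOfContinuousClosed hcont hclosed,
    fun y => rfl, fun y hy => ?_⟩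
  show LD n f y
  have hyp : 0 < ‖y‖ := norm_pos_iff.2 hy
  have hcd : ∀ z : E n, z ≠ 0 → ContDiffAt ℝ ∞ f z := by
    intro z hz
    have h2 : 0 < ‖z‖ := norm_pos_iff.2 hz
    have h3 : ContDiffAt ℝ ∞ (fun z : E n => ρ (‖z‖ ^ 2)) z :=
      (hs _ (by positivity)).comp z (contDiff_norm_sq ℝ).contDiffAt
    exact h3.smul contDiffAt_id
  · have h2 : HasDerivAt ρ (deriv ρ (‖y‖ ^ 2)) (‖y‖ ^ 2) :=
      ((hs _ (by positivity)).differentiableAt (by simp)).hasDerivAt
    have h3 : HasFDerivAt (fun z : E n => ‖z‖ ^ 2) (2 • (innerSL ℝ y)) y :=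
      (hasStrictFDerivAt_norm_sq y).hasFDerivAt
    have h4 := (h2.comp_hasFDerivAt y h3).smul (hasFDerivAt_id y)
    have h5 : fderiv ℝ f y = _ := HasFDerivAt.fderiv h4
    have hval : ∀ v : E n, fderiv ℝ f y v =
        ρ (‖y‖ ^ 2) • v + (deriv ρ (‖y‖ ^ 2) * (2 * inner ℝ y v)) • y := by
      intro v
      rw [h5]
      simp [innerSL_apply_apply]
    have hρ' : 0 ≤ deriv ρ (‖y‖ ^ 2) := hm.deriv_nonneg
    have hinj' : Injective (fderiv ℝ f y) := by
      rw [injective_iff_map_eq_zero]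
      intro v hv
      rw [hval] at hv
      have h6 : inner ℝ y v * (ρ (‖y‖ ^ 2) + 2 * deriv ρ (‖y‖ ^ 2) * ‖y‖ ^ 2) = 0 := by
        have h7 := congrArg (fun w => inner ℝ y w) hv
        simp only [inner_add_right, inner_smul_right, real_inner_self_eq_norm_sq,
          inner_zero_right] at h7
        linarith
      have h8 : 0 < ρ (‖y‖ ^ 2) + 2 * deriv ρ (‖y‖ ^ 2) * ‖y‖ ^ 2 := by
        have := hp (‖y‖ ^ 2) (by positivity)
        positivity
      have h9 : inner ℝ y v = 0 := (mul_eq_zero.1 h6).resolve_right h8.ne'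
      rw [h9, mul_zero, mul_zero, zero_smul, add_zero] at hv
      exact (smul_eq_zero.1 hv).resolve_left (hp _ (by positivity)).ne'
    have hsurj' : Surjective (fderiv ℝ f y) := (LinearMap.injective_iff_surjective
      (f := (fderiv ℝ f y : E n →ₗ[ℝ] E n))).1 hinj'
    refine LD_of_contDiffAt ?_ (ContinuousLinearEquiv.ofBijective (fderiv ℝ f y)
      (LinearMap.ker_eq_bot.2 hinj') (LinearMap.range_eq_top.2 hsurj'))
      ((hcd y hy).differentiableAt (by simp)).hasFDerivAt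
    filter_upwards [isOpen_ne.mem_nhds hy] with z hz
    exact hcd z hz

/-- homeomorphisms of `ℝ^n` supported in the unit ball give homeomorphisms supported in a cell -/
theorem cell_cont {n : ℕ} {N : Type} [TopologicalSpace N] [T2Space N] (c : E n → N)
    (hc : IsOpenEmbedding c) (Φ : E n → E n)
    (hΦc : Continuous Φ) (hΦ : ∀ y, 1 ≤ ‖y‖ → Φ y = y) (Ψ : N → N)
    (hΨ1 : ∀ y, Ψ (c y) = c (Φ y)) (hΨ2 : ∀ z, z ∉ range c → Ψ z = z) : Continuous Ψ := by
  have hid : ∀ z, z ∉ c '' closedBall 0 1 → Ψ z = z := by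
    intro z hz
    by_cases h1 : z ∈ range c
    · obtain ⟨y, rfl⟩ := h1
      rw [hΨ1, hΦ]
      by_contra hcon
      exact hz ⟨y, mem_closedBall_zero_iff.2 (not_le.1 hcon).le, rfl⟩
    · exact hΨ2 z h1
  have hK : IsClosed (c '' closedBall 0 1) :=
    ((isCompact_closedBall (0 : E n) 1).image hc.continuous).isClosed
  rw [continuous_iff_continuousAt]
  intro z
  by_cases h1 : z ∈ range c
  · obtain ⟨y, rfl⟩ := h1
    rw [← hc.continuousAt_iff]
    have h2 : Ψ ∘ c = c ∘ Φ := funext hΨ1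
    rw [h2]
    exact (hc.continuous.comp hΦc).continuousAt
  · have h2 : z ∉ c '' closedBall 0 1 := fun h => h1 (image_subset_range _ _ h)
    refine continuousAt_id.congr ?_
    filter_upwards [hK.isOpen_compl.mem_nhds h2] with w hw
    exact (hid w hw).symm

theorem cell_homeo {n : ℕ} {N : Type} [TopologicalSpace N] [T2Space N] (c : E n → N)
    (hc : IsOpenEmbedding c) (Φ : E n ≃ₜ E n) (hΦ : ∀ y, 1 ≤ ‖y‖ → Φ y = y) :
    ∃ Ψ : N ≃ₜ N, (∀ y, Ψ (c y) = c (Φ y)) ∧ ∀ z, z ∉ c '' ball 0 1 → Ψ z = z := by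
  classical
  have : Nonempty (E n) := ⟨0⟩
  obtain ⟨c', hc'⟩ : ∃ c' : N → E n, ∀ y, c' (c y) = y :=
    ⟨invFun c, leftInverse_invFun hc.injective⟩
  have hΦs : ∀ y, 1 ≤ ‖y‖ → Φ.symm y = y := fun y hy => by
    have h1 := Φ.symm_apply_apply y
    rwa [hΦ y hy] at h1
  let Ψ : N → N := fun z => if z ∈ range c then c (Φ (c' z)) else z
  let Ψ' : N → N := fun z => if z ∈ range c then c (Φ.symm (c' z)) else z
  have h1 : ∀ y, Ψ (c y) = c (Φ y) := fun y => by
    simp only [Ψ, if_pos (mem_range_self (f := c) y), hc']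
  have h1' : ∀ y, Ψ' (c y) = c (Φ.symm y) := fun y => by
    simp only [Ψ', if_pos (mem_range_self (f := c) y), hc']
  have h2 : ∀ z, z ∉ range c → Ψ z = z := fun z hz => if_neg hz
  have h2' : ∀ z, z ∉ range c → Ψ' z = z := fun z hz => if_neg hz
  refine ⟨⟨⟨Ψ, Ψ', ?_, ?_⟩, cell_cont c hc Φ Φ.continuous hΦ Ψ h1 h2,
    cell_cont c hc Φ.symm Φ.symm.continuous hΦs Ψ' h1' h2'⟩, h1, ?_⟩
  · intro z
    by_cases hz : z ∈ range c
    · obtain ⟨y, rfl⟩ := hz
      rw [h1, h1', Φ.symm_apply_apply]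
    · rw [h2 z hz, h2' z hz]
  · intro z
    by_cases hz : z ∈ range c
    · obtain ⟨y, rfl⟩ := hz
      rw [h1', h1, Φ.apply_symm_apply]
    · rw [h2' z hz, h2 z hz]
  · intro z hz
    show Ψ z = z
    by_cases h3 : z ∈ range c
    · obtain ⟨y, rfl⟩ := h3
      rw [h1, hΦ]
      by_contra hcon
      exact hz ⟨y, mem_ball_zero_iff.2 (not_le.1 hcon), rfl⟩
    · exact h2 z h3

section flatten

variable {n : ℕ} {M N : Type} [TopologicalSpace M] [T2Space M] [ChartedSpace (E n) M]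
    [IsManifold (𝓡 n) ∞ M] [TopologicalSpace N] [T2Space N] [ChartedSpace (E n) N]

omit [T2Space M] in
/-- **Flattening.** A homeomorphism which is regular near `x₀` except at `x₀` can be changed near
`x₀` so that it becomes `C^∞` at `x₀`. -/
theorem flatten (G : M ≃ₜ N) (x₀ : M) (c : E n → N) (hci : Injective c)
    (hcL : ∀ y, LD n c y) (hc0 : c 0 = G x₀)
    (hG : ∀ x, x ≠ x₀ → G x ∈ range c → LD n G x) :
    ∃ G' : M ≃ₜ N, G' x₀ = G x₀ ∧ (∀ x, G x ∉ c '' ball 0 1 → G' x = G x) ∧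
      (∀ x, x ≠ x₀ → LD n G x → LD n G' x) ∧ ContMDiffAt (𝓡 n) (𝓡 n) ∞ G' x₀ := by
  have hcc : Continuous c := continuous_iff_continuousAt.2 fun y => (hcL y).continuousAt
  have hcom : IsOpenMap c := fun s hs => isOpen_image_of_LD hs fun x _ => hcL x
  have hce : IsOpenEmbedding c := .of_continuous_injective_isOpenMap hcc hci hcom
  have : Nonempty (E n) := ⟨0⟩
  obtain ⟨c', hc'⟩ : ∃ c' : N → E n, ∀ y, c' (c y) = y :=
    ⟨invFun c, leftInverse_invFun hci⟩
  have hc'L : ∀ y, LD n c' (c y) := fun y =>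
    LD.inverse (k := c) isOpen_univ (fun z _ => hcL z) (fun z _ => hc' z) (mem_univ y)
  -- a parametrization near `x₀`
  obtain ⟨U, k, hU, hxU, hk, hkL⟩ := emb_singleton (n := n) x₀
  have hx₀U : x₀ ∈ U := hxU rfl
  obtain ⟨p, hpL, hp0, hpk, hkp⟩ := (hkL x₀ hx₀U).exists_inverse
  set d : E n → M := fun y => p (y + k x₀) with hd
  have hd0 : d 0 = x₀ := by simp only [hd, zero_add, hp0]
  have hdL : LD n d 0 := by
    refine LD.comp_fun (g := p) (f := fun y => y + k x₀) ?_ (LD_add_const _ _)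
    simp only [zero_add]
    exact hpL
  obtain ⟨u, hu, hdi⟩ := hdL.eventually_injOn
  have hdc : ContinuousAt (fun y => G (d y)) 0 :=
    G.continuous.continuousAt.comp hdL.continuousAt
  have hrange : ∀ᶠ y in 𝓝 (0 : E n), G (d y) ∈ range c := by
    refine hdc.eventually_mem (hce.isOpen_range.mem_nhds ?_)
    rw [hd0, ← hc0]
    exact mem_range_self 0
  obtain ⟨δ, hδ, hball⟩ := Metric.eventually_nhds_iff_ball.1
    (hdL.eventually.and (hrange.and hu))
  set h : E n → E n := fun y => c' (G (d y)) with hh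
  have hch : ∀ y, ‖y‖ < δ → c (h y) = G (d y) := by
    intro y hy
    obtain ⟨w, hw⟩ := (hball y (mem_ball_zero_iff.2 hy)).2.1
    simp only [hh, ← hw, hc']
  have hh0 : h 0 = 0 := by simp only [hh, hd0, ← hc0, hc']
  have hhc : ContinuousAt h 0 := by
    refine ContinuousAt.comp (g := c') ?_ hdc
    rw [hd0, ← hc0]
    exact (hc'L 0).continuousAt
  have hdne : ∀ y, y ≠ 0 → ‖y‖ < δ → d y ≠ x₀ := by
    intro y hy hyδ h1
    rw [← hd0] at h1
    exact hy (hdi (hball y (mem_ball_zero_iff.2 hyδ)).2.2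
      (hball 0 (mem_ball_self hδ)).2.2 h1)
  obtain ⟨ρ, hρm, hρp, hρ1, hρ0, hρs, hρh⟩ := exists_flat h δ hδ hh0 hhc (by
    intro y hy hyδ
    obtain ⟨h1, ⟨w, hw⟩, _⟩ := hball y (mem_ball_zero_iff.2 hyδ)
    refine LD.contDiffAt ?_
    refine LD.comp_fun (g := c') (f := fun y => G (d y)) (by rw [← hw]; exact hc'L w) ?_
    exact LD.comp_fun (g := G) (f := d) (hG _ (hdne y hy hyδ) ⟨w, hw⟩) h1)
  obtain ⟨Φ, hΦ, hΦL⟩ := exists_radial n ρ hρm hρp hρ1 hρ0 hρs
  have hΦid : ∀ y, 1 ≤ ‖y‖ → Φ y = y := fun y hy => by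
    rw [hΦ, hρ1 _ (by nlinarith), one_smul]
  obtain ⟨Ψ, hΨ, hΨid⟩ := cell_homeo c hce Φ hΦid
  have hΦ0 : Φ 0 = 0 := by rw [hΦ, smul_zero]
  have hΨL : ∀ z, z ≠ c 0 → LD n Ψ z := by
    intro z hz
    by_cases h1 : z ∈ range c
    · obtain ⟨y, rfl⟩ := h1
      have hy : y ≠ 0 := fun h2 => hz (by rw [h2])
      have h2 : LD n (fun z => c (Φ (c' z))) (c y) := by
        refine LD.comp_fun (g := c) (f := fun z => Φ (c' z)) (hcL _) ?_
        refine LD.comp_fun (g := Φ) (f := c') ?_ (hc'L y)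
        rw [hc']
        exact hΦL y hy
      refine h2.congr ?_
      filter_upwards [hce.isOpen_range.mem_nhds (mem_range_self y)] with w hw
      obtain ⟨v, rfl⟩ := hw
      rw [hΨ, hc']
    · have h2 : z ∉ c '' closedBall 0 1 := fun h => h1 (image_subset_range _ _ h)
      refine (LD.id z).congr ?_
      filter_upwards [((isCompact_closedBall (0 : E n) 1).image
        hcc).isClosed.isOpen_compl.mem_nhds h2] with w hw
      exact hΨid w fun h => hw (image_mono ball_subset_closedBall h)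
  refine ⟨G.trans Ψ, ?_, ?_, ?_, ?_⟩
  · show Ψ (G x₀) = G x₀
    rw [← hc0, hΨ, hΦ0]
  · intro x hx
    exact hΨid _ hx
  · intro x hx hGx
    refine LD.comp_fun (g := Ψ) (f := G) (hΨL _ fun h1 => hx (G.injective ?_)) hGx
    rw [h1, hc0]
  · -- smoothness at `x₀`
    have h1 : ContMDiffAt (𝓡 n) (𝓡 n) ∞ (fun y => c (ρ (‖h y‖ ^ 2) • h y)) 0 :=
      (hcL _).contMDiffAt.comp (0 : E n) (contMDiffAt_iff_contDiffAt.2 hρh)
    obtain ⟨q, hqL, hq0, hqd, hdq⟩ := hdL.exists_inverse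
    rw [hd0] at hqL hq0 hdq
    have h2 : ContMDiffAt (𝓡 n) (𝓡 n) ∞ (fun x => c (ρ (‖h (q x)‖ ^ 2) • h (q x))) x₀ := by
      refine ContMDiffAt.comp (I' := 𝓡 n) x₀ (g := fun y => c (ρ (‖h y‖ ^ 2) • h y)) (f := q) ?_
        hqL.contMDiffAt
      rw [hq0]
      exact h1
    refine h2.congr_of_eventuallyEq ?_
    have h3 : ∀ᶠ x in 𝓝 x₀, ‖q x‖ < δ := by
      refine hqL.continuousAt.norm.eventually (gt_mem_nhds ?_)
      show ‖q x₀‖ < δ
      rw [hq0, norm_zero]
      exact hδ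
    filter_upwards [hdq, h3] with x hx hx2
    show Ψ (G x) = _
    rw [← hΦ, ← hΨ, hch _ hx2, hx]

end flatten

end Pool.Agent.X175.SH
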