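import Pool.Agent.X175.SH.MB6

/-!
# Small singular sets in manifolds
-/

set_option autoImplicit false

open Set Filter Topology Metric Function MeasureTheory
open scoped Manifold ContDiff NNReal

noncomputable section

namespace Pool.Agent.X175.SH

open Pool.Agent.Y522
open Pool.Agent.Y784.SH (Dif dif_of_lip)

section cells

variable {n : ℕ} {N : Type} [TopologicalSpace N] [ChartedSpace (E n) N]

/-- an open cell -/
structure Cell (n : ℕ) {N : Type} [TopologicalSpace N] [ChartedSpace (E n) N] (c : E n → N) :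
    Prop where
  inj : Injective c
  ld : ∀ y, LD n c y

theorem Cell.cont {c : E n → N} (hc : Cell n c) : Continuous c :=
  continuous_iff_continuousAt.2 fun y => (hc.ld y).continuousAt

theorem Cell.openMap {c : E n → N} (hc : Cell n c) : IsOpenMap c :=
  fun _ hs => isOpen_image_of_LD hs fun x _ => hc.ld x

theorem Cell.oe {c : E n → N} (hc : Cell n c) : IsOpenEmbedding c :=
  .of_continuous_injective_isOpenMap hc.cont hc.inj hc.openMap

theorem Cell.comp {c : E n → N} (hc : Cell n c) {σ : E n → E n} (hσ : Injective σ)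
    (hσL : ∀ y, LD n σ y) : Cell n (fun y => c (σ y)) :=
  ⟨hc.inj.comp hσ, fun y => LD.comp_fun (g := c) (f := σ) (hc.ld _) (hσL y)⟩

variable [IsManifold (𝓡 n) ∞ N]

theorem exists_cell (z : N) {V : Set N} (hV : V ∈ 𝓝 z) :
    ∃ c : E n → N, Cell n c ∧ c 0 = z ∧ range c ⊆ V := by
  obtain ⟨U, k, hU, hzU, hk, hkL⟩ := emb_singleton (n := n) z
  obtain ⟨p, hpL, hp0, -, -⟩ := (hkL z (hzU rfl)).exists_inverse
  obtain ⟨u, hu, hpi⟩ := hpL.eventually_injOn
  have hpV : ∀ᶠ y in 𝓝 (k z), p y ∈ V := hpL.continuousAt.eventually_mem (by rwa [hp0])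
  obtain ⟨t, ht, hball⟩ := Metric.eventually_nhds_iff_ball.1 (hpL.eventually.and (hpV.and hu))
  obtain ⟨σ, hσi, hσL, hσt, hσ⟩ := exists_shr n (s := t / 2) (t := t) (by positivity) (by linarith)
  have hmem : ∀ y, σ y + k z ∈ ball (k z) t := fun y => by
    rw [mem_ball, dist_eq_norm, add_sub_cancel_right]
    exact hσt y
  refine ⟨fun y => p (σ y + k z), ⟨?_, ?_⟩, ?_, ?_⟩
  · intro x y hxy
    have h1 := hpi (hball _ (hmem x)).2.2 (hball _ (hmem y)).2.2 hxy
    exact hσi (add_right_cancel h1)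
  · intro y
    refine LD.comp_fun (g := p) (f := fun y => σ y + k z) (hball _ (hmem y)).1 ?_
    exact LD.comp_fun (g := fun y => y + k z) (f := σ) (LD_add_const _ _) (hσL y)
  · show p (σ 0 + k z) = z
    rw [hσ 0 (by rw [norm_zero]; positivity), zero_add, hp0]
  · rintro _ ⟨y, rfl⟩
    exact (hball _ (hmem y)).2.1

end cells

/-- small moves in the unit ball -/
theorem exists_move (n : ℕ) : ∃ δ : ℝ, 0 < δ ∧ ∀ a : E n, ‖a‖ < δ → ∃ Φ : E n ≃ₜ E n,
    (∀ y, LD n Φ y) ∧ (∀ y, 1 ≤ ‖y‖ → Φ y = y) ∧ Φ a = 0 := by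
  let b : ContDiffBump (0 : E n) := ⟨1 / 4, 1 / 2, by norm_num, by norm_num⟩
  obtain ⟨K, hK⟩ := b.contDiff.lipschitzWith_of_hasCompactSupport (n := ∞) b.hasCompactSupport
    (by simp)
  have hK0 : (0 : ℝ) ≤ K := K.2
  refine ⟨min (1 / 4) (1 / (2 * (K + 1))), by positivity, fun a ha => ?_⟩
  have ha1 : ‖a‖ < 1 / 4 := ha.trans_le (min_le_left _ _)
  have ha2 : ‖a‖ < 1 / (2 * (K + 1)) := ha.trans_le (min_le_right _ _)
  have hu : ContDiff ℝ ∞ (fun x : E n => b x • (-a)) := b.contDiff.smul contDiff_const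
  have hl : LipschitzWith (Real.toNNReal (K * ‖a‖)) (fun x : E n => b x • (-a)) := by
    refine LipschitzWith.of_dist_le_mul fun x y => ?_
    have h1 : ((Real.toNNReal (K * ‖a‖) : ℝ≥0) : ℝ) = K * ‖a‖ :=
      Real.coe_toNNReal _ (mul_nonneg hK0 (norm_nonneg _))
    rw [dist_eq_norm, ← sub_smul, norm_smul, norm_neg, h1, mul_right_comm]
    refine mul_le_mul_of_nonneg_right ?_ (norm_nonneg _)
    have h2 := hK.dist_le_mul x y
    rwa [Real.dist_eq] at h2
  have hlt : Real.toNNReal (K * ‖a‖) < 1 := by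
    rw [Real.toNNReal_lt_one]
    rw [lt_div_iff₀ (by positivity)] at ha2
    nlinarith [norm_nonneg a]
  have hD := dif_of_lip hu hlt hl
  have hcont : Continuous (fun x : E n => x + b x • (-a)) :=
    continuous_iff_continuousAt.2 fun x => (hD.2 x).continuousAt
  have hopen : IsOpenMap (fun x : E n => x + b x • (-a)) :=
    fun s hs => isOpen_image_of_LD hs fun x _ => hD.2 x
  refine ⟨(Equiv.ofBijective _ hD.1).toHomeomorphOfContinuousOpen hcont hopen, hD.2, ?_, ?_⟩
  · intro y hy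
    show y + b y • (-a) = y
    have h1 : b y = 0 := b.zero_of_le_dist (by
      rw [dist_zero_right]
      show (1 / 2 : ℝ) ≤ ‖y‖
      linarith)
    rw [h1, zero_smul, add_zero]
  · show a + b a • (-a) = 0
    have h1 : b a = 1 := b.one_of_mem_closedBall (by
      rw [mem_closedBall_zero_iff]
      exact ha1.le)
    rw [h1, one_smul, add_neg_cancel]

section finite

variable {n : ℕ} {N : Type} [TopologicalSpace N] [T2Space N] [ChartedSpace (E n) N]
    [IsManifold (𝓡 n) ∞ N]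

omit [IsManifold (𝓡 n) ∞ N] in
/-- homeomorphisms supported in a cell are regular if they are in the cell -/
theorem cell_homeo_LD {c : E n → N} (hc : Cell n c) {Φ : E n ≃ₜ E n} {Ψ : N ≃ₜ N}
    (hΨ : ∀ y, Ψ (c y) = c (Φ y)) (hΨid : ∀ z, z ∉ c '' ball 0 1 → Ψ z = z) {z : N}
    (hz : ∀ y, z = c y → LD n Φ y) : LD n Ψ z := by
  have : Nonempty (E n) := ⟨0⟩
  obtain ⟨c', hc'⟩ : ∃ c' : N → E n, ∀ y, c' (c y) = y :=
    ⟨invFun c, leftInverse_invFun hc.inj⟩
  have hc'L : ∀ y, LD n c' (c y) := fun y =>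
    LD.inverse (k := c) isOpen_univ (fun z _ => hc.ld z) (fun z _ => hc' z) (mem_univ y)
  by_cases h1 : z ∈ range c
  · obtain ⟨y, rfl⟩ := h1
    have h2 : LD n (fun z => c (Φ (c' z))) (c y) := by
      refine LD.comp_fun (g := c) (f := fun z => Φ (c' z)) (hc.ld _) ?_
      refine LD.comp_fun (g := Φ) (f := c') ?_ (hc'L y)
      rw [hc']
      exact hz y rfl
    refine h2.congr ?_
    filter_upwards [hc.oe.isOpen_range.mem_nhds (mem_range_self y)] with w hw
    obtain ⟨v, rfl⟩ := hw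
    rw [hΨ, hc']
  · have h2 : z ∉ c '' closedBall 0 1 := fun h => h1 (image_subset_range _ _ h)
    refine (LD.id z).congr ?_
    filter_upwards [((isCompact_closedBall (0 : E n) 1).image
      hc.cont).isClosed.isOpen_compl.mem_nhds h2] with w hw
    exact hΨid w fun h => hw (image_mono ball_subset_closedBall h)

theorem exists_cell_insert [ConnectedSpace N] {s : Set N} (hs : s.Finite) {c₀ : E n → N}
    (hc₀ : Cell n c₀) (hsc : s ⊆ range c₀) (q : N) :
    ∃ c : E n → N, Cell n c ∧ s ⊆ range c ∧ q ∈ range c := by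
  set Q : Set N := {q | ∃ c : E n → N, Cell n c ∧ s ⊆ range c ∧ q ∈ range c} with hQ
  have hopen : IsOpen Q := by
    rw [isOpen_iff_mem_nhds]
    rintro q ⟨c, hc, hsc, hq⟩
    filter_upwards [hc.oe.isOpen_range.mem_nhds hq] with z hz
    exact ⟨c, hc, hsc, hz⟩
  have hclosed : IsClosed Q := by
    rw [← closure_subset_iff_isClosed]
    intro q hq
    by_cases hqs : q ∈ s
    · exact ⟨c₀, hc₀, hsc, hsc hqs⟩
    · obtain ⟨d, hd, hd0, hdV⟩ := exists_cell (n := n) q (hs.isClosed.isOpen_compl.mem_nhds hqs)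
      obtain ⟨δ, hδ, hmove⟩ := exists_move n
      have h1 : IsOpen (d '' ball 0 δ) := hd.openMap _ isOpen_ball
      obtain ⟨_, ⟨a, ha, rfl⟩, c, hc, hsc', hqc⟩ := mem_closure_iff.1 hq _ h1
        ⟨0, mem_ball_self hδ, hd0⟩
      obtain ⟨Φ, hΦL, hΦid, hΦa⟩ := hmove a (mem_ball_zero_iff.1 ha)
      obtain ⟨Ψ, hΨ, hΨid⟩ := cell_homeo d hd.oe Φ hΦid
      refine ⟨fun y => Ψ (c y), ⟨Ψ.injective.comp hc.inj, fun y => ?_⟩, ?_, ?_⟩
      · exact LD.comp_fun (g := Ψ) (f := c) (cell_homeo_LD hd hΨ hΨid fun y _ => hΦL y) (hc.ld y)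
      · intro z hz
        obtain ⟨y, rfl⟩ := hsc' hz
        refine ⟨y, hΨid _ fun h => ?_⟩
        exact hdV (image_subset_range _ _ h) hz
      · obtain ⟨y, hy⟩ := hqc
        exact ⟨y, by show Ψ (c y) = q; rw [hy, hΨ, hΦa, hd0]⟩
  have hne : Q.Nonempty := ⟨c₀ 0, c₀, hc₀, hsc, mem_range_self 0⟩
  have h1 : Q = univ := IsClopen.eq_univ ⟨hclosed, hopen⟩ hne
  have h2 : q ∈ Q := by rw [h1]; exact mem_univ q
  exact h2

/-- finite subsets of connected manifolds are contained in cells -/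
theorem exists_cell_finite [ConnectedSpace N] {s : Set N} (hs : s.Finite) :
    ∃ c : E n → N, Cell n c ∧ s ⊆ range c := by
  induction s, hs using Set.Finite.induction_on with
  | empty =>
    obtain ⟨z⟩ := (inferInstance : Nonempty N)
    obtain ⟨c, hc, -, -⟩ := exists_cell (n := n) z (V := univ) univ_mem
    exact ⟨c, hc, empty_subset _⟩
  | insert _ hs ih =>
    obtain ⟨c₀, hc₀, hsc⟩ := ih
    obtain ⟨c, hc, h1, h2⟩ := exists_cell_insert hs hc₀ hsc _
    exact ⟨c, hc, insert_subset h2 h1⟩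

end finite

section null

variable {n : ℕ} {M N : Type} [TopologicalSpace M] [ChartedSpace (E n) M]
    [TopologicalSpace N] [ChartedSpace (E n) N]

/-- `C` has one-dimensional measure zero in all cells -/
def NullM (n : ℕ) {N : Type} [TopologicalSpace N] [ChartedSpace (E n) N] (C : Set N) : Prop :=
  ∀ c : E n → N, Cell n c → μH[1] (c ⁻¹' C) = 0

theorem NullM.mono {C D : Set N} (hD : NullM n D) (h : C ⊆ D) : NullM n C := fun c hc =>
  measure_mono_null (preimage_mono h) (hD c hc)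

theorem NullM.union_finite {C F : Set N} (hC : NullM n C) (hF : F.Finite) : NullM n (C ∪ F) := by
  intro c hc
  rw [preimage_union]
  refine measure_union_null (hC c hc) ?_
  have : NullSingletonClass (μH[1] : Measure (E n)) :=
    Measure.nullSingletonClass_hausdorff _ one_pos
  exact (hF.preimage hc.inj.injOn).measure_zero _

/-- `g` is a homeomorphism off `C` in the domain, regular there, and the fibres over `C` embed -/
structure Sing (n : ℕ) {M N : Type} [TopologicalSpace M] [ChartedSpace (E n) M]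
    [TopologicalSpace N] [ChartedSpace (E n) N] (g : M → N) (C : Set N) : Prop where
  proper : IsProperMap g
  surj : Surjective g
  closed : IsClosed C
  null : NullM n C
  inj : ∀ x y, g x ∉ C → g x = g y → x = y
  ld : ∀ x, g x ∉ C → LD n g x
  fib : ∀ z ∈ C, Emb n (g ⁻¹' {z})

end null

section step

variable {m : ℕ} {M N : Type} [TopologicalSpace M] [T2Space M] [ChartedSpace (E (m + 1)) M]
    [IsManifold (𝓡 (m + 1)) ∞ M] [TopologicalSpace N] [T2Space N] [ChartedSpace (E (m + 1)) N]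

theorem Sing.step {g : M → N} {C : Set N} (h : Sing (m + 1) g C) {c : E (m + 1) → N}
    (hc : Cell (m + 1) c) :
    ∃ (G : M → N) (C' : Set N) (z : N), Sing (m + 1) G C' ∧ C' ⊆ (C \ c '' ball 0 1) ∪ {z} ∧
      z ∈ c '' ball 0 1 ∧ ∀ x y, G x ∈ c '' ball 0 1 → G x = G y → x = y := by
  -- a good radius
  have hB0 : IsClosed (c ⁻¹' C) := h.closed.preimage hc.cont
  obtain ⟨r, hr1, hr2, hr⟩ : ∃ r : ℝ, 1 < r ∧ r < 2 ∧ ∀ y ∈ c ⁻¹' C, ‖y‖ ≠ r := by
    have h1 : volume ((fun z : E (m + 1) => ‖z‖) '' (c ⁻¹' C)) = 0 :=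
      image_null_of_lipschitz (h.null c hc) lipschitzWith_one_norm
    have h2 : volume (Ioo (1 : ℝ) 2) ≠ 0 := by
      rw [Real.volume_Ioo]
      norm_num
    obtain ⟨r, hr, hr'⟩ := not_null_diff h2 h1
    exact ⟨r, hr.1, hr.2, fun y hy hyr => hr' ⟨y, hy, hyr⟩⟩
  obtain ⟨ε, hε, hε1, hε2⟩ : ∃ ε : ℝ, 0 < ε ∧ ε < r ∧ ∀ y ∈ c ⁻¹' C, ε ≤ |‖y‖ - r| := by
    have hcl : IsClosed ((fun z : E (m + 1) => ‖z‖) '' (c ⁻¹' C ∩ closedBall 0 (r + 1))) :=
      (((isCompact_closedBall (0 : E (m + 1)) (r + 1)).inter_left hB0).image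
        continuous_norm).isClosed
    have hrn : r ∉ ((fun z : E (m + 1) => ‖z‖) '' (c ⁻¹' C ∩ closedBall 0 (r + 1))) := by
      rintro ⟨y, hy, hyr⟩
      exact hr y hy.1 hyr
    obtain ⟨ε, hε, hball⟩ := Metric.isOpen_iff.1 hcl.isOpen_compl r hrn
    refine ⟨min ε (1 / 2), by positivity, (min_le_right _ _).trans_lt (by linarith),
      fun y hy => ?_⟩
    by_contra hcon
    push Not at hcon
    have h1 : |‖y‖ - r| < ε := hcon.trans_le (min_le_left _ _)
    have h2 : |‖y‖ - r| < 1 / 2 := hcon.trans_le (min_le_right _ _)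
    have h3 : ‖y‖ ∈ ball r ε := by rw [mem_ball, Real.dist_eq]; exact h1
    refine hball h3 ⟨y, ⟨hy, mem_closedBall_zero_iff.2 ?_⟩, rfl⟩
    have := (abs_lt.1 h2).2
    linarith
  have hr0 : 0 < r := by linarith
  obtain ⟨σ, hσi, hσL, hσt, hσ⟩ := exists_shr (m + 1) hr0 (by linarith : r < r + ε)
  let e : E (m + 1) ≃L[ℝ] E (m + 1) := ContinuousLinearEquiv.smulLeft (Units.mk0 r hr0.ne')
  have he : ∀ x, e x = r • x := fun x => rfl
  set τ : E (m + 1) → E (m + 1) := fun y => σ (e y) with hτ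
  have hτi : Injective τ := hσi.comp e.injective
  have hτL : ∀ y, LD (m + 1) τ y := fun y =>
    LD.comp_fun (g := σ) (f := fun x => e x) (hσL _) (LD_linear e _)
  have hen : ∀ y : E (m + 1), ‖e y‖ = r * ‖y‖ := fun y => by
    rw [he, norm_smul, Real.norm_of_nonneg hr0.le]
  have hτ1 : ∀ y, ‖y‖ ≤ 1 → τ y = r • y := fun y hy => by
    rw [hτ]
    show σ (e y) = r • y
    rw [hσ _ (by rw [hen]; nlinarith), he]
  set d : E (m + 1) → N := fun y => c (τ y) with hd
  have hdc : Cell (m + 1) d := hc.comp hτi hτL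
  have hBsmall : ∀ y ∈ d ⁻¹' C, ‖y‖ ≤ 1 - ε / r := by
    intro y hy
    have h1 := hε2 (τ y) hy
    have h2 : ‖τ y‖ < r + ε := hσt _
    have h3 : ‖τ y‖ ≤ r - ε := by
      by_contra hcon
      push Not at hcon
      have h4 : |‖τ y‖ - r| < ε := by
        rw [abs_lt]
        constructor <;> linarith
      linarith
    have h4 : ‖e y‖ ≤ r := by
      by_contra hcon
      push Not at hcon
      have h5 := norm_gt_of_inj hσi hσ hcon
      have h6 : ‖σ (e y)‖ = ‖τ y‖ := rfl
      linarith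
    have h5 : τ y = e y := hσ _ h4
    rw [h5, hen] at h3
    have h6 : ‖y‖ ≤ (r - ε) / r := by
      rw [le_div_iff₀ hr0]
      linarith
    rwa [sub_div, div_self hr0.ne'] at h6
  have ha0 : 0 < 1 - ε / r := by
    rw [sub_pos, div_lt_one hr0]
    exact hε1
  have ha1 : 1 - ε / r < 1 := by
    have : 0 < ε / r := by positivity
    linarith
  have hdB : ∀ x, g x ∈ range d → g x ∉ d '' (d ⁻¹' C) → g x ∉ C := by
    rintro x ⟨y, hy⟩ h2 h3
    rw [← hy] at h3
    exact h2 ⟨y, h3, hy⟩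
  obtain ⟨G, x₀, hGp, hGs, hG0, hGe, hGm, hGev, hGi, hGL⟩ := one_point_map g h.proper h.surj d
    hdc.inj hdc.ld (d ⁻¹' C) (h.closed.preimage hdc.cont) (thin_of_null (h.null d hdc))
    (1 - ε / r) ha0 ha1 (fun y hy => mem_closedBall_zero_iff.2 (hBsmall y hy))
    (fun x y hx hx2 hxy => h.inj x y (hdB x hx hx2) hxy)
    (fun x hx hx2 => (h.ld x (hdB x hx hx2)).contMDiffAt)
    (fun y hy => h.fib _ hy)
    (by
      rintro x ⟨y, hy⟩ h2
      refine h.ld x fun h3 => h2 ?_
      rw [← hy] at h3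
      exact ⟨y, mem_closedBall_zero_iff.2 (hBsmall y h3), hy⟩)
  -- fibres
  have hfibe : ∀ z, z ∉ d '' ball 0 1 → G ⁻¹' {z} = g ⁻¹' {z} := by
    intro z hz
    ext x
    constructor
    · intro hx
      have hx' : G x = z := hx
      have h1 : g x ∉ d '' ball 0 1 := fun h => hz (by rw [← hx']; exact (hGm x).2 h)
      show g x = z
      rw [← hGe x h1, hx']
    · intro hx
      have hx' : g x = z := hx
      show G x = z
      rw [hGe x (by rw [hx']; exact hz), hx']
  have hout : ∀ x, G x ∉ d '' ball 0 1 → g x = G x := fun x hx =>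
    (hGe x fun h => hx ((hGm x).2 h)).symm
  have hcd : c '' ball 0 1 ⊆ d '' ball 0 1 := by
    rintro _ ⟨w, hw, rfl⟩
    rw [mem_ball_zero_iff] at hw
    refine ⟨r⁻¹ • w, ?_, ?_⟩
    · rw [mem_ball_zero_iff, norm_smul, Real.norm_of_nonneg (inv_pos.2 hr0).le]
      rw [inv_mul_lt_iff₀ hr0]
      linarith
    · have h2 : ‖r⁻¹ • w‖ ≤ 1 := by
        rw [norm_smul, Real.norm_of_nonneg (inv_pos.2 hr0).le, inv_mul_le_iff₀ hr0]
        linarith
      show c (τ (r⁻¹ • w)) = c w
      rw [hτ1 _ h2, smul_smul, mul_inv_cancel₀ hr0.ne', one_smul]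
  have hd0 : d 0 = c 0 := by
    show c (τ 0) = c 0
    rw [hτ1 0 (by rw [norm_zero]; exact zero_le_one), smul_zero]
  refine ⟨G, (C \ d '' ball 0 1) ∪ {d 0}, d 0, ⟨hGp, hGs, ?_, ?_, ?_, ?_, ?_⟩, ?_,
    ⟨0, mem_ball_self one_pos, hd0.symm⟩,
    fun x y hx => hGi x y (image_subset_range _ _ (hcd hx))⟩
  · exact (h.closed.sdiff (hdc.openMap _ isOpen_ball)).union isClosed_singleton
  · exact (h.null.mono sdiff_subset).union_finite (finite_singleton _)
  · intro x y hx hxy
    by_cases h1 : G x ∈ range d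
    · exact hGi x y h1 hxy
    · have h2 : G x ∉ d '' ball 0 1 := fun h => h1 (image_subset_range _ _ h)
      have h3 : G y ∉ d '' ball 0 1 := by rw [← hxy]; exact h2
      refine h.inj x y ?_ (by rw [hout x h2, hout y h3, hxy])
      rw [hout x h2]
      exact fun h => hx (Or.inl ⟨h, h2⟩)
  · intro x hx
    by_cases h1 : G x ∈ range d
    · refine hGL x ?_ h1
      rintro rfl
      exact hx (Or.inr hG0)
    · have h2 : G x ∉ d '' ball 0 1 := fun h => h1 (image_subset_range _ _ h)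
      have h3 : g x ∉ d '' ball 0 1 := by rw [hout x h2]; exact h2
      refine (h.ld x ?_).congr (hGev x h3)
      rw [hout x h2]
      exact fun h => hx (Or.inl ⟨h, h2⟩)
  · intro z hz
    by_cases h1 : z ∈ d '' ball 0 1
    · have h2 : z = d 0 := by
        rcases hz with hz | hz
        · exact absurd h1 hz.2
        · exact hz
      have h3 : G ⁻¹' {z} = {x₀} := by
        ext x
        constructor
        · intro hx
          have hx' : G x = z := hx
          exact hGi x x₀ ⟨0, by rw [hx', h2]⟩ (by rw [hx', hG0, h2])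
        · intro hx
          have hx' : x = x₀ := hx
          show G x = z
          rw [hx', hG0, h2]
      rw [h3]
      exact emb_singleton x₀
    · rw [hfibe z h1]
      rcases hz with hz | hz
      · exact h.fib z hz.1
      · exfalso
        apply h1
        rw [hz]
        exact ⟨0, mem_ball_self one_pos, rfl⟩
  · rintro z (hz | hz)
    · exact Or.inl ⟨hz.1, fun h => hz.2 (hcd h)⟩
    · exact Or.inr hz

theorem Sing.steps {g : M → N} {C : Set N} (h : Sing (m + 1) g C)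
    (l : List (E (m + 1) → N)) (hl : ∀ c ∈ l, Cell (m + 1) c) :
    ∃ (G : M → N) (C' F : Set N), Sing (m + 1) G C' ∧ F.Finite ∧
      C' ⊆ (C \ ⋃ c ∈ l, c '' ball 0 1) ∪ F := by
  induction l with
  | nil =>
    refine ⟨g, C, ∅, h, finite_empty, ?_⟩
    simp
  | cons c l ih =>
    obtain ⟨G, C', F, hG, hF, hC'⟩ := ih fun d hd => hl d (List.mem_cons_of_mem _ hd)
    obtain ⟨G', C'', z, hG', hC'', -, -⟩ := hG.step (hl c List.mem_cons_self)
    refine ⟨G', C'', insert z F, hG', hF.insert z, fun w hw => ?_⟩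
    rcases hC'' hw with hw | hw
    · rcases hC' hw.1 with hw1 | hw1
      · refine Or.inl ⟨hw1.1, ?_⟩
        simp only [List.mem_cons, mem_iUnion, not_exists]
        rintro d (rfl | hd) hwd
        · exact hw.2 hwd
        · exact hw1.2 (mem_iUnion₂.2 ⟨d, hd, hwd⟩)
      · exact Or.inr (mem_insert_of_mem _ hw1)
    · exact Or.inr (by rw [mem_singleton_iff.1 hw]; exact mem_insert _ _)

/-- **Small singular sets.** -/
theorem Sing.one [IsManifold (𝓡 (m + 1)) ∞ N] [ConnectedSpace N] {g : M → N} {C : Set N}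
    (h : Sing (m + 1) g C) (hC : IsCompact C) :
    ∃ (G : M ≃ₜ N) (x₀ : M), ∀ x, x ≠ x₀ → LD (m + 1) G x := by
  have hex : ∀ z : N, ∃ c : E (m + 1) → N, Cell (m + 1) c ∧ c 0 = z := fun z => by
    obtain ⟨c, hc, hc0, -⟩ := exists_cell (n := m + 1) z (V := univ) univ_mem
    exact ⟨c, hc, hc0⟩
  choose cz hcz hcz0 using hex
  obtain ⟨t, ht⟩ := hC.elim_finite_subcover (fun z : N => cz z '' ball 0 1)
    (fun z => (hcz z).openMap _ isOpen_ball)
    (fun z _ => mem_iUnion.2 ⟨z, 0, mem_ball_self one_pos, hcz0 z⟩)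
  obtain ⟨G, C', F, hG, hF, hC'⟩ := h.steps (t.toList.map cz) (by
    intro c hc
    obtain ⟨z, -, rfl⟩ := List.mem_map.1 hc
    exact hcz z)
  have hC'F : C' ⊆ F := by
    intro z hz
    rcases hC' hz with h1 | h1
    · exfalso
      obtain ⟨w, hw, hzw⟩ := mem_iUnion₂.1 (ht h1.1)
      exact h1.2 (mem_iUnion₂.2 ⟨cz w, List.mem_map.2 ⟨w, by simpa using hw, rfl⟩, hzw⟩)
    · exact h1
  -- a cell which contains the finite set in the unit ball
  obtain ⟨c, hc, hFc⟩ := exists_cell_finite (n := m + 1) hF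
  obtain ⟨R, hR⟩ : ∃ R : ℝ, F ⊆ c '' ball 0 R := by
    have h1 : (c ⁻¹' F).Finite := hF.preimage hc.inj.injOn
    obtain ⟨R, hR⟩ := h1.isBounded.subset_closedBall (0 : E (m + 1))
    refine ⟨R + 1, fun z hz => ?_⟩
    obtain ⟨y, rfl⟩ := hFc hz
    refine ⟨y, ?_, rfl⟩
    have h2 := mem_closedBall_zero_iff.1 (hR hz)
    rw [mem_ball_zero_iff]
    linarith
  set s : ℝ := max R 1 with hs
  have hs0 : 0 < s := one_pos.trans_le (le_max_right _ _)
  let e : E (m + 1) ≃L[ℝ] E (m + 1) := ContinuousLinearEquiv.smulLeft (Units.mk0 s hs0.ne')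
  have he : ∀ x, e x = s • x := fun x => rfl
  have hce : Cell (m + 1) (fun y => c (e y)) := hc.comp e.injective fun y => LD_linear e y
  obtain ⟨G', C'', z, hG', hC'', hz, hGi⟩ := hG.step hce
  have h1 : C'' ⊆ {z} := by
    intro w hw
    rcases hC'' hw with h2 | h2
    · exfalso
      obtain ⟨y, hy, hyw⟩ := hR (hC'F h2.1)
      rw [mem_ball_zero_iff] at hy
      refine h2.2 ⟨s⁻¹ • y, ?_, ?_⟩
      · rw [mem_ball_zero_iff, norm_smul, Real.norm_of_nonneg (inv_pos.2 hs0).le,
          inv_mul_lt_iff₀ hs0, mul_one]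
        exact hy.trans_le (le_max_left _ _)
      · show c (e (s⁻¹ • y)) = w
        rw [he, smul_smul, mul_inv_cancel₀ hs0.ne', one_smul, hyw]
    · exact h2
  have hinj : Injective G' := by
    intro x y hxy
    by_cases h2 : G' x ∈ C''
    · refine hGi x y ?_ hxy
      rw [mem_singleton_iff.1 (h1 h2)]
      exact hz
    · exact hG'.inj x y h2 hxy
  obtain ⟨G₂, hG₂⟩ := homeo_of_proper hG'.proper ⟨hinj, hG'.surj⟩
  obtain ⟨x₀, hx₀⟩ := hG'.surj z
  refine ⟨G₂, x₀, fun x hx => ?_⟩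
  have h3 : LD (m + 1) G' x := hG'.ld x fun h => hx (hinj (by rw [mem_singleton_iff.1 (h1 h), hx₀]))
  exact h3.congr (Eventually.of_forall hG₂)

end step

end Pool.Agent.X175.SH
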