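import Pool.Agent.X175.SH.UReg

/-!
# Smooth embeddings of manifolds with boundary with a smooth homeomorphism onto the ball
-/

set_option autoImplicit false

open Set Filter Topology Metric Function MeasureTheory
open scoped Manifold ContDiff

noncomputable section

namespace Pool.Agent.X175.SH

open Pool.Agent.Y522 Pool.Agent.Y833.SH
open Pool.Agent.Y784.SH (Dif Dif.comp Dif.id Dif.inv)

attribute [local instance] Pool.Agent.Y833.SH.csI Pool.Agent.Y833.SH.mfI

/-- functions below `1` on a compact set are bounded away from `1` -/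
theorem exists_lt_one {X : Type} [TopologicalSpace X] {K : Set X} (hK : IsCompact K) {f : X → ℝ}
    (hf : ContinuousOn f K) (h : ∀ x ∈ K, f x < 1) : ∃ r : ℝ, 0 < r ∧ r < 1 ∧ ∀ x ∈ K, f x < r := by
  rcases K.eq_empty_or_nonempty with h0 | h0
  · exact ⟨1 / 2, by norm_num, by norm_num, fun x hx => by rw [h0] at hx; exact hx.elim⟩
  · obtain ⟨x₀, hx₀, hmax⟩ := hK.exists_isMaxOn h0 hf
    have h1 := h x₀ hx₀
    refine ⟨(max (f x₀) 0 + 1) / 2, by positivity, ?_, fun x hx => ?_⟩
    · have : max (f x₀) 0 < 1 := max_lt h1 one_pos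
      linarith
    · have h2 : f x ≤ f x₀ := hmax hx
      have h3 : f x₀ ≤ max (f x₀) 0 := le_max_left _ _
      have h4 : max (f x₀) 0 < 1 := max_lt h1 one_pos
      linarith

/-- a diffeomorphism of `ℝ^n` which is the identity on a ball of radius `r < 1` and maps the unit ball
into a smaller ball -/
theorem exists_pull (n : ℕ) {r : ℝ} (hr0 : 0 < r) (hr1 : r < 1) :
    ∃ (Ψ : E n → E n) (r₂ : ℝ), Dif n Ψ ∧ (∀ y, ‖y‖ ≤ r → Ψ y = y) ∧ 0 < r₂ ∧ r₂ < 1 ∧
      (∀ y, ‖y‖ ≤ 1 → ‖Ψ y‖ < r₂) ∧ ∀ y, r < ‖y‖ → r < ‖Ψ y‖ := by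
  let b : ContDiffBump (0 : E n) := ⟨r, (r + 1) / 2, hr0, by linarith⟩
  let b2 : ContDiffBump (0 : E n) := ⟨1, 2, one_pos, by norm_num⟩
  set u : E n → E n := fun y => (b2 y - b y) • y with hu
  have hus : ContDiff ℝ ∞ u := (b2.contDiff.sub b.contDiff).smul contDiff_id
  have huc : HasCompactSupport u := by
    refine HasCompactSupport.intro (isCompact_closedBall (0 : E n) 2) fun x hx => ?_
    rw [mem_closedBall_zero_iff, not_le] at hx
    have h1 : b2 x = 0 := b2.zero_of_le_dist (by rw [dist_zero_right]; exact hx.le)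
    have h2 : b x = 0 := b.zero_of_le_dist (by
      rw [dist_zero_right]
      show (r + 1) / 2 ≤ ‖x‖
      linarith)
    simp only [hu, h1, h2, sub_zero, zero_smul]
  obtain ⟨c, hc0, hc1, hD⟩ := dif_small hus huc
  have hb2 : ∀ y : E n, ‖y‖ ≤ 1 → b2 y = 1 := fun y hy =>
    b2.one_of_mem_closedBall (by rw [mem_closedBall_zero_iff]; exact hy)
  have hb : ∀ y : E n, ‖y‖ ≤ r → b y = 1 := fun y hy =>
    b.one_of_mem_closedBall (by rw [mem_closedBall_zero_iff]; exact hy)
  have hid : ∀ y : E n, ‖y‖ ≤ r → y + (-c) • u y = y := by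
    intro y hy
    simp only [hu, hb2 y (hy.trans hr1.le), hb y hy, sub_self, zero_smul, smul_zero, add_zero]
  have hlt : ∀ y : E n, ‖y‖ ≤ 1 → ‖y + (-c) • u y‖ < 1 := by
    intro y hy
    have h1 : y + (-c) • u y = (1 - c * (b2 y - b y)) • y := by
      simp only [hu, sub_smul, one_smul, neg_smul, mul_smul]
      abel
    rw [h1, norm_smul, hb2 y hy]
    have h2 := b.nonneg (x := y)
    have h3 := b.le_one (x := y)
    have h4 : 0 ≤ 1 - c * (1 - b y) := by nlinarith
    rw [Real.norm_of_nonneg h4]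
    rcases hy.lt_or_eq with h5 | h5
    · calc (1 - c * (1 - b y)) * ‖y‖ ≤ 1 * ‖y‖ := by
            refine mul_le_mul_of_nonneg_right ?_ (norm_nonneg _)
            nlinarith
        _ < 1 := by rw [one_mul]; exact h5
    · have h6 : b y = 0 := b.zero_of_le_dist (by
        rw [dist_zero_right, h5]
        show (r + 1) / 2 ≤ 1
        linarith)
      rw [h5, h6]
      linarith
  have hcont : Continuous fun y : E n => ‖y + (-c) • u y‖ :=
    (continuous_id.add (hus.continuous.const_smul (-c))).norm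
  obtain ⟨r₂, hr20, hr21, hr2⟩ := exists_lt_one (isCompact_closedBall (0 : E n) 1)
    hcont.continuousOn (fun x hx => hlt x (by rwa [mem_closedBall_zero_iff] at hx))
  refine ⟨_, r₂, hD, hid, hr20, hr21, fun y hy => hr2 y (by rwa [mem_closedBall_zero_iff]), ?_⟩
  intro y hy
  by_contra hcon
  have h1 := hid _ (not_lt.1 hcon)
  have h2 := hD.1.1 h1
  rw [h2] at hcon
  exact hcon hy

/-- the diffeomorphism onto the open ball -/
theorem LD_uub (n : ℕ) (x : E n) :
    LD n (OpenPartialHomeomorph.univUnitBall : E n → E n) x :=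
  ⟨{ toPartialEquiv := (OpenPartialHomeomorph.univUnitBall (E := E n)).toPartialEquiv
     open_source := (OpenPartialHomeomorph.univUnitBall (E := E n)).open_source
     open_target := (OpenPartialHomeomorph.univUnitBall (E := E n)).open_target
     contMDiffOn_toFun :=
       (OpenPartialHomeomorph.contDiff_univUnitBall (n := ⊤)).contMDiff.contMDiffOn
     contMDiffOn_invFun :=
       (OpenPartialHomeomorph.contDiffOn_univUnitBall_symm (n := ⊤)).contMDiffOn },
    mem_univ _, fun _ _ => rfl⟩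

theorem uub_left (n : ℕ) (x : E n) : OpenPartialHomeomorph.univUnitBall.symm
    (OpenPartialHomeomorph.univUnitBall x : E n) = x :=
  OpenPartialHomeomorph.univUnitBall.left_inv (mem_univ x)

theorem uub_right (n : ℕ) {x : E n} (hx : ‖x‖ < 1) : OpenPartialHomeomorph.univUnitBall
    (OpenPartialHomeomorph.univUnitBall.symm x : E n) = x :=
  OpenPartialHomeomorph.univUnitBall.right_inv
    (by rw [OpenPartialHomeomorph.univUnitBall_target, mem_ball_zero_iff]; exact hx)

theorem Dif.isProper {n : ℕ} {G : E n → E n} (hG : Dif n G) : IsProperMap G := by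
  obtain ⟨G', hG', h1, h2⟩ := hG.inv
  let e : E n ≃ₜ E n :=
    { toFun := G, invFun := G', left_inv := h1, right_inv := h2
      continuous_toFun := continuous_iff_continuousAt.2 fun x => (hG.2 x).continuousAt
      continuous_invFun := continuous_iff_continuousAt.2 fun x => (hG'.2 x).continuousAt }
  exact e.isProperMap

section emb

variable {m : ℕ} {M : Type} [TopologicalSpace M] [ChartedSpace (EuclideanHalfSpace (m + 1)) M]
  [IsManifold (𝓡∂ (m + 1)) ∞ M]

/-- all compact subsets of the interior embed -/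
theorem int_emb (h : M ≃ₜ closedBall (0 : E (m + 1)) 1) (B : Set (E (m + 1))) (hB : IsClosed B)
    {r : ℝ} (hr1 : r < 1) (hBr : ∀ y ∈ B, ‖y‖ ≤ r) (hT : Thin B)
    (hs : ∀ x, ‖(h x : E (m + 1))‖ < 1 → (h x : E (m + 1)) ∉ B →
      ContMDiffAt (𝓡∂ (m + 1)) (𝓡 (m + 1)) ∞ (fun x => (h x : E (m + 1))) x) :
    ∀ K : Set ((𝓡∂ (m + 1)).interior M), IsCompact K → Emb (m + 1) K := by
  have : T2Space M := h.symm.t2Space
  set H := HH (𝓡∂ (m + 1)) inferInstance h with hH
  have hHx : ∀ x, H x = OpenPartialHomeomorph.univUnitBall.symm (h x.1 : E (m + 1)) :=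
    fun x => rfl
  have hlt : ∀ x : (𝓡∂ (m + 1)).interior M, ‖(h x.1 : E (m + 1))‖ < 1 := fun x =>
    (int_iff (𝓡∂ (m + 1)) inferInstance h x.1).1 x.2
  have hsymm : ∀ y : E (m + 1), ‖y‖ < 1 →
      ContDiffAt ℝ ∞ (OpenPartialHomeomorph.univUnitBall.symm : E (m + 1) → E (m + 1)) y :=
    fun y hy => (OpenPartialHomeomorph.contDiffOn_univUnitBall_symm (n := ⊤)).contDiffAt
      (isOpen_ball.mem_nhds (mem_ball_zero_iff.2 hy))
  -- bound on the preimage of the bad set
  obtain ⟨R, hR⟩ : ∃ R : ℝ, ∀ y : E (m + 1), ‖y‖ ≤ r →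
      ‖(OpenPartialHomeomorph.univUnitBall.symm y : E (m + 1))‖ ≤ R := by
    have hc : ContinuousOn (OpenPartialHomeomorph.univUnitBall.symm : E (m + 1) → E (m + 1))
        (closedBall 0 r) := fun y hy => (hsymm y (by
          rw [mem_closedBall_zero_iff] at hy
          linarith)).continuousAt.continuousWithinAt
    obtain ⟨R, hR⟩ := ((isCompact_closedBall (0 : E (m + 1)) r).image_of_continuousOn
      hc).isBounded.subset_closedBall 0
    refine ⟨R, fun y hy => ?_⟩
    have := hR ⟨y, mem_closedBall_zero_iff.2 hy, rfl⟩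
    rwa [mem_closedBall_zero_iff] at this
  obtain ⟨G, hGb, hGL, hG⟩ := (Pool.Agent.Y784.SH.ext Pool.Agent.Y248.SH.germ : StExt) (m + 1)
    (OpenPartialHomeomorph.univUnitBall : E (m + 1) → E (m + 1))
    (fun x y hxy => by rw [← uub_left (m + 1) x, ← uub_left (m + 1) y, hxy])
    (LD_uub (m + 1)) R
  have hoff : ∀ x, G (H x) ∉ B → (h x.1 : E (m + 1)) ∉ B := by
    intro x hx hxB
    apply hx
    rw [hG _ (by rw [hHx]; exact hR _ (hBr _ hxB)), hHx, uub_right _ (hlt x)]
    exact hxB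
  refine (thinU (m := m) (X := (𝓡∂ (m + 1)).interior M) (fun x => G (H x))
    ((Dif.isProper ⟨hGb, hGL⟩).comp H.isProperMap) (hGb.2.comp H.surjective) B
    hB hT (fun x y _ hxy => H.injective (hGb.1 hxy))
    (fun x hx => ?_) (fun y _ => ?_)).1
  · have h2 : ContMDiffAt (𝓡 (m + 1)) (𝓡 (m + 1)) ∞
        (fun x : (𝓡∂ (m + 1)).interior M => (h x.1 : E (m + 1))) x :=
      (hs x.1 (hlt x) (hoff x hx)).comp x (contMDiff_val (𝓡∂ (m + 1)) x)
    have h3 : ContMDiffAt (𝓡 (m + 1)) (𝓡 (m + 1)) ∞ H x :=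
      ContMDiffAt.comp (g := (OpenPartialHomeomorph.univUnitBall.symm :
        E (m + 1) → E (m + 1))) x (hsymm _ (hlt x)).contMDiffAt h2
    exact (hGL (H x)).contMDiffAt.comp x h3
  · obtain ⟨z, rfl⟩ := hGb.2 y
    have h3 : (fun x => G (H x)) ⁻¹' {G z} = {H.symm z} := by
      ext x
      constructor
      · intro hx
        have hx' : H x = z := hGb.1 hx
        show x = H.symm z
        rw [← hx', H.symm_apply_apply]
      · intro hx
        have hx' : x = H.symm z := hx
        show G (H x) = G z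
        rw [hx', H.apply_symm_apply]
    rw [h3]
    exact emb_singleton _

/-- **The embedding theorem.** -/
theorem embed (h : M ≃ₜ closedBall (0 : E (m + 1)) 1) (B : Set (E (m + 1))) (hB : IsClosed B)
    (hB1 : B ⊆ ball 0 1) (hT : Thin B)
    (hs : ∀ x, (h x : E (m + 1)) ∉ B →
      ContMDiffAt (𝓡∂ (m + 1)) (𝓡 (m + 1)) ∞ (fun x => (h x : E (m + 1))) x)
    (hd : ∀ x, ‖(h x : E (m + 1))‖ = 1 →
      Injective (mfderiv (𝓡∂ (m + 1)) (𝓡 (m + 1)) (fun x => (h x : E (m + 1))) x)) :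
    ∃ e : M → E (m + 1), Injective e ∧
      ∀ x, ContMDiffAt (𝓡∂ (m + 1)) (𝓡 (m + 1)) ∞ e x ∧
        Bijective (mfderiv (𝓡∂ (m + 1)) (𝓡 (m + 1)) e x) := by
  classical
  have : CompactSpace M := by
    have : CompactSpace (closedBall (0 : E (m + 1)) 1) :=
      isCompact_iff_compactSpace.1 (isCompact_closedBall _ _)
    exact h.symm.compactSpace
  have : T2Space M := h.symm.t2Space
  set f : M → E (m + 1) := fun x => (h x : E (m + 1)) with hf
  have hfc : Continuous f := continuous_subtype_val.comp h.continuous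
  have hf1 : ∀ x, ‖f x‖ ≤ 1 := fun x => mem_closedBall_zero_iff.1 (h x).2
  have hfinj : Injective f := fun x y hxy => h.injective (Subtype.ext hxy)
  have hint : ∀ x, x ∈ (𝓡∂ (m + 1)).interior M ↔ ‖f x‖ < 1 := fun x =>
    int_iff (𝓡∂ (m + 1)) inferInstance h x
  -- the regular region
  set W : Set M := {x | ∀ hy : x ∈ (𝓡∂ (m + 1)).interior M,
    LD (m + 1) (fun z : (𝓡∂ (m + 1)).interior M => f z) ⟨x, hy⟩} with hW
  have hWn : ∀ x, ‖f x‖ = 1 → x ∈ interior W := by
    intro x hx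
    rw [mem_interior_iff_mem_nhds]
    refine eventually_LD f x ?_ (hd x hx)
    have hxB : f x ∉ B := by
      intro hxB
      have := hB1 hxB
      rw [mem_ball_zero_iff] at this
      linarith
    filter_upwards [(hB.preimage hfc).isOpen_compl.mem_nhds hxB] with y hy
    exact hs y hy
  obtain ⟨r, hr0, hr1, hr⟩ : ∃ r : ℝ, 0 < r ∧ r < 1 ∧
      ∀ x ∈ (interior W)ᶜ ∪ f ⁻¹' B, ‖f x‖ < r := by
    refine exists_lt_one ?_ hfc.norm.continuousOn ?_
    · exact (isOpen_interior.isClosed_compl.union (hB.preimage hfc)).isCompact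
    · rintro x (hx | hx)
      · refine lt_of_le_of_ne (hf1 x) fun h1 => hx (hWn x h1)
      · exact mem_ball_zero_iff.1 (hB1 hx)
  have hBr : ∀ y ∈ B, ‖y‖ ≤ r := by
    intro y hy
    have hy1 : ‖y‖ ≤ 1 := (mem_ball_zero_iff.1 (hB1 hy)).le
    have h1 := hr (h.symm ⟨y, mem_closedBall_zero_iff.2 hy1⟩) (Or.inr (by
      show f (h.symm ⟨y, mem_closedBall_zero_iff.2 hy1⟩) ∈ B
      simp only [hf, h.apply_symm_apply]
      exact hy))
    simp only [hf, h.apply_symm_apply] at h1
    exact h1.le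
  have hreg : ∀ x, r ≤ ‖f x‖ → ∀ hx : x ∈ (𝓡∂ (m + 1)).interior M,
      LD (m + 1) (fun z : (𝓡∂ (m + 1)).interior M => f z) ⟨x, hx⟩ := by
    intro x hx
    have h1 : x ∈ interior W := by
      by_contra hcon
      exact absurd (hr x (Or.inl hcon)) (not_lt.2 hx)
    exact interior_subset h1
  -- a slightly larger radius
  set r' : ℝ := (r + 1) / 2 with hr'
  have hr'0 : 0 < r' := by positivity
  have hrr' : r < r' := by rw [hr']; linarith
  have hr'1 : r' < 1 := by rw [hr']; linarith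
  obtain ⟨Ψ, r₂, hΨ, hΨid, hr20, hr21, hΨ2, hΨo⟩ := exists_pull (m + 1) hr'0 hr'1
  -- the inverse of `f` on the open ball
  have hx₀ : h.symm ⟨0, by simp⟩ ∈ (𝓡∂ (m + 1)).interior M := by
    rw [hint]
    simp only [hf, h.apply_symm_apply, norm_zero]
    exact one_pos
  set x₀ : (𝓡∂ (m + 1)).interior M := ⟨_, hx₀⟩ with hx₀def
  have hqmem : ∀ y : E (m + 1), ∀ hy : ‖y‖ < 1,
      h.symm ⟨y, mem_closedBall_zero_iff.2 hy.le⟩ ∈ (𝓡∂ (m + 1)).interior M := by
    intro y hy
    rw [hint]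
    simp only [hf, h.apply_symm_apply]
    exact hy
  set q : E (m + 1) → (𝓡∂ (m + 1)).interior M := fun y =>
    if hy : ‖y‖ < 1 then ⟨h.symm ⟨y, mem_closedBall_zero_iff.2 hy.le⟩, hqmem y hy⟩ else x₀ with hq
  have hfq : ∀ y : E (m + 1), ‖y‖ < 1 → f (q y) = y := by
    intro y hy
    simp only [hq, dif_pos hy, hf, h.apply_symm_apply]
  have hqf : ∀ x : (𝓡∂ (m + 1)).interior M, q (f x) = x := by
    intro x
    refine Subtype.ext (hfinj ?_)
    rw [hfq _ ((hint x).1 x.2)]
  have hqL : ∀ y : E (m + 1), r ≤ ‖y‖ → ‖y‖ < 1 → LD (m + 1) q y := by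
    intro y hy hy1
    have hU : IsOpen {x : (𝓡∂ (m + 1)).interior M |
        LD (m + 1) (fun z : (𝓡∂ (m + 1)).interior M => f z) x} :=
      isOpen_iff_mem_nhds.2 fun x hx => LD.eventually hx
    have h1 := LD.inverse (k := fun z : (𝓡∂ (m + 1)).interior M => f z) (g := q) hU
      (fun x hx => hx) (fun x _ => hqf x) (x := q y)
      (hreg (q y) (by rw [hfq y hy1]; exact hy) (q y).2)
    simpa only [hfq y hy1] using h1
  -- the compact set and its embedding
  have hK : IsCompact {x : (𝓡∂ (m + 1)).interior M | ‖f x‖ ≤ r₂} := by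
    rw [Subtype.isCompact_iff]
    have h1 : (Subtype.val '' {x : (𝓡∂ (m + 1)).interior M | ‖f x‖ ≤ r₂} : Set M) =
        {x : M | ‖f x‖ ≤ r₂} := by
      ext x
      constructor
      · rintro ⟨x', hx', rfl⟩
        exact hx'
      · intro hx
        exact ⟨⟨x, (hint x).2 (lt_of_le_of_lt hx hr21)⟩, hx, rfl⟩
    rw [h1]
    exact (isClosed_le hfc.norm continuous_const).isCompact
  obtain ⟨U, k, hUo, hKU, hkinj, hkL⟩ := int_emb h B hB hr1 hBr hT
    (fun x _ hxB => hs x hxB) _ hK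
  have hqU : ∀ x, q (Ψ (f x)) ∈ U := by
    intro x
    apply hKU
    have h1 := hΨ2 (f x) (hf1 x)
    show ‖f (q (Ψ (f x)))‖ ≤ r₂
    rw [hfq _ (h1.trans hr21)]
    exact h1.le
  set e : M → E (m + 1) := fun x => k (q (Ψ (f x))) with he
  refine ⟨e, ?_, ?_⟩
  · intro x y hxy
    have h1 := hkinj (hqU x) (hqU y) hxy
    have h2 : f (q (Ψ (f x))) = f (q (Ψ (f y))) := by rw [h1]
    rw [hfq _ ((hΨ2 _ (hf1 x)).trans hr21), hfq _ ((hΨ2 _ (hf1 y)).trans hr21)] at h2
    exact hfinj (hΨ.1.1 h2)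
  · intro x
    by_cases hx : ‖f x‖ < r'
    · -- near `x` the map is `k`
      have hxi : x ∈ (𝓡∂ (m + 1)).interior M := (hint x).2 (hx.trans hr'1)
      refine int_reg k e x hxi ?_ ?_
      · have h1 := hqU x
        rw [hΨid _ hx.le] at h1
        have h2 : q (f x) = ⟨x, hxi⟩ := hqf ⟨x, hxi⟩
        rw [h2] at h1
        exact hkL _ h1
      · have h1 : ∀ᶠ y in 𝓝 x, ‖f y‖ < r' := hfc.norm.continuousAt.eventually (gt_mem_nhds hx)
        filter_upwards [h1] with y hy hyi
        have h2 : q (f y) = ⟨y, hyi⟩ := hqf ⟨y, hyi⟩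
        simp only [he, hΨid _ hy.le, h2]
    · push Not at hx
      have hxr : r ≤ ‖f x‖ := hrr'.le.trans hx
      have hfreg : ContMDiffAt (𝓡∂ (m + 1)) (𝓡 (m + 1)) ∞ f x ∧
          Bijective (mfderiv (𝓡∂ (m + 1)) (𝓡 (m + 1)) f x) := by
        have hxB : f x ∉ B := by
          intro hxB
          have := hr x (Or.inr hxB)
          linarith
        rcases (hf1 x).lt_or_eq with h1 | h1
        · have hxi : x ∈ (𝓡∂ (m + 1)).interior M := (hint x).2 h1
          exact int_reg (fun z : (𝓡∂ (m + 1)).interior M => f z) f x hxi (hreg x hxr hxi)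
            (Eventually.of_forall fun y hy => rfl)
        · refine ⟨hs x hxB, hd x h1, ?_⟩
          have key : ∀ L : E (m + 1) →L[ℝ] E (m + 1), Injective L → Surjective L := fun L hL =>
            (LinearMap.injective_iff_surjective (f := (L : E (m + 1) →ₗ[ℝ] E (m + 1)))).1 hL
          exact key _ (hd x h1)
      have hΨx : r ≤ ‖Ψ (f x)‖ := by
        rcases hx.lt_or_eq with h1 | h1
        · exact hrr'.le.trans (hΨo _ h1).le
        · rw [hΨid _ h1.ge]
          exact hxr
      have hΨx1 : ‖Ψ (f x)‖ < 1 := (hΨ2 _ (hf1 x)).trans hr21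
      have hLD : LD (m + 1) (fun y => k (q (Ψ y))) (f x) := by
        refine LD.comp_fun (g := k) (f := fun y => q (Ψ y)) (hkL _ (hqU x)) ?_
        exact LD.comp_fun (g := q) (f := Ψ) (hqL _ hΨx hΨx1) (hΨ.2 _)
      exact comp_reg f (fun y => k (q (Ψ y))) e x hfreg.1 hfreg.2 hLD (Eventually.of_forall
        fun y => rfl)

end emb

end Pool.Agent.X175.SH
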