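import Pool.Agent.X175.SH.MB7
import Pool.Agent.X175.SH.UEmb

/-!
# Homeomorphisms with small sets of singular values and punctured manifolds
-/

set_option autoImplicit false

open Set Filter Topology Metric Function MeasureTheory
open scoped Manifold ContDiff NNReal

noncomputable section

namespace Pool.Agent.X175.SH

open Pool.Agent.Y522

/-- the complement of a point -/
def pc {M : Type} [TopologicalSpace M] [T2Space M] (p : M) : TopologicalSpace.Opens M :=
  ⟨{p}ᶜ, isOpen_compl_singleton⟩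

section one

variable {n : ℕ} {M N : Type} [TopologicalSpace M] [T2Space M] [ChartedSpace (E n) M]
    [IsManifold (𝓡 n) ∞ M] [TopologicalSpace N] [T2Space N] [ChartedSpace (E n) N]

omit [T2Space M] in
theorem smooth_of_LD [IsManifold (𝓡 n) ∞ N] (G : M ≃ₜ N) (x₀ : M)
    (hG : ∀ x, x ≠ x₀ → LD n G x) {V : Set N} (hV : V ∈ 𝓝 (G x₀)) :
    ∃ G' : M ≃ₜ N, (∀ x, G x ∉ V → G' x = G x) ∧ (∀ x, x ≠ x₀ → LD n G' x) ∧
      ∀ x, ContMDiffAt (𝓡 n) (𝓡 n) ∞ G' x := by
  obtain ⟨c, hc, hc0, hcV⟩ := exists_cell (n := n) (G x₀) hV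
  obtain ⟨G', -, h1, h2, h3⟩ := flatten G x₀ c hc.inj hc.ld hc0 (fun x hx _ => hG x hx)
  refine ⟨G', fun x hx => h1 x fun h => hx (hcV (image_subset_range _ _ h)),
    fun x hx => h2 x hx (hG x hx), fun x => ?_⟩
  by_cases hx : x = x₀
  · rw [hx]
    exact h3
  · exact (h2 x hx (hG x hx)).contMDiffAt

omit [IsManifold (𝓡 n) ∞ M] in
/-- a homeomorphism which is regular off one point is a diffeomorphism of the punctured manifolds -/
theorem punct_of_one (G : M ≃ₜ N) (x₀ : M) (hG : ∀ x, x ≠ x₀ → LD n G x) :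
    Nonempty (Diffeomorph (𝓡 n) (𝓡 n) (pc x₀) (pc (G x₀)) ∞) := by
  have hmem : ∀ x : pc x₀, G x.1 ∈ pc (G x₀) := fun x h => x.2 (G.injective h)
  let φ : pc x₀ → pc (G x₀) := fun x => ⟨G x.1, hmem x⟩
  have hφL : IsLocalDiffeomorph (𝓡 n) (𝓡 n) ∞ φ := by
    intro x
    have h1 : LD n (iv (pc (G x₀)) (φ x)) (φ x).1 :=
      LD.inverse (k := (Subtype.val : pc (G x₀) → N)) isOpen_univ
        (fun z _ => LD_val (pc (G x₀)) z) (fun z _ => iv_val (pc (G x₀)) (φ x) z) (mem_univ _)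
    have h2 : LD n (fun y : pc x₀ => iv (pc (G x₀)) (φ x) (G y.1)) x := by
      refine LD.comp_fun (g := iv (pc (G x₀)) (φ x)) (f := fun y : pc x₀ => G y.1) h1 ?_
      exact LD.comp_fun (g := G) (f := (Subtype.val : pc x₀ → M)) (hG x.1 x.2) (LD_val _ x)
    refine h2.congr (Eventually.of_forall fun y => ?_)
    exact (iv_val (pc (G x₀)) (φ x) (φ y)).symm
  have hφb : Bijective φ := by
    constructor
    · intro x y hxy
      exact Subtype.ext (G.injective (congrArg Subtype.val hxy))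
    · intro z
      refine ⟨⟨G.symm z.1, fun h => z.2 ?_⟩, Subtype.ext (G.apply_symm_apply z.1)⟩
      have h1 : G.symm z.1 = x₀ := h
      exact G.symm_apply_eq.1 h1
  exact ⟨hφL.diffeomorphOfBijective hφb⟩

omit [IsManifold (𝓡 n) ∞ M] in
/-- diffeomorphisms of punctured compact manifolds extend to homeomorphisms -/
theorem one_of_punct [CompactSpace M] [CompactSpace N] {p : M} {q : N}
    (Φ : Diffeomorph (𝓡 n) (𝓡 n) (pc p) (pc q) ∞) :
    ∃ G : M ≃ₜ N, ∀ x, x ≠ p → LD n G x := by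
  classical
  let G : M → N := fun x => if h : x ≠ p then (Φ ⟨x, h⟩).1 else q
  have hGn : ∀ x : pc p, G x.1 = (Φ x).1 := fun x => dif_pos x.2
  have hGp : G p = q := dif_neg (not_not.2 rfl)
  have hinj : Injective G := by
    intro x y hxy
    by_cases hx : x = p
    · by_cases hy : y = p
      · rw [hx, hy]
      · exfalso
        rw [hx, hGp, hGn ⟨y, hy⟩] at hxy
        exact (Φ ⟨y, hy⟩).2 hxy.symm
    · by_cases hy : y = p
      · exfalso
        rw [hy, hGp, hGn ⟨x, hx⟩] at hxy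
        exact (Φ ⟨x, hx⟩).2 hxy
      · rw [hGn ⟨x, hx⟩, hGn ⟨y, hy⟩] at hxy
        exact congrArg Subtype.val (Φ.injective (Subtype.ext hxy))
  have hsurj : Surjective G := by
    intro z
    by_cases hz : z = q
    · exact ⟨p, by rw [hGp, hz]⟩
    · refine ⟨(Φ.symm ⟨z, hz⟩).1, ?_⟩
      rw [hGn]
      exact congrArg Subtype.val (Φ.apply_symm_apply ⟨z, hz⟩)
  have hLD : ∀ x, x ≠ p → LD n G x := by
    intro x hx
    have h1 : LD n (iv (pc p) ⟨x, hx⟩) x :=
      LD.inverse (k := (Subtype.val : pc p → M)) (x := (⟨x, hx⟩ : pc p)) isOpen_univ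
        (fun z _ => LD_val (pc p) z) (fun z _ => iv_val (pc p) ⟨x, hx⟩ z) (mem_univ _)
    have h2 : LD n (fun y => (Φ (iv (pc p) ⟨x, hx⟩ y)).1) x := by
      refine LD.comp_fun (g := (Subtype.val : pc q → N))
        (f := fun y => Φ (iv (pc p) ⟨x, hx⟩ y)) (LD_val _ _) ?_
      exact LD.comp_fun (g := Φ) (f := iv (pc p) ⟨x, hx⟩) (Φ.isLocalDiffeomorph _) h1
    refine h2.congr ?_
    filter_upwards [(pc p).isOpen.mem_nhds hx] with y hy
    rw [hGn ⟨y, hy⟩]
    exact congrArg (fun z => (Φ z).1) (iv_val (pc p) ⟨x, hx⟩ ⟨y, hy⟩).symm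
  have hcont : Continuous G := by
    rw [continuous_iff_continuousAt]
    intro x
    by_cases hx : x = p
    · subst hx
      rw [ContinuousAt, hGp]
      intro V hV
      obtain ⟨W, hWV, hW, hqW⟩ := mem_nhds_iff.1 hV
      have hK : IsCompact ((Subtype.val : pc q → N) ⁻¹' Wᶜ) := by
        rw [Subtype.isCompact_iff]
        have h1 : (Subtype.val : pc q → N) '' (Subtype.val ⁻¹' Wᶜ) = Wᶜ := by
          ext z
          constructor
          · rintro ⟨y, hy, rfl⟩
            exact hy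
          · intro hz
            refine ⟨⟨z, fun h2 => hz ?_⟩, hz, rfl⟩
            rw [mem_singleton_iff.1 h2]
            exact hqW
        rw [h1]
        exact hW.isClosed_compl.isCompact
      have hK2 : IsClosed ((Subtype.val : pc x → M) '' (Φ.symm '' (Subtype.val ⁻¹' Wᶜ))) :=
        ((hK.image Φ.symm.continuous).image continuous_subtype_val).isClosed
      have hxK : x ∉ (Subtype.val : pc x → M) '' (Φ.symm '' (Subtype.val ⁻¹' Wᶜ)) := by
        rintro ⟨y, -, hy⟩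
        exact y.2 hy
      show G ⁻¹' V ∈ 𝓝 x
      filter_upwards [hK2.isOpen_compl.mem_nhds hxK] with y hy
      show G y ∈ V
      by_cases hyx : y = x
      · rw [hyx, hGp]
        exact hWV hqW
      · rw [hGn ⟨y, hyx⟩]
        by_contra hcon
        exact hy ⟨⟨y, hyx⟩, ⟨Φ ⟨y, hyx⟩, fun h => hcon (hWV h), Φ.symm_apply_apply _⟩, rfl⟩
    · exact (hLD x hx).continuousAt
  obtain ⟨e, he⟩ : ∃ e : M ≃ₜ N, ∀ x, e x = G x :=
    ⟨Continuous.homeoOfEquivCompactToT2 (f := Equiv.ofBijective G ⟨hinj, hsurj⟩) hcont,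
      fun _ => rfl⟩
  exact ⟨e, fun x hx => (hLD x hx).congr (Eventually.of_forall he)⟩

end one

section main

variable {m : ℕ} {M N : Type} [TopologicalSpace M] [T2Space M] [ChartedSpace (E (m + 1)) M]
    [IsManifold (𝓡 (m + 1)) ∞ M] [TopologicalSpace N] [T2Space N] [ChartedSpace (E (m + 1)) N]

/-- **Singular values in a ball.** -/
theorem cell_final (g : M → N) (hg : IsProperMap g) (hs : Surjective g) {c : E (m + 1) → N}
    (hc : Cell (m + 1) c) (B : Set (E (m + 1))) (hB : IsClosed B) (hB1 : B ⊆ ball 0 1)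
    (hT : Thin B) (hinj : ∀ x y, g x ∉ c '' B → g x = g y → x = y)
    (hsm : ∀ x, g x ∈ range c → g x ∉ c '' B → ContMDiffAt (𝓡 (m + 1)) (𝓡 (m + 1)) ∞ g x)
    (hfib : ∀ y ∈ B, Emb (m + 1) (g ⁻¹' {c y}))
    (hLD : ∀ x, g x ∉ c '' ball 0 1 → LD (m + 1) g x) :
    ∃ (G : M ≃ₜ N) (x₀ : M), (∀ x, g x ∉ c '' ball 0 1 → G x = g x) ∧
      (∀ x, x ≠ x₀ → LD (m + 1) G x) ∧ ∀ x, ContMDiffAt (𝓡 (m + 1)) (𝓡 (m + 1)) ∞ G x := by
  -- the singular values
  have hS : IsClosed {x | ¬ LD (m + 1) g x} := by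
    rw [← isOpen_compl_iff, isOpen_iff_mem_nhds]
    intro x hx
    have hx' : LD (m + 1) g x := not_not.1 hx
    filter_upwards [hx'.eventually] with y hy
    exact not_not.2 hy
  have hgS : IsClosed (g '' {x | ¬ LD (m + 1) g x}) := hg.isClosedMap _ hS
  have hcS : c ⁻¹' (g '' {x | ¬ LD (m + 1) g x}) ⊆ ball 0 1 := by
    rintro y ⟨x, hx, hxy⟩
    by_contra hcon
    refine hx (hLD x fun h => hcon ?_)
    rw [hxy] at h
    rwa [hc.inj.mem_set_image] at h
  have hK : IsCompact (B ∪ c ⁻¹' (g '' {x | ¬ LD (m + 1) g x})) :=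
    (isCompact_closedBall (0 : E (m + 1)) 1).of_isClosed_subset
      (hB.union (hgS.preimage hc.cont)) (union_subset (hB1.trans ball_subset_closedBall)
        (hcS.trans ball_subset_closedBall))
  obtain ⟨a, ha0, ha1, ha⟩ := exists_lt_one hK continuous_norm.continuousOn (by
    rintro y (hy | hy)
    · exact mem_ball_zero_iff.1 (hB1 hy)
    · exact mem_ball_zero_iff.1 (hcS hy))
  obtain ⟨G, x₀, hGp, hGs, hG0, hGe, hGm, hGev, hGi, hGL⟩ := one_point_map g hg hs c
    hc.inj hc.ld B hB hT a ha0 ha1 (fun y hy => mem_closedBall_zero_iff.2 (ha y (Or.inl hy)).le)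
    (fun x y _ hx2 hxy => hinj x y hx2 hxy) hsm hfib
    (by
      rintro x ⟨y, hy⟩ h2
      by_contra hcon
      refine h2 ⟨y, mem_closedBall_zero_iff.2 (ha y (Or.inr ?_)).le, hy⟩
      exact ⟨x, hcon, hy.symm⟩)
  have hout : ∀ x, G x ∉ c '' ball 0 1 → g x = G x := fun x hx =>
    (hGe x fun h => hx ((hGm x).2 h)).symm
  have hBc : c '' B ⊆ c '' ball 0 1 := image_mono hB1
  have hinjG : Injective G := by
    intro x y hxy
    by_cases h1 : G x ∈ range c
    · exact hGi x y h1 hxy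
    · have h2 : G x ∉ c '' ball 0 1 := fun h => h1 (image_subset_range _ _ h)
      have h3 : G y ∉ c '' ball 0 1 := by rw [← hxy]; exact h2
      refine hinj x y ?_ (by rw [hout x h2, hout y h3, hxy])
      rw [hout x h2]
      exact fun h => h2 (hBc h)
  obtain ⟨G₂, hG₂⟩ := homeo_of_proper hGp ⟨hinjG, hGs⟩
  have hG₂L : ∀ x, x ≠ x₀ → LD (m + 1) G₂ x := by
    intro x hx
    have h0 : LD (m + 1) G x := by
      by_cases h1 : G x ∈ range c
      · exact hGL x hx h1
      · have h2 : G x ∉ c '' ball 0 1 := fun h => h1 (image_subset_range _ _ h)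
        have h3 : g x ∉ c '' ball 0 1 := by rw [hout x h2]; exact h2
        exact (hLD x h3).congr (hGev x h3)
    exact h0.congr (Eventually.of_forall hG₂)
  -- flattening
  obtain ⟨σ, hσi, hσL, hσt, hσ⟩ := exists_shr (m + 1) (by norm_num : (0 : ℝ) < 1 / 2)
    (by norm_num : (1 / 2 : ℝ) < 1)
  have hσ0 : σ 0 = 0 := hσ 0 (by rw [norm_zero]; norm_num)
  have hd := hc.comp hσi hσL
  obtain ⟨G', -, h1, h2, h3⟩ := flatten G₂ x₀ (fun y => c (σ y)) hd.inj hd.ld
    (by show c (σ 0) = G₂ x₀; rw [hσ0, hG₂, hG0]) (fun x hx _ => hG₂L x hx)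
  refine ⟨G', x₀, fun x hx => ?_, fun x hx => h2 x hx (hG₂L x hx), fun x => ?_⟩
  · have h4 : G₂ x = g x := by rw [hG₂, hGe x hx]
    rw [h1 x, h4]
    rintro ⟨y, -, hy⟩
    have hy' : c (σ y) = G₂ x := hy
    apply hx
    rw [← h4, ← hy']
    exact ⟨σ y, mem_ball_zero_iff.2 (hσt y), rfl⟩
  · by_cases hx : x = x₀
    · rw [hx]
      exact h3
    · exact (h2 x hx (hG₂L x hx)).contMDiffAt

/-- **Small singular sets.** -/
theorem null_final [IsManifold (𝓡 (m + 1)) ∞ N] [ConnectedSpace N] {g : M → N} {C : Set N}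
    (h : Sing (m + 1) g C) (hC : IsCompact C) :
    ∃ (G : M ≃ₜ N) (x₀ : M), (∀ x, x ≠ x₀ → LD (m + 1) G x) ∧
      ∀ x, ContMDiffAt (𝓡 (m + 1)) (𝓡 (m + 1)) ∞ G x := by
  obtain ⟨G, x₀, hG⟩ := h.one hC
  obtain ⟨G', -, h1, h2⟩ := smooth_of_LD G x₀ hG (V := univ) univ_mem
  exact ⟨G', x₀, h1, h2⟩

end main

end Pool.Agent.X175.SH
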