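import Pool.Agent.X175.SH.Wall

/-!
# A manifold with a smooth homeomorphism onto `ℝ^n` is diffeomorphic to `ℝ^n`
-/

set_option autoImplicit false

open Set Filter Topology Metric Function MeasureTheory
open scoped Manifold ContDiff

noncomputable section

namespace Pool.Agent.X175.SH

open Pool.Agent.Y522

section step

variable {m : ℕ} {X : Type} [TopologicalSpace X] [ChartedSpace (E (m + 1)) X]
    [IsManifold (𝓡 (m + 1)) ∞ X]

/-- good levels of a smooth homeomorphism -/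
theorem good_smooth (hS : SHT m) (H : X ≃ₜ E (m + 1))
    (hH : ContMDiff (𝓡 (m + 1)) (𝓡 (m + 1)) ∞ H) (i : Fin (m + 1)) :
    Dense {c | Good (H : X → E (m + 1)) i c} := by
  have : SecondCountableTopology X := H.secondCountableTopology
  have hpr : ContDiff ℝ ∞ (fun z : E (m + 1) => z i) := by fun_prop
  have hHi : ContMDiff (𝓡 (m + 1)) 𝓘(ℝ, ℝ) ∞ (fun x => H x i) :=
    (contMDiff_iff_contDiff.2 hpr).comp hH
  refine (dense_regular _ hHi).mono fun c hc => ?_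
  have hφ : ContMDiff (𝓡 (m + 1)) 𝓘(ℝ, ℝ) ∞ (fun x => H x i - c) :=
    (contMDiff_iff_contDiff.2 (hpr.sub contDiff_const)).comp hH
  have hφd : ∀ x, H x i = c →
      mfderiv (𝓡 (m + 1)) 𝓘(ℝ, ℝ) (fun x => H x i - c) x ≠ 0 := by
    intro x hx
    have h1 := hc x hx
    have h2 : mfderiv (𝓡 (m + 1)) 𝓘(ℝ, ℝ) (fun x => H x i - c) x =
        mfderiv (𝓡 (m + 1)) 𝓘(ℝ, ℝ) (fun x => H x i) x := by
      have h3 : HasMFDerivAt (𝓡 (m + 1)) 𝓘(ℝ, ℝ) (fun x => H x i - c) x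
          (mfderiv (𝓡 (m + 1)) 𝓘(ℝ, ℝ) (fun x => H x i) x) := by
        have h4 : HasMFDerivAt 𝓘(ℝ, ℝ) 𝓘(ℝ, ℝ) (fun t : ℝ => t - c) (H x i)
            (ContinuousLinearMap.id ℝ ℝ) :=
          (((hasFDerivAt_id (H x i)).sub_const c)).hasMFDerivAt
        have h5 := h4.comp x ((hHi.mdifferentiableAt (by simp) (x := x)).hasMFDerivAt)
        exact h5
      exact h3.mfderiv
    rw [h2]
    exact h1
  refine ⟨fun x => H x i - c, hφ, fun x => sub_nonpos, fun x => sub_nonneg, ?_⟩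
  intro a b hab ha hb
  obtain ⟨G, G', hP⟩ := wall_param i c a b hab ha hb
  obtain ⟨f, hf1, hf2, hf3, hf4⟩ := level_wall hS H hH (fun x => H x i - c) hφ
    (H ⁻¹' obox a b) ((isOpen_obox a b).preimage H.continuous) hP
    (fun x => by
      constructor
      · rintro ⟨h1, h2⟩
        exact ⟨sub_eq_zero.2 h1, h2⟩
      · rintro ⟨h1, h2⟩
        exact ⟨sub_eq_zero.1 h1, h2⟩)
    (fun x hx => hφd x hx.1)
  exact ⟨f, hf1, hf2, hf3, fun x => hφd _ ((hf4 _).1 (mem_range_self x)).1, hf4⟩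

/-- engulfing: if all compact sets embed, and the spheres are smooth -/
theorem eng_smooth (hS : SHT m) (H : X ≃ₜ E (m + 1))
    (hH : ContMDiff (𝓡 (m + 1)) (𝓡 (m + 1)) ∞ H) : Eng (m + 1) X := by
  have : SecondCountableTopology X := H.secondCountableTopology
  have : T2Space X := H.symm.t2Space
  intro K hK
  have hpr : ContDiff ℝ ∞ (fun z : E (m + 1) => ‖z‖ ^ 2) := contDiff_norm_sq ℝ
  have hρ : ContMDiff (𝓡 (m + 1)) 𝓘(ℝ, ℝ) ∞ (fun x => ‖H x‖ ^ 2) :=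
    (contMDiff_iff_contDiff.2 hpr).comp hH
  obtain ⟨M, hM0, hM⟩ : ∃ M : ℝ, 0 < M ∧ ∀ x ∈ K, ‖H x‖ ≤ M := by
    obtain ⟨M, hM⟩ := (hK.image H.continuous).isBounded.subset_closedBall (0 : E (m + 1))
    refine ⟨|M| + 1, by positivity, fun x hx => ?_⟩
    have h1 := hM ⟨x, hx, rfl⟩
    rw [mem_closedBall_zero_iff] at h1
    have h2 := le_abs_self M
    linarith
  obtain ⟨c, hc, hcM, -⟩ := (dense_regular _ hρ).exists_between
    (show M ^ 2 < M ^ 2 + 1 by linarith)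
  have hc0 : 0 < c := lt_trans (by positivity) hcM
  set r := Real.sqrt c with hr
  have hr0 : 0 < r := Real.sqrt_pos.2 hc0
  have hrc : r ^ 2 = c := Real.sq_sqrt hc0.le
  have hφ : ContMDiff (𝓡 (m + 1)) 𝓘(ℝ, ℝ) ∞ (fun x => ‖H x‖ ^ 2 - c) :=
    (contMDiff_iff_contDiff.2 (hpr.sub contDiff_const)).comp hH
  have hφd : ∀ x, ‖H x‖ = r →
      mfderiv (𝓡 (m + 1)) 𝓘(ℝ, ℝ) (fun x => ‖H x‖ ^ 2 - c) x ≠ 0 := by
    intro x hx
    have h1 := hc x (by rw [hx, hrc])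
    have h2 : mfderiv (𝓡 (m + 1)) 𝓘(ℝ, ℝ) (fun x => ‖H x‖ ^ 2 - c) x =
        mfderiv (𝓡 (m + 1)) 𝓘(ℝ, ℝ) (fun x => ‖H x‖ ^ 2) x := by
      have h3 : HasMFDerivAt (𝓡 (m + 1)) 𝓘(ℝ, ℝ) (fun x => ‖H x‖ ^ 2 - c) x
          (mfderiv (𝓡 (m + 1)) 𝓘(ℝ, ℝ) (fun x => ‖H x‖ ^ 2) x) := by
        have h4 : HasMFDerivAt 𝓘(ℝ, ℝ) 𝓘(ℝ, ℝ) (fun t : ℝ => t - c) (‖H x‖ ^ 2)
            (ContinuousLinearMap.id ℝ ℝ) :=
          (((hasFDerivAt_id (‖H x‖ ^ 2)).sub_const c)).hasMFDerivAt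
        exact h4.comp x ((hρ.mdifferentiableAt (by simp) (x := x)).hasMFDerivAt)
      exact h3.mfderiv
    rw [h2]
    exact h1
  have hφr : ∀ x, ‖H x‖ ^ 2 - c = 0 ↔ ‖H x‖ = r := by
    intro x
    rw [sub_eq_zero, ← hrc, sq_eq_sq₀ (norm_nonneg _) hr0.le]
  have hφle : ∀ x, ‖H x‖ ^ 2 - c ≤ 0 ↔ ‖H x‖ ≤ r := by
    intro x
    rw [sub_nonpos, ← hrc, sq_le_sq₀ (norm_nonneg _) hr0.le]
  set s₀ := H.symm (r • e0) with hs₀
  have hHs₀ : H s₀ = r • e0 := H.apply_symm_apply _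
  obtain ⟨G, G', hP⟩ := stereo_param (m := m) r hr0
  obtain ⟨f, hf1, hf2, hf3, hf4⟩ := level_wall hS H hH (fun x => ‖H x‖ ^ 2 - c) hφ
    {x | x ≠ s₀} isOpen_ne hP
    (fun x => by
      have h1 : H x ≠ r • e0 ↔ x ≠ s₀ := by
        rw [← hHs₀]
        exact H.injective.ne_iff
      constructor
      · rintro ⟨h2, h3⟩
        exact ⟨(hφr x).2 h2, h1.1 h3⟩
      · rintro ⟨h2, h3⟩
        exact ⟨(hφr x).1 h2, h1.2 h3⟩)
    (fun x hx => hφd x hx.1)
  have hfr : ∀ y, ‖H (f y)‖ = r ∧ H (f y) ≠ r • e0 := fun y => (hf4 _).1 (mem_range_self y)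
  have hA : {x : X | ‖H x‖ ^ 2 - c ≤ 0} = H ⁻¹' closedBall 0 r := by
    ext x
    rw [mem_preimage, mem_closedBall_zero_iff]
    exact hφle x
  have hAc : IsCompact {x : X | ‖H x‖ ^ 2 - c ≤ 0} := by
    rw [hA]
    exact H.isClosedEmbedding.isCompact_preimage (isCompact_closedBall _ _)
  refine mazur (fun x => ‖H x‖ ^ 2 - c) s₀ f hφ hAc
    (emb_all H (fun i => good_smooth hS H hH i) _ hAc) ?_ hf1 hf2 hf3
    (fun y => (hφr _).2 (hfr y).1) ?_ (fun y => hφd _ (hfr y).1) ?_ K hK ?_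
  · rw [hφr, hHs₀, norm_smul, norm_e0, mul_one, Real.norm_of_nonneg hr0.le]
  · intro y h
    apply (hfr y).2
    rw [h, hHs₀]
  · intro x hx hxs
    refine (hf4 x).2 ⟨(hφr x).1 hx, ?_⟩
    rw [← hHs₀]
    exact fun h => hxs (H.injective h)
  · intro x hx
    have h1 := hM x hx
    have h2 : ‖H x‖ ^ 2 ≤ M ^ 2 := pow_le_pow_left₀ (norm_nonneg _) h1 2
    linarith

end step

/-- **Theorem.** A smooth `n`-manifold which admits a smooth homeomorphism onto `ℝ^n` (whose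
inverse need not be smooth) is diffeomorphic to `ℝ^n`. -/
theorem sht : ∀ n : ℕ, SHT n := by
  intro n
  induction n with
  | zero =>
    intro X _ _ _ H hH
    have hX : Subsingleton X := H.injective.subsingleton
    exact ⟨{ toEquiv := H.toEquiv
             contMDiff_toFun := hH
             contMDiff_invFun := by
               intro y
               have h1 : (H.toEquiv.symm : E 0 → X) = fun _ => H.symm y := by
                 funext z
                 exact Subsingleton.elim _ _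
               rw [h1]
               exact contMDiffAt_const }⟩
  | succ m ih =>
    intro X _ _ _ H hH
    have : T2Space X := H.symm.t2Space
    have : SigmaCompactSpace X := H.isClosedEmbedding.sigmaCompactSpace
    exact Pool.Agent.Y496.SH.monotone (Pool.Agent.Y784.SH.ext Pool.Agent.Y248.SH.germ) (m + 1) X
      (eng_smooth ih H hH)

end Pool.Agent.X175.SH
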