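import Pool.Agent.X175.SH.Sum
import Pool.Agent.Y496.SH.Mono

/-!
# The Mazur lemma: from embeddings to balls
-/

set_option autoImplicit false

open Set Filter Topology Metric Function
open scoped Manifold ContDiff

noncomputable section

namespace Pool.Agent.X175.SH

open Pool.Agent.Y522 Pool.Agent.Y784.SH

section inversion

variable {n : ℕ}

/-- the inversion at the origin (with `inv0 0 = 0`) -/
def inv0 (z : E n) : E n := (‖z‖ ^ 2)⁻¹ • z

theorem norm_inv0 (z : E n) : ‖inv0 z‖ = ‖z‖⁻¹ := by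
  rw [inv0, norm_smul, norm_inv, norm_pow, norm_norm]
  by_cases h : ‖z‖ = 0
  · simp [h]
  · field_simp

theorem inv0_inv0 (z : E n) : inv0 (inv0 z) = z := by
  by_cases h : ‖z‖ = 0
  · have : z = 0 := norm_eq_zero.1 h
    subst this
    simp [inv0]
  · rw [inv0, norm_inv0, inv0, smul_smul]
    have : ((‖z‖⁻¹ ^ 2)⁻¹ * (‖z‖ ^ 2)⁻¹) = 1 := by field_simp
    rw [this, one_smul]

theorem inv0_inj {z w : E n} (h : inv0 z = inv0 w) : z = w := by
  rw [← inv0_inv0 z, h, inv0_inv0]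

theorem contDiffAt_inv0 {z : E n} (h : z ≠ 0) : ContDiffAt ℝ ∞ inv0 z := by
  unfold inv0
  have h2 : ContDiff ℝ ∞ (fun z : E n => ‖z‖ ^ 2) := contDiff_norm_sq ℝ
  exact (h2.contDiffAt.inv (by positivity)).smul contDiffAt_id

theorem inv0_ne {z : E n} (h : z ≠ 0) : inv0 z ≠ 0 := by
  intro h0
  apply h
  rw [← inv0_inv0 z, h0]
  simp [inv0]

theorem LD_inv0 {z : E n} (h : z ≠ 0) : LD n inv0 z := by
  refine LD_of_leftInv (g := inv0)
    ((isOpen_ne.mem_nhds h : {y : E n | y ≠ 0} ∈ 𝓝 z) |> fun hh => ?_) ?_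
    (Eventually.of_forall fun y => inv0_inv0 y)
  · filter_upwards [hh] with y hy
    exact contDiffAt_inv0 hy
  · exact (contDiffAt_inv0 (inv0_ne h)).differentiableAt (by simp)

/-- inversions of compact sets are closed -/
theorem isClosed_inv0 {C : Set (E n)} (hC : IsCompact C) :
    IsClosed {w : E n | w ≠ 0 ∧ inv0 w ∈ C} := by
  rw [← isOpen_compl_iff, isOpen_iff_mem_nhds]
  intro w hw
  obtain ⟨M, hM⟩ := hC.isBounded.subset_closedBall (0 : E n)
  by_cases h0 : w = 0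
  · subst h0
    have hM1 : (0 : ℝ) < (|M| + 1)⁻¹ := by positivity
    filter_upwards [ball_mem_nhds (0 : E n) hM1] with v hv hcon
    rw [mem_ball_zero_iff] at hv
    have h1 := hM hcon.2
    rw [mem_closedBall_zero_iff, norm_inv0] at h1
    have hv0 : 0 < ‖v‖ := norm_pos_iff.2 hcon.1
    have h2 : |M| + 1 < ‖v‖⁻¹ := by
      rw [lt_inv_comm₀ (by positivity) hv0]
      exact hv
    have h3 := le_abs_self M
    linarith
  · have h1 : inv0 w ∉ C := fun h => hw ⟨h0, h⟩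
    have h2 : ∀ᶠ v in 𝓝 w, inv0 v ∈ Cᶜ :=
      (contDiffAt_inv0 h0).continuousAt.eventually_mem (hC.isClosed.isOpen_compl.mem_nhds h1)
    filter_upwards [h2] with v hv hcon
    exact hv hcon.2

end inversion

/-- **Mazur's lemma**, with control of the image. -/
theorem mazur_in {m : ℕ} {X : Type} [TopologicalSpace X] [T2Space X] [ChartedSpace (E (m + 1)) X]
    [IsManifold (𝓡 (m + 1)) ∞ X] (φ : X → ℝ) (s₀ : X) (f : E m → X)
    (hφ : ContMDiff (𝓡 (m + 1)) 𝓘(ℝ, ℝ) ∞ φ) (hA : IsCompact {x | φ x ≤ 0})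
    (N : Set X) (k : X → E (m + 1)) (hN : IsOpen N) (hAN : {x | φ x ≤ 0} ⊆ N) (hk : InjOn k N)
    (hkd : ∀ x ∈ N, LD (m + 1) k x) (hs : φ s₀ = 0)
    (hfi : Injective f) (hf : ContMDiff (𝓡 m) (𝓡 (m + 1)) ∞ f)
    (hfd : ∀ x, Injective (mfderiv (𝓡 m) (𝓡 (m + 1)) f x)) (h0 : ∀ x, φ (f x) = 0)
    (hfs : ∀ x, f x ≠ s₀) (hd : ∀ x, mfderiv (𝓡 (m + 1)) 𝓘(ℝ, ℝ) φ (f x) ≠ 0)
    (hfr : ∀ x, φ x = 0 → x ≠ s₀ → x ∈ range f)
    (L : Set X) (hL : IsCompact L) (hLφ : ∀ x ∈ L, φ x < 0) :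
    ∃ g : E (m + 1) → X, Injective g ∧ (∀ x, LD (m + 1) g x) ∧ L ⊆ range g ∧ ∀ y, g y ∈ N := by
  classical
  have hsA : s₀ ∈ {x | φ x ≤ 0} := hs.le
  have hsN : s₀ ∈ N := hAN hsA
  set N' : Set X := N \ {s₀} with hN'
  have hN'o : IsOpen N' := hN.sdiff isClosed_singleton
  set p₀ := k s₀ with hp₀
  have hkp : ∀ x ∈ N', k x - p₀ ≠ 0 := by
    intro x hx h
    exact hx.2 (hk hx.1 hsN (sub_eq_zero.1 h))
  set j₀ : X → E (m + 1) := fun x => inv0 (k x - p₀) with hj₀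
  have hT : ∀ z : E (m + 1), LD (m + 1) (fun y => y - p₀) z := fun z => by
    have := LD_add_const (-p₀) z
    simpa [sub_eq_add_neg] using this
  have hj₀d : ∀ x ∈ N', LD (m + 1) j₀ x := fun x hx =>
    LD.comp_fun (g := inv0) (LD_inv0 (hkp x hx))
      (LD.comp_fun (g := fun y => y - p₀) (hT _) (hkd x hx.1))
  have hj₀i : InjOn j₀ N' := by
    intro x hx y hy hxy
    have h1 := inv0_inj hxy
    exact hk hx.1 hy.1 (sub_left_injective h1)
  -- the radius of the ball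
  have hLN : ∀ x ∈ L, x ∈ N' := by
    intro x hx
    refine ⟨hAN (hLφ x hx).le, ?_⟩
    intro h
    rw [mem_singleton_iff] at h
    have := hLφ x hx
    rw [h, hs] at this
    exact lt_irrefl _ this
  have hjL : IsCompact (j₀ '' L) := hL.image_of_continuousOn
    fun x hx => (hj₀d x (hLN x hx)).continuousAt.continuousWithinAt
  obtain ⟨M, hM0, hM⟩ : ∃ M : ℝ, 0 < M ∧ ∀ x ∈ L, ‖j₀ x‖ < M := by
    obtain ⟨M, hM⟩ := hjL.isBounded.subset_closedBall (0 : E (m + 1))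
    refine ⟨|M| + 1, by positivity, fun x hx => ?_⟩
    have h1 := hM ⟨x, hx, rfl⟩
    rw [mem_closedBall_zero_iff] at h1
    have h2 := le_abs_self M
    linarith
  -- the compact part of the domain
  set L' : Set X := {x | φ x ≤ 0} ∩ k ⁻¹' {z | M⁻¹ ≤ ‖z - p₀‖} with hL'
  have hL'c : IsCompact L' := by
    have h1 : ContinuousOn k {x | φ x ≤ 0} := fun x hx =>
      (hkd x (hAN hx)).continuousAt.continuousWithinAt
    have h2 : IsClosed L' := by
      refine h1.preimage_isClosed_of_isClosed hA.isClosed ?_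
      exact isClosed_le continuous_const ((continuous_id.sub continuous_const).norm)
    exact hA.of_isClosed_subset h2 inter_subset_left
  have hL'f : ∀ x ∈ L', φ x = 0 → x ∈ range f := by
    intro x hx hx0
    refine hfr x hx0 ?_
    intro h
    have h1 : M⁻¹ ≤ ‖k x - p₀‖ := hx.2
    rw [h, hp₀, sub_self, norm_zero] at h1
    exact absurd h1 (not_le.2 (by positivity))
  have hfE : ∀ R : ℝ, Emb (m + 1) (f '' closedBall 0 R) := by
    intro R
    refine ⟨N, k, hN, ?_, hk, hkd⟩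
    rintro _ ⟨y, -, rfl⟩
    exact hAN (h0 y).le
  obtain ⟨R₀, hR₀, hR₀L⟩ := exists_radius stCollar φ f hφ hfi hf hfd h0 hd hfE L' hL'c hL'f
  have hfN' : ∀ y, f y ∈ N' := fun y => ⟨hAN (h0 y).le, hfs y⟩
  obtain ⟨η, hη, F, hF1, hF2, hF3, hF4⟩ := collarX stCollar φ f hφ hfi hf hfd h0 hd (R₀ + 1)
    (by positivity) (hfE _) N' hN'o (fun x _ => hfN' x)
  have hR1 : 0 < R₀ + 1 := by positivity
  have h0b : (0 : E (m + 1)) ∈ box m (R₀ + 1) η := zero_mem_box hR1 hη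
  have hF0 : ∀ z ∈ box m (R₀ + 1) η, z 0 = 0 → F z = f (tl z) := by
    intro z hz hz0
    have h1 : cn 0 (tl z) = z := by
      conv_rhs => rw [← cn_tl z, hz0]
    rw [← h1, hF1 _ hz.1, h1]
  have hFφ0 : ∀ z ∈ box m (R₀ + 1) η, φ (F z) = 0 → z 0 = 0 := by
    intro z hz h
    rcases lt_trichotomy (z 0) 0 with h1 | h1 | h1
    · exact absurd h ((hF4 z hz).2 h1).ne
    · exact h1
    · exact absurd h ((hF4 z hz).1 h1).ne'
  have hFφle : ∀ z ∈ box m (R₀ + 1) η, (φ (F z) ≤ 0 ↔ z 0 ≤ 0) := by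
    intro z hz
    rcases lt_trichotomy (z 0) 0 with h1 | h1 | h1
    · exact ⟨fun _ => h1.le, fun _ => ((hF4 z hz).2 h1).le⟩
    · refine ⟨fun _ => h1.le, fun _ => ?_⟩
      rw [hF0 z hz h1, h0]
    · exact ⟨fun h => absurd ((hF4 z hz).1 h1) (not_lt.2 h), fun h => absurd h1 (not_lt.2 h)⟩
  -- normalisation
  obtain ⟨Θ, hΘb, hΘd, hΘe⟩ := exists_normalise Pool.Agent.Y248.SH.germ (fun z => j₀ (F z))
    (LD.comp_fun (g := j₀) (hj₀d _ (hF3 0 h0b).2) (hF3 0 h0b).1)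
  obtain ⟨ρ, hρ, hρb, hρ1⟩ : ∃ ρ : ℝ, 0 < ρ ∧ (∀ z : E (m + 1), ‖z‖ ≤ 2 * ρ →
      z ∈ box m (R₀ + 1) η) ∧ (∀ z : E (m + 1), ‖z‖ ≤ 2 * ρ → Θ (j₀ (F z)) = z) := by
    obtain ⟨ε, hε, hε'⟩ := Metric.eventually_nhds_iff.1 hΘe
    refine ⟨min (ε / 4) (min ((R₀ + 1) / 2) (η / 2)), by positivity, ?_, ?_⟩
    · intro z hz
      refine mem_box_of_norm_le ?_ ?_
      · have := (min_le_right (ε / 4) (min ((R₀ + 1) / 2) (η / 2))).trans (min_le_left _ _)
        linarith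
      · have := (min_le_right (ε / 4) (min ((R₀ + 1) / 2) (η / 2))).trans (min_le_right _ _)
        linarith
    · intro z hz
      refine hε' (y := z) ?_
      have := (min_le_left (ε / 4) (min ((R₀ + 1) / 2) (η / 2)))
      rw [dist_zero_right]
      linarith
  set j : X → E (m + 1) := fun x => Θ (j₀ x) with hj
  have hji : InjOn j N' := fun a ha b hb hab => hj₀i ha hb (hΘb.1 hab)
  have hjd : ∀ x ∈ N', LD (m + 1) j x := fun x hx =>
    LD.comp_fun (g := Θ) (hΘd _) (hj₀d x hx)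
  have hjF : ∀ z : E (m + 1), ‖z‖ ≤ 2 * ρ → j (F z) = z := hρ1
  -- the image of the domain
  set Ah : Set (E (m + 1)) := {v | ∃ x, φ x ≤ 0 ∧ x ≠ s₀ ∧ j x = v} with hAh
  have hAhN : ∀ x, φ x ≤ 0 → x ≠ s₀ → x ∈ N' := fun x hx hxs => ⟨hAN hx, hxs⟩
  have hmemAh : ∀ x ∈ N', (j x ∈ Ah ↔ φ x ≤ 0) := by
    intro x hx
    constructor
    · rintro ⟨y, hy, hys, hyx⟩
      rw [← hji (hAhN y hy hys) hx hyx]
      exact hy
    · intro h
      exact ⟨x, h, hx.2, rfl⟩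
  obtain ⟨Θ', hΘ'd, hΘ'1, hΘ'2⟩ := Dif.inv (⟨hΘb, hΘd⟩ : Dif (m + 1) Θ)
  have hAhc : IsClosed Ah := by
    have hC : IsCompact ((fun x => k x - p₀) '' {x | φ x ≤ 0}) := by
      refine hA.image_of_continuousOn fun x hx => ?_
      exact ((hkd x (hAN hx)).continuousAt.sub continuousAt_const).continuousWithinAt
    have h1 : Ah = Θ' ⁻¹' {w | w ≠ 0 ∧ inv0 w ∈ (fun x => k x - p₀) '' {x | φ x ≤ 0}} := by
      ext v
      constructor
      · rintro ⟨x, hx, hxs, rfl⟩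
        have h2 : Θ' (j x) = inv0 (k x - p₀) := hΘ'1 _
        refine ⟨?_, ?_⟩
        · rw [h2]
          exact inv0_ne (hkp x (hAhN x hx hxs))
        · rw [h2, inv0_inv0]
          exact ⟨x, hx, rfl⟩
      · rintro ⟨hw0, x, hx, hxe⟩
        refine ⟨x, hx, ?_, ?_⟩
        · rintro rfl
          simp only [← hp₀, sub_self] at hxe
          apply hw0
          rw [← inv0_inv0 (Θ' v), ← hxe]
          simp [inv0]
        · show Θ (inv0 (k x - p₀)) = v
          simp only at hxe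
          rw [hxe, inv0_inv0, hΘ'2]
    rw [h1]
    refine (isClosed_inv0 hC).preimage ?_
    exact continuous_iff_continuousAt.2 fun x => (hΘ'd.2 x).continuousAt
  obtain ⟨μ, c, hc0, hcρ, hμi, hμd, ⟨τ, hτ, hτc, hμτ⟩, hμ2⟩ := mob m ρ (2 * ρ) hρ (by linarith)
  have hτρ : τ < ρ := hτc.trans_lt hcρ
  have hcA : c ∈ Ah := by
    have h1 : ‖c‖ ≤ 2 * ρ := by linarith
    rw [← hjF c h1, hmemAh _ (hF3 _ (hρb _ h1)).2, hFφle _ (hρb _ h1)]
    exact hc0.le
  have hout : ∀ v, v ∉ Ah → 0 < v 0 ∨ ρ ≤ ‖v‖ := by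
    intro v hv
    by_contra hcon
    push Not at hcon
    have h1 : ‖v‖ ≤ 2 * ρ := by linarith [hcon.2]
    apply hv
    rw [← hjF v h1, hmemAh _ (hF3 _ (hρb _ h1)).2, hFφle _ (hρb _ h1)]
    exact hcon.1
  have hμout : ∀ v, v ∉ Ah → μ v ∉ Ah ∧ ‖μ v‖ ≤ 2 * ρ := by
    intro v hv
    obtain ⟨h1, h2⟩ := hμ2 v (hout v hv)
    refine ⟨?_, h2.le⟩
    rw [← hjF _ h2.le, hmemAh _ (hF3 _ (hρb _ h2.le)).2, hFφle _ (hρb _ h2.le)]
    exact not_le.2 h1
  -- compression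
  set Fh : E (m + 1) → E (m + 1) := fun z => j (F z) with hFh
  have hFhi : InjOn Fh (box m (R₀ + 1) η) := fun a ha b hb hab =>
    hF2 ha hb (hji (hF3 a ha).2 (hF3 b hb).2 hab)
  have hFhd : ∀ z ∈ box m (R₀ + 1) η, LD (m + 1) Fh z := fun z hz =>
    LD.comp_fun (g := j) (hjd _ (hF3 z hz).2) (hF3 z hz).1
  obtain ⟨Λ, hΛb, hΛd, hΛ1, hΛ2, hΛ3⟩ := stCompress m (E (m + 1)) Fh (R₀ + 1) η hR1 hη hFhi hFhd
    R₀ (by linarith) τ hτ
  obtain ⟨Λ', hΛ'd, hΛ'1, hΛ'2⟩ := Dif.inv (⟨hΛb, hΛd⟩ : Dif (m + 1) Λ)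
  have hcnb : ∀ z ∈ box m (R₀ + 1) η, ∀ q : E m, ‖q‖ ≤ R₀ + 1 →
      (cn (z 0) q : E (m + 1)) ∈ box m (R₀ + 1) η := fun z hz q hq =>
    ⟨by simpa using hq, by simpa using hz.2⟩
  -- `Λ` preserves the image of the domain
  have hΛA : ∀ v ∈ Ah, Λ v ∈ Ah := by
    rintro v ⟨x, hx, hxs, rfl⟩
    by_cases hb : j x ∈ Fh '' (box m (R₀ + 1) η)
    · obtain ⟨z, hz, hzx⟩ := hb
      have hxF : F z = x := hji (hF3 z hz).2 (hAhN x hx hxs) hzx
      obtain ⟨q, hq, hqe⟩ := hΛ2 z hz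
      rw [← hzx, hqe]
      have hz0 : z 0 ≤ 0 := by
        rw [← hFφle z hz, hxF]
        exact hx
      show j (F _) ∈ Ah
      rw [hmemAh _ (hF3 _ (hcnb z hz q hq)).2, hFφle _ (hcnb z hz q hq), cn_zero]
      exact hz0
    · rw [hΛ1 _ hb]
      exact ⟨x, hx, hxs, rfl⟩
  -- the image of `N'` is preserved
  have hΛ'N : ∀ v ∈ j '' N', Λ' v ∈ j '' N' := by
    intro v hv
    by_cases hb : Λ' v ∈ Fh '' (box m (R₀ + 1) η)
    · obtain ⟨z, hz, hzv⟩ := hb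
      rw [← hzv]
      exact ⟨F z, (hF3 z hz).2, rfl⟩
    · have h1 := hΛ1 _ hb
      rw [hΛ'2] at h1
      rw [← h1]
      exact hv
  -- the map
  obtain ⟨V, hV1, hV2⟩ : ∃ V : E (m + 1) → E (m + 1), (∀ v ∈ Ah, V v = v) ∧
      ∀ v, v ∉ Ah → V v = μ v :=
    ⟨fun v => if v ∈ Ah then v else μ v, fun v hv => if_pos hv, fun v hv => if_neg hv⟩
  have hVi : Injective V := by
    intro v w hvw
    by_cases hv : v ∈ Ah
    · by_cases hw : w ∈ Ah
      · rwa [hV1 v hv, hV1 w hw] at hvw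
      · exfalso
        rw [hV1 v hv, hV2 w hw] at hvw
        exact (hμout w hw).1 (hvw ▸ hv)
    · by_cases hw : w ∈ Ah
      · exfalso
        rw [hV2 v hv, hV1 w hw] at hvw
        exact (hμout v hv).1 (hvw.symm ▸ hw)
      · rw [hV2 v hv, hV2 w hw] at hvw
        have h1 : v ≠ c := fun h => hv (by rw [h]; exact hcA)
        have h2 : w ≠ c := fun h => hw (by rw [h]; exact hcA)
        exact hμi h1 h2 hvw
  have hVN : ∀ v, V v ∈ j '' N' := by
    intro v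
    by_cases hv : v ∈ Ah
    · rw [hV1 v hv]
      obtain ⟨x, hx, hxs, rfl⟩ := hv
      exact ⟨x, hAhN x hx hxs, rfl⟩
    · rw [hV2 v hv]
      have h1 := (hμout v hv).2
      exact ⟨F (μ v), (hF3 _ (hρb _ h1)).2, hjF _ h1⟩
  have hVτ : ∀ v, ‖v‖ < τ → V v = v := by
    intro v hv
    by_cases hvA : v ∈ Ah
    · exact hV1 v hvA
    · rw [hV2 v hvA, hμτ v hv]
  have hVd : ∀ w : E (m + 1), ‖w‖ < M → LD (m + 1) V (Λ (Θ w)) := by
    intro w hw
    set v := Λ (Θ w) with hvdef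
    by_cases hvA : v ∈ Ah
    · obtain ⟨x, hx, hxs, hxv⟩ := hvA
      have hxN : x ∈ N' := hAhN x hx hxs
      rcases hx.lt_or_eq with hlt | heq
      · -- interior point
        refine (LD.id v).congr ?_
        have ho : IsOpen (j '' (N' ∩ {y | φ y < 0})) :=
          isOpen_image_of_LD (hN'o.inter (isOpen_lt hφ.continuous continuous_const))
            fun y hy => hjd y hy.1
        filter_upwards [ho.mem_nhds ⟨x, ⟨hxN, hlt⟩, hxv⟩] with u hu
        obtain ⟨y, hy, rfl⟩ := hu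
        exact hV1 _ ⟨y, hy.2.le, hy.1.2, rfl⟩
      · -- boundary point
        have h1 : Λ' v = Θ w := by rw [hvdef, hΛ'1]
        have hvτ : ‖v‖ < τ := by
          have h2 : ∃ x', x' ∈ N' ∧ φ x' = 0 ∧ j x' = Θ w := by
            by_cases hb : Θ w ∈ Fh '' (box m (R₀ + 1) η)
            · obtain ⟨z, hz, hzw⟩ := hb
              obtain ⟨q, hq, hqe⟩ := hΛ2 z hz
              rw [hzw, ← hvdef, ← hxv] at hqe
              have h3 : x = F (cn (z 0) q) := hji hxN (hF3 _ (hcnb z hz q hq)).2 hqe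
              have h4 : z 0 = 0 := by
                have h5 := hFφ0 _ (hcnb z hz q hq) (by rw [← h3]; exact heq)
                simpa using h5
              exact ⟨F z, (hF3 z hz).2, by rw [hF0 z hz h4, h0], hzw⟩
            · have h3 := hΛ1 _ hb
              rw [← hvdef] at h3
              exact ⟨x, hxN, heq, by rw [hxv, h3]⟩
          obtain ⟨x', hx'N, hx'0, hx'w⟩ := h2
          have h3 : j₀ x' = w := hΘb.1 hx'w
          have h4 : x' ∈ L' := by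
            refine ⟨hx'0.le, ?_⟩
            show M⁻¹ ≤ ‖k x' - p₀‖
            have h5 : ‖k x' - p₀‖ = ‖w‖⁻¹ := by
              rw [← h3]
              show _ = ‖inv0 (k x' - p₀)‖⁻¹
              rw [norm_inv0, inv_inv]
            have h6 : 0 < ‖w‖ := by
              rw [← h3]
              exact norm_pos_iff.2 (inv0_ne (hkp x' hx'N))
            rw [h5]
            exact inv_anti₀ h6 hw.le
          obtain ⟨y, hy, hyx⟩ := hR₀L x' h4 hx'0
          obtain ⟨q, hq, hqe⟩ := hΛ3 y hy.le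
          have h7 : Fh (cn 0 y) = Θ w := by
            show j (F (cn 0 y)) = Θ w
            rw [hF1 y (by linarith), hyx]
            exact hx'w
          rw [h7, ← hvdef] at hqe
          have h8 : ‖(cn 0 q : E (m + 1))‖ = ‖q‖ := by
            have h5 := norm_cn_sq 0 q
            rw [← sq_eq_sq₀ (norm_nonneg _) (norm_nonneg _), h5]
            ring
          have h9 : v = cn 0 q := by
            rw [hqe]
            exact hjF _ (by rw [h8]; linarith)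
          rw [h9, h8]
          exact hq
        refine (LD.id v).congr ?_
        filter_upwards [isOpen_ball.mem_nhds (mem_ball_zero_iff.2 hvτ)] with u hu
        exact hVτ u (mem_ball_zero_iff.1 hu)
    · have hvc : v ≠ c := fun h => hvA (h ▸ hcA)
      refine (hμd v hvc).congr ?_
      filter_upwards [hAhc.isOpen_compl.mem_nhds hvA] with u hu
      exact hV2 u hu
  -- assembling
  have : Nonempty X := ⟨s₀⟩
  obtain ⟨κ, hκ⟩ : ∃ κ : E (m + 1) → X, ∀ x ∈ N', κ (j x) = x :=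
    ⟨invFunOn j N', fun x hx => hji.leftInvOn_invFunOn hx⟩
  have hκd : ∀ v ∈ j '' N', LD (m + 1) κ v := by
    rintro _ ⟨x, hx, rfl⟩
    exact LD.inverse hN'o hjd hκ hx
  have hκj : ∀ v ∈ j '' N', j (κ v) = v := by
    rintro _ ⟨x, hx, rfl⟩
    rw [hκ x hx]
  set β := OpenPartialHomeomorph.univBall (0 : E (m + 1)) M with hβ
  have hβs : β.source = univ := OpenPartialHomeomorph.univBall_source _ _
  have hβt : β.target = ball 0 M := OpenPartialHomeomorph.univBall_target _ hM0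
  have hβi : Injective β := by
    intro x y h
    exact β.injOn (by rw [hβs]; exact mem_univ _) (by rw [hβs]; exact mem_univ _) h
  have hβd : ∀ x, LD (m + 1) β x := Pool.Agent.Y496.SH.LD_univBall hM0
  have hβM : ∀ x, ‖β x‖ < M := by
    intro x
    have h1 : β x ∈ β.target := β.map_source (by rw [hβs]; exact mem_univ _)
    rw [hβt, mem_ball_zero_iff] at h1
    exact h1
  refine ⟨fun x => κ (Λ' (V (Λ (Θ (β x))))), ?_, ?_, ?_, ?_⟩
  · intro x y hxy
    have h1 : ∀ x, Λ' (V (Λ (Θ (β x)))) ∈ j '' N' := fun x => hΛ'N _ (hVN _)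
    have h2 := congrArg j hxy
    simp only at h2
    rw [hκj _ (h1 x), hκj _ (h1 y)] at h2
    exact hβi (hΘb.1 (hΛb.1 (hVi (hΛ'd.1.1 h2))))
  · intro x
    refine LD.comp_fun (g := κ) (hκd _ (hΛ'N _ (hVN _))) ?_
    refine LD.comp_fun (g := Λ') (hΛ'd.2 _) ?_
    refine LD.comp_fun (g := V) (hVd _ (hβM x)) ?_
    refine LD.comp_fun (g := Λ) (hΛd _) ?_
    exact LD.comp_fun (g := Θ) (hΘd _) (hβd x)
  · intro l hl
    have h1 : j₀ l ∈ β.target := by
      rw [hβt, mem_ball_zero_iff]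
      exact hM l hl
    refine ⟨β.symm (j₀ l), ?_⟩
    have h2 : β (β.symm (j₀ l)) = j₀ l := β.right_inv h1
    show κ (Λ' (V (Λ (Θ (β (β.symm (j₀ l))))))) = l
    rw [h2]
    have h3 : j l ∈ Ah := ⟨l, (hLφ l hl).le, (hLN l hl).2, rfl⟩
    have h4 : V (Λ (Θ (j₀ l))) = Λ (Θ (j₀ l)) := hV1 _ (hΛA _ h3)
    rw [h4, hΛ'1]
    exact hκ l (hLN l hl)
  · intro y
    obtain ⟨x, hx, hxe⟩ := hΛ'N _ (hVN (Λ (Θ (β y))))
    show κ (Λ' (V (Λ (Θ (β y))))) ∈ N
    rw [← hxe, hκ x hx]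
    exact hx.1

/-- **Mazur's lemma.**  If a compact domain `{φ ≤ 0}` embeds in `ℝ^(m+1)` and its boundary minus a
point is diffeomorphic to `ℝ^m`, then all compact subsets of `{φ < 0}` are contained in open
balls. -/
theorem mazur {m : ℕ} {X : Type} [TopologicalSpace X] [T2Space X] [ChartedSpace (E (m + 1)) X]
    [IsManifold (𝓡 (m + 1)) ∞ X] (φ : X → ℝ) (s₀ : X) (f : E m → X)
    (hφ : ContMDiff (𝓡 (m + 1)) 𝓘(ℝ, ℝ) ∞ φ) (hA : IsCompact {x | φ x ≤ 0})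
    (hE : Emb (m + 1) {x | φ x ≤ 0}) (hs : φ s₀ = 0)
    (hfi : Injective f) (hf : ContMDiff (𝓡 m) (𝓡 (m + 1)) ∞ f)
    (hfd : ∀ x, Injective (mfderiv (𝓡 m) (𝓡 (m + 1)) f x)) (h0 : ∀ x, φ (f x) = 0)
    (hfs : ∀ x, f x ≠ s₀) (hd : ∀ x, mfderiv (𝓡 (m + 1)) 𝓘(ℝ, ℝ) φ (f x) ≠ 0)
    (hfr : ∀ x, φ x = 0 → x ≠ s₀ → x ∈ range f)
    (L : Set X) (hL : IsCompact L) (hLφ : ∀ x ∈ L, φ x < 0) :
    ∃ g : E (m + 1) → X, Injective g ∧ (∀ x, LD (m + 1) g x) ∧ L ⊆ range g := by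
  obtain ⟨N, k, hN, hAN, hk, hkd⟩ := hE
  obtain ⟨g, h1, h2, h3, -⟩ := mazur_in φ s₀ f hφ hA N k hN hAN hk hkd hs hfi hf hfd h0 hfs hd hfr
    L hL hLφ
  exact ⟨g, h1, h2, h3⟩

end Pool.Agent.X175.SH
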