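import Pool.Agent.Y522.Tools
import Pool.Agent.Y248.SH.Germ

/-!
# A modified parabolic Moebius map (first part of `StMoebius`)
-/

set_option autoImplicit false

open Set Filter Topology Metric Function
open scoped Manifold ContDiff

noncomputable section

namespace Pool.Agent.X175.SH

open Pool.Agent.Y522

/-- A map which is the identity near the origin, and pushes a half space and a neighbourhood of
infinity into a small half ball. -/
def Mob : Prop :=
  ∀ (m : ℕ) (ρ r : ℝ), 0 < ρ → 0 < r → ∃ (μ : E (m + 1) → E (m + 1)) (c : E (m + 1)),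
    c 0 < 0 ∧ ‖c‖ < ρ ∧ InjOn μ {z | z ≠ c} ∧ (∀ z, z ≠ c → LD (m + 1) μ z) ∧
    (∃ τ : ℝ, 0 < τ ∧ τ ≤ ‖c‖ ∧ ∀ z, ‖z‖ < τ → μ z = z) ∧
    (∀ z, (0 < z 0 ∨ ρ ≤ ‖z‖) → 0 < (μ z) 0 ∧ ‖μ z‖ < r)

section LDinv

variable {n : ℕ}

/-- a smooth map with a differentiable left inverse is a local diffeomorphism -/
theorem LD_of_leftInv {f g : E n → E n} {x : E n} (hf : ∀ᶠ y in 𝓝 x, ContDiffAt ℝ ∞ f y)
    (hg : DifferentiableAt ℝ g (f x)) (h : ∀ᶠ y in 𝓝 x, g (f y) = y) : LD n f x := by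
  have hfx : DifferentiableAt ℝ f x := (hf.self_of_nhds).differentiableAt (by simp)
  have h1 : HasFDerivAt (g ∘ f) ((fderiv ℝ g (f x)).comp (fderiv ℝ f x)) x :=
    hg.hasFDerivAt.comp x hfx.hasFDerivAt
  have h2 : HasFDerivAt (g ∘ f) (ContinuousLinearMap.id ℝ (E n)) x :=
    (hasFDerivAt_id x).congr_of_eventuallyEq h
  have h3 := h1.unique h2
  have hinj : Injective (fderiv ℝ f x) := by
    intro a b hab
    have ha := congrArg (fun L : E n →L[ℝ] E n => L a) h3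
    have hb := congrArg (fun L : E n →L[ℝ] E n => L b) h3
    simp only [ContinuousLinearMap.comp_apply, ContinuousLinearMap.id_apply] at ha hb
    rw [← ha, ← hb, hab]
  have hsurj : Surjective (fderiv ℝ f x) :=
    (LinearMap.injective_iff_surjective (f := (fderiv ℝ f x : E n →ₗ[ℝ] E n))).1 hinj
  exact LD_of_contDiffAt hf (ContinuousLinearEquiv.ofBijective (fderiv ℝ f x)
    (LinearMap.ker_eq_bot.2 hinj) (LinearMap.range_eq_top.2 hsurj)) hfx.hasFDerivAt

end LDinv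

variable {m : ℕ}

/-- the denominator -/
def den (a : ℝ) (z : E (m + 1)) : ℝ := 1 + 2 * a * z 0 + a ^ 2 * ‖z‖ ^ 2

/-- the parabolic map -/
def par (a : ℝ) (z : E (m + 1)) : E (m + 1) := (den a z)⁻¹ • (z + (a * ‖z‖ ^ 2) • e0)

@[simp] theorem e0_zero : (e0 : E (m + 1)) 0 = 1 := rfl

theorem inner_e0 (z : E (m + 1)) : inner ℝ z e0 = z 0 := by
  rw [PiLp.inner_apply, Fin.sum_univ_succ]
  simp [e0]

theorem norm_e0 : ‖(e0 : E (m + 1))‖ = 1 := by
  have h := norm_sq_split (e0 : E (m + 1))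
  have h1 : ‖(e0 : E (m + 1))‖ ^ 2 = 1 := by
    rw [h]
    simp [e0]
  have h2 := norm_nonneg (e0 : E (m + 1))
  nlinarith [sq_nonneg (‖(e0 : E (m + 1))‖ - 1)]

theorem norm_add_smul_e0 (z : E (m + 1)) (t : ℝ) :
    ‖z + t • e0‖ ^ 2 = ‖z‖ ^ 2 + 2 * t * z 0 + t ^ 2 := by
  rw [norm_add_sq_real, inner_smul_right, inner_e0, norm_smul, norm_e0]
  simp [sq_abs]
  ring

theorem den_eq (a : ℝ) (z : E (m + 1)) : den a z = ‖a • z + (1 : ℝ) • e0‖ ^ 2 := by
  rw [norm_add_smul_e0, norm_smul, mul_pow, Real.norm_eq_abs, sq_abs, den]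
  simp
  ring

theorem den_nonneg (a : ℝ) (z : E (m + 1)) : 0 ≤ den a z := by
  rw [den_eq]; positivity

theorem norm_num_sq (a : ℝ) (z : E (m + 1)) :
    ‖z + (a * ‖z‖ ^ 2) • e0‖ ^ 2 = ‖z‖ ^ 2 * den a z := by
  rw [norm_add_smul_e0, den]; ring

theorem norm_par_sq (a : ℝ) (z : E (m + 1)) (h : den a z ≠ 0) :
    ‖par a z‖ ^ 2 = ‖z‖ ^ 2 / den a z := by
  rw [par, norm_smul, mul_pow, norm_num_sq, norm_inv, Real.norm_eq_abs, inv_pow, sq_abs]
  field_simp

theorem par_zero_coord (a : ℝ) (z : E (m + 1)) :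
    (par a z) 0 = (z 0 + a * ‖z‖ ^ 2) / den a z := by
  simp [par, div_eq_inv_mul]
  ring

theorem den_par (a : ℝ) (z : E (m + 1)) (h : den a z ≠ 0) :
    den (-a) (par a z) = (den a z)⁻¹ := by
  rw [den, norm_par_sq a z h, par_zero_coord]
  field_simp
  rw [den]
  ring

theorem par_par (a : ℝ) (z : E (m + 1)) (h : den a z ≠ 0) : par (-a) (par a z) = z := by
  rw [par, den_par a z h, inv_inv, norm_par_sq a z h, smul_add, smul_smul]
  rw [par, smul_smul, mul_inv_cancel₀ h, one_smul]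
  have : den a z * (-a * (‖z‖ ^ 2 / den a z)) = -(a * ‖z‖ ^ 2) := by field_simp
  rw [this, add_assoc, ← add_smul]
  simp

theorem den_ne_of_ne (a : ℝ) (ha : a ≠ 0) (z : E (m + 1)) (h : z ≠ (-a⁻¹) • e0) :
    den a z ≠ 0 := by
  intro h0
  apply h
  rw [den_eq, sq_eq_zero_iff, norm_eq_zero, one_smul] at h0
  have h1 : a • z = -e0 := eq_neg_of_add_eq_zero_left h0
  calc z = a⁻¹ • (a • z) := by rw [smul_smul, inv_mul_cancel₀ ha, one_smul]
    _ = (-a⁻¹) • e0 := by rw [h1, smul_neg, neg_smul]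

theorem contDiff_den (a : ℝ) : ContDiff ℝ ∞ (fun z : E (m + 1) => den a z) := by
  unfold den
  have h1 : ContDiff ℝ ∞ (fun z : E (m + 1) => z 0) := by fun_prop
  have h2 : ContDiff ℝ ∞ (fun z : E (m + 1) => ‖z‖ ^ 2) := contDiff_norm_sq ℝ
  exact (contDiff_const.add (contDiff_const.mul h1)).add (contDiff_const.mul h2)

theorem contDiffAt_par (a : ℝ) (z : E (m + 1)) (h : den a z ≠ 0) :
    ContDiffAt ℝ ∞ (par a) z := by
  unfold par
  have h2 : ContDiff ℝ ∞ (fun z : E (m + 1) => ‖z‖ ^ 2) := contDiff_norm_sq ℝ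
  exact ((contDiff_den a).contDiffAt.inv h).smul
    (contDiff_id.add ((contDiff_const.mul h2).smul contDiff_const)).contDiffAt

theorem LD_par (a : ℝ) (z : E (m + 1)) (h : den a z ≠ 0) : LD (m + 1) (par a) z := by
  have ho : ∀ᶠ y in 𝓝 z, den a y ≠ 0 := (contDiff_den a).continuous.continuousAt.eventually_ne h
  refine LD_of_leftInv (g := par (-a)) (ho.mono fun y hy => contDiffAt_par a y hy) ?_
    (ho.mono fun y hy => par_par a y hy)
  refine (contDiffAt_par (-a) _ ?_).differentiableAt (by simp)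
  rw [den_par a z h]
  exact inv_ne_zero h

theorem par_injOn (a : ℝ) {z w : E (m + 1)} (hz : den a z ≠ 0) (hw : den a w ≠ 0)
    (h : par a z = par a w) : z = w := by
  rw [← par_par a z hz, h, par_par a w hw]

@[simp] theorem par_zero' (a : ℝ) : par a (0 : E (m + 1)) = 0 := by
  simp [par]

theorem hasFDerivAt_par (a : ℝ) :
    HasFDerivAt (par a) (ContinuousLinearMap.id ℝ (E (m + 1))) 0 := by
  have h2 : HasFDerivAt (fun z : E (m + 1) => ‖z‖ ^ 2) (0 : E (m + 1) →L[ℝ] ℝ) 0 := by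
    have h := (hasStrictFDerivAt_norm_sq (0 : E (m + 1))).hasFDerivAt
    refine h.congr_fderiv ?_
    ext v
    simp
  have h3 : HasFDerivAt (fun z : E (m + 1) => z + (a * ‖z‖ ^ 2) • (e0 : E (m + 1)))
      (ContinuousLinearMap.id ℝ (E (m + 1))) 0 := by
    have h := (hasFDerivAt_id (𝕜 := ℝ) (0 : E (m + 1))).add
      ((h2.const_mul a).smul_const (e0 : E (m + 1)))
    refine h.congr_fderiv ?_
    ext v
    simp
  have hd0 : den a (0 : E (m + 1)) = 1 := by simp [den]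
  have h4 : DifferentiableAt ℝ (fun z : E (m + 1) => (den a z)⁻¹) 0 :=
    ((contDiff_den a).contDiffAt.inv (by rw [hd0]; exact one_ne_zero)).differentiableAt (by simp)
  have h5 := h4.hasFDerivAt.smul h3
  refine h5.congr_fderiv ?_
  ext v
  simp [hd0]

/-- the point `M w` for `w` on the segment between `y` and `p y` -/
theorem mob_est {a ε r : ℝ} (ha : 0 < a) (hε : a * ε ≤ 1 / 5) (hr : ε ≤ r / 4) (hr0 : 0 < r)
    (y : E (m + 1)) (hy0 : 0 < y 0) (hy : ‖y‖ < ε) (χ : ℝ) (h0 : 0 ≤ χ) (h1 : χ ≤ 1) :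
    0 < (par a (y + χ • (par (-a) y - y))) 0 ∧ ‖par a (y + χ • (par (-a) y - y))‖ < r := by
  set p := par (-a) y with hp
  set w := y + χ • (p - y) with hw
  have hyn : 0 < ‖y‖ := lt_of_lt_of_le hy0 ((le_abs_self _).trans (abs_head_le y))
  have hay : a * ‖y‖ ≤ 1 / 5 := by nlinarith
  have hD : (1 - a * ‖y‖) ^ 2 ≤ den (-a) y := by
    rw [den]
    have := (le_abs_self _).trans (abs_head_le y)
    nlinarith
  have hDpos : 0 < den (-a) y := lt_of_lt_of_le (by nlinarith) hD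
  -- `|p - y| ≤ |y|`
  have hpy : p - y = (den (-a) y)⁻¹ • ((1 - den (-a) y) • y + (-a * ‖y‖ ^ 2) • e0) := by
    rw [hp, par]
    rw [smul_add, smul_add, smul_smul, sub_eq_add_neg, add_right_comm]
    congr 1
    rw [smul_smul, mul_sub, mul_one, inv_mul_cancel₀ hDpos.ne', sub_smul, one_smul, sub_eq_add_neg]
  have hpyn : ‖p - y‖ ≤ ‖y‖ := by
    rw [hpy, norm_smul, norm_inv, Real.norm_eq_abs, abs_of_pos hDpos, inv_mul_le_iff₀ hDpos]
    have h2 : ‖(1 - den (-a) y) • y + (-a * ‖y‖ ^ 2) • (e0 : E (m + 1))‖ ≤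
        |1 - den (-a) y| * ‖y‖ + a * ‖y‖ ^ 2 := by
      refine (norm_add_le _ _).trans ?_
      rw [norm_smul, norm_smul, norm_e0, Real.norm_eq_abs, Real.norm_eq_abs, abs_mul, abs_neg,
        abs_of_pos ha, abs_of_nonneg (sq_nonneg ‖y‖), mul_one]
    have h3 : |1 - den (-a) y| ≤ 2 * a * ‖y‖ + a ^ 2 * ‖y‖ ^ 2 := by
      rw [den]
      have h4 := abs_le.1 (abs_head_le y)
      rw [abs_le]
      constructor
      · nlinarith [sq_nonneg (a * ‖y‖)]
      · nlinarith [sq_nonneg (a * ‖y‖)]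
    refine h2.trans ?_
    have h5 : |1 - den (-a) y| * ‖y‖ + a * ‖y‖ ^ 2 ≤
        ((2 * a * ‖y‖ + a ^ 2 * ‖y‖ ^ 2) + a * ‖y‖) * ‖y‖ := by nlinarith
    refine h5.trans ?_
    refine mul_le_mul_of_nonneg_right ?_ hyn.le
    refine le_trans ?_ hD
    nlinarith
  -- the quadratic function
  have hq : w 0 + a * ‖w‖ ^ 2 = (1 - χ) * (y 0 + a * ‖y‖ ^ 2) + χ * (p 0 + a * ‖p‖ ^ 2) -
      χ * (1 - χ) * a * ‖p - y‖ ^ 2 := by
    have e1 : w 0 = y 0 + χ * (p 0 - y 0) := by simp [hw]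
    have e2 : ‖w‖ ^ 2 = ‖y‖ ^ 2 + 2 * χ * inner ℝ y (p - y) + χ ^ 2 * ‖p - y‖ ^ 2 := by
      rw [hw, norm_add_sq_real, inner_smul_right, norm_smul, mul_pow, Real.norm_eq_abs, sq_abs]
      ring
    have e3 : ‖p‖ ^ 2 = ‖y‖ ^ 2 + 2 * inner ℝ y (p - y) + ‖p - y‖ ^ 2 := by
      have : p = y + (p - y) := by abel
      conv_lhs => rw [this]
      rw [norm_add_sq_real]
    rw [e1, e2, e3]
    ring
  have hqp : p 0 + a * ‖p‖ ^ 2 = y 0 / den (-a) y := by
    rw [hp, par_zero_coord, norm_par_sq _ _ hDpos.ne']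
    field_simp
    ring
  have hqpos : 0 < w 0 + a * ‖w‖ ^ 2 := by
    rw [hq, hqp]
    have h2 : 0 < y 0 / den (-a) y := div_pos hy0 hDpos
    have h3 : ‖p - y‖ ^ 2 ≤ ‖y‖ ^ 2 := by
      have := norm_nonneg (p - y)
      nlinarith
    have h4 : χ * (1 - χ) * a * ‖p - y‖ ^ 2 ≤ χ * (1 - χ) * a * ‖y‖ ^ 2 :=
      mul_le_mul_of_nonneg_left h3 (mul_nonneg (mul_nonneg h0 (by linarith)) ha.le)
    have h5 : 0 ≤ (1 - χ) ^ 2 * (a * ‖y‖ ^ 2) := by positivity
    have h6 : 0 < (1 - χ) * y 0 + χ * (y 0 / den (-a) y) := by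
      rcases h0.eq_or_lt with h | h
      · rw [← h]; simpa using hy0
      · have := mul_pos h h2
        have h7 : 0 ≤ (1 - χ) * y 0 := mul_nonneg (by linarith) hy0.le
        linarith
    nlinarith
  have hwn : ‖w‖ ≤ 2 * ε := by
    have h2 : ‖w‖ ≤ ‖y‖ + χ * ‖p - y‖ := by
      rw [hw]
      refine (norm_add_le _ _).trans ?_
      rw [norm_smul, Real.norm_of_nonneg h0]
    have h3 := norm_nonneg (p - y)
    nlinarith
  have hdw : 3 / 5 ≤ den a w := by
    rw [den]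
    have h2 := (abs_le.1 (abs_head_le w)).1
    have h3 : a * ‖w‖ ≤ 2 / 5 := by nlinarith
    nlinarith
  have hdw0 : 0 < den a w := by linarith
  refine ⟨?_, ?_⟩
  · rw [par_zero_coord]
    exact div_pos hqpos hdw0
  · have h2 : ‖par a w‖ ^ 2 < r ^ 2 := by
      rw [norm_par_sq a w hdw0.ne', div_lt_iff₀ hdw0]
      have h3 : ‖w‖ ^ 2 ≤ (r / 2) ^ 2 := by
        have := norm_nonneg w
        have h4 : ‖w‖ ≤ r / 2 := by linarith
        nlinarith
      nlinarith
    exact lt_of_pow_lt_pow_left₀ 2 hr0.le h2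

theorem mob : Mob := by
  intro m ρ r hρ hr
  -- the parameter
  obtain ⟨a, ha0, ha1, ha2⟩ : ∃ a : ℝ, 0 < a ∧ 1 / ρ < a ∧ 1 / r + 1 / ρ < a :=
    ⟨1 / r + 1 / ρ + 1, by positivity, by
      have : 0 < 1 / r := by positivity
      linarith, by linarith⟩
  have haρ : 1 < a * ρ := by
    rw [div_lt_iff₀ hρ] at ha1
    exact ha1
  have har : ρ < r * (a * ρ - 1) := by
    have h1 : (1 / r + 1 / ρ) * (r * ρ) < a * (r * ρ) := mul_lt_mul_of_pos_right ha2 (by positivity)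
    have h2 : (1 / r + 1 / ρ) * (r * ρ) = ρ + r := by field_simp
    nlinarith
  have har1 : 1 < a * r := by
    have h1 : 1 / r < a := by
      have : 0 < 1 / ρ := by positivity
      linarith
    rw [div_lt_iff₀ hr] at h1
    exact h1
  obtain ⟨ε, hε, hε1, hε2, hε3⟩ : ∃ ε : ℝ, 0 < ε ∧ ε ≤ ρ ∧ a * ε ≤ 1 / 5 ∧ ε ≤ r / 4 := by
    refine ⟨min ρ (min (1 / (5 * a)) (r / 4)), by positivity, min_le_left _ _, ?_, ?_⟩
    · have h1 : min ρ (min (1 / (5 * a)) (r / 4)) ≤ 1 / (5 * a) :=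
        (min_le_right _ _).trans (min_le_left _ _)
      have h2 : a * (1 / (5 * a)) = 1 / 5 := by field_simp
      calc a * min ρ (min (1 / (5 * a)) (r / 4)) ≤ a * (1 / (5 * a)) :=
            mul_le_mul_of_nonneg_left h1 ha0.le
        _ = 1 / 5 := h2
    · exact (min_le_right _ _).trans (min_le_right _ _)
  have hden0 : ∀ᶠ y in 𝓝 (0 : E (m + 1)), den (-a) y ≠ 0 := by
    refine (contDiff_den (-a)).continuous.continuousAt.eventually_ne ?_
    simp [den]
  obtain ⟨G, χ, hGb, hGd, hGe, hGχ, hχ01, hG⟩ := Pool.Agent.Y248.SH.germ (m + 1) (par (-a))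
    (hden0.mono fun y hy => contDiffAt_par (-a) y hy) (par_zero' _) (hasFDerivAt_par (-a)) ε hε
  have hGid : ∀ y, ε ≤ ‖y‖ → G y = y := by
    intro y hy
    rw [hG, hGχ y hy, zero_smul, add_zero]
  set c : E (m + 1) := (-a⁻¹) • e0 with hc
  have hcn : ‖c‖ = a⁻¹ := by
    rw [hc, norm_smul, norm_e0, mul_one, norm_neg, Real.norm_of_nonneg (by positivity)]
  have hcε : ε ≤ ‖c‖ := by
    rw [hcn, inv_eq_one_div, le_div_iff₀ ha0]
    linarith
  have hGc : G c = c := hGid c hcε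
  have hGne : ∀ z, z ≠ c → den a (G z) ≠ 0 := by
    intro z hz
    refine den_ne_of_ne a ha0.ne' _ ?_
    intro h
    apply hz
    apply hGb.1
    rw [hGc, h]
  obtain ⟨τ, hτ, hτe⟩ := Metric.eventually_nhds_iff.1
    (hGe.and hden0)
  refine ⟨fun z => par a (G z), c, ?_, ?_, ?_, ?_, ⟨min τ ‖c‖, ?_, min_le_right _ _, ?_⟩, ?_⟩
  · simp [hc, ha0]
  · rw [hcn, inv_eq_one_div]
    rw [div_lt_iff₀ ha0]
    linarith
  · intro z hz w hw h
    exact hGb.1 (par_injOn a (hGne z hz) (hGne w hw) h)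
  · intro z hz
    exact LD.comp_fun (g := par a) (LD_par a _ (hGne z hz)) (hGd z)
  · exact lt_min hτ (lt_of_lt_of_le hε hcε)
  · intro z hz
    have h1 := hτe (y := z) (by rw [dist_zero_right]; exact lt_of_lt_of_le hz (min_le_left _ _))
    show par a (G z) = z
    rw [h1.1]
    have := par_par (-a) z h1.2
    rwa [neg_neg] at this
  · intro z hz
    show 0 < (par a (G z)) 0 ∧ ‖par a (G z)‖ < r
    by_cases hzε : ε ≤ ‖z‖
    · rw [hGid z hzε]
      rcases hz with hz | hz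
      · have hzn : 0 < ‖z‖ := lt_of_lt_of_le hε hzε
        have hd : a ^ 2 * ‖z‖ ^ 2 < den a z := by
          rw [den]
          nlinarith [mul_pos ha0 hz]
        have hd0 : 0 < den a z := lt_of_le_of_lt (by positivity) hd
        refine ⟨?_, ?_⟩
        · rw [par_zero_coord]
          refine div_pos ?_ hd0
          positivity
        · have h2 : ‖par a z‖ ^ 2 < r ^ 2 := by
            rw [norm_par_sq a z hd0.ne', div_lt_iff₀ hd0]
            have h3 : (1 : ℝ) < (a * r) ^ 2 := by nlinarith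
            have h4 : 0 < ‖z‖ ^ 2 := by positivity
            calc ‖z‖ ^ 2 < (a * r) ^ 2 * ‖z‖ ^ 2 := by nlinarith
              _ = r ^ 2 * (a ^ 2 * ‖z‖ ^ 2) := by ring
              _ ≤ r ^ 2 * den a z := mul_le_mul_of_nonneg_left hd.le (by positivity)
          exact lt_of_pow_lt_pow_left₀ 2 hr.le h2
      · have hzn : 0 < ‖z‖ := lt_of_lt_of_le hρ hz
        have h1 : 1 < a * ‖z‖ := by nlinarith
        have hz0 := (abs_le.1 (abs_head_le z)).1
        have hd : (a * ‖z‖ - 1) ^ 2 ≤ den a z := by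
          rw [den]
          nlinarith
        have hd0 : 0 < den a z := lt_of_lt_of_le (by nlinarith) hd
        refine ⟨?_, ?_⟩
        · rw [par_zero_coord]
          refine div_pos ?_ hd0
          nlinarith
        · have h2 : ‖par a z‖ ^ 2 < r ^ 2 := by
            rw [norm_par_sq a z hd0.ne', div_lt_iff₀ hd0]
            have h3 : ‖z‖ < r * (a * ‖z‖ - 1) := by
              have h4 : (a * r - 1) * ρ ≤ (a * r - 1) * ‖z‖ :=
                mul_le_mul_of_nonneg_left hz (by linarith)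
              nlinarith
            calc ‖z‖ ^ 2 < (r * (a * ‖z‖ - 1)) ^ 2 := by
                  exact pow_lt_pow_left₀ h3 hzn.le (by norm_num)
              _ = r ^ 2 * (a * ‖z‖ - 1) ^ 2 := by ring
              _ ≤ r ^ 2 * den a z := mul_le_mul_of_nonneg_left hd (by positivity)
          exact lt_of_pow_lt_pow_left₀ 2 hr.le h2
    · push Not at hzε
      have hz0 : 0 < z 0 := by
        rcases hz with hz | hz
        · exact hz
        · linarith
      have := mob_est ha0 hε2 hε3 hr z hz0 hzε (χ z) (hχ01 z).1 (hχ01 z).2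
      rwa [hG z]

end Pool.Agent.X175.SH
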