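import Pool.Agent.Y522.Tools
import Pool.Agent.Y641.SH.Level

/-!
# The Morse-Sard theorem for smooth real functions
-/

set_option autoImplicit false

open Set Filter Topology Metric Function MeasureTheory
open scoped Manifold ContDiff NNReal ENNReal

noncomputable section

namespace Pool.Agent.X175.SH

open Pool.Agent.Y522

/-- locally null images are null -/
theorem null_of_locally {Y : Type*} [TopologicalSpace Y] [SecondCountableTopology Y] {f : Y → ℝ}
    {s : Set Y} (h : ∀ x ∈ s, ∃ u ∈ 𝓝 x, volume (f '' (s ∩ u)) = 0) : volume (f '' s) = 0 := by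
  choose! u hu hu0 using h
  obtain ⟨t, hts, htc, hst⟩ := TopologicalSpace.countable_cover_nhdsWithin
    (f := fun x => s ∩ u x) (s := s)
    (fun x hx => inter_mem_nhdsWithin s (hu x hx))
  refine measure_mono_null (t := ⋃ x ∈ t, f '' (s ∩ u x)) ?_
    ((measure_biUnion_null_iff htc).2 fun x hx => hu0 x (hts hx))
  rintro _ ⟨x, hx, rfl⟩
  obtain ⟨y, hy, hxy⟩ := mem_iUnion₂.1 (hst hx)
  exact mem_iUnion₂.2 ⟨y, hy, x, hxy, rfl⟩

theorem one_add_le_infty (k : ℕ) :
    (1 : WithTop ℕ∞) + (k : WithTop ℕ∞) ≤ ((⊤ : ℕ∞) : WithTop ℕ∞) := by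
  have h : (1 : WithTop ℕ∞) + (k : WithTop ℕ∞) = (((1 + k : ℕ) : ℕ∞) : WithTop ℕ∞) := by
    push_cast
    rfl
  rw [h]
  exact WithTop.coe_le_coe.2 le_top

variable {n : ℕ}

/-- Taylor estimate at points where all derivatives up to the order `K` vanish -/
theorem taylor_est (f : E n → ℝ) (p : E n) (ε : ℝ)
    (hf : ∀ x ∈ ball p ε, ContDiffAt ℝ ∞ f x) (K : ℕ) (C : ℝ) (hC0 : 0 ≤ C)
    (hC : ∀ x ∈ ball p ε, ‖iteratedFDeriv ℝ (K + 1) f x‖ ≤ C) :
    ∀ x ∈ ball p ε, (∀ j, 1 ≤ j → j ≤ K → iteratedFDeriv ℝ j f x = 0) → ∀ y ∈ ball p ε,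
      |f y - f x| ≤ C * ‖y - x‖ ^ (K + 1) := by
  intro x hx hx0
  have key : ∀ i : ℕ, i ≤ K → ∀ y ∈ ball p ε,
      ‖iteratedFDeriv ℝ (K - i) f y - iteratedFDeriv ℝ (K - i) f x‖ ≤ C * ‖y - x‖ ^ (i + 1) := by
    intro i
    induction i with
    | zero =>
      intro _ y hy
      have hseg : segment ℝ x y ⊆ ball p ε := (convex_ball p ε).segment_subset hx hy
      have h1 := (convex_segment x y).norm_image_sub_le_of_norm_fderiv_le (𝕜 := ℝ)
        (f := iteratedFDeriv ℝ (K - 0) f) (C := C) (x := x) (y := y)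
        (fun z hz => ((hf z (hseg hz)).iteratedFDeriv_right (m := 1) (i := K - 0)
          (one_add_le_infty _)).differentiableAt (by simp))
        (fun z hz => by
          rw [norm_fderiv_iteratedFDeriv]
          exact hC z (hseg hz))
        (left_mem_segment _ _ _) (right_mem_segment _ _ _)
      simpa using h1
    | succ i ih =>
      intro hi y hy
      have hseg : segment ℝ x y ⊆ ball p ε := (convex_ball p ε).segment_subset hx hy
      have hKi : K - (i + 1) + 1 = K - i := by omega
      have h1 := (convex_segment x y).norm_image_sub_le_of_norm_fderiv_le (𝕜 := ℝ)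
        (f := iteratedFDeriv ℝ (K - (i + 1)) f) (C := C * ‖y - x‖ ^ (i + 1)) (x := x) (y := y)
        (fun z hz => ((hf z (hseg hz)).iteratedFDeriv_right (m := 1) (i := K - (i + 1))
          (one_add_le_infty _)).differentiableAt (by simp))
        (fun z hz => by
          rw [norm_fderiv_iteratedFDeriv, hKi]
          have h2 := ih (by omega) z (hseg hz)
          rw [hx0 (K - i) (by omega) (by omega), sub_zero] at h2
          refine h2.trans (mul_le_mul_of_nonneg_left ?_ hC0)
          refine pow_le_pow_left₀ (norm_nonneg _) ?_ _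
          have h3 : z ∈ segment ℝ x y := hz
          rw [segment_eq_image'] at h3
          obtain ⟨t, ht, rfl⟩ := h3
          rw [add_sub_cancel_left, norm_smul, Real.norm_of_nonneg ht.1]
          exact mul_le_of_le_one_left (norm_nonneg _) ht.2)
        (left_mem_segment _ _ _) (right_mem_segment _ _ _)
      rw [mul_assoc, ← pow_succ] at h1
      exact h1
  intro y hy
  have h1 := key K le_rfl y hy
  rw [Nat.sub_self] at h1
  have h2 : iteratedFDeriv ℝ 0 f y - iteratedFDeriv ℝ 0 f x =
      (continuousMultilinearCurryFin0 ℝ (E n) ℝ).symm (f y - f x) := by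
    rw [iteratedFDeriv_zero_eq_comp, map_sub]
    rfl
  rw [h2, LinearIsometryEquiv.norm_map, Real.norm_eq_abs] at h1
  exact h1

/-- flat points -/
theorem flat_null (f : E n → ℝ) (U : Set (E n)) (hU : IsOpen U)
    (hf : ∀ x ∈ U, ContDiffAt ℝ ∞ f x) :
    volume (f '' {x | x ∈ U ∧ ∀ j, 1 ≤ j → j ≤ n → iteratedFDeriv ℝ j f x = 0}) = 0 := by
  refine null_of_locally ?_
  rintro p ⟨hp, -⟩
  have hcont : ContinuousAt (iteratedFDeriv ℝ (n + 1) f) p :=
    ((hf p hp).iteratedFDeriv_right (m := 0) (i := n + 1) (by exact_mod_cast le_top)).continuousAt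
  have hb : ∀ᶠ x in 𝓝 p, ‖iteratedFDeriv ℝ (n + 1) f x‖ < ‖iteratedFDeriv ℝ (n + 1) f p‖ + 1 :=
    hcont.norm.eventually (gt_mem_nhds (by linarith))
  obtain ⟨ε, hε, hεb⟩ := Metric.eventually_nhds_iff_ball.1 (hb.and (hU.mem_nhds hp))
  refine ⟨ball p ε, ball_mem_nhds p hε, ?_⟩
  set C : ℝ≥0 := ⟨‖iteratedFDeriv ℝ (n + 1) f p‖ + 1, by positivity⟩ with hC
  have hest := taylor_est f p ε (fun x hx => hf x (hεb x hx).2) n C C.2
    (fun x hx => (hεb x hx).1.le)
  have hH : HolderOnWith C ((n + 1 : ℕ) : ℝ≥0) f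
      ({x | x ∈ U ∧ ∀ j, 1 ≤ j → j ≤ n → iteratedFDeriv ℝ j f x = 0} ∩ ball p ε) := by
    intro x hx y hy
    have h1 := hest y hy.2 hy.1.2 x hx.2
    rw [edist_dist, edist_dist, Real.dist_eq, dist_eq_norm]
    have h2 : ENNReal.ofReal |f x - f y| ≤ ENNReal.ofReal ((C : ℝ) * ‖x - y‖ ^ (n + 1)) :=
      ENNReal.ofReal_le_ofReal h1
    refine h2.trans (le_of_eq ?_)
    rw [ENNReal.ofReal_mul (NNReal.coe_nonneg C), ENNReal.ofReal_pow (norm_nonneg _), ENNReal.ofReal_coe_nnreal]
    congr 1
    rw [← ENNReal.rpow_natCast]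
    congr 1
  have h1 := hH.hausdorffMeasure_image_le (by positivity) (d := 1) zero_le_one
  have h2 : μH[(((n + 1 : ℕ) : ℝ≥0) : ℝ) * 1]
      ({x | x ∈ U ∧ ∀ j, 1 ≤ j → j ≤ n → iteratedFDeriv ℝ j f x = 0} ∩ ball p ε) = 0 := by
    rw [mul_one]
    refine hausdorffMeasure_of_dimH_lt ?_
    refine (dimH_mono (subset_univ _)).trans_lt ?_
    rw [Real.dimH_univ_eq_finrank, finrank_euclideanSpace, Fintype.card_fin]
    exact_mod_cast Nat.lt_succ_self n
  rw [h2, mul_zero] at h1
  have h3 := le_antisymm h1 bot_le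
  rw [hausdorffMeasure_real] at h3
  exact h3

/-- **The Morse-Sard theorem** for smooth real functions. -/
theorem sard : StSard := by
  intro n
  induction n with
  | zero =>
    intro U _ f _
    refine Set.Finite.measure_zero ?_ _
    exact (Set.toFinite {x : E 0 | x ∈ U ∧ fderiv ℝ f x = 0}).image f
  | succ n ih =>
    intro U hU f hf
    -- the sets of points of flatness `k`
    set A : ℕ → Set (E (n + 1)) := fun k => {x | x ∈ U ∧ ∀ j, 1 ≤ j → j ≤ k →
      iteratedFDeriv ℝ j f x = 0} with hA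
    have hdown : ∀ k : ℕ, 1 ≤ k → volume (f '' A (k + 1)) = 0 → volume (f '' A k) = 0 := by
      intro k hk hk1
      have hsub : f '' A k ⊆ f '' A (k + 1) ∪ f '' (A k \ A (k + 1)) := by
        rw [← image_union]
        refine image_mono ?_
        intro x hx
        by_cases h : x ∈ A (k + 1)
        · exact Or.inl h
        · exact Or.inr ⟨hx, h⟩
      refine measure_mono_null hsub (measure_union_null hk1 ?_)
      refine null_of_locally ?_
      rintro x₀ ⟨hx₀, hx₀'⟩
      -- a derivative of order `k` with non-zero differential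
      have h1 : iteratedFDeriv ℝ (k + 1) f x₀ ≠ 0 := by
        intro h
        refine hx₀' ⟨hx₀.1, fun j hj hjk => ?_⟩
        rcases hjk.lt_or_eq with h2 | h2
        · exact hx₀.2 j hj (by omega)
        · rw [h2]; exact h
      obtain ⟨v, hv⟩ : ∃ v, iteratedFDeriv ℝ (k + 1) f x₀ v ≠ 0 := by
        by_contra hcon
        push Not at hcon
        exact h1 (ContinuousMultilinearMap.ext hcon)
      set g : E (n + 1) → ℝ := fun z => iteratedFDeriv ℝ k f z (Fin.tail v) with hg
      have hfk : ∀ z ∈ U, ContDiffAt ℝ ∞ (iteratedFDeriv ℝ k f) z := fun z hz =>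
        (hf z hz).iteratedFDeriv_right (m := ∞) (i := k) (by exact_mod_cast le_top)
      have hgs : ∀ z ∈ U, ContDiffAt ℝ ∞ g z := by
        intro z hz
        exact ((ContinuousMultilinearMap.apply ℝ (fun _ : Fin k => E (n + 1)) ℝ
          (Fin.tail v)).contDiff.contDiffAt).comp z (hfk z hz)
      have hgd : fderiv ℝ g x₀ ≠ 0 := by
        intro h
        apply hv
        rw [iteratedFDeriv_succ_apply_left]
        have h2 : HasFDerivAt g ((ContinuousMultilinearMap.apply ℝ (fun _ : Fin k => E (n + 1)) ℝ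
          (Fin.tail v)).comp (fderiv ℝ (iteratedFDeriv ℝ k f) x₀)) x₀ :=
          (ContinuousMultilinearMap.apply ℝ (fun _ : Fin k => E (n + 1)) ℝ
            (Fin.tail v)).hasFDerivAt.comp x₀
            ((hfk x₀ hx₀.1).differentiableAt (by simp)).hasFDerivAt
        have h3 := h2.fderiv
        rw [h] at h3
        have h4 := congrArg (fun L : E (n + 1) →L[ℝ] ℝ => L (v 0)) h3
        simpa using h4.symm
      have hg0 : ∀ z ∈ A k, g z = 0 := by
        intro z hz
        simp only [hg, hz.2 k hk le_rfl]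
        rfl
      -- coordinates
      obtain ⟨e, heL, he0, hee⟩ := Pool.Agent.Y641.SH.stAdapt n (E (n + 1)) g x₀
        (by
          filter_upwards [hU.mem_nhds hx₀.1] with z hz
          exact contMDiffAt_iff_contDiffAt.2 (hgs z hz))
        (by rw [mfderiv_eq_fderiv]; exact hgd)
      obtain ⟨p, hpL, hp0, hpe, -⟩ := heL.exists_inverse
      rw [he0] at hpL hp0
      -- the set of good parameters
      have hpc : ContinuousAt p 0 := hpL.continuousAt
      have hVn : ∀ᶠ z in 𝓝 (0 : E (n + 1)), ContDiffAt ℝ ∞ p z ∧ p z ∈ U := by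
        refine (hpL.eventually.mono fun z hz => hz.contDiffAt).and ?_
        refine hpc.eventually_mem ?_
        rw [hp0]
        exact hU.mem_nhds hx₀.1
      obtain ⟨O, hO, hOo, h0O⟩ := _root_.eventually_nhds_iff.1 hVn
      have hinc : Continuous (fun y : E n => (cn 0 y : E (n + 1))) := (inc (m := n)).continuous
      have hVo : IsOpen ((fun y : E n => (cn 0 y : E (n + 1))) ⁻¹' O) := hOo.preimage hinc
      have hcs : ContDiff ℝ ∞ (fun y : E n => (cn 0 y : E (n + 1))) := (inc (m := n)).contDiff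
      have hsm : ∀ y ∈ (fun y : E n => (cn 0 y : E (n + 1))) ⁻¹' O,
          ContDiffAt ℝ ∞ (fun y : E n => p (cn 0 y)) y := fun y hy =>
        ContDiffAt.comp (g := p) y (hO _ hy).1 hcs.contDiffAt
      have hnull := ih _ hVo (fun y => f (p (cn 0 y))) (fun y hy =>
        ContDiffAt.comp (g := f) y (hf _ (hO _ hy).2) (hsm y hy))
      -- the neighbourhood
      have hN : ∀ᶠ x in 𝓝 x₀, p (e x) = x ∧ e x ∈ O ∧ (e x) 0 = g x - g x₀ := by
        refine hpe.and ((heL.continuousAt.eventually_mem ?_).and hee)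
        rw [he0]
        exact hOo.mem_nhds h0O
      refine ⟨_, hN, measure_mono_null ?_ hnull⟩
      rintro _ ⟨x, ⟨⟨hxA, -⟩, hx1, hx2, hx3⟩, rfl⟩
      have hex : (cn 0 (tl (e x)) : E (n + 1)) = e x := by
        conv_rhs => rw [← cn_tl (e x)]
        rw [hx3, hg0 x hxA, hg0 x₀ hx₀, sub_zero]
      refine ⟨tl (e x), ⟨?_, ?_⟩, ?_⟩
      · show (cn 0 (tl (e x)) : E (n + 1)) ∈ O
        rw [hex]; exact hx2
      · have h2 : DifferentiableAt ℝ (fun y : E n => p (cn 0 y)) (tl (e x)) :=
          (hsm _ (by show (cn 0 (tl (e x)) : E (n + 1)) ∈ O; rw [hex]; exact hx2)).differentiableAt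
            (by simp)
        have h3 : DifferentiableAt ℝ f (p (cn 0 (tl (e x)))) := by
          rw [hex, hx1]
          exact (hf x hxA.1).differentiableAt (by simp)
        have h4 : fderiv ℝ f (p (cn 0 (tl (e x)))) = 0 := by
          rw [hex, hx1]
          ext w
          have h5 := hxA.2 1 le_rfl hk
          have h6 := iteratedFDeriv_one_apply (𝕜 := ℝ) (f := f) (x := x) (fun _ : Fin 1 => w)
          rw [h5] at h6
          exact h6.symm
        have h9 := fderiv_comp (tl (e x)) h3 h2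
        have h10 : (f ∘ fun y : E n => p (cn 0 y)) = fun y => f (p (cn 0 y)) := rfl
        rw [h10] at h9
        rw [h9, h4]
        simp
      · show f (p (cn 0 (tl (e x)))) = f x
        rw [hex, hx1]
    have hall : ∀ i : ℕ, i ≤ n → volume (f '' A (n + 1 - i)) = 0 := by
      intro i
      induction i with
      | zero => intro _; exact flat_null f U hU hf
      | succ i ihi =>
        intro hi
        refine hdown (n + 1 - (i + 1)) (by omega) ?_
        have : n + 1 - (i + 1) + 1 = n + 1 - i := by omega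
        rw [this]
        exact ihi (by omega)
    have h1 := hall n le_rfl
    have h2 : n + 1 - n = 1 := by omega
    rw [h2] at h1
    refine measure_mono_null (image_mono ?_) h1
    rintro x ⟨hxU, hx⟩
    refine ⟨hxU, fun j hj hj' => ?_⟩
    have hj1 : j = 1 := le_antisymm hj' hj
    subst hj1
    ext v
    rw [iteratedFDeriv_one_apply, hx]
    rfl

end Pool.Agent.X175.SH
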