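import Pool.Agent.Y522.Sum
import Pool.Agent.X175.SH.Mob
import Pool.Agent.X175.SH.Compress
import Pool.Agent.X175.SH.Collar

/-!
# The gluing lemma, unconditionally (copy of `Pool.Agent.Y522.stSum` with the weaker `Mob`)
-/

set_option autoImplicit false

open Set Filter Topology Metric Function MeasureTheory
open scoped Manifold ContDiff

noncomputable section

namespace Pool.Agent.X175.SH

open Pool.Agent.Y522

/-- **The gluing lemma.** -/
theorem stSum' (hC : StCollar) (hCo : StCompress) (hG : StGerm) (hMo : Mob) : StSum := by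
  intro m X _ _ _ _ W L φ f hφ hL hLW hfi hf hfd h0 hd hfW hLf hneg hpos
  have hfK : ∀ R : ℝ, IsCompact (f '' closedBall 0 R) := fun R =>
    (isCompact_closedBall _ _).image hf.continuous
  have hfKW : ∀ R : ℝ, f '' closedBall 0 R ⊆ W := by
    rintro R _ ⟨y, -, rfl⟩
    exact hfW y
  have hfK0 : ∀ R : ℝ, ∀ x ∈ f '' closedBall 0 R, φ x = 0 := by
    rintro R _ ⟨y, -, rfl⟩
    exact h0 y
  have hE : ∀ R : ℝ, Emb (m + 1) (f '' closedBall 0 R) := fun R =>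
    hneg _ (hfK R) (hfKW R) (fun x hx => (hfK0 R x hx).le)
  obtain ⟨R₀, hR₀, hR₀L⟩ := exists_radius hC φ f hφ hfi hf hfd h0 hd hE L hL hLf
  obtain ⟨N₁, k₁, hN₁, hKN₁, hk₁, hk₁d⟩ :=
    hneg ((L ∩ {x | φ x ≤ 0}) ∪ f '' closedBall 0 (R₀ + 1))
      ((hL.inter_right (isClosed_le hφ.continuous continuous_const)).union (hfK _))
      (union_subset (inter_subset_left.trans hLW) (hfKW _))
      (by
        rintro x (hx | hx)
        · exact hx.2
        · exact (hfK0 _ x hx).le)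
  obtain ⟨N₂, k₂, hN₂, hKN₂, hk₂, hk₂d⟩ :=
    hpos ((L ∩ {x | 0 ≤ φ x}) ∪ f '' closedBall 0 (R₀ + 1))
      ((hL.inter_right (isClosed_le continuous_const hφ.continuous)).union (hfK _))
      (union_subset (inter_subset_left.trans hLW) (hfKW _))
      (by
        rintro x (hx | hx)
        · exact hx.2
        · exact (hfK0 _ x hx).ge)
  obtain ⟨η, hη, F, hF1, hF2, hF3, hF4⟩ := collarX hC φ f hφ hfi hf hfd h0 hd (R₀ + 1)
    (by positivity) (hE _) (N₁ ∩ N₂) (hN₁.inter hN₂)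
    (fun x hx => ⟨hKN₁ (Or.inr ⟨x, by simpa using hx, rfl⟩),
      hKN₂ (Or.inr ⟨x, by simpa using hx, rfl⟩)⟩)
  have hR1 : 0 < R₀ + 1 := by positivity
  have h0b : (0 : E (m + 1)) ∈ box m (R₀ + 1) η := zero_mem_box hR1 hη
  have hF0 : ∀ z ∈ box m (R₀ + 1) η, z 0 = 0 → φ (F z) = 0 := by
    intro z hz hz0
    have h1 : cn 0 (tl z) = z := by
      conv_rhs => rw [← cn_tl z, hz0]
    rw [← h1, hF1 _ hz.1]
    exact h0 _
  -- normalisation
  obtain ⟨Θ₁, hΘ₁b, hΘ₁d, hΘ₁e⟩ := exists_normalise hG (fun z => k₁ (F z))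
    (LD.comp_fun (hk₁d _ (hF3 0 h0b).2.1) (hF3 0 h0b).1)
  obtain ⟨Θ₂, hΘ₂b, hΘ₂d, hΘ₂e⟩ := exists_normalise hG (fun z => k₂ (F z))
    (LD.comp_fun (hk₂d _ (hF3 0 h0b).2.2) (hF3 0 h0b).1)
  obtain ⟨ρ, hρ, hρb, hρ1, hρ2⟩ : ∃ ρ : ℝ, 0 < ρ ∧ (∀ z : E (m + 1), ‖z‖ ≤ 2 * ρ →
      z ∈ box m (R₀ + 1) η) ∧ (∀ z : E (m + 1), ‖z‖ ≤ 2 * ρ → Θ₁ (k₁ (F z)) = z) ∧
      (∀ z : E (m + 1), ‖z‖ ≤ 2 * ρ → Θ₂ (k₂ (F z)) = z) := by
    obtain ⟨ε, hε, hε'⟩ := Metric.eventually_nhds_iff.1 (hΘ₁e.and hΘ₂e)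
    refine ⟨min (ε / 4) (min ((R₀ + 1) / 2) (η / 2)), by positivity, ?_, ?_, ?_⟩
    · intro z hz
      refine mem_box_of_norm_le ?_ ?_
      · have := (min_le_right (ε / 4) (min ((R₀ + 1) / 2) (η / 2))).trans (min_le_left _ _)
        linarith
      · have := (min_le_right (ε / 4) (min ((R₀ + 1) / 2) (η / 2))).trans (min_le_right _ _)
        linarith
    · intro z hz
      refine (hε' (y := z) ?_).1
      have := (min_le_left (ε / 4) (min ((R₀ + 1) / 2) (η / 2)))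
      rw [dist_zero_right]
      linarith
    · intro z hz
      refine (hε' (y := z) ?_).2
      have := (min_le_left (ε / 4) (min ((R₀ + 1) / 2) (η / 2)))
      rw [dist_zero_right]
      linarith
  have hj₁i : InjOn (fun x => Θ₁ (k₁ x)) N₁ := fun a ha b hb hab => hk₁ ha hb (hΘ₁b.1 hab)
  have hj₂i : InjOn (fun x => Θ₂ (k₂ x)) N₂ := fun a ha b hb hab => hk₂ ha hb (hΘ₂b.1 hab)
  have hj₁d : ∀ x ∈ N₁, LD (m + 1) (fun x => Θ₁ (k₁ x)) x := fun x hx =>
    LD.comp_fun (hΘ₁d _) (hk₁d x hx)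
  have hj₂d : ∀ x ∈ N₂, LD (m + 1) (fun x => Θ₂ (k₂ x)) x := fun x hx =>
    LD.comp_fun (hΘ₂d _) (hk₂d x hx)
  generalize hj₁ : (fun x => Θ₁ (k₁ x)) = j₁ at hj₁i hj₁d
  generalize hj₂ : (fun x => Θ₂ (k₂ x)) = j₂ at hj₂i hj₂d
  have hρ1' : ∀ z : E (m + 1), ‖z‖ ≤ 2 * ρ → j₁ (F z) = z := fun z hz => by
    rw [← hj₁]; exact hρ1 z hz
  have hρ2' : ∀ z : E (m + 1), ‖z‖ ≤ 2 * ρ → j₂ (F z) = z := fun z hz => by
    rw [← hj₂]; exact hρ2 z hz
  -- the position of the two images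
  have hpos1 : ∀ x ∈ N₁, φ x ≤ 0 → ‖j₁ x‖ < 2 * ρ → (j₁ x) 0 ≤ 0 := by
    intro x hx hx0 hn
    have h1 : F (j₁ x) = x := hj₁i (hF3 _ (hρb _ hn.le)).2.1 hx (hρ1' _ hn.le)
    by_contra hcon
    have := (hF4 _ (hρb _ hn.le)).1 (not_le.1 hcon)
    rw [h1] at this
    exact absurd this (not_lt.2 hx0)
  have hpos2 : ∀ x ∈ N₂, 0 < φ x → 0 < (j₂ x) 0 ∨ ρ ≤ ‖j₂ x‖ := by
    intro x hx hx0
    by_contra hcon
    push Not at hcon
    have hn : ‖j₂ x‖ ≤ 2 * ρ := by linarith [hcon.2]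
    have h1 : F (j₂ x) = x := hj₂i (hF3 _ (hρb _ hn)).2.2 hx (hρ2' _ hn)
    rcases hcon.1.lt_or_eq with h | h
    · have := (hF4 _ (hρb _ hn)).2 h
      rw [h1] at this
      exact absurd this (not_lt.2 hx0.le)
    · have h2 : φ (F (j₂ x)) = 0 := hF0 _ (hρb _ hn) h
      rw [h1] at h2
      exact absurd h2 hx0.ne'
  obtain ⟨μ, c, hc0, hcρ, hμi, hμd, ⟨τ, hτ, hτc, hμτ⟩, hμ2⟩ := hMo m ρ (2 * ρ) hρ (by linarith)
  have hj₂c : ∀ x ∈ N₂, 0 < φ x → j₂ x ≠ c := by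
    intro x hx hx0 hcon
    rcases hpos2 x hx hx0 with h | h
    · rw [hcon] at h; linarith
    · rw [hcon] at h; linarith
  obtain ⟨Λ, hΛb, hΛd, hΛ1, hΛ2, hΛ3⟩ := hCo m X F (R₀ + 1) η hR1 hη hF2 (fun z hz => (hF3 z hz).1)
    R₀ (by linarith) τ hτ
  have hΛc : Continuous Λ := LD.continuous_of_forall hΛd
  -- the open set and the map
  obtain ⟨J, hJ1, hJ2⟩ : ∃ J : X → E (m + 1), (∀ x, φ x ≤ 0 → J x = j₁ x) ∧
      ∀ x, 0 < φ x → J x = μ (j₂ x) := by
    classical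
    refine ⟨fun x => if φ x ≤ 0 then j₁ x else μ (j₂ x), ?_, ?_⟩
    · intro x hx
      simp [hx]
    · intro x hx
      simp [not_le.2 hx]
  have hτρ : τ < ρ := hτc.trans_lt hcρ
  have hJF : ∀ z : E (m + 1), ‖z‖ < τ → J (F z) = z := by
    intro z hz
    rcases le_or_gt (φ (F z)) 0 with h | h
    · rw [hJ1 _ h, hρ1' z (by linarith)]
    · rw [hJ2 _ h, hρ2' z (by linarith), hμτ z hz]
  have hballbox : ∀ z : E (m + 1), ‖z‖ < τ → z ∈ box m (R₀ + 1) η := fun z hz =>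
    hρb z (by linarith)
  set N : Set X := (N₁ ∩ {x | φ x < 0}) ∪ (N₂ ∩ {x | 0 < φ x}) ∪ F '' (ball 0 τ) with hNdef
  have hFball : IsOpen (F '' (ball (0 : E (m + 1)) τ)) :=
    isOpen_image_of_LD isOpen_ball fun z hz => (hF3 z (hballbox z (by simpa using hz))).1
  have hNo : IsOpen N := by
    refine IsOpen.union (IsOpen.union ?_ ?_) hFball
    · exact hN₁.inter (isOpen_lt hφ.continuous continuous_const)
    · exact hN₂.inter (isOpen_lt continuous_const hφ.continuous)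
  have hNcases : ∀ x ∈ N, (φ x ≤ 0 ∧ x ∈ N₁) ∨ (0 < φ x ∧ x ∈ N₂) := by
    rintro x ((hx | hx) | ⟨z, hz, rfl⟩)
    · exact Or.inl ⟨hx.2.le, hx.1⟩
    · exact Or.inr ⟨hx.2, hx.1⟩
    · have hzb := hballbox z (by simpa using hz)
      rcases le_or_gt (φ (F z)) 0 with h | h
      · exact Or.inl ⟨h, (hF3 z hzb).2.1⟩
      · exact Or.inr ⟨h, (hF3 z hzb).2.2⟩
  have hJi : InjOn J N := by
    intro x hx y hy hxy
    rcases hNcases x hx with ⟨hx0, hx1⟩ | ⟨hx0, hx1⟩ <;>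
    rcases hNcases y hy with ⟨hy0, hy1⟩ | ⟨hy0, hy1⟩
    · rw [hJ1 x hx0, hJ1 y hy0] at hxy
      exact hj₁i hx1 hy1 hxy
    · exfalso
      rw [hJ1 x hx0, hJ2 y hy0] at hxy
      have h1 := hμ2 _ (hpos2 y hy1 hy0)
      rw [← hxy] at h1
      exact absurd h1.1 (not_lt.2 (hpos1 x hx1 hx0 h1.2))
    · exfalso
      rw [hJ2 x hx0, hJ1 y hy0] at hxy
      have h1 := hμ2 _ (hpos2 x hx1 hx0)
      rw [hxy] at h1
      exact absurd h1.1 (not_lt.2 (hpos1 y hy1 hy0 h1.2))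
    · rw [hJ2 x hx0, hJ2 y hy0] at hxy
      exact hj₂i hx1 hy1 (hμi (hj₂c x hx1 hx0) (hj₂c y hy1 hy0) hxy)
  have hJd : ∀ x ∈ N, LD (m + 1) J x := by
    intro x hx
    rcases lt_trichotomy (φ x) 0 with h | h | h
    · have hx1 : x ∈ N₁ := by
        rcases hNcases x hx with h' | h'
        · exact h'.2
        · exact absurd h'.1 (not_lt.2 h.le)
      refine (hj₁d x hx1).congr ?_
      filter_upwards [(isOpen_lt hφ.continuous continuous_const).mem_nhds h] with y hy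
      exact hJ1 y (le_of_lt hy)
    · have hx1 : x ∈ F '' (ball (0 : E (m + 1)) τ) := by
        rcases hx with (hx | hx) | hx
        · exact absurd h (ne_of_lt hx.2)
        · exact absurd h (ne_of_gt hx.2)
        · exact hx
      have hx2 : x ∈ N₁ := by
        obtain ⟨z, hz, rfl⟩ := hx1
        exact (hF3 z (hballbox z (by simpa using hz))).2.1
      refine (hj₁d x hx2).congr ?_
      filter_upwards [hFball.mem_nhds hx1] with y hy
      obtain ⟨z, hz, rfl⟩ := hy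
      have hz' : ‖z‖ < τ := by simpa using hz
      rw [hJF z hz', hρ1' z (by linarith)]
    · have hx1 : x ∈ N₂ := by
        rcases hNcases x hx with h' | h'
        · exact absurd h (not_lt.2 h'.1)
        · exact h'.2
      have h1 : LD (m + 1) (fun y => μ (j₂ y)) x :=
        LD.comp_fun (hμd _ (hj₂c x hx1 h)) (hj₂d x hx1)
      refine h1.congr ?_
      filter_upwards [(isOpen_lt continuous_const hφ.continuous).mem_nhds h] with y hy
      exact hJ2 y hy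
  refine ⟨Λ ⁻¹' N, fun x => J (Λ x), hNo.preimage hΛc, ?_, ?_, ?_⟩
  · intro x hx
    change Λ x ∈ N
    by_cases hxF : x ∈ F '' (box m (R₀ + 1) η)
    · obtain ⟨z, hz, rfl⟩ := hxF
      obtain ⟨q, hq, hqe⟩ := hΛ2 z hz
      have hqb : cn (z 0) q ∈ box m (R₀ + 1) η := ⟨by simpa using hq, by simpa using hz.2⟩
      rcases lt_trichotomy (z 0) 0 with h | h | h
      · left; left
        rw [hqe]
        exact ⟨(hF3 _ hqb).2.1, (hF4 _ hqb).2 (by simpa using h)⟩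
      · right
        have hz1 : φ (F z) = 0 := hF0 z hz h
        obtain ⟨y, hy, hyx⟩ := hR₀L _ hx hz1
        obtain ⟨q', hq', hqe'⟩ := hΛ3 y hy.le
        have hy1 : F z = F (cn 0 y) := by
          rw [hF1 y (by linarith), hyx]
        rw [hy1, hqe']
        exact ⟨_, by
          have h5 := norm_cn_sq 0 q'
          have h6 : ‖cn 0 q'‖ = ‖q'‖ := by
            rw [← sq_eq_sq₀ (norm_nonneg _) (norm_nonneg _), h5]; ring
          rw [mem_ball_zero_iff, h6]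
          exact hq', rfl⟩
      · left; right
        rw [hqe]
        exact ⟨(hF3 _ hqb).2.2, (hF4 _ hqb).1 (by simpa using h)⟩
    · rw [hΛ1 x hxF]
      rcases lt_trichotomy (φ x) 0 with h | h | h
      · left; left
        exact ⟨hKN₁ (Or.inl ⟨hx, h.le⟩), h⟩
      · exfalso
        obtain ⟨y, hy, hyx⟩ := hR₀L _ hx h
        apply hxF
        refine ⟨cn 0 y, ⟨by simpa using (by linarith : ‖y‖ ≤ R₀ + 1), by simpa using hη.le⟩, ?_⟩
        rw [hF1 y (by linarith), hyx]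
      · left; right
        exact ⟨hKN₂ (Or.inl ⟨hx, h.le⟩), h⟩
  · intro x hx y hy hxy
    exact hΛb.1 (hJi hx hy hxy)
  · intro x hx
    exact LD.comp_fun (hJd _ hx) (hΛd x)


theorem hSum : StSum := stSum' stCollar stCompress Pool.Agent.Y248.SH.germ mob

end Pool.Agent.X175.SH
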