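import Pool.Agent.X175.SH.Main

/-!
# Gluing boxes along good levels: proper maps with small bad sets
-/

set_option autoImplicit false

open Set Filter Topology Metric Function
open scoped Manifold ContDiff

noncomputable section

namespace Pool.Agent.X175.SH

open Pool.Agent.Y522

section defs

variable {m : ℕ} {X : Type} [TopologicalSpace X] [ChartedSpace (E (m + 1)) X]

/-- The level `H_i = c` is good: in every open box it is the zero set of a smooth function with the
right signs and it is parametrized by `ℝ^m`. -/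
def GoodU (H : X → E (m + 1)) (i : Fin (m + 1)) (c : ℝ) : Prop :=
  ∀ a b : Fin (m + 1) → ℝ, (∀ j, a j < b j) → a i < c → c < b i →
    ∃ (φ : X → ℝ) (f : E m → X), ContMDiff (𝓡 (m + 1)) 𝓘(ℝ, ℝ) ∞ φ ∧
      (∀ x, H x ∈ obox a b → (φ x ≤ 0 ↔ H x i ≤ c)) ∧
      (∀ x, H x ∈ obox a b → (0 ≤ φ x ↔ c ≤ H x i)) ∧
      Injective f ∧ ContMDiff (𝓡 m) (𝓡 (m + 1)) ∞ f ∧
      (∀ x, Injective (mfderiv (𝓡 m) (𝓡 (m + 1)) f x)) ∧
      (∀ x, mfderiv (𝓡 (m + 1)) 𝓘(ℝ, ℝ) φ (f x) ≠ 0) ∧
      ∀ x, x ∈ range f ↔ (H x i = c ∧ H x ∈ obox a b)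

end defs

variable {m : ℕ} {X : Type} [TopologicalSpace X] [T2Space X] [ChartedSpace (E (m + 1)) X]
    [IsManifold (𝓡 (m + 1)) ∞ X]

/-- gluing two parts of a box -/
theorem glue_boxU (H : X → E (m + 1)) (i : Fin (m + 1)) (c : ℝ)
    (hg : GoodU H i c) (a b : Fin (m + 1) → ℝ) (hab : ∀ j, a j < b j) (ha : a i < c) (hb : c < b i)
    (hl : ∀ K : Set X, IsCompact K → (∀ x ∈ K, H x ∈ obox a b ∧ H x i ≤ c) → Emb (m + 1) K)
    (hr : ∀ K : Set X, IsCompact K → (∀ x ∈ K, H x ∈ obox a b ∧ c ≤ H x i) → Emb (m + 1) K)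
    (K : Set X) (hK : IsCompact K) (hKb : ∀ x ∈ K, H x ∈ obox a b) : Emb (m + 1) K := by
  obtain ⟨φ, f, hφ, hφ1, hφ2, hfi, hfs, hfd, hfφ, hfr⟩ := hg a b hab ha hb
  have hfr' : ∀ x, H (f x) i = c ∧ H (f x) ∈ obox a b := fun x => (hfr _).1 (mem_range_self x)
  have h0 : ∀ x, H x ∈ obox a b → H x i = c → φ x = 0 := fun x hxb hx =>
    le_antisymm ((hφ1 x hxb).2 hx.le) ((hφ2 x hxb).2 hx.ge)
  refine hSum m X (H ⁻¹' obox a b) K φ f hφ hK hKb hfi hfs hfd
    (fun x => h0 _ (hfr' x).2 (hfr' x).1) hfφ (fun x => (hfr' x).2) ?_ ?_ ?_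
  · intro x hx hx0
    refine (hfr x).2 ⟨?_, hKb x hx⟩
    exact le_antisymm ((hφ1 x (hKb x hx)).1 hx0.le) ((hφ2 x (hKb x hx)).1 hx0.ge)
  · intro K' hK' hK'1 hK'2
    exact hl K' hK' fun x hx => ⟨hK'1 hx, (hφ1 x (hK'1 hx)).1 (hK'2 x hx)⟩
  · intro K' hK' hK'1 hK'2
    exact hr K' hK' fun x hx => ⟨hK'1 hx, (hφ2 x (hK'1 hx)).1 (hK'2 x hx)⟩

/-- saturated neighbourhoods of fibres of proper maps -/
theorem fibre_nhd {Y Z : Type} [TopologicalSpace Y] [TopologicalSpace Z] {f : Y → Z}
    (hf : IsProperMap f) (z : Z) (U : Set Y) (hU : IsOpen U) (hz : f ⁻¹' {z} ⊆ U) :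
    ∃ V : Set Z, IsOpen V ∧ z ∈ V ∧ f ⁻¹' V ⊆ U := by
  refine ⟨(f '' Uᶜ)ᶜ, (hf.isClosedMap _ hU.isClosed_compl).isOpen_compl, ?_, ?_⟩
  · rintro ⟨x, hx, hxz⟩
    exact hx (hz hxz)
  · intro x hx
    by_contra hcon
    exact hx ⟨x, hcon, rfl⟩

theorem norm_le_of_coord (z : E (m + 1)) (B : ℝ) (hB : 0 ≤ B) (hz : ∀ j, |z j| ≤ B) :
    ‖z‖ ≤ (m + 1 : ℝ) * B := by
  rw [EuclideanSpace.norm_eq]
  refine Real.sqrt_le_iff.2 ⟨by positivity, ?_⟩
  calc ∑ i, ‖z i‖ ^ 2 ≤ ∑ _i : Fin (m + 1), B ^ 2 := by
        refine Finset.sum_le_sum fun i _ => ?_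
        rw [Real.norm_eq_abs]
        exact pow_le_pow_left₀ (abs_nonneg _) (hz i) 2
    _ = (m + 1 : ℝ) * B ^ 2 := by simp
    _ ≤ ((m + 1 : ℝ) * B) ^ 2 := by
        have h1 : (1 : ℝ) ≤ m + 1 := by linarith [Nat.cast_nonneg (α := ℝ) m]
        have h2 : 0 ≤ B ^ 2 := sq_nonneg B
        have hm0 : (0 : ℝ) < m + 1 := by positivity
        nlinarith [mul_nonneg (by linarith : (0 : ℝ) ≤ (m : ℝ) + 1 - 1) h2,
          mul_nonneg hm0.le h2, mul_nonneg hm0.le (mul_nonneg
            (by linarith : (0 : ℝ) ≤ (m : ℝ) + 1 - 1) h2)]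

/-- boxes of small diameter embed -/
theorem exists_lebesgueU (H : X → E (m + 1)) (hH : IsProperMap H)
    (hfib : ∀ y, Emb (m + 1) (H ⁻¹' {y})) (M : ℝ) : ∃ l : ℝ, 0 < l ∧
    ∀ a b : Fin (m + 1) → ℝ, (∀ j, -M ≤ a j ∧ a j < b j ∧ b j ≤ M ∧ b j - a j < l) →
      ∀ K : Set X, IsCompact K → (∀ x ∈ K, H x ∈ obox a b) → Emb (m + 1) K := by
  choose U k hU hfU hk hkd using hfib
  choose V hV hyV hVU using fun y => fibre_nhd hH y (U y) (hU y) (hfU y)
  set Q : Set (E (m + 1)) := closedBall 0 ((m + 1 : ℝ) * |M|) with hQ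
  have hQc : IsCompact Q := isCompact_closedBall _ _
  obtain ⟨δ, hδ, hδQ⟩ := lebesgue_number_lemma_of_metric (s := Q) (c := V) hQc hV
    (fun y _ => mem_iUnion.2 ⟨y, hyV y⟩)
  have hm0 : (0 : ℝ) < m + 1 := by positivity
  refine ⟨δ / (m + 1), by positivity, fun a b hab K hK hKb => ?_⟩
  rcases K.eq_empty_or_nonempty with rfl | ⟨x₀, hx₀⟩
  · exact ⟨∅, fun _ => 0, isOpen_empty, Subset.rfl, injOn_empty _, fun x hx => hx.elim⟩
  have hx₀Q : H x₀ ∈ Q := by
    rw [hQ, mem_closedBall_zero_iff]
    refine norm_le_of_coord _ _ (abs_nonneg _) fun j => ?_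
    have h1 := hKb x₀ hx₀ j
    have h2 := hab j
    have h3 := le_abs_self M
    rw [abs_le]
    exact ⟨by linarith, by linarith⟩
  obtain ⟨y, hy⟩ := hδQ _ hx₀Q
  refine ⟨U y, k y, hU y, ?_, hk y, hkd y⟩
  intro x hx
  apply hVU y
  apply hy
  rw [mem_ball, dist_eq_norm]
  obtain ⟨B, hB0, hB, hBl⟩ : ∃ B : ℝ, 0 ≤ B ∧ (∀ j, b j - a j ≤ B) ∧ B < δ / (m + 1) := by
    refine ⟨Finset.univ.sup' Finset.univ_nonempty fun j => b j - a j, ?_, ?_, ?_⟩
    · refine le_trans ?_ (Finset.le_sup' (fun j => b j - a j) (Finset.mem_univ 0))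
      linarith [(hab 0).2.1]
    · intro j
      exact Finset.le_sup' (fun j => b j - a j) (Finset.mem_univ j)
    · rw [Finset.sup'_lt_iff]
      exact fun j _ => (hab j).2.2.2
  refine (norm_le_of_coord _ B hB0 fun j => ?_).trans_lt ?_
  · have h1 := hKb x₀ hx₀ j
    have h2 := hKb x hx j
    have h3 := hB j
    simp only [PiLp.sub_apply]
    rw [abs_le]
    exact ⟨by linarith, by linarith⟩
  · rw [lt_div_iff₀ hm0] at hBl
    linarith

/-- **All compact sets embed** when the good levels are dense in each coordinate. -/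
theorem emb_allU (H : X → E (m + 1)) (hH : IsProperMap H) (hfib : ∀ y, Emb (m + 1) (H ⁻¹' {y}))
    (hg : ∀ i, Dense {c | GoodU H i c})
    (K : Set X) (hK : IsCompact K) : Emb (m + 1) K := by
  -- a large box
  obtain ⟨M, hM0, hM⟩ : ∃ M : ℝ, 0 < M ∧ ∀ x ∈ K, ∀ i, |H x i| < M := by
    obtain ⟨M, hM⟩ := (hK.image hH.continuous).isBounded.subset_closedBall (0 : E (m + 1))
    refine ⟨|M| + 1, by positivity, fun x hx i => ?_⟩
    have h1 := hM ⟨x, hx, rfl⟩
    rw [mem_closedBall_zero_iff] at h1
    have h2 := le_abs_self M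
    have h4 : |H x i| ≤ ‖H x‖ := by
      have := PiLp.norm_apply_le (H x) i
      simpa using this
    linarith
  obtain ⟨l, hl, hbase⟩ := exists_lebesgueU H hH hfib M
  set ℓ := l / 2 with hℓ
  have hℓ0 : 0 < ℓ := by positivity
  have hT : ∀ k : ℕ, k ≤ m + 1 → ∀ a b : Fin (m + 1) → ℝ,
      (∀ j, -M ≤ a j ∧ a j < b j ∧ b j ≤ M) → (∀ j : Fin (m + 1), k ≤ j.val → b j - a j < l) →
      ∀ K : Set X, IsCompact K → (∀ x ∈ K, H x ∈ obox a b) → Emb (m + 1) K := by
    intro k
    induction k with
    | zero =>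
      intro _ a b hab hlen K hK hKb
      exact hbase a b (fun j => ⟨(hab j).1, (hab j).2.1, (hab j).2.2, hlen j (Nat.zero_le _)⟩)
        K hK hKb
    | succ k ih =>
      intro hk
      set i : Fin (m + 1) := ⟨k, hk⟩ with hi
      have hQ : ∀ N : ℕ, ∀ a b : Fin (m + 1) → ℝ,
          (∀ j, -M ≤ a j ∧ a j < b j ∧ b j ≤ M) →
          (∀ j : Fin (m + 1), k + 1 ≤ j.val → b j - a j < l) → b i - a i < (N + 2) * ℓ →
          ∀ K : Set X, IsCompact K → (∀ x ∈ K, H x ∈ obox a b) → Emb (m + 1) K := by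
        intro N
        induction N with
        | zero =>
          intro a b hab hlen hi' K hK hKb
          refine ih (by omega) a b hab (fun j hj => ?_) K hK hKb
          rcases hj.eq_or_lt with h | h
          · have h1 : j = i := Fin.ext h.symm
            rw [h1]
            simp only [CharP.cast_eq_zero, zero_add] at hi'
            linarith
          · exact hlen j h
        | succ N ihN =>
          intro a b hab hlen hi' K hK hKb
          by_cases hsmall : b i - a i < (N + 2) * ℓ
          · exact ihN a b hab hlen hsmall K hK hKb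
          push Not at hsmall
          have hN : (0 : ℝ) ≤ N := Nat.cast_nonneg N
          have h2ℓ : a i ≤ b i - 2 * ℓ := by nlinarith
          -- choose a good level
          obtain ⟨c, hc, hcg⟩ := (hg i).exists_between (show b i - 2 * ℓ < b i - ℓ by linarith)
          obtain ⟨hc1, hc2⟩ := hcg
          push_cast at hi'
          refine glue_boxU H i c hc a b (fun j => (hab j).2.1)
            (by linarith) (by linarith) ?_ ?_ K hK hKb
          · intro K' hK' hK'b
            refine ihN a (update b i (b i - ℓ)) ?_ ?_ ?_ K' hK' ?_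
            · intro j
              by_cases hj : j = i
              · subst hj
                rw [update_self]
                exact ⟨(hab _).1, by linarith, by linarith [(hab i).2.2]⟩
              · rw [update_of_ne hj]
                exact hab j
            · intro j hj
              have hji : j ≠ i := by
                rintro rfl
                simp [hi] at hj
              rw [update_of_ne hji]
              exact hlen j hj
            · rw [update_self]
              linarith
            · intro x hx j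
              obtain ⟨h1, h2⟩ := hK'b x hx
              by_cases hj : j = i
              · subst hj
                rw [update_self]
                exact ⟨(h1 _).1, by linarith⟩
              · rw [update_of_ne hj]
                exact h1 j
          · intro K' hK' hK'b
            refine ih (by omega) (update a i ((c + (b i - 2 * ℓ)) / 2)) b ?_ ?_ K' hK' ?_
            · intro j
              by_cases hj : j = i
              · subst hj
                rw [update_self]
                exact ⟨by linarith [(hab i).1], by linarith, (hab _).2.2⟩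
              · rw [update_of_ne hj]
                exact hab j
            · intro j hj
              by_cases hji : j = i
              · subst hji
                rw [update_self]
                linarith
              · rw [update_of_ne hji]
                refine hlen j ?_
                rcases hj.eq_or_lt with h | h
                · exact absurd (Fin.ext h.symm) hji
                · exact h
            · intro x hx j
              obtain ⟨h1, h2⟩ := hK'b x hx
              by_cases hj : j = i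
              · subst hj
                rw [update_self]
                exact ⟨by linarith, (h1 _).2⟩
              · rw [update_of_ne hj]
                exact h1 j
      intro a b hab hlen K hK hKb
      obtain ⟨N, hN⟩ := exists_nat_gt ((b i - a i) / ℓ)
      rw [div_lt_iff₀ hℓ0] at hN
      exact hQ N a b hab hlen (by nlinarith) K hK hKb
  refine hT (m + 1) le_rfl (fun _ => -M) (fun _ => M) (fun j => ⟨le_rfl, by linarith, le_rfl⟩)
    (fun j hj => absurd j.2 (by omega)) K hK fun x hx i => ?_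
  exact abs_lt.1 (hM x hx i)

end Pool.Agent.X175.SH
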