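import Pool.Agent.X175.SH.UMain

/-!
# Theorem U for bad sets of one-dimensional measure zero, and for bad sets with nowhere dense
projections
-/

set_option autoImplicit false

open Set Filter Topology Metric Function MeasureTheory
open scoped Manifold ContDiff

noncomputable section

namespace Pool.Agent.X175.SH

open Pool.Agent.Y522

/-- **The Morse-Sard theorem** on open subsets of manifolds. -/
theorem sardMU {n : ℕ} {X : Type} [TopologicalSpace X] [SecondCountableTopology X]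
    [ChartedSpace (E n) X] [IsManifold (𝓡 n) ∞ X] (f : X → ℝ) (U : Set X) (hU : IsOpen U)
    (hf : ∀ x ∈ U, ContMDiffAt (𝓡 n) 𝓘(ℝ, ℝ) ∞ f x) :
    volume (f '' {x | x ∈ U ∧ mfderiv (𝓡 n) 𝓘(ℝ, ℝ) f x = 0}) = 0 := by
  refine null_of_locally fun x _ => ⟨(chartAt (E n) x).source,
    (chartAt (E n) x).open_source.mem_nhds (mem_chart_source _ x), ?_⟩
  set c := chartAt (E n) x with hc
  have hsym : ∀ z ∈ c.target, ContMDiffAt (𝓡 n) (𝓡 n) ∞ c.symm z := by
    intro z hz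
    exact (contMDiffOn_chart_symm z hz).contMDiffAt (c.open_target.mem_nhds hz)
  have hO : IsOpen (c.target ∩ c.symm ⁻¹' U) := c.symm.isOpen_inter_preimage hU
  have h1 := sard n (c.target ∩ c.symm ⁻¹' U) hO (fun z => f (c.symm z)) (by
    intro z hz
    exact contMDiffAt_iff_contDiffAt.1 ((hf _ hz.2).comp z (hsym z hz.1)))
  refine measure_mono_null ?_ h1
  rintro _ ⟨y, ⟨⟨hyU, hy1⟩, hy2⟩, rfl⟩
  have hyt := c.map_source hy2
  refine ⟨c y, ⟨⟨hyt, ?_⟩, ?_⟩, by simp [c.left_inv hy2]⟩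
  · show c.symm (c y) ∈ U
    rw [c.left_inv hy2]
    exact hyU
  have h4 : MDifferentiableAt (𝓡 n) 𝓘(ℝ, ℝ) f (c.symm (c y)) := by
    rw [c.left_inv hy2]
    exact (hf y hyU).mdifferentiableAt (by simp)
  have h2 : mfderiv (𝓡 n) 𝓘(ℝ, ℝ) (fun z => f (c.symm z)) (c y) =
      (mfderiv (𝓡 n) 𝓘(ℝ, ℝ) f (c.symm (c y))).comp (mfderiv (𝓡 n) (𝓡 n) c.symm (c y)) :=
    mfderiv_comp (c y) h4 ((hsym _ hyt).mdifferentiableAt (by simp))
  rw [mfderiv_eq_fderiv] at h2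
  rw [h2, c.left_inv hy2]
  have h3 : mfderiv (𝓡 n) 𝓘(ℝ, ℝ) f y = 0 := hy1
  rw [h3]
  rfl

theorem sigmaCompact_of_proper {n : ℕ} {X : Type} [TopologicalSpace X] {H : X → E n}
    (hH : IsProperMap H) : SigmaCompactSpace X := by
  refine ⟨⟨fun j : ℕ => H ⁻¹' closedBall 0 j,
    fun j => hH.isCompact_preimage (isCompact_closedBall _ _), ?_⟩⟩
  ext x
  simp only [mem_iUnion, mem_preimage, mem_closedBall_zero_iff, mem_univ, iff_true]
  exact exists_nat_ge ‖H x‖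

theorem image_null_of_lipschitz {n : ℕ} {B : Set (E n)} (hB : μH[1] B = 0) {u : E n → ℝ}
    (hu : LipschitzWith 1 u) : volume (u '' B) = 0 := by
  have h1 := hu.hausdorffMeasure_image_le (d := 1) zero_le_one B
  rw [hB, mul_zero, hausdorffMeasure_real] at h1
  exact le_antisymm h1 bot_le

section main

variable {m : ℕ} {X : Type} [TopologicalSpace X] [T2Space X] [ChartedSpace (E (m + 1)) X]
    [IsManifold (𝓡 (m + 1)) ∞ X]

/-- bad sets of one-dimensional measure zero -/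
theorem nullU (H : X → E (m + 1)) (hH : IsProperMap H)
    (hsurj : Surjective H) (B : Set (E (m + 1))) (hB : IsClosed B) (hB0 : μH[1] B = 0)
    (hinj : ∀ x y, H x ∉ B → H x = H y → x = y)
    (hsm : ∀ x, H x ∉ B → ContMDiffAt (𝓡 (m + 1)) (𝓡 (m + 1)) ∞ H x)
    (hfib : ∀ y ∈ B, Emb (m + 1) (H ⁻¹' {y})) :
    (∀ K : Set X, IsCompact K → Emb (m + 1) K) ∧
      Nonempty (Diffeomorph (𝓡 (m + 1)) (𝓡 (m + 1)) X (E (m + 1)) ∞) := by
  have : SigmaCompactSpace X := sigmaCompact_of_proper hH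
  have : SecondCountableTopology X :=
    ChartedSpace.secondCountable_of_sigmaCompact (E (m + 1)) X
  have hU : IsOpen (H ⁻¹' Bᶜ) := hB.isOpen_compl.preimage hH.continuous
  refine mainU H hH hsurj B hB hinj hsm hfib ?_ ?_
  · intro i
    have hpr : ContDiff ℝ ∞ (fun z : E (m + 1) => z i) := by fun_prop
    have h1 := sardMU (fun x => H x i) (H ⁻¹' Bᶜ) hU (fun x hx =>
      (contMDiff_iff_contDiff.2 hpr).contMDiffAt.comp x (hsm x hx))
    have h2 : volume ((fun z : E (m + 1) => z i) '' B) = 0 := by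
      refine image_null_of_lipschitz hB0 (LipschitzWith.of_dist_le_mul fun x y => ?_)
      rw [NNReal.coe_one, one_mul, dist_eq_norm, dist_eq_norm]
      have := PiLp.norm_apply_le (x - y) i
      simpa using this
    have h3 : ∀ᵐ c : ℝ, c ∉ (fun z : E (m + 1) => z i) '' B ∧
        c ∉ (fun x => H x i) '' {x | x ∈ H ⁻¹' Bᶜ ∧
          mfderiv (𝓡 (m + 1)) 𝓘(ℝ, ℝ) (fun x => H x i) x = 0} :=
      Filter.Eventually.and (compl_mem_ae_iff.2 h2) (compl_mem_ae_iff.2 h1)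
    refine (MeasureTheory.Measure.dense_of_ae h3).mono ?_
    rintro c ⟨hc1, hc2⟩
    refine ⟨fun y hy hyc => hc1 ⟨y, hy, hyc⟩, fun x hx h0 => hc2 ⟨x, ⟨?_, h0⟩, hx⟩⟩
    intro hxB
    exact hc1 ⟨H x, hxB, hx⟩
  · intro R
    have hpr : ContDiff ℝ ∞ (fun z : E (m + 1) => ‖z‖ ^ 2) := contDiff_norm_sq ℝ
    have h1 := sardMU (fun x => ‖H x‖ ^ 2) (H ⁻¹' Bᶜ) hU (fun x hx =>
      (contMDiff_iff_contDiff.2 hpr).contMDiffAt.comp x (hsm x hx))
    have h2 : volume ((fun z : E (m + 1) => ‖z‖) '' B) = 0 :=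
      image_null_of_lipschitz hB0 lipschitzWith_one_norm
    have h2' : volume ((fun t : ℝ => t ^ 2) '' ((fun z : E (m + 1) => ‖z‖) '' B)) = 0 :=
      addHaar_image_eq_zero_of_differentiableOn_of_addHaar_eq_zero volume
        ((differentiable_id.pow 2).differentiableOn) h2
    have h3 : ∀ᵐ c : ℝ, c ∉ (fun t : ℝ => t ^ 2) '' ((fun z : E (m + 1) => ‖z‖) '' B) ∧
        c ∉ (fun x => ‖H x‖ ^ 2) '' {x | x ∈ H ⁻¹' Bᶜ ∧
          mfderiv (𝓡 (m + 1)) 𝓘(ℝ, ℝ) (fun x => ‖H x‖ ^ 2) x = 0} :=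
      Filter.Eventually.and (compl_mem_ae_iff.2 h2') (compl_mem_ae_iff.2 h1)
    obtain ⟨c, ⟨hc1, hc2⟩, hcM, -⟩ := (MeasureTheory.Measure.dense_of_ae h3).exists_between
      (show (|R| + 1) ^ 2 < (|R| + 1) ^ 2 + 1 by linarith)
    have hc0 : 0 < c := lt_trans (by positivity) hcM
    have hrc : Real.sqrt c ^ 2 = c := Real.sq_sqrt hc0.le
    have hr0 : 0 < Real.sqrt c := Real.sqrt_pos.2 hc0
    refine ⟨Real.sqrt c, ?_, ?_, ?_⟩
    · have h4 : |R| + 1 < Real.sqrt c := Real.lt_sqrt_of_sq_lt hcM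
      have h5 := le_abs_self R
      linarith
    · intro y hy h
      exact hc1 ⟨‖y‖, ⟨y, hy, rfl⟩, by simp only [h, hrc]⟩
    · intro x hx h0
      refine hc2 ⟨x, ⟨?_, h0⟩, by simp only [hx, hrc]⟩
      intro hxB
      exact hc1 ⟨‖H x‖, ⟨H x, hxB, rfl⟩, by simp only [hx, hrc]⟩

/-- the differential of a coordinate of a local diffeomorphism does not vanish -/
theorem mfderiv_comp_ne {H : X → E (m + 1)} {x : X} (h : LD (m + 1) H x) {u : E (m + 1) → ℝ}
    (hu : DifferentiableAt ℝ u (H x)) (hu0 : fderiv ℝ u (H x) ≠ 0) :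
    mfderiv (𝓡 (m + 1)) 𝓘(ℝ, ℝ) (fun x => u (H x)) x ≠ 0 := by
  intro h0
  have h1 : mfderiv (𝓡 (m + 1)) 𝓘(ℝ, ℝ) (fun x => u (H x)) x =
      (mfderiv (𝓡 (m + 1)) 𝓘(ℝ, ℝ) u (H x)).comp (mfderiv (𝓡 (m + 1)) (𝓡 (m + 1)) H x) :=
    mfderiv_comp x (mdifferentiableAt_iff_differentiableAt.2 hu) h.mdifferentiableAt
  rw [h0, mfderiv_eq_fderiv] at h1
  apply hu0
  ext v
  have h2 : Surjective (mfderiv (𝓡 (m + 1)) (𝓡 (m + 1)) H x) := by
    have h' := h.mfderivToContinuousLinearEquiv_coe (by simp)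
    rw [← h']
    exact (h.mfderivToContinuousLinearEquiv (by simp)).surjective
  obtain ⟨w, hw⟩ := h2 v
  have h3 := congrArg (fun L => L w) h1
  rw [← hw]
  exact h3.symm

/-- bad sets whose projections and set of norms have dense complements -/
theorem denseU (H : X → E (m + 1)) (hH : IsProperMap H)
    (hsurj : Surjective H) (B : Set (E (m + 1))) (hB : IsClosed B)
    (hB0 : ∀ i, Dense {c : ℝ | ∀ y ∈ B, y i ≠ c})
    (hB1 : ∀ R : ℝ, ∃ r : ℝ, R < r ∧ ∀ y ∈ B, ‖y‖ ≠ r)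
    (hinj : ∀ x y, H x ∉ B → H x = H y → x = y)
    (hld : ∀ x, H x ∉ B → LD (m + 1) H x)
    (hfib : ∀ y ∈ B, Emb (m + 1) (H ⁻¹' {y})) :
    (∀ K : Set X, IsCompact K → Emb (m + 1) K) ∧
      Nonempty (Diffeomorph (𝓡 (m + 1)) (𝓡 (m + 1)) X (E (m + 1)) ∞) := by
  have : SigmaCompactSpace X := sigmaCompact_of_proper hH
  refine mainU H hH hsurj B hB hinj (fun x hx => (hld x hx).contMDiffAt) hfib ?_ ?_
  · intro i
    refine (hB0 i).mono fun c hc => ⟨hc, fun x hx => ?_⟩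
    have hxB : H x ∉ B := fun h => hc _ h hx
    have hd : HasFDerivAt (fun z : E (m + 1) => z i)
        (EuclideanSpace.proj i : E (m + 1) →L[ℝ] ℝ) (H x) :=
      (EuclideanSpace.proj i : E (m + 1) →L[ℝ] ℝ).hasFDerivAt
    refine mfderiv_comp_ne (hld x hxB) (u := fun z => z i) hd.differentiableAt ?_
    rw [hd.fderiv]
    intro h0
    have h1 := congrArg (fun L : E (m + 1) →L[ℝ] ℝ => L (EuclideanSpace.single i 1)) h0
    simp at h1
  · intro R
    obtain ⟨r, hr, hrB⟩ := hB1 (max R 0)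
    have hr0 : 0 < r := (le_max_right _ _).trans_lt hr
    refine ⟨r, (le_max_left _ _).trans_lt hr, hrB, fun x hx => ?_⟩
    have hxB : H x ∉ B := fun h => hrB _ h hx
    have hd : HasFDerivAt (fun z : E (m + 1) => ‖z‖ ^ 2) (2 • (innerSL ℝ (H x))) (H x) :=
      (hasStrictFDerivAt_norm_sq (H x)).hasFDerivAt
    refine mfderiv_comp_ne (hld x hxB) (u := fun z => ‖z‖ ^ 2) hd.differentiableAt ?_
    rw [hd.fderiv]
    intro h0
    have h1 := congrArg (fun L : E (m + 1) →L[ℝ] ℝ => L (H x)) h0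
    simp only [ContinuousLinearMap.smul_apply, innerSL_apply_apply, real_inner_self_eq_norm_sq, hx,
      ContinuousLinearMap.zero_apply, nsmul_eq_mul, Nat.cast_ofNat] at h1
    nlinarith

end main

end Pool.Agent.X175.SH
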