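import Pool.Agent.X175.SH.UBox

/-!
# Proper maps onto `ℝ^n` that are smooth and injective off a small set
-/

set_option autoImplicit false

open Set Filter Topology Metric Function MeasureTheory
open scoped Manifold ContDiff

noncomputable section

namespace Pool.Agent.X175.SH

open Pool.Agent.Y522

/-- Level sets of regular values are diffeomorphic to `ℝ^m`: version with a bad set. -/
theorem level_wallU {m : ℕ} {X : Type} [TopologicalSpace X]
    [ChartedSpace (E (m + 1)) X] [IsManifold (𝓡 (m + 1)) ∞ X] (H : X → E (m + 1))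
    (hH : IsProperMap H) (hsurj : Surjective H) (B : Set (E (m + 1)))
    (hinj : ∀ x y, H x ∉ B → H x = H y → x = y)
    (hsm : ∀ x, H x ∉ B → ContMDiffAt (𝓡 (m + 1)) (𝓡 (m + 1)) ∞ H x) (φ : X → ℝ)
    (hφ : ContMDiff (𝓡 (m + 1)) 𝓘(ℝ, ℝ) ∞ φ) (W : Set X) (hW : IsOpen W)
    {T : Set (E (m + 1))} {G : E m → E (m + 1)} {G' : E (m + 1) → E m} (hP : Par m T G G')
    (hTB : ∀ z ∈ T, z ∉ B)
    (hT : ∀ x, H x ∈ T ↔ (φ x = 0 ∧ x ∈ W))
    (hd : ∀ x, H x ∈ T → mfderiv (𝓡 (m + 1)) 𝓘(ℝ, ℝ) φ x ≠ 0) :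
    ∃ f : E m → X, Injective f ∧ ContMDiff (𝓡 m) (𝓡 (m + 1)) ∞ f ∧
      (∀ x, Injective (mfderiv (𝓡 m) (𝓡 (m + 1)) f x)) ∧ ∀ x, x ∈ range f ↔ H x ∈ T := by
  have hflat : LocFlat m {x : X | H x ∈ T} := by
    intro x hx
    have hx' : H x ∈ T := hx
    obtain ⟨e, heL, -, hee⟩ := Pool.Agent.Y641.SH.stAdapt m X φ x
      (Eventually.of_forall fun y => hφ.contMDiffAt) (hd x hx')
    refine ⟨e, heL, ?_⟩
    filter_upwards [hee, hW.mem_nhds ((hT x).1 hx').2] with y hy hyW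
    have h1 : H y ∈ T ↔ (e y) 0 = 0 := by
      rw [hT, hy, ((hT x).1 hx').1, sub_zero]
      exact ⟨fun h => h.1, fun h => ⟨h, hyW⟩⟩
    exact h1
  obtain ⟨hch, hman, hval, hvald⟩ := Pool.Agent.Y641.SH.stLevel m X {x : X | H x ∈ T} hflat
  -- the inverse off the bad set
  set g : E (m + 1) → X := surjInv hsurj with hg
  have hHg : ∀ z, H (g z) = z := surjInv_eq hsurj
  have hgc : ∀ z, z ∉ B → ContinuousAt g z := by
    intro z hz
    rw [ContinuousAt, _root_.tendsto_nhds]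
    intro U hU hzU
    obtain ⟨V, hV, hzV, hVU⟩ := fibre_nhd hH z U hU (by
      intro x hx
      have h1 : H x = z := hx
      rw [hinj x (g z) (by rw [h1]; exact hz) (by rw [h1, hHg])]
      exact hzU)
    refine mem_of_superset (hV.mem_nhds hzV) fun w hw => hVU ?_
    show H (g w) ∈ V
    rw [hHg]
    exact hw
  -- the homeomorphism of the level set
  let h : {x : X | H x ∈ T} ≃ₜ E m :=
    { toFun := fun s => G' (H s)
      invFun := fun y => ⟨g (G y), by
        show H (g (G y)) ∈ T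
        rw [hHg]
        exact hP.mem y⟩
      left_inv := fun s => by
        apply Subtype.ext
        show g (G (G' (H s))) = s
        rw [hP.right _ s.2]
        exact (hinj s (g (H s)) (hTB _ s.2) (hHg _).symm).symm
      right_inv := fun y => by
        show G' (H (g (G y))) = y
        rw [hHg, hP.left]
      continuous_toFun := by
        refine continuous_iff_continuousAt.2 fun s => ?_
        exact ContinuousAt.comp (g := G') (hP.inv_smooth _ s.2).continuousAt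
          (hH.continuous.comp continuous_subtype_val).continuousAt
      continuous_invFun := by
        refine Continuous.subtype_mk ?_ _
        refine continuous_iff_continuousAt.2 fun y => ?_
        exact ContinuousAt.comp (g := g) (hgc _ (hTB _ (hP.mem y)))
          hP.smooth.continuous.continuousAt }
  have hh : ContMDiff (𝓡 m) (𝓡 m) ∞ h := by
    intro s
    have h1 : ContMDiffAt (𝓡 (m + 1)) (𝓡 m) ∞ G' (H (s : X)) :=
      contMDiffAt_iff_contDiffAt.2 (hP.inv_smooth _ s.2)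
    have h2 : ContMDiffAt (𝓡 m) (𝓡 (m + 1)) ∞ (fun s : {x : X | H x ∈ T} => H (s : X)) s :=
      (hsm _ (hTB _ s.2)).comp s hval.contMDiffAt
    exact ContMDiffAt.comp (g := G') (f := fun s : {x : X | H x ∈ T} => H (s : X)) s h1 h2
  obtain ⟨D⟩ := sht m {x : X | H x ∈ T} h hh
  refine ⟨fun y => (D.symm y : X), ?_, ?_, ?_, ?_⟩
  · intro y z hyz
    exact D.symm.injective (Subtype.ext hyz)
  · exact hval.comp D.symm.contMDiff
  · intro y
    have h1 : mfderiv (𝓡 m) (𝓡 (m + 1)) (fun y => (D.symm y : X)) y =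
        (mfderiv (𝓡 m) (𝓡 (m + 1)) (Subtype.val : {x : X | H x ∈ T} → X) (D.symm y)).comp
          (mfderiv (𝓡 m) (𝓡 m) D.symm y) :=
      mfderiv_comp y (hval.mdifferentiableAt (by simp))
        (D.symm.contMDiff.mdifferentiableAt (by simp))
    rw [h1]
    refine (hvald (D.symm y)).comp ?_
    have h2 := D.symm.mfderivToContinuousLinearEquiv_coe (by simp) (x := y)
    rw [← h2]
    exact (D.symm.mfderivToContinuousLinearEquiv (by simp) y).injective
  · intro x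
    constructor
    · rintro ⟨y, rfl⟩
      exact (D.symm y).2
    · intro hx
      exact ⟨D ⟨x, hx⟩, by simp⟩

/-- a smooth function which is the identity near `0`, has the sign of its argument and is locally
constant outside a small interval -/
theorem exists_tau (δ : ℝ) (hδ : 0 < δ) : ∃ τ : ℝ → ℝ, ContDiff ℝ ∞ τ ∧
    (∀ t, |t| ≤ δ / 4 → τ t = t) ∧ (∀ t, τ t ≤ 0 ↔ t ≤ 0) ∧ (∀ t, 0 ≤ τ t ↔ 0 ≤ t) ∧
    ∀ t, δ / 2 < |t| → ∀ᶠ s in 𝓝 t, τ s = τ t := by
  let b : ContDiffBump (0 : ℝ) := ⟨δ / 4, δ / 2, by positivity, by linarith⟩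
  set σ : ℝ → ℝ := fun t => if 0 < t then δ else -δ with hσ
  set τ : ℝ → ℝ := fun t => b t * t + (1 - b t) * σ t with hτ
  have hb1 : ∀ t, |t| ≤ δ / 4 → b t = 1 := fun t ht =>
    b.one_of_mem_closedBall (by simpa [Real.norm_eq_abs] using ht)
  have hb0 : ∀ t, δ / 2 ≤ |t| → b t = 0 := fun t ht =>
    b.zero_of_le_dist (by rw [dist_zero_right, Real.norm_eq_abs]; exact ht)
  have hσp : ∀ t, 0 < t → σ t = δ := fun t ht => if_pos ht
  have hσn : ∀ t, t ≤ 0 → σ t = -δ := fun t ht => if_neg (not_lt.2 ht)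
  have hσl : ∀ t, t ≠ 0 → ∀ᶠ s in 𝓝 t, σ s = σ t := by
    intro t ht
    rcases lt_or_gt_of_ne ht with h | h
    · filter_upwards [gt_mem_nhds h] with s hs
      rw [hσn s (le_of_lt hs), hσn t h.le]
    · filter_upwards [lt_mem_nhds h] with s hs
      rw [hσp s hs, hσp t h]
  have hpos : ∀ t, 0 < t → 0 < τ t := by
    intro t ht
    simp only [hτ, hσp t ht]
    have h1 := b.nonneg (x := t)
    have h2 := b.le_one (x := t)
    rcases h1.eq_or_lt with h | h
    · rw [← h]; simpa using hδ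
    · nlinarith [mul_pos h ht, mul_nonneg (sub_nonneg.2 h2) hδ.le]
  have hneg : ∀ t, t < 0 → τ t < 0 := by
    intro t ht
    simp only [hτ, hσn t ht.le]
    have h1 := b.nonneg (x := t)
    have h2 := b.le_one (x := t)
    rcases h1.eq_or_lt with h | h
    · rw [← h]; simpa using hδ
    · nlinarith [mul_pos h (neg_pos.2 ht), mul_nonneg (sub_nonneg.2 h2) hδ.le]
  have hzero : τ 0 = 0 := by
    simp only [hτ, hb1 0 (by simpa using by positivity)]
    ring
  refine ⟨τ, ?_, ?_, ?_, ?_, ?_⟩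
  · refine contDiff_iff_contDiffAt.2 fun t => ?_
    by_cases ht : t = 0
    · subst ht
      refine contDiffAt_id.congr_of_eventuallyEq ?_
      have h1 : ball (0 : ℝ) (δ / 4) ∈ 𝓝 (0 : ℝ) := ball_mem_nhds _ (by positivity)
      filter_upwards [h1] with s hs
      rw [mem_ball_zero_iff, Real.norm_eq_abs] at hs
      simp only [hτ, hb1 s hs.le]
      simp
    · have h1 : ContDiffAt ℝ ∞ (fun s => b s * s + (1 - b s) * σ t) t :=
        (b.contDiffAt.mul contDiffAt_id).add ((contDiffAt_const.sub b.contDiffAt).mul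
          contDiffAt_const)
      refine h1.congr_of_eventuallyEq ?_
      filter_upwards [hσl t ht] with s hs
      simp only [hτ, hs]
  · intro t ht
    simp only [hτ, hb1 t ht]
    ring
  · intro t
    constructor
    · intro h
      by_contra hcon
      exact absurd h (not_le.2 (hpos t (not_le.1 hcon)))
    · intro h
      rcases h.lt_or_eq with h | h
      · exact (hneg t h).le
      · rw [h, hzero]
  · intro t
    constructor
    · intro h
      by_contra hcon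
      exact absurd h (not_le.2 (hneg t (not_le.1 hcon)))
    · intro h
      rcases h.lt_or_eq with h | h
      · exact (hpos t h).le
      · rw [← h, hzero]
  · intro t ht
    have ht0 : t ≠ 0 := by
      rintro rfl
      rw [abs_zero] at ht
      linarith
    have h1 : ∀ᶠ s : ℝ in 𝓝 t, δ / 2 < |s| := continuous_abs.continuousAt.eventually (lt_mem_nhds ht)
    filter_upwards [h1, hσl t ht0] with s hs hs'
    simp only [hτ, hb0 s hs.le, hb0 t ht.le, hs']
    ring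

section main

variable {m : ℕ} {X : Type} [TopologicalSpace X] [T2Space X] [ChartedSpace (E (m + 1)) X]
    [IsManifold (𝓡 (m + 1)) ∞ X]

/-- composition with the truncation -/
theorem tau_smooth {H : X → E (m + 1)} (hHc : Continuous H) {B : Set (E (m + 1))}
    (hsm : ∀ x, H x ∉ B → ContMDiffAt (𝓡 (m + 1)) (𝓡 (m + 1)) ∞ H x)
    {u : E (m + 1) → ℝ} (hu : ContDiff ℝ ∞ u) {τ : ℝ → ℝ} (hτ : ContDiff ℝ ∞ τ) {δ : ℝ}
    (hτl : ∀ t, δ / 2 < |t| → ∀ᶠ s in 𝓝 t, τ s = τ t) (x : X)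
    (hx : H x ∈ B → δ / 2 < |u (H x)|) :
    ContMDiffAt (𝓡 (m + 1)) 𝓘(ℝ, ℝ) ∞ (fun y => τ (u (H y))) x := by
  by_cases hxB : H x ∈ B
  · have h1 : ContinuousAt (fun y => u (H y)) x := (hu.continuous.comp hHc).continuousAt
    have h2 : ∀ᶠ y in 𝓝 x, τ (u (H y)) = τ (u (H x)) := h1.eventually (hτl _ (hx hxB))
    exact (contMDiffAt_const (c := τ (u (H x)))).congr_of_eventuallyEq h2
  · have h1 : ContMDiffAt (𝓡 (m + 1)) 𝓘(ℝ, ℝ) ∞ (fun z => τ (u z)) (H x) :=
      contMDiffAt_iff_contDiffAt.2 (hτ.comp hu).contDiffAt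
    exact h1.comp x (hsm x hxB)

/-- levels which avoid the bad set and are regular are good -/
theorem goodU [SigmaCompactSpace X] (H : X → E (m + 1)) (hH : IsProperMap H)
    (hsurj : Surjective H) (B : Set (E (m + 1))) (hB : IsClosed B)
    (hinj : ∀ x y, H x ∉ B → H x = H y → x = y)
    (hsm : ∀ x, H x ∉ B → ContMDiffAt (𝓡 (m + 1)) (𝓡 (m + 1)) ∞ H x)
    (i : Fin (m + 1)) (c : ℝ) (hcB : ∀ y ∈ B, y i ≠ c)
    (hcr : ∀ x, H x i = c → mfderiv (𝓡 (m + 1)) 𝓘(ℝ, ℝ) (fun x => H x i) x ≠ 0) :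
    GoodU H i c := by
  intro a b hab ha hb
  -- a ball containing the box
  obtain ⟨R, hR0, hR⟩ : ∃ R : ℝ, 0 < R ∧ obox a b ⊆ closedBall (0 : E (m + 1)) R := by
    refine ⟨(m + 1 : ℝ) * (Finset.univ.sup' Finset.univ_nonempty fun j => |a j| + |b j|) + 1,
      ?_, ?_⟩
    · have h1 : 0 ≤ Finset.univ.sup' Finset.univ_nonempty fun j : Fin (m + 1) => |a j| + |b j| :=
        le_trans (by positivity) (Finset.le_sup' (fun j => |a j| + |b j|) (Finset.mem_univ 0))
      positivity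
    · intro z hz
      rw [mem_closedBall_zero_iff]
      have h1 : 0 ≤ Finset.univ.sup' Finset.univ_nonempty fun j : Fin (m + 1) => |a j| + |b j| :=
        le_trans (by positivity) (Finset.le_sup' (fun j => |a j| + |b j|) (Finset.mem_univ 0))
      have h2 := norm_le_of_coord z _ h1 fun j => by
        refine le_trans ?_ (Finset.le_sup' (fun j => |a j| + |b j|) (Finset.mem_univ j))
        have h3 := hz j
        have h4 := neg_abs_le (a j)
        have h5 := le_abs_self (b j)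
        have h6 := abs_nonneg (a j)
        have h7 := abs_nonneg (b j)
        rw [abs_le]
        exact ⟨by linarith, by linarith⟩
      linarith
  -- distance of the level from the bad set
  obtain ⟨δ, hδ, hδB⟩ : ∃ δ : ℝ, 0 < δ ∧ ∀ y ∈ B, ‖y‖ ≤ R + 1 → δ ≤ |y i - c| := by
    have hK : IsCompact (B ∩ closedBall 0 (R + 1)) := (isCompact_closedBall _ _).inter_left hB
    rcases (B ∩ closedBall (0 : E (m + 1)) (R + 1)).eq_empty_or_nonempty with h0 | h0
    · refine ⟨1, one_pos, fun y hy hyR => ?_⟩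
      exfalso
      have : y ∈ B ∩ closedBall (0 : E (m + 1)) (R + 1) :=
        ⟨hy, by rwa [mem_closedBall_zero_iff]⟩
      rw [h0] at this
      exact this
    · have hc : ContinuousOn (fun y : E (m + 1) => |y i - c|) (B ∩ closedBall 0 (R + 1)) := by
        have : Continuous fun y : E (m + 1) => |y i - c| := by fun_prop
        exact this.continuousOn
      obtain ⟨y₀, hy₀, hmin⟩ := hK.exists_isMinOn h0 hc
      refine ⟨|y₀ i - c|, abs_pos.2 (sub_ne_zero.2 (hcB y₀ hy₀.1)), fun y hy hyR => ?_⟩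
      exact hmin ⟨hy, by rwa [mem_closedBall_zero_iff]⟩
  obtain ⟨τ, hτ, hτ1, hτ2, hτ3, hτ4⟩ := exists_tau δ hδ
  -- the cut-off function
  obtain ⟨β, hβ0, hβ1, hβ⟩ := exists_contMDiffMap_zero_one_of_isClosed (n := ⊤) (𝓡 (m + 1))
    (s := H ⁻¹' {y | R + 1 / 2 ≤ ‖y‖}) (t := H ⁻¹' closedBall 0 R)
    ((isClosed_le continuous_const continuous_norm).preimage hH.continuous)
    (isClosed_closedBall.preimage hH.continuous)
    (by
      rw [Set.disjoint_left]
      intro x hx hx'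
      have h1 : R + 1 / 2 ≤ ‖H x‖ := hx
      have h2 : ‖H x‖ ≤ R := by simpa using hx'
      linarith)
  have hu : ContDiff ℝ ∞ (fun z : E (m + 1) => z i - c) := by fun_prop
  set φ : X → ℝ := fun x => β x * τ (H x i - c) with hφdef
  have hφ : ContMDiff (𝓡 (m + 1)) 𝓘(ℝ, ℝ) ∞ φ := by
    intro x
    by_cases hx : ‖H x‖ < R + 1
    · have h1 := tau_smooth hH.continuous hsm hu hτ hτ4 x (fun hxB => by
        have := hδB _ hxB hx.le
        linarith)
      exact β.contMDiff.contMDiffAt.mul h1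
    · have h1 : ∀ᶠ y in 𝓝 x, R + 1 / 2 < ‖H y‖ :=
        (hH.continuous.norm.continuousAt (x := x)).eventually (lt_mem_nhds (by
          push Not at hx
          linarith))
      refine (contMDiffAt_const (c := (0 : ℝ))).congr_of_eventuallyEq ?_
      filter_upwards [h1] with y hy
      have h2 : β y = 0 := hβ0 (le_of_lt hy : R + 1 / 2 ≤ ‖H y‖)
      simp only [hφdef, h2, zero_mul]
  have hφbox : ∀ x, H x ∈ obox a b → φ x = τ (H x i - c) := by
    intro x hx
    have h2 : β x = 1 := hβ1 (hR hx)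
    simp only [hφdef, h2, one_mul]
  have hφloc : ∀ x, H x ∈ obox a b → H x i = c → ∀ᶠ y in 𝓝 x, φ y = H y i - c := by
    intro x hx hxc
    have hci : Continuous fun y => H y i - c := hu.continuous.comp hH.continuous
    have h1 : ∀ᶠ y in 𝓝 x, |H y i - c| < δ / 4 := by
      refine hci.abs.continuousAt.eventually (gt_mem_nhds ?_)
      show |H x i - c| < δ / 4
      rw [hxc, sub_self, abs_zero]
      positivity
    filter_upwards [h1, hH.continuous.continuousAt.eventually_mem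
      ((isOpen_obox a b).mem_nhds hx)] with y hy hyb
    rw [hφbox y hyb, hτ1 _ hy.le]
  have hφd : ∀ x, H x ∈ obox a b → H x i = c →
      mfderiv (𝓡 (m + 1)) 𝓘(ℝ, ℝ) φ x ≠ 0 := by
    intro x hx hxc
    have hxB : H x ∉ B := fun h => hcB _ h hxc
    have h1 : mfderiv (𝓡 (m + 1)) 𝓘(ℝ, ℝ) φ x =
        mfderiv (𝓡 (m + 1)) 𝓘(ℝ, ℝ) (fun y => H y i - c) x :=
      Filter.EventuallyEq.mfderiv_eq (hφloc x hx hxc)
    have hpr : ContDiff ℝ ∞ (fun z : E (m + 1) => z i) := by fun_prop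
    have hHi : ContMDiffAt (𝓡 (m + 1)) 𝓘(ℝ, ℝ) ∞ (fun x => H x i) x :=
      (contMDiff_iff_contDiff.2 hpr).contMDiffAt.comp x (hsm x hxB)
    have h3 : HasMFDerivAt (𝓡 (m + 1)) 𝓘(ℝ, ℝ) (fun x => H x i - c) x
        (mfderiv (𝓡 (m + 1)) 𝓘(ℝ, ℝ) (fun x => H x i) x) := by
      have h4 : HasMFDerivAt 𝓘(ℝ, ℝ) 𝓘(ℝ, ℝ) (fun t : ℝ => t - c) (H x i)
          (ContinuousLinearMap.id ℝ ℝ) :=
        (((hasFDerivAt_id (H x i)).sub_const c)).hasMFDerivAt
      exact h4.comp x ((hHi.mdifferentiableAt (by simp)).hasMFDerivAt)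
    rw [h1, h3.mfderiv]
    exact hcr x hxc
  obtain ⟨G, G', hP⟩ := wall_param i c a b hab ha hb
  obtain ⟨f, hf1, hf2, hf3, hf4⟩ := level_wallU H hH hsurj B hinj hsm φ hφ
    (H ⁻¹' obox a b) ((isOpen_obox a b).preimage hH.continuous) hP
    (fun z hz hzB => hcB z hzB hz.1)
    (fun x => by
      constructor
      · rintro ⟨h1, h2⟩
        refine ⟨?_, h2⟩
        rw [hφbox x h2, h1, sub_self, hτ1 0 (by rw [abs_zero]; positivity)]
      · rintro ⟨h1, h2⟩
        rw [hφbox x h2] at h1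
        have h3 := (hτ2 _).1 h1.le
        have h4 := (hτ3 _).1 h1.ge
        exact ⟨by linarith, h2⟩)
    (fun x hx => hφd x hx.2 hx.1)
  refine ⟨φ, f, hφ, ?_, ?_, hf1, hf2, hf3, ?_, hf4⟩
  · intro x hx
    rw [hφbox x hx, hτ2, sub_nonpos]
  · intro x hx
    rw [hφbox x hx, hτ3, sub_nonneg]
  · intro y
    have h1 := (hf4 _).1 (mem_range_self y)
    exact hφd _ h1.2 h1.1

/-- **Theorem U.** -/
theorem mainU [SigmaCompactSpace X] (H : X → E (m + 1)) (hH : IsProperMap H)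
    (hsurj : Surjective H) (B : Set (E (m + 1))) (hB : IsClosed B)
    (hinj : ∀ x y, H x ∉ B → H x = H y → x = y)
    (hsm : ∀ x, H x ∉ B → ContMDiffAt (𝓡 (m + 1)) (𝓡 (m + 1)) ∞ H x)
    (hfib : ∀ y ∈ B, Emb (m + 1) (H ⁻¹' {y}))
    (hgood : ∀ i, Dense {c : ℝ | (∀ y ∈ B, y i ≠ c) ∧
      ∀ x, H x i = c → mfderiv (𝓡 (m + 1)) 𝓘(ℝ, ℝ) (fun x => H x i) x ≠ 0})
    (hsph : ∀ R : ℝ, ∃ r : ℝ, R < r ∧ (∀ y ∈ B, ‖y‖ ≠ r) ∧
      ∀ x, ‖H x‖ = r → mfderiv (𝓡 (m + 1)) 𝓘(ℝ, ℝ) (fun x => ‖H x‖ ^ 2) x ≠ 0) :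
    (∀ K : Set X, IsCompact K → Emb (m + 1) K) ∧
      Nonempty (Diffeomorph (𝓡 (m + 1)) (𝓡 (m + 1)) X (E (m + 1)) ∞) := by
  have hfib' : ∀ y, Emb (m + 1) (H ⁻¹' {y}) := by
    intro y
    by_cases hy : y ∈ B
    · exact hfib y hy
    · obtain ⟨x, hx⟩ := hsurj y
      refine ⟨(chartAt (E (m + 1)) x).source, chartAt (E (m + 1)) x,
        (chartAt (E (m + 1)) x).open_source, ?_, (chartAt (E (m + 1)) x).injOn, ?_⟩
      · intro z hz
        have h1 : H z = y := hz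
        have h2 : x = z := hinj x z (by rw [hx]; exact hy) (by rw [hx, h1])
        rw [← h2]
        exact mem_chart_source _ _
      · intro z hz
        exact ⟨{ toPartialEquiv := (chartAt (E (m + 1)) x).toPartialEquiv
                 open_source := (chartAt (E (m + 1)) x).open_source
                 open_target := (chartAt (E (m + 1)) x).open_target
                 contMDiffOn_toFun := contMDiffOn_chart
                 contMDiffOn_invFun := contMDiffOn_chart_symm }, hz, fun _ _ => rfl⟩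
  have hEmb : ∀ K : Set X, IsCompact K → Emb (m + 1) K := by
    intro K hK
    refine emb_allU H hH hfib' (fun i => ?_) K hK
    exact (hgood i).mono fun c hc => goodU H hH hsurj B hB hinj hsm i c hc.1 hc.2
  refine ⟨hEmb, Pool.Agent.Y496.SH.monotone (Pool.Agent.Y784.SH.ext Pool.Agent.Y248.SH.germ)
    (m + 1) X ?_⟩
  intro K hK
  have hpr : ContDiff ℝ ∞ (fun z : E (m + 1) => ‖z‖ ^ 2) := contDiff_norm_sq ℝ
  obtain ⟨M, hM0, hM⟩ : ∃ M : ℝ, 0 < M ∧ ∀ x ∈ K, ‖H x‖ ≤ M := by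
    obtain ⟨M, hM⟩ := (hK.image hH.continuous).isBounded.subset_closedBall (0 : E (m + 1))
    refine ⟨|M| + 1, by positivity, fun x hx => ?_⟩
    have h1 := hM ⟨x, hx, rfl⟩
    rw [mem_closedBall_zero_iff] at h1
    have h2 := le_abs_self M
    linarith
  obtain ⟨r, hrM, hrB, hrd⟩ := hsph M
  have hr0 : 0 < r := hM0.trans hrM
  -- distance of the sphere from the bad set
  obtain ⟨δ, hδ, hδB⟩ : ∃ δ : ℝ, 0 < δ ∧ ∀ y ∈ B, δ ≤ |‖y‖ ^ 2 - r ^ 2| := by
    have hK : IsCompact (B ∩ closedBall 0 (r + 1)) := (isCompact_closedBall _ _).inter_left hB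
    have hfar : ∀ y ∈ B, r + 1 < ‖y‖ → 1 ≤ |‖y‖ ^ 2 - r ^ 2| := by
      intro y _ hy
      rw [abs_of_pos (by nlinarith)]
      nlinarith
    rcases (B ∩ closedBall (0 : E (m + 1)) (r + 1)).eq_empty_or_nonempty with h0 | h0
    · refine ⟨1, one_pos, fun y hy => hfar y hy ?_⟩
      by_contra hcon
      have : y ∈ B ∩ closedBall (0 : E (m + 1)) (r + 1) :=
        ⟨hy, by rw [mem_closedBall_zero_iff]; exact not_lt.1 hcon⟩
      rw [h0] at this
      exact this
    · have hc : ContinuousOn (fun y : E (m + 1) => |‖y‖ ^ 2 - r ^ 2|)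
          (B ∩ closedBall 0 (r + 1)) := by
        have : Continuous fun y : E (m + 1) => |‖y‖ ^ 2 - r ^ 2| := by fun_prop
        exact this.continuousOn
      obtain ⟨y₀, hy₀, hmin⟩ := hK.exists_isMinOn h0 hc
      have hne : ‖y₀‖ ^ 2 - r ^ 2 ≠ 0 := by
        intro h
        apply hrB y₀ hy₀.1
        rw [sub_eq_zero, sq_eq_sq₀ (norm_nonneg _) hr0.le] at h
        exact h
      refine ⟨min 1 |‖y₀‖ ^ 2 - r ^ 2|, lt_min one_pos (abs_pos.2 hne), fun y hy => ?_⟩
      by_cases hyR : ‖y‖ ≤ r + 1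
      · exact (min_le_right _ _).trans (hmin ⟨hy, by rwa [mem_closedBall_zero_iff]⟩)
      · exact (min_le_left _ _).trans (hfar y hy (not_le.1 hyR))
  obtain ⟨τ, hτ, hτ1, hτ2, hτ3, hτ4⟩ := exists_tau δ hδ
  set φ : X → ℝ := fun x => τ (‖H x‖ ^ 2 - r ^ 2) with hφdef
  have hu : ContDiff ℝ ∞ (fun z : E (m + 1) => ‖z‖ ^ 2 - r ^ 2) := hpr.sub contDiff_const
  have hφ : ContMDiff (𝓡 (m + 1)) 𝓘(ℝ, ℝ) ∞ φ := fun x =>
    tau_smooth hH.continuous hsm hu hτ hτ4 x (fun hxB => by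
      have := hδB _ hxB
      linarith)
  have hφr : ∀ x, φ x = 0 ↔ ‖H x‖ = r := by
    intro x
    constructor
    · intro h
      have h2 : ‖H x‖ ^ 2 - r ^ 2 = 0 := le_antisymm ((hτ2 _).1 h.le) ((hτ3 _).1 h.ge)
      exact (sq_eq_sq₀ (norm_nonneg _) hr0.le).1 (sub_eq_zero.1 h2)
    · intro h
      simp only [hφdef, h, sub_self]
      exact hτ1 0 (by rw [abs_zero]; positivity)
  have hφle : ∀ x, φ x ≤ 0 ↔ ‖H x‖ ≤ r := by
    intro x
    have h1 : φ x ≤ 0 ↔ ‖H x‖ ^ 2 - r ^ 2 ≤ 0 := hτ2 _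
    rw [h1, sub_nonpos, sq_le_sq₀ (norm_nonneg _) hr0.le]
  have hφd : ∀ x, ‖H x‖ = r → mfderiv (𝓡 (m + 1)) 𝓘(ℝ, ℝ) φ x ≠ 0 := by
    intro x hx
    have hxB : H x ∉ B := fun h => hrB _ h hx
    have hci : Continuous fun y => ‖H y‖ ^ 2 - r ^ 2 := hu.continuous.comp hH.continuous
    have h0 : ∀ᶠ y in 𝓝 x, |‖H y‖ ^ 2 - r ^ 2| < δ / 4 := by
      refine hci.abs.continuousAt.eventually (gt_mem_nhds ?_)
      show |‖H x‖ ^ 2 - r ^ 2| < δ / 4
      rw [hx, sub_self, abs_zero]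
      positivity
    have h1 : mfderiv (𝓡 (m + 1)) 𝓘(ℝ, ℝ) φ x =
        mfderiv (𝓡 (m + 1)) 𝓘(ℝ, ℝ) (fun y => ‖H y‖ ^ 2 - r ^ 2) x := by
      refine Filter.EventuallyEq.mfderiv_eq ?_
      filter_upwards [h0] with y hy
      exact hτ1 _ hy.le
    have hHi : ContMDiffAt (𝓡 (m + 1)) 𝓘(ℝ, ℝ) ∞ (fun x => ‖H x‖ ^ 2) x :=
      (contMDiff_iff_contDiff.2 hpr).contMDiffAt.comp x (hsm x hxB)
    have h3 : HasMFDerivAt (𝓡 (m + 1)) 𝓘(ℝ, ℝ) (fun x => ‖H x‖ ^ 2 - r ^ 2) x
        (mfderiv (𝓡 (m + 1)) 𝓘(ℝ, ℝ) (fun x => ‖H x‖ ^ 2) x) := by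
      have h4 : HasMFDerivAt 𝓘(ℝ, ℝ) 𝓘(ℝ, ℝ) (fun t : ℝ => t - r ^ 2) (‖H x‖ ^ 2)
          (ContinuousLinearMap.id ℝ ℝ) :=
        (((hasFDerivAt_id (‖H x‖ ^ 2)).sub_const (r ^ 2))).hasMFDerivAt
      exact h4.comp x ((hHi.mdifferentiableAt (by simp)).hasMFDerivAt)
    rw [h1, h3.mfderiv]
    exact hrd x hx
  obtain ⟨s₀, hs₀⟩ := hsurj (r • e0)
  have hnr : ‖(r • e0 : E (m + 1))‖ = r := by
    rw [norm_smul, norm_e0, mul_one, Real.norm_of_nonneg hr0.le]
  have hs₀B : H s₀ ∉ B := fun h => hrB _ h (by rw [hs₀, hnr])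
  obtain ⟨G, G', hP⟩ := stereo_param (m := m) r hr0
  have hne : ∀ x, H x ≠ r • e0 ↔ x ≠ s₀ := by
    intro x
    rw [← hs₀]
    exact ⟨fun h h' => h (by rw [h']), fun h h' => h (hinj s₀ x hs₀B h'.symm).symm⟩
  obtain ⟨f, hf1, hf2, hf3, hf4⟩ := level_wallU H hH hsurj B hinj hsm φ hφ
    {x | x ≠ s₀} isOpen_ne hP
    (fun z hz hzB => hrB z hzB hz.1)
    (fun x => by
      constructor
      · rintro ⟨h2, h3⟩
        exact ⟨(hφr x).2 h2, (hne x).1 h3⟩
      · rintro ⟨h2, h3⟩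
        exact ⟨(hφr x).1 h2, (hne x).2 h3⟩)
    (fun x hx => hφd x hx.1)
  have hfr : ∀ y, ‖H (f y)‖ = r ∧ H (f y) ≠ r • e0 := fun y => (hf4 _).1 (mem_range_self y)
  have hA : {x : X | φ x ≤ 0} = H ⁻¹' closedBall 0 r := by
    ext x
    rw [mem_preimage, mem_closedBall_zero_iff]
    exact hφle x
  have hAc : IsCompact {x : X | φ x ≤ 0} := by
    rw [hA]
    exact hH.isCompact_preimage (isCompact_closedBall _ _)
  refine mazur φ s₀ f hφ hAc (hEmb _ hAc) ?_ hf1 hf2 hf3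
    (fun y => (hφr _).2 (hfr y).1) ?_ (fun y => hφd _ (hfr y).1) ?_ K hK ?_
  · rw [hφr, hs₀, hnr]
  · intro y h
    apply (hfr y).2
    rw [h, hs₀]
  · intro x hx hxs
    exact (hf4 x).2 ⟨(hφr x).1 hx, (hne x).2 hxs⟩
  · intro x hx
    have h1 := hM x hx
    rw [← not_le]
    intro h2
    have h3 := (hτ3 _).1 h2
    have h4 : ‖H x‖ ^ 2 ≤ M ^ 2 := pow_le_pow_left₀ (norm_nonneg _) h1 2
    nlinarith

end main

end Pool.Agent.X175.SH
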