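import Pool.Agent.X175.SH.UBd

/-!
# Regular points of maps on manifolds with boundary
-/

set_option autoImplicit false

open Set Filter Topology Metric Function MeasureTheory
open scoped Manifold ContDiff

noncomputable section

namespace Pool.Agent.X175.SH

open Pool.Agent.Y522 Pool.Agent.Y833.SH

attribute [local instance] Pool.Agent.Y833.SH.csI Pool.Agent.Y833.SH.mfI

section reg

variable {m : ℕ} {M : Type} [TopologicalSpace M] [ChartedSpace (EuclideanHalfSpace (m + 1)) M]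
  [IsManifold (𝓡∂ (m + 1)) ∞ M]

/-- charts of the interior are local diffeomorphisms -/
theorem LD_ch (x₀ : (𝓡∂ (m + 1)).interior M) (p : M) (y : (𝓡∂ (m + 1)).interior M)
    (hy : y.1 ∈ (chartAt (EuclideanHalfSpace (m + 1)) p).source) :
    LD (m + 1) (ch (𝓡∂ (m + 1)) (chartAt (EuclideanHalfSpace (m + 1)) p)
      (chart_mem_atlas _ p) x₀) y := by
  have hmem : ch (𝓡∂ (m + 1)) (chartAt (EuclideanHalfSpace (m + 1)) p)
      (chart_mem_atlas _ p) x₀ ∈ IsManifold.maximalAtlas (𝓡 (m + 1)) ∞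
        ((𝓡∂ (m + 1)).interior M) :=
    IsManifold.subset_maximalAtlas ⟨_, chart_mem_atlas _ p, x₀, rfl⟩
  exact ⟨{ toPartialEquiv := (ch (𝓡∂ (m + 1)) (chartAt (EuclideanHalfSpace (m + 1)) p)
      (chart_mem_atlas _ p) x₀).toPartialEquiv
           open_source := (ch (𝓡∂ (m + 1)) (chartAt (EuclideanHalfSpace (m + 1)) p)
      (chart_mem_atlas _ p) x₀).open_source
           open_target := (ch (𝓡∂ (m + 1)) (chartAt (EuclideanHalfSpace (m + 1)) p)
      (chart_mem_atlas _ p) x₀).open_target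
           contMDiffOn_toFun := contMDiffOn_of_mem_maximalAtlas hmem
           contMDiffOn_invFun := contMDiffOn_symm_of_mem_maximalAtlas hmem }, hy, fun _ _ => rfl⟩

/-- interior points near a regular boundary point are regular -/
theorem eventually_LD (f : M → E (m + 1)) (x : M)
    (hf : ∀ᶠ y in 𝓝 x, ContMDiffAt (𝓡∂ (m + 1)) (𝓡 (m + 1)) ∞ f y)
    (hd : Injective (mfderiv (𝓡∂ (m + 1)) (𝓡 (m + 1)) f x)) :
    ∀ᶠ y in 𝓝 x, ∀ hy : y ∈ (𝓡∂ (m + 1)).interior M,
      LD (m + 1) (fun z : (𝓡∂ (m + 1)).interior M => f z) ⟨y, hy⟩ := by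
  set I := 𝓡∂ (m + 1) with hI
  set F : E (m + 1) → E (m + 1) := f ∘ (extChartAt I x).symm with hF
  set z0 := extChartAt I x x with hz0
  have hfx := hf.self_of_nhds
  have h1 : ContDiffWithinAt ℝ ∞ F (range I) z0 := by
    have := (contMDiffAt_iff.1 hfx).2
    rw [extChartAt_model_space_eq_id] at this
    exact this
  have hU : UniqueDiffOn ℝ (range I) := I.uniqueDiffOn
  have h2 : ContDiffWithinAt ℝ 0 (fderivWithin ℝ F (range I)) (range I) z0 :=
    h1.fderivWithin_right hU (by simp) (mem_range_self _)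
  have h3 : ContinuousWithinAt (fderivWithin ℝ F (range I)) (range I) z0 := h2.continuousWithinAt
  have h4 : mfderiv I (𝓡 (m + 1)) f x = fderivWithin ℝ F (range I) z0 := by
    rw [(hfx.mdifferentiableAt (by simp)).mfderiv]
    simp only [writtenInExtChartAt, hF, extChartAt_model_space_eq_id]
    rfl
  obtain ⟨A, hA⟩ : ∃ A : E (m + 1) ≃L[ℝ] E (m + 1),
      (A : E (m + 1) →L[ℝ] E (m + 1)) = fderivWithin ℝ F (range I) z0 := by
    rw [h4] at hd
    refine ⟨(LinearEquiv.ofInjectiveEndo (fderivWithin ℝ F (range I) z0 :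
      E (m + 1) →ₗ[ℝ] E (m + 1)) hd).toContinuousLinearEquiv, ?_⟩
    ext v
    rfl
  have h5 : ∀ᶠ z in 𝓝[range I] z0, fderivWithin ℝ F (range I) z ∈
      range ((↑) : (E (m + 1) ≃L[ℝ] E (m + 1)) → E (m + 1) →L[ℝ] E (m + 1)) :=
    h3 (ContinuousLinearEquiv.isOpen.mem_nhds ⟨A, hA⟩)
  have h6 : Tendsto (extChartAt I x) (𝓝 x) (𝓝[range I] z0) := by
    refine tendsto_nhdsWithin_iff.2 ⟨continuousAt_extChartAt x, Eventually.of_forall fun y => ?_⟩
    exact mem_range_self _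
  filter_upwards [h6.eventually h5, (chartAt (EuclideanHalfSpace (m + 1)) x).open_source.mem_nhds
    (mem_chart_source _ x), hf.eventually_nhds] with y hy1 hy2 hy3 hyint
  set z := extChartAt I x y with hz
  have hzi : z ∈ interior (extChartAt I x).target :=
    (mem_int_iff I (chart_mem_atlas (EuclideanHalfSpace (m + 1)) x) hy2).1 hyint
  have hysrc : y ∈ (extChartAt I x).source := by rw [extChartAt_source]; exact hy2
  have hzr : range I ∈ 𝓝 z :=
    mem_of_superset (isOpen_interior.mem_nhds hzi)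
      (interior_subset.trans (extChartAt_target_subset_range x))
  have hzy : (extChartAt I x).symm z = y := (extChartAt I x).left_inv hysrc
  have hFz : ∀ᶠ w in 𝓝 z, ContDiffAt ℝ ∞ F w := by
    have hc : ContinuousAt (extChartAt I x).symm z :=
      (continuousOn_extChartAt_symm x).continuousAt (mem_of_superset
        (isOpen_interior.mem_nhds hzi) interior_subset)
    have hc' : ∀ᶠ w in 𝓝 z, ContMDiffAt I (𝓡 (m + 1)) ∞ f ((extChartAt I x).symm w) := by
      refine hc.eventually ?_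
      rw [hzy]
      exact hy3
    filter_upwards [hc', isOpen_interior.mem_nhds hzi] with w hw1 hw2
    have hs : ContMDiffAt (𝓡 (m + 1)) I ∞ (extChartAt I x).symm w :=
      (contMDiffOn_extChartAt_symm x).contMDiffAt (mem_of_superset
        (isOpen_interior.mem_nhds hw2) interior_subset)
    exact contMDiffAt_iff_contDiffAt.1 (hw1.comp w hs)
  obtain ⟨A', hA'⟩ := hy1
  rw [fderivWithin_of_mem_nhds hzr] at hA'
  have hder : HasFDerivAt F (A' : E (m + 1) →L[ℝ] E (m + 1)) z := by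
    have := (hFz.self_of_nhds.differentiableAt (by simp)).hasFDerivAt
    have hA'' : (A' : E (m + 1) →L[ℝ] E (m + 1)) = fderiv ℝ F z := hA'
    rw [hA'']
    exact this
  have hLD : LD (m + 1) F z := LD_of_contDiffAt hFz A' hder
  set y' : I.interior M := ⟨y, hyint⟩ with hy'
  have hch := LD_ch (m := m) y' x y' hy2
  have hcomp := LD.comp_fun (g := F) (f := ch I (chartAt (EuclideanHalfSpace (m + 1)) x)
      (chart_mem_atlas _ x) y') hLD hch
  refine hcomp.congr ?_
  have hopen : {w : I.interior M | w.1 ∈ (chartAt (EuclideanHalfSpace (m + 1)) x).source} ∈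
      𝓝 y' :=
    ((chartAt (EuclideanHalfSpace (m + 1)) x).open_source.preimage continuous_subtype_val).mem_nhds
      hy2
  filter_upwards [hopen] with w hw
  show f w = f ((extChartAt I x).symm (extChartAt I x w.1))
  rw [(extChartAt I x).left_inv (by rw [extChartAt_source]; exact hw)]

/-- maps which are local diffeomorphisms on the interior -/
theorem int_reg (g : (𝓡∂ (m + 1)).interior M → E (m + 1)) (e : M → E (m + 1)) (x : M)
    (hx : x ∈ (𝓡∂ (m + 1)).interior M) (hg : LD (m + 1) g ⟨x, hx⟩)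
    (he : ∀ᶠ y in 𝓝 x, ∀ hy : y ∈ (𝓡∂ (m + 1)).interior M, e y = g ⟨y, hy⟩) :
    ContMDiffAt (𝓡∂ (m + 1)) (𝓡 (m + 1)) ∞ e x ∧
      Bijective (mfderiv (𝓡∂ (m + 1)) (𝓡 (m + 1)) e x) := by
  set x' : (𝓡∂ (m + 1)).interior M := ⟨x, hx⟩ with hx'
  have hv := ldiff_val (𝓡∂ (m + 1)) x'
  have hloc : ∀ᶠ y in 𝓝 x, e y = g (gI (𝓡∂ (m + 1)) x' y) := by
    filter_upwards [he, (isOpen_int (𝓡∂ (m + 1))).mem_nhds hx] with y hy hyi
    have h3 : gI (𝓡∂ (m + 1)) x' y = ⟨y, hyi⟩ := dif_pos hyi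
    rw [h3]
    exact hy hyi
  have hgI : IsLocalDiffeomorphAt (𝓡∂ (m + 1)) (𝓡 (m + 1)) ∞ (gI (𝓡∂ (m + 1)) x') x := by
    refine ⟨{ toFun := gI (𝓡∂ (m + 1)) x', invFun := Subtype.val,
              source := (𝓡∂ (m + 1)).interior M, target := univ,
              map_source' := fun _ _ => mem_univ _, map_target' := fun y _ => y.2,
              left_inv' := fun y hy => ?_, right_inv' := fun y _ => ?_,
              open_source := isOpen_int (𝓡∂ (m + 1)), open_target := isOpen_univ,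
              contMDiffOn_toFun := contMDiffOn_gI (𝓡∂ (m + 1)) x',
              contMDiffOn_invFun := (contMDiff_val (𝓡∂ (m + 1))).contMDiffOn }, hx, fun _ _ => rfl⟩
    · have h3 : gI (𝓡∂ (m + 1)) x' y = ⟨y, hy⟩ := dif_pos hy
      rw [h3]
    · have h3 : gI (𝓡∂ (m + 1)) x' y.1 = ⟨y.1, y.2⟩ := dif_pos y.2
      rw [h3]
  have hgx : gI (𝓡∂ (m + 1)) x' x = x' := dif_pos hx
  have hcomp : IsLocalDiffeomorphAt (𝓡∂ (m + 1)) (𝓡 (m + 1)) ∞
      (g ∘ gI (𝓡∂ (m + 1)) x') x :=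
    IsLocalDiffeomorphAt.comp (𝓡 (m + 1)) (E (m + 1)) hgI (by rw [hgx]; exact hg)
  have heq : e =ᶠ[𝓝 x] g ∘ gI (𝓡∂ (m + 1)) x' := hloc
  refine ⟨hcomp.contMDiffAt.congr_of_eventuallyEq heq, ?_⟩
  rw [heq.mfderiv_eq]
  have h := hcomp.mfderivToContinuousLinearEquiv_coe (by simp)
  rw [← h]
  exact (hcomp.mfderivToContinuousLinearEquiv (by simp)).bijective

omit [IsManifold (𝓡∂ (m + 1)) ∞ M] in
/-- composition of a regular map with a local diffeomorphism -/
theorem comp_reg (f : M → E (m + 1)) (Φ : E (m + 1) → E (m + 1)) (e : M → E (m + 1)) (x : M)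
    (hf : ContMDiffAt (𝓡∂ (m + 1)) (𝓡 (m + 1)) ∞ f x)
    (hd : Bijective (mfderiv (𝓡∂ (m + 1)) (𝓡 (m + 1)) f x)) (hΦ : LD (m + 1) Φ (f x))
    (he : e =ᶠ[𝓝 x] fun y => Φ (f y)) :
    ContMDiffAt (𝓡∂ (m + 1)) (𝓡 (m + 1)) ∞ e x ∧
      Bijective (mfderiv (𝓡∂ (m + 1)) (𝓡 (m + 1)) e x) := by
  refine ⟨(hΦ.contMDiffAt.comp x hf).congr_of_eventuallyEq he, ?_⟩
  rw [he.mfderiv_eq]
  have h1 : mfderiv (𝓡∂ (m + 1)) (𝓡 (m + 1)) (fun y => Φ (f y)) x =
      (mfderiv (𝓡 (m + 1)) (𝓡 (m + 1)) Φ (f x)).comp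
        (mfderiv (𝓡∂ (m + 1)) (𝓡 (m + 1)) f x) :=
    mfderiv_comp x hΦ.mdifferentiableAt (hf.mdifferentiableAt (by simp))
  rw [h1]
  have h2 : Bijective (mfderiv (𝓡 (m + 1)) (𝓡 (m + 1)) Φ (f x)) := by
    have h := hΦ.mfderivToContinuousLinearEquiv_coe (by simp)
    rw [← h]
    exact (hΦ.mfderivToContinuousLinearEquiv (by simp)).bijective
  exact h2.comp hd

end reg

end Pool.Agent.X175.SH
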