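import Pool.Agent.X175.SH.Box
import Pool.Agent.X175.SH.Sard

/-!
# Parametrizations of walls
-/

set_option autoImplicit false

open Set Filter Topology Metric Function MeasureTheory
open scoped Manifold ContDiff

noncomputable section

namespace Pool.Agent.X175.SH

open Pool.Agent.Y522

/-- A parametrization of a subset `T` of `ℝ^(m+1)` by `ℝ^m`, with a smooth inverse. -/
structure Par (m : ℕ) (T : Set (E (m + 1))) (G : E m → E (m + 1)) (G' : E (m + 1) → E m) :
    Prop where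
  smooth : ContDiff ℝ ∞ G
  inv_smooth : ∀ z ∈ T, ContDiffAt ℝ ∞ G' z
  left : ∀ y, G' (G y) = y
  mem : ∀ y, G y ∈ T
  right : ∀ z ∈ T, G (G' z) = z

/-- the part of the hyperplane `y_i = c` in an open box -/
theorem wall_param {m : ℕ} (i : Fin (m + 1)) (c : ℝ) (a b : Fin (m + 1) → ℝ)
    (hab : ∀ j, a j < b j) (ha : a i < c) (hb : c < b i) :
    ∃ (G : E m → E (m + 1)) (G' : E (m + 1) → E m),
      Par m {z | z i = c ∧ z ∈ obox a b} G G' := by
  have hπ := Real.pi_pos
  set θ : Fin (m + 1) → ℝ → ℝ := fun j t => a j + (b j - a j) * (1 / 2 + Real.arctan t / Real.pi)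
    with hθ
  set θ' : Fin (m + 1) → ℝ → ℝ := fun j t =>
    Real.tan (Real.pi * ((t - a j) / (b j - a j) - 1 / 2)) with hθ'
  have hθs : ∀ j, ContDiff ℝ ∞ (θ j) := fun j =>
    contDiff_const.add (contDiff_const.mul (contDiff_const.add
      (Real.contDiff_arctan.div_const _)))
  have hθ1 : ∀ j t, a j < θ j t ∧ θ j t < b j := by
    intro j t
    have h1 := Real.neg_pi_div_two_lt_arctan t
    have h2 := Real.arctan_lt_pi_div_two t
    have h3 := hab j
    have h4 : -(1 / 2) < Real.arctan t / Real.pi := by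
      rw [lt_div_iff₀ hπ]; linarith
    have h5 : Real.arctan t / Real.pi < 1 / 2 := by
      rw [div_lt_iff₀ hπ]; linarith
    constructor
    · simp only [hθ]
      nlinarith
    · simp only [hθ]
      nlinarith
  have harg : ∀ j t, a j < t → t < b j →
      -(Real.pi / 2) < Real.pi * ((t - a j) / (b j - a j) - 1 / 2) ∧
        Real.pi * ((t - a j) / (b j - a j) - 1 / 2) < Real.pi / 2 := by
    intro j t h1 h2
    have h3 : 0 < b j - a j := sub_pos.2 (hab j)
    have h4 : 0 < (t - a j) / (b j - a j) := div_pos (by linarith) h3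
    have h5 : (t - a j) / (b j - a j) < 1 := by
      rw [div_lt_one h3]; linarith
    constructor <;> nlinarith
  have hθθ' : ∀ j t, a j < t → t < b j → θ j (θ' j t) = t := by
    intro j t h1 h2
    have h3 : b j - a j ≠ 0 := (sub_pos.2 (hab j)).ne'
    simp only [hθ, hθ']
    rw [Real.arctan_tan (harg j t h1 h2).1 (harg j t h1 h2).2]
    field_simp
    ring
  have hθ'θ : ∀ j t, θ' j (θ j t) = t := by
    intro j t
    have h3 : b j - a j ≠ 0 := (sub_pos.2 (hab j)).ne'
    simp only [hθ, hθ']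
    have h4 : Real.pi * ((a j + (b j - a j) * (1 / 2 + Real.arctan t / Real.pi) - a j) /
        (b j - a j) - 1 / 2) = Real.arctan t := by
      field_simp
      ring
    rw [h4, Real.tan_arctan]
  have hθ's : ∀ j t, a j < t → t < b j → ContDiffAt ℝ ∞ (θ' j) t := by
    intro j t h1 h2
    have h4 : ContDiffAt ℝ ∞ (fun t : ℝ => Real.pi * ((t - a j) / (b j - a j) - 1 / 2)) t := by
      fun_prop
    have h5 : ContDiffAt ℝ ∞ Real.tan (Real.pi * ((t - a j) / (b j - a j) - 1 / 2)) :=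
      Real.contDiffAt_tan.2 (Real.cos_pos_of_mem_Ioo (harg j t h1 h2)).ne'
    exact ContDiffAt.comp (g := Real.tan) t h5 h4
  refine ⟨fun y => WithLp.toLp 2 (i.insertNth c (fun j => θ (i.succAbove j) (y j))),
    fun z => WithLp.toLp 2 (fun j => θ' (i.succAbove j) (z (i.succAbove j))), ?_, ?_, ?_, ?_, ?_⟩
  · refine (contDiff_piLp 2).2 fun k => ?_
    rcases i.eq_self_or_eq_succAbove k with rfl | ⟨j, rfl⟩
    · simp only [Fin.insertNth_apply_same]
      exact contDiff_const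
    · simp only [Fin.insertNth_apply_succAbove]
      exact (hθs _).comp (by fun_prop)
  · rintro z ⟨-, hz⟩
    refine (contDiffAt_piLp 2).2 fun j => ?_
    have h1 := hz (i.succAbove j)
    exact ContDiffAt.comp (g := θ' (i.succAbove j)) z (hθ's _ _ h1.1 h1.2)
      (by fun_prop)
  · intro y
    ext j
    simp [hθ'θ]
  · intro y
    refine ⟨by simp, fun k => ?_⟩
    rcases i.eq_self_or_eq_succAbove k with rfl | ⟨j, rfl⟩
    · simp [ha, hb]
    · simp only [Fin.insertNth_apply_succAbove]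
      exact hθ1 _ _
  · rintro z ⟨hz1, hz2⟩
    ext k
    rcases i.eq_self_or_eq_succAbove k with rfl | ⟨j, rfl⟩
    · simp [hz1]
    · simp only [Fin.insertNth_apply_succAbove]
      exact hθθ' _ _ (hz2 _).1 (hz2 _).2

/-- the sphere of radius `r` without the pole `r e0` -/
theorem stereo_param {m : ℕ} (r : ℝ) (hr : 0 < r) :
    ∃ (G : E m → E (m + 1)) (G' : E (m + 1) → E m),
      Par m {z | ‖z‖ = r ∧ z ≠ r • e0} G G' := by
  set p : E (m + 1) := r • e0 with hp
  set h : ℝ := -(1 / (2 * r)) with hh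
  have hh0 : h ≠ 0 := by
    have h1 : 0 < 1 / (2 * r) := by positivity
    have h2 : h < 0 := by rw [hh]; linarith
    exact h2.ne
  have hne : ∀ y : E m, (cn h y : E (m + 1)) ≠ 0 := by
    intro y h0
    apply hh0
    have := congrArg (fun z : E (m + 1) => z 0) h0
    simpa using this
  have hcs : ContDiff ℝ ∞ (fun y : E m => (cn h y : E (m + 1))) := by
    have : (fun y : E m => (cn h y : E (m + 1))) = fun y => h • e0 + inc y := by
      funext y
      rw [cn_eq, inc_apply]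
    rw [this]
    exact contDiff_const.add (inc (m := m)).contDiff
  -- the key computation
  have hkey : ∀ w : E (m + 1), w ≠ 0 → (‖p + inv0 w‖ = r ↔ w 0 = h) := by
    intro w hw
    have hwn : 0 < ‖w‖ ^ 2 := by positivity
    have h1 : ‖p + inv0 w‖ ^ 2 = r ^ 2 + (2 * r * w 0 + 1) / ‖w‖ ^ 2 := by
      have h2 : p + inv0 w = inv0 w + r • e0 := add_comm p (inv0 w)
      rw [h2, norm_add_smul_e0, norm_inv0]
      have h3 : (inv0 w) 0 = w 0 / ‖w‖ ^ 2 := by
        simp [inv0, div_eq_inv_mul]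
      rw [h3]
      have h4 : ‖w‖ ≠ 0 := norm_ne_zero_iff.2 hw
      field_simp
      ring
    have h5 : ‖p + inv0 w‖ = r ↔ ‖p + inv0 w‖ ^ 2 = r ^ 2 := by
      rw [sq_eq_sq₀ (norm_nonneg _) hr.le]
    rw [h5, h1]
    constructor
    · intro h6
      have h7 : (2 * r * w 0 + 1) / ‖w‖ ^ 2 = 0 := by linarith
      rw [div_eq_zero_iff] at h7
      rcases h7 with h7 | h7
      · rw [hh]
        field_simp
        linarith
      · exact absurd h7 hwn.ne'
    · intro h6
      have h7 : 2 * r * w 0 + 1 = 0 := by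
        rw [h6, hh]
        field_simp
        ring
      rw [h7, zero_div, add_zero]
  refine ⟨fun y => p + inv0 (cn h y), fun z => tl (inv0 (z - p)), ?_, ?_, ?_, ?_, ?_⟩
  · refine contDiff_const.add (contDiff_iff_contDiffAt.2 fun y => ?_)
    exact ContDiffAt.comp (g := inv0) y (contDiffAt_inv0 (hne y)) hcs.contDiffAt
  · rintro z ⟨-, hz⟩
    have h1 : ContDiffAt ℝ ∞ (fun z : E (m + 1) => inv0 (z - p)) z :=
      ContDiffAt.comp (g := inv0) z (contDiffAt_inv0 (sub_ne_zero.2 hz))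
        (contDiffAt_id.sub contDiffAt_const)
    exact (tl (m := m)).contDiff.contDiffAt.comp z h1
  · intro y
    simp [inv0_inv0]
  · intro y
    refine ⟨(hkey _ (hne y)).2 (by simp), ?_⟩
    intro h1
    have h2 : inv0 (cn h y : E (m + 1)) = 0 := by
      have : p + inv0 (cn h y) = p + 0 := by rw [add_zero]; exact h1
      exact add_left_cancel this
    exact inv0_ne (hne y) h2
  · rintro z ⟨hz1, hz2⟩
    have h1 : z - p ≠ 0 := sub_ne_zero.2 hz2
    have h2 : (inv0 (z - p)) 0 = h := by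
      rw [← hkey _ (inv0_ne h1), inv0_inv0, add_sub_cancel]
      exact hz1
    show p + inv0 (cn h (tl (inv0 (z - p)))) = z
    rw [← h2, cn_tl, inv0_inv0, add_sub_cancel]

/-- The theorem to be proved by induction: a manifold with a smooth homeomorphism onto `ℝ^n` is
diffeomorphic to `ℝ^n`. -/
def SHT (n : ℕ) : Prop :=
  ∀ (X : Type) [TopologicalSpace X] [ChartedSpace (E n) X] [IsManifold (𝓡 n) ∞ X]
    (H : X ≃ₜ E n), ContMDiff (𝓡 n) (𝓡 n) ∞ H →
    Nonempty (Diffeomorph (𝓡 n) (𝓡 n) X (E n) ∞)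

/-- Level sets of regular values are diffeomorphic to `ℝ^m`. -/
theorem level_wall {m : ℕ} (hS : SHT m) {X : Type} [TopologicalSpace X]
    [ChartedSpace (E (m + 1)) X] [IsManifold (𝓡 (m + 1)) ∞ X] (H : X ≃ₜ E (m + 1))
    (hH : ContMDiff (𝓡 (m + 1)) (𝓡 (m + 1)) ∞ H) (φ : X → ℝ)
    (hφ : ContMDiff (𝓡 (m + 1)) 𝓘(ℝ, ℝ) ∞ φ) (W : Set X) (hW : IsOpen W)
    {T : Set (E (m + 1))} {G : E m → E (m + 1)} {G' : E (m + 1) → E m} (hP : Par m T G G')
    (hT : ∀ x, H x ∈ T ↔ (φ x = 0 ∧ x ∈ W))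
    (hd : ∀ x, H x ∈ T → mfderiv (𝓡 (m + 1)) 𝓘(ℝ, ℝ) φ x ≠ 0) :
    ∃ f : E m → X, Injective f ∧ ContMDiff (𝓡 m) (𝓡 (m + 1)) ∞ f ∧
      (∀ x, Injective (mfderiv (𝓡 m) (𝓡 (m + 1)) f x)) ∧ ∀ x, x ∈ range f ↔ H x ∈ T := by
  have hflat : LocFlat m {x : X | H x ∈ T} := by
    intro x hx
    have hx' : H x ∈ T := hx
    obtain ⟨e, heL, -, hee⟩ := Pool.Agent.Y641.SH.stAdapt m X φ x
      (Eventually.of_forall fun y => hφ.contMDiffAt) (hd x hx')
    refine ⟨e, heL, ?_⟩
    filter_upwards [hee, hW.mem_nhds ((hT x).1 hx').2] with y hy hyW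
    have h1 : H y ∈ T ↔ (e y) 0 = 0 := by
      rw [hT, hy, ((hT x).1 hx').1, sub_zero]
      exact ⟨fun h => h.1, fun h => ⟨h, hyW⟩⟩
    exact h1
  obtain ⟨hch, hman, hval, hvald⟩ := Pool.Agent.Y641.SH.stLevel m X {x : X | H x ∈ T} hflat
  -- the homeomorphism of the level set
  have hG'c : ContinuousOn G' T := fun z hz => (hP.inv_smooth z hz).continuousAt.continuousWithinAt
  let h : {x : X | H x ∈ T} ≃ₜ E m :=
    { toFun := fun s => G' (H s)
      invFun := fun y => ⟨H.symm (G y), by simpa using hP.mem y⟩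
      left_inv := fun s => by
        apply Subtype.ext
        show H.symm (G (G' (H s))) = s
        rw [hP.right _ s.2, H.symm_apply_apply]
      right_inv := fun y => by
        show G' (H (H.symm (G y))) = y
        rw [H.apply_symm_apply, hP.left]
      continuous_toFun := by
        refine continuous_iff_continuousAt.2 fun s => ?_
        exact ContinuousAt.comp (g := G') (hP.inv_smooth _ s.2).continuousAt
          (H.continuous.comp continuous_subtype_val).continuousAt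
      continuous_invFun := by
        refine Continuous.subtype_mk ?_ _
        exact H.symm.continuous.comp hP.smooth.continuous }
  have hh : ContMDiff (𝓡 m) (𝓡 m) ∞ h := by
    intro s
    have h1 : ContMDiffAt (𝓡 (m + 1)) (𝓡 m) ∞ G' (H (s : X)) :=
      contMDiffAt_iff_contDiffAt.2 (hP.inv_smooth _ s.2)
    have h2 : ContMDiffAt (𝓡 m) (𝓡 (m + 1)) ∞ (fun s : {x : X | H x ∈ T} => H (s : X)) s :=
      (hH.comp hval).contMDiffAt
    exact ContMDiffAt.comp (g := G') (f := fun s : {x : X | H x ∈ T} => H (s : X)) s h1 h2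
  obtain ⟨D⟩ := hS {x : X | H x ∈ T} h hh
  refine ⟨fun y => (D.symm y : X), ?_, ?_, ?_, ?_⟩
  · intro y z hyz
    exact D.symm.injective (Subtype.ext hyz)
  · exact hval.comp D.symm.contMDiff
  · intro y
    have h1 : mfderiv (𝓡 m) (𝓡 (m + 1)) (fun y => (D.symm y : X)) y =
        (mfderiv (𝓡 m) (𝓡 (m + 1)) (Subtype.val : {x : X | H x ∈ T} → X) (D.symm y)).comp
          (mfderiv (𝓡 m) (𝓡 m) D.symm y) :=
      mfderiv_comp y (hval.mdifferentiableAt (by simp))
        (D.symm.contMDiff.mdifferentiableAt (by simp))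
    rw [h1]
    refine (hvald (D.symm y)).comp ?_
    have h2 := D.symm.mfderivToContinuousLinearEquiv_coe (by simp) (x := y)
    rw [← h2]
    exact (D.symm.mfderivToContinuousLinearEquiv (by simp) y).injective
  · intro x
    constructor
    · rintro ⟨y, rfl⟩
      exact (D.symm y).2
    · intro hx
      exact ⟨D ⟨x, hx⟩, by simp⟩

/-- **The Morse-Sard theorem** on manifolds. -/
theorem sardM {n : ℕ} {X : Type} [TopologicalSpace X] [SecondCountableTopology X]
    [ChartedSpace (E n) X] [IsManifold (𝓡 n) ∞ X] (f : X → ℝ)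
    (hf : ContMDiff (𝓡 n) 𝓘(ℝ, ℝ) ∞ f) :
    volume (f '' {x | mfderiv (𝓡 n) 𝓘(ℝ, ℝ) f x = 0}) = 0 := by
  refine null_of_locally fun x _ => ⟨(chartAt (E n) x).source,
    (chartAt (E n) x).open_source.mem_nhds (mem_chart_source _ x), ?_⟩
  set c := chartAt (E n) x with hc
  have hsym : ∀ z ∈ c.target, ContMDiffAt (𝓡 n) (𝓡 n) ∞ c.symm z := by
    intro z hz
    exact (contMDiffOn_chart_symm z hz).contMDiffAt (c.open_target.mem_nhds hz)
  have h1 := sard n c.target c.open_target (fun z => f (c.symm z)) (by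
    intro z hz
    exact contMDiffAt_iff_contDiffAt.1 (hf.contMDiffAt.comp z (hsym z hz)))
  refine measure_mono_null ?_ h1
  rintro _ ⟨y, ⟨hy1, hy2⟩, rfl⟩
  refine ⟨c y, ⟨c.map_source hy2, ?_⟩, by simp [c.left_inv hy2]⟩
  have hyt := c.map_source hy2
  have h2 : mfderiv (𝓡 n) 𝓘(ℝ, ℝ) (fun z => f (c.symm z)) (c y) =
      (mfderiv (𝓡 n) 𝓘(ℝ, ℝ) f (c.symm (c y))).comp (mfderiv (𝓡 n) (𝓡 n) c.symm (c y)) :=
    mfderiv_comp (c y) (hf.mdifferentiableAt (by simp)) ((hsym _ hyt).mdifferentiableAt (by simp))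
  rw [mfderiv_eq_fderiv] at h2
  rw [h2, c.left_inv hy2]
  have h3 : mfderiv (𝓡 n) 𝓘(ℝ, ℝ) f y = 0 := hy1
  rw [h3]
  rfl

/-- regular values are dense -/
theorem dense_regular {n : ℕ} {X : Type} [TopologicalSpace X] [SecondCountableTopology X]
    [ChartedSpace (E n) X] [IsManifold (𝓡 n) ∞ X] (f : X → ℝ)
    (hf : ContMDiff (𝓡 n) 𝓘(ℝ, ℝ) ∞ f) :
    Dense {c : ℝ | ∀ x, f x = c → mfderiv (𝓡 n) 𝓘(ℝ, ℝ) f x ≠ 0} := by
  have h1 := sardM f hf
  have h2 : {c : ℝ | ∀ x, f x = c → mfderiv (𝓡 n) 𝓘(ℝ, ℝ) f x ≠ 0} =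
      (f '' {x | mfderiv (𝓡 n) 𝓘(ℝ, ℝ) f x = 0})ᶜ := by
    ext c
    constructor
    · rintro hc ⟨x, hx, hxc⟩
      exact hc x hxc hx
    · intro hc x hxc hx
      exact hc ⟨x, hx, hxc⟩
  rw [h2]
  have h3 : ∀ᵐ c : ℝ, c ∈ (f '' {x | mfderiv (𝓡 n) 𝓘(ℝ, ℝ) f x = 0})ᶜ :=
    compl_mem_ae_iff.2 h1
  exact MeasureTheory.Measure.dense_of_ae h3

end Pool.Agent.X175.SH
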